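import Pool.Agent.Lib.MP_d4c0ca_ag.Q.Atl

/-! Sections over the complement of a hyperplane. -/

set_option autoImplicit false

namespace Pool.Agent.Lib.MP_d4c0ca_ag.Q

open CategoryTheory AlgebraicGeometry Opposite TopologicalSpace Scheme.Modules
open Pool.Agent.Lib.MP_cd184e_ag.B

open MvPolynomial

variable {S σ ι : Type} [CommRing S] [Algebra ℂ S] {𝒜 : ℕ → Submodule ℂ S} [GradedAlgebra 𝒜]
  {x : σ → S} {hx : ∀ l, x l ∈ 𝒜 1} {G : CohCat (Proj 𝒜)} [Fintype ι] [Fintype σ]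

/-- dehomogenisation with respect to the linear form `ℓ` -/
structure Ev (γ : T.Gens hx G ι) (ℓ : MvPolynomial σ ℂ)
    (ev : (ι → MvPolynomial σ ℂ) →+ Γ(G.obj, lin 𝒜 x ℓ)) : Prop where
  inf : ∀ j, Proj.basicOpen 𝒜 (x j) ⊓ lin 𝒜 x ℓ = (Proj 𝒜).basicOpen (T.dehom hx j ℓ)
  const : ∀ (z : kk) f, ev (toC z • f) = cst (T.St.strMap 𝒜) (lin 𝒜 x ℓ) z • ev f
  mul : ∀ f, ev (ℓ • f) = ev f
  surj : ∀ m, ∃ d, ∃ f ∈ V σ ι d, ev f = m
  trans : ∀ d, ∀ f ∈ V σ ι d, ∀ j (W : (Proj 𝒜).Opens) (hj : W ≤ Proj.basicOpen 𝒜 (x j))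
    (hl : W ≤ lin 𝒜 x ℓ), mres G.obj hj (γ.ev j f) =
      rres hj (T.dehom hx j ℓ) ^ (d + γ.a) • mres G.obj hl (ev f)

theorem lin_appLE {Y : Scheme.{0}} {R : CommRingCat.{0}} (s : Y ⟶ Spec R) (U : Y.Opens)
    (φ : R ⟶ Γ(Y, U)) (h : U.ι ≫ s = U.toSpecΓ ≫ Spec.map φ) :
    s.appLE ⊤ U le_top = (Scheme.ΓSpecIso R).hom ≫ φ := by
  have e := Scheme.Opens.toSpecΓ_SpecMap_appLE s ⊤ U le_top
  have e2 : U.toSpecΓ ≫ Spec.map (s.appLE ⊤ U le_top) =
      U.toSpecΓ ≫ Spec.map ((Scheme.ΓSpecIso R).hom ≫ φ) := by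
    rw [e, Scheme.Opens.toSpecΓ_top, Scheme.Hom.resLE_comp_ι_assoc, ← Category.assoc, h,
      Category.assoc, Spec.map_comp, SpecMap_ΓSpecIso_hom]
  have e3 := congrArg Scheme.Hom.appTop e2
  rw [Scheme.Hom.comp_appTop, Scheme.Hom.comp_appTop, Scheme.Opens.toSpecΓ_appTop,
    Scheme.ΓSpecIso_naturality_assoc, Scheme.ΓSpecIso_naturality_assoc, cancel_epi,
    cancel_mono] at e3
  exact e3

theorem lin_cst {y : S} (hy : y ∈ 𝒜 1) (z : kk) : cst (T.St.strMap 𝒜) (Proj.basicOpen 𝒜 y) z =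
    Proj.awayToSection 𝒜 y
      (HomogeneousLocalization.fromZeroRingHom 𝒜 _ (algebraMap ℂ (𝒜 0) (toC z))) := by
  have e := Proj.awayι_toSpecZero 𝒜 y hy one_pos
  rw [← Proj.basicOpenIsoSpec_inv_ι, Category.assoc, Iso.inv_comp_eq,
    Proj.basicOpenIsoSpec_hom] at e
  have e2 := lin_appLE (T.St.strMap 𝒜) (Proj.basicOpen 𝒜 y)
    (CommRingCat.ofHom (algebraMap ℂ (𝒜 0)) ≫
      CommRingCat.ofHom (HomogeneousLocalization.fromZeroRingHom 𝒜 _) ≫ Proj.awayToSection 𝒜 y)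
    (by rw [T.St.strMap, reassoc_of% e, Proj.basicOpenToSpec, Category.assoc, Spec.map_comp,
      Spec.map_comp, Category.assoc])
  exact congr($e2 z)

omit [Fintype σ] in
theorem lin_dehom (hx : ∀ l, x l ∈ 𝒜 1) (hgen : Algebra.adjoin ℂ (Set.range x) = ⊤)
    {ℓ : MvPolynomial σ ℂ} (hℓ : ℓ.IsHomogeneous 1) :
    ∃ D : MvPolynomial σ ℂ →+* Γ(Proj 𝒜, lin 𝒜 x ℓ),
      (∀ z : kk, D (C (toC z)) = cst (T.St.strMap 𝒜) (lin 𝒜 x ℓ) z) ∧ D ℓ = 1 ∧
      Function.Surjective D ∧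
      (∀ j, Proj.basicOpen 𝒜 (x j) ⊓ lin 𝒜 x ℓ = (Proj 𝒜).basicOpen (T.dehom hx j ℓ)) ∧
      (∀ j, lin 𝒜 x ℓ ⊓ Proj.basicOpen 𝒜 (x j) = (Proj 𝒜).basicOpen (D (X j))) ∧
      ∀ (d : ℕ) (f : MvPolynomial σ ℂ), f.IsHomogeneous d → ∀ j (W : (Proj 𝒜).Opens)
        (hj : W ≤ Proj.basicOpen 𝒜 (x j)) (hl : W ≤ lin 𝒜 x ℓ),
        rres hj (T.dehom hx j f) = rres hj (T.dehom hx j ℓ) ^ d * rres hl (D f) := by
  let x' : Option σ → S := fun o => o.elim (aeval x ℓ) x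
  have hx' : ∀ o, x' o ∈ 𝒜 1 := fun o => by
    cases o
    · exact T.aeval_mem hx hℓ
    · exact hx _
  have hgen' : Algebra.adjoin ℂ (Set.range x') = ⊤ :=
    top_le_iff.1 (hgen.ge.trans (Algebra.adjoin_mono (by
      rintro _ ⟨l, rfl⟩
      exact ⟨some l, rfl⟩)))
  have e1 : ∀ j f, T.dehom hx' (some j) (rename some f) = T.dehom hx j f := fun j f =>
    RingHom.congr_fun (show (T.dehom hx' (some j)).comp (rename some).toRingHom = T.dehom hx j from
      ringHom_ext (fun c => by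
        change T.dehom hx' (some j) (rename some (C c)) = _
        rw [rename_C]
        exact (T.dehom_C (hx := hx') (some j) c).trans (T.dehom_C (hx := hx) j c).symm) fun l => by
        change T.dehom hx' (some j) (rename some (X l)) = _
        rw [rename_X]
        exact (T.dehom_X (hx := hx') (some j) (some l)).trans (T.dehom_X (hx := hx) j l).symm) f
  have e2 : ∀ j, T.dehom hx' (some j) (X none) = T.dehom hx j ℓ := fun j =>
    (T.dehom_X (hx := hx') (some j) none).trans (T.dehom_homog (hx := hx) j hℓ).symm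
  have e3 : T.dehom hx' none (rename some ℓ) = 1 := by
    rw [← T.dehom_self (hx := hx') none, T.dehom_X,
      T.dehom_homog (hx := hx') none hℓ.rename_isHomogeneous]
    congr 2
    exact aeval_rename ..
  refine ⟨(T.dehom hx' none).comp (rename some).toRingHom, fun z => ?_, e3, fun s => ?_,
    fun j => ?_, fun j => ?_, fun d f hf j W hj hl => ?_⟩
  · change T.dehom hx' none (rename some (C (toC z))) = _
    rw [rename_C]
    exact (T.dehom_C (hx := hx') none _).trans (lin_cst (hx' none) z).symm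
  · obtain ⟨p, rfl⟩ := T.dehom_surj (hx := hx') hgen' none s
    refine ⟨aeval (fun o : Option σ => o.elim ℓ X) p, RingHom.congr_fun (show
      ((T.dehom hx' none).comp (rename some).toRingHom).comp
        (aeval (fun o : Option σ => o.elim ℓ X)).toRingHom = T.dehom hx' none from
      ringHom_ext (fun c => ?_) fun o => ?_) p⟩
    · change T.dehom hx' none (rename some (aeval _ (C c))) = _
      rw [aeval_C, algebraMap_eq, rename_C]
    · change T.dehom hx' none (rename some (aeval _ (X o))) = _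
      rw [aeval_X]
      cases o
      · exact e3.trans (T.dehom_self (hx := hx') none).symm
      · exact congrArg _ (rename_X _ _)
  · exact (T.chart_inf (hx := hx') (some j) none).trans (congrArg _ (e2 j))
  · exact (T.chart_inf (hx := hx') none (some j)).trans
      (congrArg _ (congrArg _ (rename_X _ _).symm))
  · have := T.dehom_trans (hx := hx') (hf.rename_isHomogeneous (f := some)) (some j) none hj hl
    rw [e1, e2] at this
    exact this

theorem lin_pt {Y : Scheme.{0}} {U : Y.Opens} (hU : IsAffineOpen U) (p : Spec Γ(Y, U))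
    (a : Γ(Y, U)) (h : hU.fromSpec p ∈ Y.basicOpen a) : a ∉ p.asIdeal := by
  have : p ∈ hU.fromSpec ⁻¹ᵁ Y.basicOpen a := h
  rw [hU.fromSpec_preimage_basicOpen] at this
  exact this

theorem exists_ev (hgen : Algebra.adjoin ℂ (Set.range x) = ⊤) (γ : T.Gens hx G ι)
    {ℓ : MvPolynomial σ ℂ} (hℓ : ℓ.IsHomogeneous 1) : ∃ ev, Ev γ ℓ ev := by
  obtain ⟨D, hC, h1, hs, i1, i2, tr⟩ := lin_dehom hx hgen hℓ
  have un : ∀ j (W : (Proj 𝒜).Opens) (hj : W ≤ Proj.basicOpen 𝒜 (x j)) (hl : W ≤ lin 𝒜 x ℓ),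
      rres hj (T.dehom hx j ℓ) * rres hl (D (X j)) = 1 := fun j W hj hl => by
    have := tr 1 _ (isHomogeneous_X ℂ j) j W hj hl
    rw [T.dehom_self, map_one, pow_one] at this
    exact this.symm
  have cov : ∀ y ∈ lin 𝒜 x ℓ, ∃ j, y ∈ lin 𝒜 x ℓ ⊓ Proj.basicOpen 𝒜 (x j) := fun y hy => by
    obtain ⟨j, hj⟩ : ∃ j, y ∈ Proj.basicOpen 𝒜 (x j) :=
      Opens.mem_iSup.1 (by rw [T.chart_cover hx hgen]; trivial)
    exact ⟨j, hy, hj⟩
  have glue : ∀ i, ∃ t : Γ(G.obj, lin 𝒜 x ℓ), ∀ j, mres G.obj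
      (inf_le_left : lin 𝒜 x ℓ ⊓ Proj.basicOpen 𝒜 (x j) ≤ _) t =
        rres inf_le_left (D (X j)) ^ γ.a • mres G.obj inf_le_right (γ.g i j) := fun i =>
    sec_glue G.obj (fun j => lin 𝒜 x ℓ ⊓ Proj.basicOpen 𝒜 (x j)) (fun _ => inf_le_left)
      (fun y hy => Opens.mem_iSup.2 (cov y hy))
      (fun j => rres inf_le_left (D (X j)) ^ γ.a • mres G.obj inf_le_right (γ.g i j))
      fun j l => by
        have hl : (lin 𝒜 x ℓ ⊓ Proj.basicOpen 𝒜 (x j)) ⊓ (lin 𝒜 x ℓ ⊓ Proj.basicOpen 𝒜 (x l)) ≤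
            lin 𝒜 x ℓ := inf_le_left.trans inf_le_left
        rw [mres_smul, mres_smul, map_pow, map_pow, rres_rres, rres_rres, mres_mres, mres_mres,
          γ.compat i j l _ _ (inf_le_right.trans inf_le_right), ← mul_smul, map_pow, map_pow,
          tr 1 _ (isHomogeneous_X ℂ l) j _ _ hl, pow_one, ← mul_pow, ← mul_assoc,
          mul_comm (rres _ (D (X j))), un j _ _ hl, one_mul]
  choose g hg using glue
  have hg' : ∀ i j (W : (Proj 𝒜).Opens) (hj : W ≤ Proj.basicOpen 𝒜 (x j)) (hl : W ≤ lin 𝒜 x ℓ),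
      mres G.obj hj (γ.g i j) = rres hj (T.dehom hx j ℓ) ^ γ.a • mres G.obj hl (g i) :=
    fun i j W hj hl => by
      have := congrArg (mres G.obj (le_inf hl hj)) (hg i j)
      rw [mres_mres, mres_smul, map_pow, rres_rres, mres_mres] at this
      rw [this, ← mul_smul, ← mul_pow, un j W hj hl, one_pow, one_smul]
  let ev : (ι → MvPolynomial σ ℂ) →+ Γ(G.obj, lin 𝒜 x ℓ) :=
    { toFun := fun f => ∑ i, D (f i) • g i
      map_zero' := by simp
      map_add' := fun f f' => by simp [add_smul, Finset.sum_add_distrib] }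
  have ed : ∀ f, ev f = ∑ i, D (f i) • g i := fun _ => rfl
  have es : ∀ (p : MvPolynomial σ ℂ) f, ev (p • f) = D p • ev f := fun p f => by
    simp only [ed, Pi.smul_apply, smul_eq_mul, map_mul, mul_smul, Finset.smul_sum]
  have aL : IsAffineOpen (lin 𝒜 x ℓ) :=
    Proj.isAffineOpen_basicOpen _ _ (T.aeval_mem hx hℓ) one_pos
  have sp : ∀ m, m ∈ Submodule.span Γ(Proj 𝒜, lin 𝒜 x ℓ) (Set.range g) := fun m => by
    have key : ∀ j, ∃ N : ℕ, D (X j) ^ N • m ∈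
        Submodule.span Γ(Proj 𝒜, lin 𝒜 x ℓ) (Set.range g) := fun j => by
      refine T.ss_loc aL (T.so_locAt G aL) _ inf_le_left (i2 j) _ ?_
      have e : lin 𝒜 x ℓ ⊓ Proj.basicOpen 𝒜 (x j) = (Proj 𝒜).basicOpen (T.dehom hx j ℓ) :=
        (inf_comm _ _).trans (i1 j)
      obtain ⟨k, t, ht⟩ := (T.so_locAt G (T.chart_aff hx j)).ex _ _ inf_le_right e
        (mres G.obj inf_le_left m)
      have h2 : mres G.obj (inf_le_left : lin 𝒜 x ℓ ⊓ Proj.basicOpen 𝒜 (x j) ≤ _) m =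
          rres (inf_le_left : lin 𝒜 x ℓ ⊓ Proj.basicOpen 𝒜 (x j) ≤ _) (D (X j)) ^ k •
            mres G.obj (inf_le_right : lin 𝒜 x ℓ ⊓ Proj.basicOpen 𝒜 (x j) ≤ _) t := by
        rw [ht, ← mul_smul, ← mul_pow, mul_comm, un, one_pow, one_smul]
      rw [h2]
      refine Submodule.smul_mem _ _ ?_
      obtain ⟨f, rfl⟩ := γ.ev_surj hgen j t
      rw [γ.ev_def, map_sum]
      refine sum_mem fun i _ => ?_
      rw [mres_smul, hg' i j _ _ inf_le_left]
      exact Submodule.smul_mem _ _ (Submodule.smul_mem _ _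
        (Submodule.subset_span ⟨_, Submodule.subset_span ⟨i, rfl⟩, rfl⟩))
    have : (Submodule.span Γ(Proj 𝒜, lin 𝒜 x ℓ) (Set.range g)).comap
        (LinearMap.toSpanSingleton Γ(Proj 𝒜, lin 𝒜 x ℓ) _ m) = ⊤ := by
      by_contra hne
      obtain ⟨p, hp, hle⟩ := Ideal.exists_le_maximal _ hne
      let q : Spec Γ(Proj 𝒜, lin 𝒜 x ℓ) := ⟨p, hp.isPrime⟩
      have hy : aL.fromSpec q ∈ (lin 𝒜 x ℓ : Set (Proj 𝒜)) :=
        aL.range_fromSpec ▸ Set.mem_range_self q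
      obtain ⟨j, hj⟩ := cov _ hy
      obtain ⟨N, hN⟩ := key j
      exact lin_pt aL q _ (i2 j ▸ hj) (hp.isPrime.mem_of_pow_mem N (hle hN))
    have h3 : (1 : Γ(Proj 𝒜, lin 𝒜 x ℓ)) ∈ (Submodule.span Γ(Proj 𝒜, lin 𝒜 x ℓ)
        (Set.range g)).comap (LinearMap.toSpanSingleton Γ(Proj 𝒜, lin 𝒜 x ℓ) _ m) := by
      rw [this]
      trivial
    exact one_smul Γ(Proj 𝒜, lin 𝒜 x ℓ) m ▸ h3
  refine ⟨ev, i1, fun z f => ?_, fun f => by rw [es, h1, one_smul], fun m => ?_,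
    fun d f hf j W hj hl => ?_⟩
  · rw [← hC, ← es]
    exact congrArg _ (funext fun i => smul_eq_C_mul _ _)
  · obtain ⟨c, rfl⟩ := (Submodule.mem_span_range_iff_exists_fun _).1 (sp m)
    choose f hf using fun i => hs (c i)
    obtain ⟨d, -, h2⟩ := sum_hc f
    refine ⟨d, ∑ e ∈ Finset.range d, ℓ ^ (d - e) • hc e f, sum_mem fun e he => ?_, ?_⟩
    · have := smul_mem_V (hℓ.pow (d - e)) (hc_mem e f)
      rwa [one_mul, Nat.sub_add_cancel (by simp at he; omega)] at this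
    · simp only [map_sum, es, map_pow, h1, one_pow, one_smul]
      rw [← map_sum, h2, ed]
      simp only [hf]
  · rw [γ.ev_def, ed, map_sum, map_sum, Finset.smul_sum]
    refine Finset.sum_congr rfl fun i _ => ?_
    rw [mres_smul, mres_smul, tr d _ (mem_V.1 hf i) j W hj hl, hg' i j W hj hl, ← mul_smul,
      ← mul_smul, pow_add, mul_right_comm]

end Pool.Agent.Lib.MP_d4c0ca_ag.Q
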