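import Pool.Agent.Lib.MP_d4c0ca_ag.Q.Sec

/-! Inverse images of quasi-coherent modules over affine open sets. -/

set_option autoImplicit false

namespace Pool.Agent.Lib.MP_d4c0ca_ag.Q

open CategoryTheory AlgebraicGeometry Opposite TopologicalSpace Scheme.Modules
open Pool.Agent.Lib.MP_cd184e_ag.B

variable {Y Y' : Scheme.{0}} (g : Y' ⟶ Y) {M : Y.Modules} {W : Y.Opens} {W' : Y'.Opens}

theorem PB_conc_push (h : W' ≤ g ⁻¹ᵁ W) {P : Y'.Modules} (hP : Conc P W') :
    Conc ((pushforward g).obj P) (iSup fun _ : Unit => W) := by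
  refine Conc.mono (W := W) (fun V => ?_) (le_iSup (fun _ : Unit => W) ())
  exact hP.bij (V := g ⁻¹ᵁ V) (V' := g ⁻¹ᵁ (V ⊓ W)) (g.preimage_mono inf_le_left)
    (fun x hx => ⟨hx.1, h hx.2⟩)

theorem PB_ext (hW : IsAffineOpen W) (h : W' ≤ g ⁻¹ᵁ W) (hM : LocAt M W) {P : Y'.Modules}
    (hP : Conc P W') {α β : (pullback g).obj M ⟶ P}
    (H : ∀ s, α.app W' (pb g M h s) = β.app W' (pb g M h s)) : α = β := by
  refine ((pullbackPushforwardAdjunction g).homEquiv M P).injective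
    (hom_ext_of_loc (fun _ : Unit => W) (fun _ => hW) (fun _ => hM) (PB_conc_push g h hP) _ _
      fun _ s => ?_)
  refine (homEquiv_app g α s).trans (Eq.trans ?_ (homEquiv_app g β s).symm)
  refine (hP.bij h inf_le_right).1 ?_
  rw [mres_app, mres_app, mres_pb]
  exact H s

theorem PB_hom (hW : IsAffineOpen W) (h : W' ≤ g ⁻¹ᵁ W) (hM : LocAt M W) {P : Y'.Modules}
    (hP : Conc P W') (φ : Γ(M, W) →+ Γ(P, W')) (hφ : ∀ a s, φ (a • s) = ap g h a • φ s) :
    ∃ α : (pullback g).obj M ⟶ P, ∀ s, α.app W' (pb g M h s) = φ s := by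
  have hb := hP.bij h inf_le_right
  choose χ hχ using fun s => hb.2 (φ s)
  let χ' : Γ(M, W) →ₗ[Γ(Y, W)] Γ((pushforward g).obj P, W) :=
    { toFun := χ
      map_add' := fun s t => hb.1 (by
        rw [hχ, map_add, ← hχ, ← hχ]
        exact (map_add (mres P h) (χ s) (χ t)).symm)
      map_smul' := fun a s => hb.1 (by
        rw [hχ, hφ, ← hχ]
        exact (mres_smul P h (g.app W a) (χ s)).symm) }
  obtain ⟨ψ, hψ⟩ := exists_hom (U := fun _ : Unit => W) (φ := fun _ => χ') (fun _ => hW)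
    (fun _ => hM) (PB_conc_push g h hP) (fun _ _ => ⟨(), le_rfl, le_rfl, inf_le_left,
      fun m => by rw [mres_self, mres_self], fun m => by rw [mres_self, mres_self]⟩)
  refine ⟨((pullbackPushforwardAdjunction g).homEquiv M P).symm ψ, fun s => ?_⟩
  have e := homEquiv_app g (((pullbackPushforwardAdjunction g).homEquiv M P).symm ψ) s
  rw [Equiv.apply_symm_apply] at e
  rw [← mres_pb g le_rfl h, ← mres_app, ← e, ← hχ]
  exact congrArg (mres P h) (hψ () s)

theorem PB_conc (W' : Y'.Opens) : ∃ (T : Y'.Modules ⥤ Y'.Modules) (η : 𝟭 _ ⟶ T),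
    (∀ F, Conc (T.obj F) W') ∧
      ∀ F : Y'.Modules, ∀ V ≤ W', Function.Bijective ((η.app F).app V) := by
  refine ⟨_, (restrictAdjunction W'.ι).unit, fun F V => ?_, fun F V hV => ?_⟩
  · refine bijective_mres_of_eq (F.restrict W'.ι) (V := W'.ι ⁻¹ᵁ V) (W := W'.ι ⁻¹ᵁ (V ⊓ W'))
      (W'.ι.preimage_mono inf_le_left) ?_
    rw [Scheme.Hom.preimage_inf, Scheme.Opens.ι_preimage_self, inf_top_eq]
  · refine bijective_mres_of_eq F (W'.ι.image_preimage_le V) ?_
    rw [Scheme.Hom.image_preimage_eq_opensRange_inf, Scheme.Opens.opensRange_ι, inf_eq_right]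
    exact hV

theorem PB_locAt_of_bij {F P : Y'.Modules} (α : F ⟶ P)
    (hα : ∀ V ≤ W', Function.Bijective (α.app V)) (hP : LocAt P W') : LocAt F W' := by
  refine ⟨fun f V hV e s => ?_, fun f V hV e t ht => ?_⟩
  · obtain ⟨n, t, ht⟩ := hP.ex f V hV e (α.app V s)
    obtain ⟨t, rfl⟩ := (hα W' le_rfl).2 t
    refine ⟨n, t, (hα V hV).1 ?_⟩
    rw [← mres_app, ht, Scheme.Modules.Hom.app_smul]
  · obtain ⟨n, hn⟩ := hP.un f V hV e (α.app W' t) (by rw [mres_app, ht, map_zero])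
    refine ⟨n, (hα W' le_rfl).1 ?_⟩
    rw [Scheme.Modules.Hom.app_smul, hn, map_zero]

theorem PB_main (hW : IsAffineOpen W) (hW' : IsAffineOpen W') (h : W' ≤ g ⁻¹ᵁ W)
    (hM : LocAt M W) : LocAt ((pullback g).obj M) W' ∧
      Submodule.span Γ(Y', W') (Set.range (pb g M h)) = ⊤ := by
  let F := (pullback g).obj M
  let N := Submodule.span Γ(Y', W') (Set.range (pb g M h))
  obtain ⟨P, ⟨e⟩, hL, hC⟩ := exists_push hW' N
  obtain ⟨T, η, hT, hη⟩ := PB_conc W'
  have hmem : ∀ s, pb g M h s ∈ N := fun s => Submodule.subset_span ⟨s, rfl⟩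
  obtain ⟨α, hα⟩ := PB_hom g hW h hM hC
    (e.toLinearMap.toAddMonoidHom.comp ((pb g M h).codRestrict N.toAddSubgroup hmem))
    (fun a s => (congrArg e (Subtype.ext (pb_smul g h a s))).trans (e.map_smul _ ⟨_, hmem s⟩))
  have hα' : ∀ (x : Γ(F, W')) (hx : x ∈ N), α.app W' x = e ⟨x, hx⟩ := by
    intro x hx
    induction hx using Submodule.span_induction with
    | mem x hx =>
      obtain ⟨s, rfl⟩ := hx
      exact hα s
    | zero => exact (map_zero _).trans e.map_zero.symm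
    | add x y hx hy ex ey =>
      rw [map_add, ex, ey]
      exact (e.map_add _ _).symm
    | smul r x hx ex =>
      rw [Scheme.Modules.Hom.app_smul, ex]
      exact (e.map_smul _ _).symm
  let φ : Γ(P, W') →ₗ[Γ(Y', W')] Γ(T.obj F, W') :=
    { toFun := fun y => (η.app F).app W' (e.symm y).1
      map_add' := fun y z => by rw [map_add, Submodule.coe_add, map_add]
      map_smul' := fun r y => by
        rw [e.symm.map_smul, Submodule.coe_smul]
        exact Scheme.Modules.Hom.app_smul _ _ _ }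
  have hI : ∀ {Z : Y'.Modules}, Conc Z W' → Conc Z (iSup fun _ : Unit => W') :=
    fun hZ => hZ.mono (le_iSup (fun _ : Unit => W') ())
  obtain ⟨β, hβ⟩ := exists_hom (U := fun _ : Unit => W') (φ := fun _ => φ) (fun _ => hW')
    (fun _ => hL) (hI (hT F)) (fun _ _ => ⟨(), le_rfl, le_rfl, inf_le_left,
      fun m => by rw [mres_self, mres_self], fun m => by rw [mres_self, mres_self]⟩)
  have nat : ∀ (V : Y'.Opens) (x : Γ(F, V)), (T.map α).app V ((η.app F).app V x) =
      (η.app P).app V (α.app V x) := fun V x => congr(($(η.naturality α)).app V x).symm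
  have e1 : α ≫ β = η.app F := PB_ext g hW h hM (hT F) fun s => by
    refine (congrArg (β.app W') (hα' _ (hmem s))).trans ((hβ () _).trans ?_)
    exact congrArg (fun z : N => (η.app F).app W' z.1) (e.symm_apply_apply _)
  have e2 : β ≫ T.map α = η.app P := hom_ext_of_loc (fun _ : Unit => W') (fun _ => hW')
    (fun _ => hL) (hI (hT P)) _ _ fun _ y => by
      refine (congrArg ((T.map α).app W') (hβ () y)).trans ((nat W' _).trans ?_)
      exact congrArg ((η.app P).app W') ((hα' _ (e.symm y).2).trans (e.apply_symm_apply y))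
  have bij : ∀ V ≤ W', Function.Bijective (α.app V) := fun V hV => by
    refine ⟨fun x y exy => (hη F V hV).1 ?_, fun y => ?_⟩
    · rw [← e1]
      exact congrArg (β.app V) exy
    · obtain ⟨x, hx⟩ := (hη F V hV).2 (β.app V y)
      refine ⟨x, (hη P V hV).1 ((nat V x).symm.trans ?_)⟩
      rw [hx, ← e2]
      rfl
  refine ⟨PB_locAt_of_bij α bij hL, eq_top_iff.2 fun x _ => ?_⟩
  have : x = (e.symm (α.app W' x)).1 :=
    (bij W' le_rfl).1 ((hα' _ (e.symm _).2).trans (e.apply_symm_apply _)).symm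
  rw [this]
  exact (e.symm _).2

theorem locAt_pb (hW : IsAffineOpen W) (hW' : IsAffineOpen W') (h : W' ≤ g ⁻¹ᵁ W)
    (hM : LocAt M W) : LocAt ((pullback g).obj M) W' := (PB_main g hW hW' h hM).1

theorem pb_lift (hW : IsAffineOpen W) (hW' : IsAffineOpen W') (h : W' ≤ g ⁻¹ᵁ W)
    (hM : LocAt M W) {N : Type} [AddCommGroup N] [Module Γ(Y', W') N] (φ : Γ(M, W) →+ N)
    (hφ : ∀ a s, φ (a • s) = ap g h a • φ s) :
    ∃ ψ : Γ((pullback g).obj M, W') →ₗ[Γ(Y', W')] N, ∀ s, ψ (pb g M h s) = φ s := by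
  obtain ⟨P, ⟨e⟩, -, hC⟩ := exists_push hW' N
  obtain ⟨α, hα⟩ := PB_hom g hW h hM hC (e.toLinearMap.toAddMonoidHom.comp φ)
    (fun a s => (congrArg e (hφ a s)).trans (e.map_smul _ _))
  refine ⟨⟨⟨fun x => e.symm (α.app W' x), fun x y => by rw [map_add, map_add]⟩, fun r x => ?_⟩,
    fun s => (congrArg e.symm (hα s)).trans (e.symm_apply_apply _)⟩
  exact (congrArg e.symm (Scheme.Modules.Hom.app_smul _ _ _)).trans (e.symm.map_smul _ _)

theorem pb_span (hW : IsAffineOpen W) (hW' : IsAffineOpen W') (h : W' ≤ g ⁻¹ᵁ W)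
    (hM : LocAt M W) : Submodule.span Γ(Y', W') (Set.range (pb g M h)) = ⊤ :=
  (PB_main g hW hW' h hM).2

theorem fp_pb [IsLocallyNoetherian Y'] (hM : M.IsFinitePresentation) :
    ((pullback g).obj M).IsFinitePresentation := by
  let ι : Type := {p : Y.affineOpens × Y'.affineOpens // p.2.1 ≤ g ⁻¹ᵁ p.1.1}
  refine fp_of_cover _ (fun p : ι => p.1.2.1) (fun p => p.1.2.2) (eq_top_iff.2 fun y _ => ?_)
    (fun p => IsLocallyNoetherian.component_noetherian p.1.2)
    (fun p => locAt_pb g p.1.1.2 p.1.2.2 p.2 (locAt_of_fp hM p.1.1.2)) fun p => ?_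
  · obtain ⟨_, ⟨U, hU, rfl⟩, hy, -⟩ := Y.isBasis_affineOpens.exists_subset_of_mem_open
      (Set.mem_univ (g y)) isOpen_univ
    obtain ⟨_, ⟨U', hU', rfl⟩, hy', hle⟩ := Y'.isBasis_affineOpens.exists_subset_of_mem_open
      (show y ∈ g ⁻¹ᵁ U from hy) (g ⁻¹ᵁ U).2
    exact Opens.mem_iSup.2 ⟨⟨(⟨U, hU⟩, ⟨U', hU'⟩), hle⟩, hy'⟩
  · classical
    obtain ⟨S, hS⟩ := (finite_of_fp M p.1.1.2).fg_top
    refine ⟨⟨S.image (pb g M p.2), eq_top_iff.2 ?_⟩⟩
    rw [← pb_span g p.1.1.2 p.1.2.2 p.2 (locAt_of_fp hM p.1.1.2), Submodule.span_le]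
    rintro _ ⟨s, rfl⟩
    have hs : s ∈ Submodule.span Γ(Y, p.1.1.1) (S : Set Γ(M, p.1.1.1)) := by rw [hS]; trivial
    induction hs using Submodule.span_induction with
    | mem x hx => exact Submodule.subset_span (by simpa using ⟨x, hx, rfl⟩)
    | zero => rw [map_zero]; exact zero_mem _
    | add x y _ _ ex ey => rw [map_add]; exact add_mem ex ey
    | smul r x _ ex => rw [pb_smul]; exact Submodule.smul_mem _ _ ex

end Pool.Agent.Lib.MP_d4c0ca_ag.Q
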