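import Mathlib

/-! Coordinates of free quotients of a module: the algebra behind the charts of the Quot scheme. -/

set_option autoImplicit false

namespace Pool.Agent.Lib.MP_d4c0ca_ag.Q

open Matrix

variable {k A M R A' M' R' : Type} [CommRing k] [CommRing A] [AddCommGroup M] [Module A M]
  [CommRing R] [CommRing A'] [AddCommGroup M'] [Module A' M'] [CommRing R'] {n : ℕ}

/-- `c β m` are the coordinates of the class of `m` in the basis `β` of a quotient of `R ⊗ M` by an
`R ⊗ A` submodule, for every `β` in `B` -/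
structure Coord (κ : k →+* A) (ν : k →+* R) (B : Set (Fin n → M))
    (c : (Fin n → M) → M → Fin n → R) : Prop where
  add : ∀ β ∈ B, ∀ m m' i, c β (m + m') i = c β m i + c β m' i
  const : ∀ β ∈ B, ∀ z m i, c β (κ z • m) i = ν z * c β m i
  bas : ∀ β ∈ B, ∀ j i, c β (β j) i = if i = j then 1 else 0
  mul : ∀ β ∈ B, ∀ β' ∈ B, ∀ (a : A) m i, c β' (a • m) i = ∑ j, c β m j * c β' (a • β j) i

/-- universal coordinates -/
structure IsUniv (κ : k →+* A) (ν : k →+* R) (B : Set (Fin n → M))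
    (u : (Fin n → M) → M → Fin n → R) : Prop where
  coord : Coord κ ν B u
  lift : ∀ (R' : Type) [CommRing R'] (ν' : k →+* R') (c : (Fin n → M) → M → Fin n → R'),
    Coord κ ν' B c → ∃ φ : R →+* R', (∀ z, φ (ν z) = ν' z) ∧ ∀ β ∈ B, ∀ m i, φ (u β m i) = c β m i
  gen : ∀ S : Subring R, (∀ z, ν z ∈ S) → (∀ β ∈ B, ∀ m i, u β m i ∈ S) → S = ⊤

/-- `A'` and `M'` are obtained from `A` and `M` by inverting `h` -/
structure LocData (h : A) (r : A →+* A') (s : M →+ M') : Prop where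
  smul : ∀ a m, s (a • m) = r a • s m
  unit : IsUnit (r h)
  surjA : ∀ a', ∃ (N : ℕ) (a : A), r a = r h ^ N * a'
  surjM : ∀ m', ∃ (N : ℕ) (m : M), s m = r h ^ N • m'
  injM : ∀ m, s m = 0 → ∃ N : ℕ, h ^ N • m = 0

variable {κ : k →+* A} {ν : k →+* R} {B : Set (Fin n → M)} {c : (Fin n → M) → M → Fin n → R}
  {β β' : Fin n → M}

theorem Coord.zero (H : Coord κ ν B c) (hβ : β ∈ B) (i : Fin n) : c β 0 i = 0 := by
  have := H.add β hβ 0 0 i
  rwa [add_zero, left_eq_add] at this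

/-- the matrix of the multiplication by `a` -/
def Coord.mu (H : Coord κ ν B c) (hβ : β ∈ B) : A →+* Matrix (Fin n) (Fin n) R where
  toFun a := Matrix.of fun i j => c β (a • β j) i
  map_one' := by
    ext i j
    simp [H.bas β hβ, Matrix.one_apply]
  map_mul' a b := by
    ext i j
    simp only [Matrix.of_apply, Matrix.mul_apply, mul_smul]
    rw [H.mul β hβ β hβ]
    exact Finset.sum_congr rfl fun _ _ => mul_comm _ _
  map_zero' := by
    ext i j
    simp [H.zero hβ]
  map_add' a b := by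
    ext i j
    simp [add_smul, H.add β hβ]

theorem Coord.mu_apply (H : Coord κ ν B c) (hβ : β ∈ B) (a : A) (i j : Fin n) :
    H.mu hβ a i j = c β (a • β j) i := rfl

theorem Coord.mu_const (H : Coord κ ν B c) (hβ : β ∈ B) (z : k) :
    H.mu hβ (κ z) = Matrix.scalar (Fin n) (ν z) := by
  ext i j
  simp [H.mu_apply, H.const β hβ, H.bas β hβ, Matrix.diagonal_apply]

theorem Coord.smul_eq (H : Coord κ ν B c) (hβ : β ∈ B) (a : A) (m : M) :
    c β (a • m) = H.mu hβ a *ᵥ c β m := by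
  ext i
  rw [H.mul β hβ β hβ]
  exact Finset.sum_congr rfl fun _ _ => mul_comm _ _

/-- the matrix of the change of basis -/
def trm (c : (Fin n → M) → M → Fin n → R) (β β' : Fin n → M) : Matrix (Fin n) (Fin n) R :=
  Matrix.of fun i j => c β' (β j) i

theorem Coord.trm_mulVec (H : Coord κ ν B c) (hβ : β ∈ B) (hβ' : β' ∈ B) (m : M) :
    c β' m = trm c β β' *ᵥ c β m := by
  ext i
  have := H.mul β hβ β' hβ' 1 m i
  simp only [one_smul] at this
  rw [this]
  exact Finset.sum_congr rfl fun _ _ => mul_comm _ _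

theorem Coord.trm_mul (H : Coord κ ν B c) (hβ : β ∈ B) (hβ' : β' ∈ B) :
    trm c β' β * trm c β β' = 1 := by
  ext i j
  have := congrFun (H.trm_mulVec hβ' hβ (β j)) i
  rw [H.bas β hβ] at this
  rw [Matrix.one_apply, this]
  rfl

theorem Coord.map (H : Coord κ ν B c) (φ : R →+* R') {ν' : k →+* R'} (h : ∀ z, φ (ν z) = ν' z) :
    Coord κ ν' B fun β m i => φ (c β m i) where
  add β hβ m m' i := by rw [H.add β hβ, map_add]
  const β hβ z m i := by rw [H.const β hβ, map_mul, h]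
  bas β hβ j i := by rw [H.bas β hβ]; split_ifs <;> simp
  mul β hβ β' hβ' a m i := by simp only [H.mul β hβ β' hβ' a m i, map_sum, map_mul]

theorem Coord.mono (H : Coord κ ν B c) {B' : Set (Fin n → M)} (h : B' ⊆ B) : Coord κ ν B' c :=
  ⟨fun β hβ => H.add β (h hβ), fun β hβ => H.const β (h hβ), fun β hβ => H.bas β (h hβ),
    fun β hβ β' hβ' => H.mul β (h hβ) β' (h hβ')⟩

theorem Coord.congr (H : Coord κ ν B c) {c' : (Fin n → M) → M → Fin n → R}
    (h : ∀ β ∈ B, c' β = c β) : Coord κ ν B c' :=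
  ⟨fun β hβ => h β hβ ▸ H.add β hβ, fun β hβ => h β hβ ▸ H.const β hβ,
    fun β hβ => h β hβ ▸ H.bas β hβ, fun β hβ β' hβ' => by
      rw [h β hβ, h β' hβ']; exact H.mul β hβ β' hβ'⟩

theorem Coord.res {κ' : k →+* A'} {B' : Set (Fin n → M')} {c' : (Fin n → M') → M' → Fin n → R}
    (H : Coord κ' ν B' c') (r : A →+* A') (s : M →+ M') (hr : ∀ z, r (κ z) = κ' z)
    (hs : ∀ a m, s (a • m) = r a • s m) (hB : ∀ β ∈ B, s ∘ β ∈ B') :
    Coord κ ν B fun β m => c' (s ∘ β) (s m) where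
  add β hβ m m' i := by rw [map_add, H.add _ (hB β hβ)]
  const β hβ z m i := by rw [hs, hr, H.const _ (hB β hβ)]
  bas β hβ j i := H.bas _ (hB β hβ) j i
  mul β hβ β' hβ' a m i := by
    simp only [hs]
    exact H.mul _ (hB β hβ) _ (hB β' hβ') _ _ i

theorem IsUniv.ext {u : (Fin n → M) → M → Fin n → R} (H : IsUniv κ ν B u) {φ ψ : R →+* R'}
    (h : ∀ z, φ (ν z) = ψ (ν z)) (h' : ∀ β ∈ B, ∀ m i, φ (u β m i) = ψ (u β m i)) : φ = ψ :=
  RingHom.ext fun x => by
    have : x ∈ φ.eqLocus ψ := by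
      rw [H.gen (φ.eqLocus ψ) h h']
      trivial
    exact this

end Pool.Agent.Lib.MP_d4c0ca_ag.Q
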