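import Pool.Agent.Lib.MP_d4c0ca_ag.Q.Sec

/-! Gluing of morphisms given on affine open sets. -/

set_option autoImplicit false

namespace Pool.Agent.Lib.MP_d4c0ca_ag.Q

open CategoryTheory AlgebraicGeometry Opposite TopologicalSpace Scheme.Modules
open Pool.Agent.Lib.MP_cd184e_ag.B

variable {T Q : Scheme.{0}}

theorem mor_ext {f f' : T ⟶ Q}
    (h : ∀ t : T, ∃ (W : T.Opens) (hW : IsAffineOpen W), t ∈ W ∧
      hW.fromSpec ≫ f = hW.fromSpec ≫ f') : f = f' := by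
  refine Scheme.hom_ext_of_forall f f' fun t => ?_
  obtain ⟨W, hW, ht, e⟩ := h t
  refine ⟨W, ht, ?_⟩
  rw [← hW.isoSpec_hom_fromSpec, Category.assoc, Category.assoc, e]

theorem fromSpec_comp (f : T ⟶ Q) {W : T.Opens} (hW : IsAffineOpen W) {O O' : Q.Opens}
    (hO : IsAffineOpen O) (hO' : IsAffineOpen O') (h : W ≤ f ⁻¹ᵁ O) (h' : O' ≤ O)
    (φ : Γ(Q, O') →+* Γ(T, W)) (e : ∀ a, φ (rres h' a) = ap f h a) :
    hW.fromSpec ≫ f = Spec.map (CommRingCat.ofHom φ) ≫ hO'.fromSpec := by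
  have e' : f.appLE O W h = Q.presheaf.map (homOfLE h').op ≫ CommRingCat.ofHom φ :=
    CommRingCat.hom_ext (RingHom.ext fun a => (e a).symm)
  rw [← hO.SpecMap_appLE_fromSpec f hW h, e', Spec.map_comp, Category.assoc,
    hO.map_fromSpec hO']

theorem glue_ap (f : T ⟶ Q) {W : T.Opens} (hW : IsAffineOpen W) {O : Q.Opens}
    (hO : IsAffineOpen O) (φ : Γ(Q, O) →+* Γ(T, W))
    (e : hW.fromSpec ≫ f = Spec.map (CommRingCat.ofHom φ) ≫ hO.fromSpec) :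
    ∃ h : W ≤ f ⁻¹ᵁ O, ap f h = φ := by
  have h : W ≤ f ⁻¹ᵁ O := fun x hx => by
    obtain ⟨y, rfl⟩ : x ∈ Set.range hW.fromSpec := hW.range_fromSpec.symm ▸ hx
    have h1 : (hW.fromSpec ≫ f) y ∈ Set.range hO.fromSpec := e ▸ ⟨_, rfl⟩
    rw [hO.range_fromSpec] at h1
    exact h1
  refine ⟨h, ?_⟩
  rw [← hO.SpecMap_appLE_fromSpec f hW h, cancel_mono] at e
  exact congrArg CommRingCat.Hom.hom (Spec.map_injective e)

theorem glue_res {W V : T.Opens} (hW : IsAffineOpen W) (hV : IsAffineOpen V) (h : W ≤ V)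
    {O O' : Q.Opens} (hO : IsAffineOpen O) (hO' : IsAffineOpen O') (h' : O' ≤ O)
    (φ : Γ(Q, O) →+* Γ(T, V)) (ψ : Γ(Q, O') →+* Γ(T, W))
    (e : ∀ a, ψ (rres h' a) = rres h (φ a)) :
    T.homOfLE h ≫ hV.isoSpec.hom ≫ Spec.map (CommRingCat.ofHom φ) ≫ hO.fromSpec =
      hW.isoSpec.hom ≫ Spec.map (CommRingCat.ofHom ψ) ≫ hO'.fromSpec := by
  have e1 : T.homOfLE h ≫ hV.isoSpec.hom =
      hW.isoSpec.hom ≫ Spec.map (T.presheaf.map (homOfLE h).op) := by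
    rw [← cancel_mono hV.fromSpec, Category.assoc, Category.assoc, hV.map_fromSpec hW,
      hV.isoSpec_hom_fromSpec, hW.isoSpec_hom_fromSpec, T.homOfLE_ι]
  have e2 : CommRingCat.ofHom φ ≫ T.presheaf.map (homOfLE h).op =
      Q.presheaf.map (homOfLE h').op ≫ CommRingCat.ofHom ψ :=
    CommRingCat.hom_ext (RingHom.ext fun a => (e a).symm)
  rw [reassoc_of% e1, ← Spec.map_comp_assoc, e2, Spec.map_comp_assoc, hO.map_fromSpec hO']

theorem mor_glue {ι : Type} (V : ι → T.Opens) (hV : ∀ i, IsAffineOpen (V i)) (hc : iSup V = ⊤)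
    (O : ι → Q.Opens) (hO : ∀ i, IsAffineOpen (O i)) (φ : ∀ i, Γ(Q, O i) →+* Γ(T, V i))
    (h : ∀ i j (W : T.Opens) (hi : W ≤ V i) (hj : W ≤ V j), IsAffineOpen W →
      ∃ (O' : Q.Opens) (hi' : O' ≤ O i) (hj' : O' ≤ O j) (ψ : Γ(Q, O') →+* Γ(T, W)),
        IsAffineOpen O' ∧ (∀ a, ψ (rres hi' a) = rres hi (φ i a)) ∧
          ∀ a, ψ (rres hj' a) = rres hj (φ j a)) :
    ∃ f : T ⟶ Q, ∀ i, ∃ h : V i ≤ f ⁻¹ᵁ O i, ap f h = φ i := by
  let g : ∀ i, (V i : Scheme.{0}) ⟶ Q := fun i =>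
    (hV i).isoSpec.hom ≫ Spec.map (CommRingCat.ofHom (φ i)) ≫ (hO i).fromSpec
  have key : ∀ i j, Limits.pullback.fst (V i).ι (V j).ι ≫ g i =
      Limits.pullback.snd (V i).ι (V j).ι ≫ g j := by
    intro i j
    refine Scheme.hom_ext_of_forall _ _ fun x => ?_
    let k := Limits.pullback.fst (V i).ι (V j).ι ≫ (V i).ι
    have hk : k = Limits.pullback.snd (V i).ι (V j).ι ≫ (V j).ι := Limits.pullback.condition
    have hxi : k x ∈ V i := (Limits.pullback.fst (V i).ι (V j).ι x).2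
    have hxj : k x ∈ V j := by
      rw [hk]
      exact (Limits.pullback.snd (V i).ι (V j).ι x).2
    obtain ⟨_, ⟨W, hW, rfl⟩, hx, hle⟩ := T.isBasis_affineOpens.exists_subset_of_mem_open
      (show k x ∈ ((V i ⊓ V j : T.Opens) : Set T) from ⟨hxi, hxj⟩) (V i ⊓ V j).isOpen
    have hi : W ≤ V i := fun y hy => (hle hy).1
    have hj : W ≤ V j := fun y hy => (hle hy).2
    obtain ⟨O', hi', hj', ψ, hO', ei, ej⟩ := h i j W hi hj hW
    refine ⟨k ⁻¹ᵁ W, hx, ?_⟩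
    have e1 : (k ⁻¹ᵁ W).ι ≫ Limits.pullback.fst (V i).ι (V j).ι = (k ∣_ W) ≫ T.homOfLE hi := by
      rw [← cancel_mono (V i).ι, Category.assoc, Category.assoc, T.homOfLE_ι, morphismRestrict_ι]
    have e2 : (k ⁻¹ᵁ W).ι ≫ Limits.pullback.snd (V i).ι (V j).ι = (k ∣_ W) ≫ T.homOfLE hj := by
      rw [← cancel_mono (V j).ι, Category.assoc, Category.assoc, T.homOfLE_ι, morphismRestrict_ι,
        ← hk]
    rw [reassoc_of% e1, reassoc_of% e2, glue_res hW (hV i) hi (hO i) hO' hi' _ ψ ei,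
      glue_res hW (hV j) hj (hO j) hO' hj' _ ψ ej]
  refine ⟨(T.openCoverOfIsOpenCover V hc).glueMorphisms g key, fun i => ?_⟩
  refine glue_ap _ (hV i) (hO i) _ ?_
  have e := (T.openCoverOfIsOpenCover V hc).ι_glueMorphisms g key i
  rw [← (hV i).isoSpec_inv_ι, Category.assoc]
  exact (congrArg ((hV i).isoSpec.inv ≫ ·) e).trans (Iso.inv_hom_id_assoc _ _)

theorem comp_eq_of_cst {sT : T ⟶ SC} {sQ : Q ⟶ SC} {f : T ⟶ Q}
    (h : ∀ t : T, ∃ (W : T.Opens) (O : Q.Opens) (h : W ≤ f ⁻¹ᵁ O), t ∈ W ∧ IsAffineOpen W ∧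
      ∀ z, ap f h (cst sQ O z) = cst sT W z) : f ≫ sQ = sT := by
  refine mor_ext fun t => ?_
  obtain ⟨W, O, h1, ht, hW, e⟩ := h t
  refine ⟨W, hW, ht, ?_⟩
  have e' : (f ≫ sQ).appLE ⊤ W le_top = sT.appLE ⊤ W le_top :=
    CommRingCat.hom_ext (RingHom.ext fun z => (ap_cst f sQ rfl h1 z).symm.trans (e z))
  rw [← (isAffineOpen_top SC).SpecMap_appLE_fromSpec (f ≫ sQ) hW le_top,
    ← (isAffineOpen_top SC).SpecMap_appLE_fromSpec sT hW le_top, e']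

theorem cover_of_points (sT : T ⟶ SC) [LocallyOfFiniteType sT] (W : T.Opens)
    (h : ∀ t : SC ⟶ T, t ≫ sT = 𝟙 _ → ⊤ ≤ t ⁻¹ᵁ W) : W = ⊤ := by
  have := LocallyOfFiniteType.jacobsonSpace sT
  by_contra hne
  have h1 : ((W : Set T)ᶜ).Nonempty :=
    Set.nonempty_compl.2 fun e => hne (Opens.ext e)
  obtain ⟨x, hx, hc⟩ := nonempty_inter_closedPoints h1 W.isOpen.isClosed_compl.isLocallyClosed
  have h2 := h (pointOfClosedPoint sT x hc) (pointOfClosedPoint_comp sT x hc)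
    (show (IsLocalRing.closedPoint ℂ : SC) ∈ (⊤ : SC.Opens) from trivial)
  exact hx (pointOfClosedPoint_apply sT x hc _ ▸ h2)

theorem exists_point (sQ : Q ⟶ SC) {O : Q.Opens} (hO : IsAffineOpen O) (φ : Γ(Q, O) →+* kk)
    (hφ : ∀ z, φ (cst sQ O z) = z) :
    ∃ (t : SC ⟶ Q) (h : ⊤ ≤ t ⁻¹ᵁ O), t ≫ sQ = 𝟙 _ ∧ ap t h = φ := by
  obtain ⟨h, e⟩ := glue_ap (SC.isoSpec.hom ≫ Spec.map (CommRingCat.ofHom φ) ≫ hO.fromSpec)
    (isAffineOpen_top SC) hO φ (by rw [IsAffineOpen.fromSpec_top]; exact Iso.inv_hom_id_assoc _ _)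
  refine ⟨_, h, comp_eq_of_cst fun t => ⟨⊤, O, h, trivial, isAffineOpen_top SC, fun z => ?_⟩, e⟩
  rw [e, hφ, cst_id]

end Pool.Agent.Lib.MP_d4c0ca_ag.Q
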