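import Pool.Agent.Lib.MP_d4c0ca_ag.Q.Set
import Pool.Agent.Lib.MP_d4c0ca_ag.Q.Glue

/-! The classical topology. -/

set_option autoImplicit false

namespace Pool.Agent.Lib.MP_d4c0ca_ag.Q

open CategoryTheory AlgebraicGeometry Opposite TopologicalSpace Scheme.Modules
open Pool.Agent.Lib.MP_cd184e_ag.B

open Filter Topology

variable {T Q : Scheme.{0}} {s : Q ⟶ SC} {sT : T ⟶ SC}

/-- the generating open sets -/
def anS (s : Q ⟶ SC) (U : Q.Opens) (f : Γ(Q, U)) (O : Set ℂ) : Set (Pts s) :=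
  {t | ∃ h : ⊤ ≤ t.1 ⁻¹ᵁ U, toC (ap t.1 h f) ∈ O}

theorem an_open (U : Q.Opens) (f : Γ(Q, U)) {O : Set ℂ} (hO : IsOpen O) : IsOpen (anS s U f O) :=
  TopologicalSpace.isOpen_generateFrom_of_mem ⟨U, f, O, hO, rfl⟩

theorem an_tendsto {α : Type} {F : Filter α} {t : α → Pts s} {t₀ : Pts s}
    (h : ∀ (U : Q.Opens) (f : Γ(Q, U)) (O : Set ℂ), IsOpen O → t₀ ∈ anS s U f O →
      ∀ᶠ a in F, t a ∈ anS s U f O) : Tendsto t F (𝓝 t₀) := by
  refine TopologicalSpace.tendsto_nhds_generateFrom_iff.2 ?_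
  rintro _ ⟨U, f, O, hO, rfl⟩ h0
  exact h U f O hO h0

theorem eventually_mem (t₀ : Pts s) {V : Q.Opens} (h : ⊤ ≤ t₀.1 ⁻¹ᵁ V) :
    ∀ᶠ t : Pts s in 𝓝 t₀, ⊤ ≤ t.1 ⁻¹ᵁ V :=
  Filter.mem_of_superset ((an_open V 0 isOpen_univ).mem_nhds ⟨h, trivial⟩) fun _ ht => ht.1

open Classical in
/-- the value of a function at a point, zero outside its domain -/
noncomputable def val (t : SC ⟶ Q) {V : Q.Opens} (f : Γ(Q, V)) : kk :=
  if h : ⊤ ≤ t ⁻¹ᵁ V then ap t h f else 0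

theorem val_eq (t : SC ⟶ Q) {V : Q.Opens} (h : ⊤ ≤ t ⁻¹ᵁ V) (f : Γ(Q, V)) : val t f = ap t h f :=
  dif_pos h

theorem tendsto_val (t₀ : Pts s) {V : Q.Opens} (h : ⊤ ≤ t₀.1 ⁻¹ᵁ V) (f : Γ(Q, V)) :
    Tendsto (fun t : Pts s => toC (val t.1 f)) (𝓝 t₀) (𝓝 (toC (val t₀.1 f))) := by
  refine tendsto_nhds.2 fun O hO h0 => ?_
  rw [val_eq _ h] at h0
  refine Filter.mem_of_superset ((an_open V f hO).mem_nhds ⟨h, h0⟩) ?_
  rintro t ⟨ht, h1⟩
  change toC (val t.1 f) ∈ O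
  rwa [val_eq _ ht]

/-- convergence is tested on generators of the ring of an affine open set -/
theorem tendsto_pts {α : Type} {F : Filter α} {t : α → Pts s} {t₀ : Pts s} {V : Q.Opens}
    (hV : IsAffineOpen V) (h₀ : ⊤ ≤ t₀.1 ⁻¹ᵁ V) (h : ∀ᶠ a in F, ⊤ ≤ (t a).1 ⁻¹ᵁ V)
    (Z : Set Γ(Q, V)) (hZ : ∀ S : Subring Γ(Q, V), (∀ z, cst s V z ∈ S) → Z ⊆ S → S = ⊤)
    (h' : ∀ f ∈ Z, Tendsto (fun a => toC (val (t a).1 f)) F (𝓝 (toC (val t₀.1 f)))) :
    Tendsto t F (𝓝 t₀) := by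
  let S : Subring Γ(Q, V) :=
    { carrier := {f | Tendsto (fun a => toC (val (t a).1 f)) F (𝓝 (toC (val t₀.1 f)))}
      mul_mem' := fun {f g} hf hg => by
        change Tendsto _ _ _
        rw [val_eq _ h₀, map_mul, map_mul, ← val_eq _ h₀, ← val_eq _ h₀]
        refine (Tendsto.mul hf hg).congr' (h.mono fun a ha => ?_)
        simp only [val_eq _ ha, map_mul]
      one_mem' := by
        change Tendsto _ _ _
        rw [val_eq _ h₀, map_one, map_one]
        refine tendsto_const_nhds.congr' (h.mono fun a ha => ?_)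
        simp only [val_eq _ ha, map_one]
      add_mem' := fun {f g} hf hg => by
        change Tendsto _ _ _
        rw [val_eq _ h₀, map_add, map_add, ← val_eq _ h₀, ← val_eq _ h₀]
        refine (Tendsto.add hf hg).congr' (h.mono fun a ha => ?_)
        simp only [val_eq _ ha, map_add]
      zero_mem' := by
        change Tendsto _ _ _
        rw [val_eq _ h₀, map_zero, map_zero]
        refine tendsto_const_nhds.congr' (h.mono fun a ha => ?_)
        simp only [val_eq _ ha, map_zero]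
      neg_mem' := fun {f} hf => by
        change Tendsto _ _ _
        rw [val_eq _ h₀, map_neg, map_neg, ← val_eq _ h₀]
        refine (Tendsto.neg hf).congr' (h.mono fun a ha => ?_)
        simp only [val_eq _ ha, map_neg] }
  have hS : S = ⊤ := hZ S (fun z => by
    change Tendsto _ _ _
    rw [val_eq _ h₀, ap_cst t₀.1 s t₀.2, cst_id]
    refine tendsto_const_nhds.congr' (h.mono fun a ha => ?_)
    simp only [val_eq _ ha]
    rw [ap_cst (t a).1 s (t a).2, cst_id]) h'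
  have all : ∀ f : Γ(Q, V),
      Tendsto (fun a => toC (val (t a).1 f)) F (𝓝 (toC (val t₀.1 f))) := fun f => by
    have : f ∈ S := hS ▸ Subring.mem_top f
    exact this
  refine an_tendsto fun U f O hO ⟨hU, h0⟩ => ?_
  have : Unique SC := inferInstanceAs (Unique (PrimeSpectrum ℂ))
  obtain ⟨b, hb, hxb⟩ := hV.exists_basicOpen_le (V := U) ⟨t₀.1 default, hU trivial⟩ (h₀ trivial)
  have hL := hV.isLocalization_basicOpen b
  obtain ⟨n, a, e⟩ := IsLocalization.Away.surj b (rres hb f)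
  have e' : rres hb f * rres (Q.basicOpen_le b) b ^ n = rres (Q.basicOpen_le b) a := e
  have key : ∀ (u : SC ⟶ Q) (hu : ⊤ ≤ u ⁻¹ᵁ V), toC (val u b) ≠ 0 → ∃ h1 : ⊤ ≤ u ⁻¹ᵁ U,
      toC (ap u h1 f) = toC (val u a) / toC (val u b) ^ n := fun u hu h2 => by
    have h3 : IsUnit (ap u hu b) := by
      rw [val_eq _ hu] at h2
      simpa using (Ne.isUnit h2).map toC.symm
    have h4 : ⊤ ≤ u ⁻¹ᵁ Q.basicOpen b := fun y _ => by
      refine ((mem_basicOpen_ap u hu b).1 ?_).2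
      rw [Scheme.basicOpen_of_isUnit _ h3]
      trivial
    refine ⟨h4.trans (u.preimage_mono hb), ?_⟩
    have h5 := congrArg (fun z => toC (ap u h4 z)) e'
    simp only [map_mul, map_pow, ap_rres] at h5
    rw [eq_div_iff (pow_ne_zero n h2), val_eq _ hu, val_eq _ hu]
    exact h5
  have b0 : toC (val t₀.1 b) ≠ 0 := fun c => by
    rw [val_eq _ h₀, map_eq_zero_iff _ toC.injective] at c
    have := (mem_basicOpen_ap t₀.1 h₀ b (y := default)).2 ⟨trivial, hxb⟩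
    rw [c, Scheme.basicOpen_zero] at this
    exact this
  obtain ⟨_, k0⟩ := key t₀.1 h₀ b0
  have lim := (all a).div ((all b).pow n) (pow_ne_zero n b0)
  rw [← k0] at lim
  filter_upwards [h, (all b).eventually_ne b0, lim.eventually (hO.mem_nhds h0)] with c c1 c2 c3
  obtain ⟨k1, k2⟩ := key (t c).1 c1 c2
  exact ⟨k1, k2 ▸ c3⟩

/-- the map on points -/
noncomputable def ptsMap (f : T ⟶ Q) (hf : f ≫ s = sT) (t : Pts sT) : Pts s :=
  ⟨t.1 ≫ f, by rw [Category.assoc, hf, t.2]⟩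

theorem continuous_pts (f : T ⟶ Q) (hf : f ≫ s = sT) : Continuous (ptsMap f hf) := by
  refine continuous_iff_continuousAt.2 fun t₀ => an_tendsto fun U g O hO h0 => ?_
  have key : ∀ t : Pts sT, ptsMap f hf t ∈ anS s U g O ↔
      t ∈ anS sT (f ⁻¹ᵁ U) (ap f le_rfl g) O := fun t =>
    ⟨fun ⟨h, k⟩ => ⟨h, by rwa [ap_ap t.1 f rfl le_rfl h h]⟩,
      fun ⟨h, k⟩ => ⟨h, by rwa [ap_ap t.1 f rfl le_rfl h h] at k⟩⟩
  exact Filter.mem_of_superset ((an_open _ _ hO).mem_nhds ((key t₀).1 h0)) fun t ht => (key t).2 ht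

end Pool.Agent.Lib.MP_d4c0ca_ag.Q
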