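import Mathlib

/-! Coordinates modulo a moving subspace. -/

set_option autoImplicit false

namespace Pool.Agent.Lib.MP_d4c0ca_ag.Q


open Filter Topology

variable {E α : Type} [NormedAddCommGroup E] [NormedSpace ℂ E] [FiniteDimensional ℂ E] {n : ℕ}
  {F : Filter α} {P : α → E →L[ℂ] E} {P₀ : E →L[ℂ] E} {b : Fin n → E}

omit [FiniteDimensional ℂ E] in
theorem ana_app (hP : Tendsto P F (𝓝 P₀)) (v : E) : Tendsto (fun a => P a v) F (𝓝 (P₀ v)) :=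
  ((ContinuousLinearMap.apply ℂ E v).continuous.tendsto P₀).comp hP

omit [FiniteDimensional ℂ E] in
theorem ana_bd (hP : Tendsto P F (𝓝 P₀))
    (h : ∀ z : Fin n → ℂ, P₀ (∑ i, z i • b i) = ∑ i, z i • b i → z = 0) :
    ∃ K : ℝ, ∀ᶠ a in F, ∀ z : Fin n → ℂ,
      ‖z‖ ≤ K * ‖∑ i, z i • b i - P a (∑ i, z i • b i)‖ := by
  let B : (Fin n → ℂ) →L[ℂ] E := LinearMap.toContinuousLinearMap (Fintype.linearCombination ℂ b)
  have hB : ∀ z, B z = ∑ i, z i • b i := fun z => Fintype.linearCombination_apply ℂ b z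
  obtain ⟨K, -, hK⟩ := LinearMap.exists_antilipschitzWith
    ((B - P₀.comp B : (Fin n → ℂ) →L[ℂ] E) : (Fin n → ℂ) →ₗ[ℂ] E) (LinearMap.ker_eq_bot'.2
      fun z hz => h z (by
        rw [← hB]
        exact (sub_eq_zero.1 hz).symm))
  have h1 : Tendsto (fun a => (K : ℝ) * (‖P a - P₀‖ * ‖B‖)) F (𝓝 ((K : ℝ) * (0 * ‖B‖))) :=
    ((tendsto_iff_norm_sub_tendsto_zero.1 hP).mul_const _).const_mul _
  rw [zero_mul, mul_zero] at h1
  refine ⟨2 * K, (h1.eventually (gt_mem_nhds (by norm_num : (0 : ℝ) < 1 / 2))).mono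
    fun a ha z => ?_⟩
  rw [← hB]
  have h2 : ‖z‖ ≤ K * ‖B z - P₀ (B z)‖ := ZeroHomClass.bound_of_antilipschitz _ hK z
  have h3 : ‖B z - P₀ (B z)‖ ≤ ‖B z - P a (B z)‖ + ‖P a - P₀‖ * (‖B‖ * ‖z‖) := by
    have e : B z - P₀ (B z) = B z - P a (B z) + (P a - P₀) (B z) := by simp
    rw [e]
    refine (norm_add_le _ _).trans (add_le_add le_rfl (((P a - P₀).le_opNorm _).trans ?_))
    exact mul_le_mul_of_nonneg_left (B.le_opNorm z) (norm_nonneg _)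
  have h4 := mul_le_mul_of_nonneg_left h3 K.2
  have h5 := mul_le_mul_of_nonneg_right ha.le (norm_nonneg z)
  change (K : ℝ) * _ ≤ (K : ℝ) * _ at h4
  nlinarith

theorem ana_ind (hP : Tendsto P F (𝓝 P₀))
    (h : ∀ z : Fin n → ℂ, P₀ (∑ i, z i • b i) = ∑ i, z i • b i → z = 0) :
    ∀ᶠ a in F, ∀ z : Fin n → ℂ, P a (∑ i, z i • b i) = ∑ i, z i • b i → z = 0 := by
  obtain ⟨K, hK⟩ := ana_bd hP h
  refine hK.mono fun a ha z hz => ?_
  have := ha z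
  rwa [hz, sub_self, norm_zero, mul_zero, norm_le_zero_iff] at this

theorem ana_lim (hP : Tendsto P F (𝓝 P₀))
    (h : ∀ z : Fin n → ℂ, P₀ (∑ i, z i • b i) = ∑ i, z i • b i → z = 0) {v : E}
    {z : α → Fin n → ℂ} {z₀ : Fin n → ℂ}
    (hz : ∀ᶠ a in F, P a (v - ∑ i, z a i • b i) = v - ∑ i, z a i • b i)
    (h₀ : P₀ (v - ∑ i, z₀ i • b i) = v - ∑ i, z₀ i • b i) : Tendsto z F (𝓝 z₀) := by
  obtain ⟨K, hK⟩ := ana_bd hP h
  have h1 := ((ana_app hP (v - ∑ i, z₀ i • b i)).const_sub (v - ∑ i, z₀ i • b i)).norm.const_mul K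
  rw [h₀, sub_self, norm_zero, mul_zero] at h1
  refine tendsto_iff_norm_sub_tendsto_zero.2 (squeeze_zero' (Eventually.of_forall fun _ =>
    norm_nonneg _) ((hK.and hz).mono fun a ha => (ha.1 (z a - z₀)).trans_eq ?_) h1)
  have e : ∑ i, (z a - z₀) i • b i = (v - ∑ i, z₀ i • b i) - (v - ∑ i, z a i • b i) := by
    simp only [Pi.sub_apply, sub_smul, Finset.sum_sub_distrib]
    abel
  rw [e, map_sub (P a) (v - ∑ i, z₀ i • b i), ha.2, sub_sub_sub_cancel_right]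

theorem ana_ker {L : α → E →ₗ[ℂ] (Fin n → ℂ)} {L₀ : E →ₗ[ℂ] (Fin n → ℂ)} [F.NeBot]
    (hP : Tendsto P F (𝓝 P₀)) (hL : ∀ v, Tendsto (fun a => L a v) F (𝓝 (L₀ v)))
    (h : ∀ᶠ a in F, ∀ v, L a (P a v) = 0) (v : E) : L₀ (P₀ v) = 0 := by
  let e := Module.finBasis ℂ E
  have key : ∀ (M : E →ₗ[ℂ] (Fin n → ℂ)) (x : E), M x = ∑ i, e.coord i x • M (e i) := fun M x => by
    conv_lhs => rw [← e.sum_repr x, map_sum]
    exact Finset.sum_congr rfl fun i _ => map_smul _ _ _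
  have h1 : Tendsto (fun a => ∑ i, e.coord i (P a v) • L a (e i)) F
      (𝓝 (∑ i, e.coord i (P₀ v) • L₀ (e i))) := tendsto_finsetSum _ fun i _ =>
    (((e.coord i).continuous_of_finiteDimensional.tendsto _).comp (ana_app hP v)).smul (hL _)
  rw [← key] at h1
  refine tendsto_nhds_unique h1 (tendsto_const_nhds.congr' (h.mono fun a ha => ?_))
  exact (ha v).symm.trans (key _ _)

end Pool.Agent.Lib.MP_d4c0ca_ag.Q
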