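import Pool.Agent.Lib.MP_d4c0ca_ag.Q.Set
import Pool.Agent.Lib.MP_d4c0ca_ag.T.SatSub

/-! The atlas of a projective scheme. -/

set_option autoImplicit false

namespace Pool.Agent.Lib.MP_d4c0ca_ag.Q

open CategoryTheory AlgebraicGeometry Opposite TopologicalSpace Scheme.Modules
open Pool.Agent.Lib.MP_cd184e_ag.B

open MvPolynomial

variable {S σ : Type} [CommRing S] [Algebra ℂ S] {𝒜 : ℕ → Submodule ℂ S} [GradedAlgebra 𝒜]
  {x : σ → S}

/-- the complements of hypersurfaces -/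
def hyp (𝒜 : ℕ → Submodule ℂ S) [GradedAlgebra 𝒜] : Set (Proj 𝒜).Opens :=
  {U | ∃ m, 0 < m ∧ ∃ f ∈ 𝒜 m, U = Proj.basicOpen 𝒜 f}

/-- the complement of a hyperplane -/
noncomputable abbrev lin (𝒜 : ℕ → Submodule ℂ S) [GradedAlgebra 𝒜] (x : σ → S)
    (ℓ : MvPolynomial σ ℂ) : (Proj 𝒜).Opens := Proj.basicOpen 𝒜 (aeval x ℓ)

theorem lin_mem (hx : ∀ l, x l ∈ 𝒜 1) {ℓ : MvPolynomial σ ℂ} (hℓ : ℓ.IsHomogeneous 1) :
    lin 𝒜 x ℓ ∈ hyp 𝒜 := ⟨1, one_pos, _, T.aeval_mem hx hℓ, rfl⟩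

theorem exists_lin [Fintype σ] (hx : ∀ l, x l ∈ 𝒜 1)
    (hgen : Algebra.adjoin ℂ (Set.range x) = ⊤) (s : Set (Proj 𝒜)) (hs : s.Finite) :
    ∃ ℓ : MvPolynomial σ ℂ, ℓ.IsHomogeneous 1 ∧ s ⊆ lin 𝒜 x ℓ := by
  let φ : (σ → ℂ) →ₗ[ℂ] S := Fintype.linearCombination ℂ x
  let W : s → Subspace ℂ (σ → ℂ) := fun p =>
    ((p.1.asHomogeneousIdeal.toIdeal : Ideal S).restrictScalars ℂ).comap φ
  have := hs.to_subtype
  have hW : ⋃ p, (W p : Set (σ → ℂ)) ≠ Set.univ := fun h => by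
    classical
    obtain ⟨p, hp⟩ := Subspace.exists_eq_top_of_iUnion_eq_univ h
    have h1 : p.1 ∈ ⨆ j, Proj.basicOpen 𝒜 (x j) := by
      rw [T.chart_cover hx hgen]
      trivial
    obtain ⟨j, hj⟩ := Opens.mem_iSup.1 h1
    have h2 : (Pi.single j 1 : σ → ℂ) ∈ W p := by
      rw [hp]
      trivial
    have h3 : φ (Pi.single j 1) = x j := by simp [φ]
    have h4 : φ (Pi.single j 1) ∈ p.1.asHomogeneousIdeal.toIdeal := h2
    rw [h3] at h4
    exact hj h4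
  obtain ⟨c, hc⟩ := (Set.ne_univ_iff_exists_notMem _).1 hW
  refine ⟨∑ l, C (c l) * X l, IsHomogeneous.sum _ _ _ fun l _ => ?_, fun p hp h => ?_⟩
  · exact (isHomogeneous_X ℂ l).C_mul _
  · refine hc (Set.mem_iUnion.2 ⟨⟨p, hp⟩, ?_⟩)
    have e : φ c = aeval x (∑ l, C (c l) * X l) := by
      simp [φ, Fintype.linearCombination_apply, Algebra.smul_def]
    show φ c ∈ p.asHomogeneousIdeal.toIdeal
    rw [e]
    exact h

open HomogeneousLocalization in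
theorem atl_le {f a : S} {m n : ℕ} (hf : f ∈ 𝒜 m) (ha : a ∈ 𝒜 (n • m)) :
    (Proj 𝒜).basicOpen (Proj.awayToSection 𝒜 f (Away.mk 𝒜 hf n a ha)) ≤ Proj.basicOpen 𝒜 a := by
  intro p hp e
  have hp' : p ∈ Proj.basicOpen 𝒜 f := (Proj 𝒜).basicOpen_le _ hp
  have h1 := ((Proj 𝒜).mem_basicOpen _ p hp').1 hp
  have h2 := congr($(ProjectiveSpectrum.Proj.awayToSection_germ 𝒜 f p hp') (Away.mk 𝒜 hf n a ha))
  have h3 : IsUnit ((Proj.stalkIso' 𝒜 p).symm (mapId 𝒜 (Submonoid.powers_le.mpr hp')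
    (Away.mk 𝒜 hf n a ha))) := (congrArg IsUnit h2).mp h1
  have := p.isPrime
  have h4 := (isUnit_iff_isUnit_val 𝒜 _ _).2 ((MulEquiv.isUnit_map _).1 h3)
  have h5 : (mapId 𝒜 (Submonoid.powers_le.mpr hp') (Away.mk 𝒜 hf n a ha)).val =
    Localization.mk a ⟨f ^ n, pow_mem (show f ∈ Ideal.primeCompl _ from hp') n⟩ := rfl
  rw [h5, Localization.mk_eq_mk', IsLocalization.AtPrime.isUnit_mk'_iff] at h4
  exact h4 e

theorem atl_pow {g : S} {m k : ℕ} (hg : g ∈ 𝒜 k) : g ^ m ∈ 𝒜 (k • m) := by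
  have := SetLike.pow_mem_graded m hg
  rwa [smul_eq_mul, mul_comm] at this

open HomogeneousLocalization in
theorem atl_mul {f g : S} {m k : ℕ} (hf : f ∈ 𝒜 m) (hg : g ∈ 𝒜 k) {U : (Proj 𝒜).Opens}
    (h1 : U ≤ Proj.basicOpen 𝒜 f) (h2 : U ≤ Proj.basicOpen 𝒜 g) :
    rres h1 (Proj.awayToSection 𝒜 f (Away.mk 𝒜 hf k (g ^ m) (atl_pow hg))) *
      rres h2 (Proj.awayToSection 𝒜 g (Away.mk 𝒜 hg m (f ^ k) (atl_pow hf))) = 1 := by
  have hU : U ≤ Proj.basicOpen 𝒜 (f * g) := by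
    rw [Proj.basicOpen_mul]
    exact le_inf h1 h2
  rw [T.rres_away hg rfl h1 hU, T.rres_away hf (mul_comm _ _) h2 hU, ← map_mul, ← map_mul,
    ← map_one (rres hU), ← map_one (Proj.awayToSection 𝒜 (f * g)).hom]
  congr 2
  ext
  simp only [awayMap_mk, val_mul, Away.val_mk, Localization.mk_mul, val_one]
  rw [← Localization.mk_one, Localization.mk_eq_mk_iff, Localization.r_iff_exists]
  exact ⟨1, by simp; ring⟩

theorem atl_unit {Y : Scheme.{0}} {U V : Y.Opens} (h : V ≤ U) {a : Γ(Y, U)}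
    (ha : IsUnit (rres h a)) : V ≤ Y.basicOpen a := by
  have := Scheme.basicOpen_of_isUnit _ ha
  rw [rres_def, Scheme.basicOpen_res] at this
  exact this.ge.trans inf_le_right

theorem atl_of_pow {g : S} {m : ℕ} (hm : 0 < m) :
    Proj.basicOpen 𝒜 (g ^ m) ≤ Proj.basicOpen 𝒜 g := fun p hp e =>
  hp (Ideal.pow_mem_of_mem p.asHomogeneousIdeal.toIdeal e m hm)

theorem atlas_hyp [Fintype σ] (hx : ∀ l, x l ∈ 𝒜 1)
    (hgen : Algebra.adjoin ℂ (Set.range x) = ⊤) : Atlas (Proj 𝒜) (hyp 𝒜) where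
  aff := by
    rintro _ ⟨m, hm, f, hf, rfl⟩
    exact Proj.isAffineOpen_basicOpen _ _ hf hm
  inf := by
    rintro _ ⟨m, hm, f, hf, rfl⟩ _ ⟨k, hk, g, hg, rfl⟩
    exact ⟨m + k, by omega, f * g, SetLike.mul_mem_graded hf hg, (Proj.basicOpen_mul _ _ _).symm⟩
  bas := by
    rintro _ ⟨m, hm, f, hf, rfl⟩ _ ⟨k, hk, g, hg, rfl⟩
    have e := atl_mul hf hg inf_le_left inf_le_right
    refine ⟨_, _, le_antisymm (atl_unit _ (IsUnit.of_mul_eq_one _ e)) ?_,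
      le_antisymm (atl_unit _ (IsUnit.of_mul_eq_one_right _ e)) ?_, e⟩
    · exact le_inf ((Proj 𝒜).basicOpen_le _) ((atl_le hf _).trans (atl_of_pow hm))
    · exact le_inf ((atl_le hg _).trans (atl_of_pow hk)) ((Proj 𝒜).basicOpen_le _)
  fin s hs := by
    obtain ⟨ℓ, hℓ, h⟩ := exists_lin hx hgen s hs
    exact ⟨_, lin_mem hx hℓ, h⟩

theorem universallyClosed_strMap [Fintype σ] (hx : ∀ l, x l ∈ 𝒜 1)
    (hgen : Algebra.adjoin ℂ (Set.range x) = ⊤) : UniversallyClosed (T.St.strMap 𝒜) := by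
  classical
  have h0 : Algebra.adjoin (𝒜 0) (Set.range x) = ⊤ := by
    rw [eq_top_iff]
    intro p _
    have hp : p ∈ Algebra.adjoin ℂ (Set.range x) := hgen ▸ Algebra.mem_top
    induction hp using Algebra.adjoin_induction with
    | mem y hy => exact Algebra.subset_adjoin hy
    | algebraMap c => exact Subalgebra.algebraMap_mem _ (algebraMap ℂ (𝒜 0) c)
    | add y z _ _ hy hz => exact add_mem (hy trivial) (hz trivial)
    | mul y z _ _ hy hz => exact mul_mem (hy trivial) (hz trivial)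
  have : Algebra.FiniteType (𝒜 0) S := ⟨⟨Finset.univ.image x, by simpa using h0⟩⟩
  have hs : Function.Surjective (algebraMap ℂ (𝒜 0)) := fun a => by
    obtain ⟨f, hf, e⟩ := T.exists_homog hx hgen a.2
    refine ⟨coeff 0 f, Subtype.ext ?_⟩
    rw [← e]
    conv_rhs => rw [totalDegree_eq_zero_iff_eq_C.1 (Nat.le_zero.1 hf.totalDegree_le)]
    rw [aeval_C]
    rfl
  have : IsClosedImmersion (Spec.map (CommRingCat.ofHom (algebraMap ℂ (𝒜 0)))) :=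
    IsClosedImmersion.spec_of_surjective _ hs
  unfold T.St.strMap
  infer_instance

end Pool.Agent.Lib.MP_d4c0ca_ag.Q
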