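import Pool.Agent.Lib.MP_d4c0ca_ag.Q.Loc

/-! Smaller charts are basic open sets of larger charts; intersections of charts. -/

set_option autoImplicit false

namespace Pool.Agent.Lib.MP_d4c0ca_ag.Q

open Matrix

variable {k A M R A' M' R' : Type} [CommRing k] [CommRing A] [AddCommGroup M] [Module A M]
  [CommRing R] [CommRing A'] [AddCommGroup M'] [Module A' M'] [CommRing R'] {n : ℕ}

theorem away_cancel {κ : k →+* A} {ν : k →+* R} {B : Set (Fin n → M)}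
    {c : (Fin n → M) → M → Fin n → R} (H : Coord κ ν B c) {β β' : Fin n → M} (hβ : β ∈ B)
    (hβ' : β' ∈ B) {m : M} {v : Fin n → R} (e : trm c β' β *ᵥ v = c β m) : v = c β' m := by
  have := congrArg (fun w => trm c β β' *ᵥ w) e
  simp only [mulVec_mulVec, H.trm_mul hβ' hβ, one_mulVec] at this
  rw [this, ← H.trm_mulVec hβ hβ']

theorem away_unit_trm {κ : k →+* A} {ν : k →+* R} {B : Set (Fin n → M)}
    {c : (Fin n → M) → M → Fin n → R} (H : Coord κ ν B c) {β β' : Fin n → M} (hβ : β ∈ B)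
    (hβ' : β' ∈ B) : IsUnit (trm c β' β).det :=
  Matrix.isUnit_det_of_right_inverse (H.trm_mul hβ hβ')

theorem away_unit_mu {κ : k →+* A} {ν : k →+* R} {B : Set (Fin n → M)}
    {c : (Fin n → M) → M → Fin n → R} (H : Coord κ ν B c) {β : Fin n → M} (hβ : β ∈ B)
    {a : A} (ha : IsUnit a) : IsUnit (H.mu hβ a).det :=
  (Matrix.isUnit_iff_isUnit_det _).1 (ha.map _)

theorem away_unif {h : A} {r : A →+* A'} {s : M →+ M'} (L : LocData h r s) (γ : Fin n → M') :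
    ∃ (N : ℕ) (t : Fin n → M), ∀ j, s (t j) = r h ^ N • γ j := by
  choose N t ht using fun j => L.surjM (γ j)
  refine ⟨∑ j, N j, fun j => h ^ (∑ j, N j - N j) • t j, fun j => ?_⟩
  have hj : N j ≤ ∑ j, N j :=
    Finset.single_le_sum (f := N) (fun _ _ => Nat.zero_le _) (Finset.mem_univ j)
  rw [L.smul, ht, map_pow, smul_smul, ← pow_add, Nat.sub_add_cancel hj]

theorem away_mat {κ : k →+* A} {ν : k →+* R} {B : Set (Fin n → M)}
    {c : (Fin n → M) → M → Fin n → R} (H : Coord κ ν B c) {β : Fin n → M} (hβ : β ∈ B)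
    (a : A) (γ : Fin n → M) :
    (Matrix.of fun i j => c β (a • γ j) i) = H.mu hβ a * trm c γ β := by
  ext i j
  rw [Matrix.of_apply, H.smul_eq hβ]
  rfl

theorem IsUniv.away {κ : k →+* A} {κ' : k →+* A'} {ν : k →+* R} {ν' : k →+* R'}
    {B : Set (Fin n → M)} {B' : Set (Fin n → M')} {u : (Fin n → M) → M → Fin n → R}
    {u' : (Fin n → M') → M' → Fin n → R'} (H : IsUniv κ ν B u) (H' : IsUniv κ' ν' B' u')
    {h : A} {r : A →+* A'} {s : M →+ M'} (L : LocData h r s) (hr : ∀ z, r (κ z) = κ' z)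
    (hne : B.Nonempty) (hfin : B'.Finite) (hB : ∀ β ∈ B, s ∘ β ∈ B') (ρ : R →+* R')
    (h₁ : ∀ z, ρ (ν z) = ν' z) (h₂ : ∀ β ∈ B, ∀ m i, ρ (u β m i) = u' (s ∘ β) (s m) i) :
    ∃ d : R, @IsLocalization.Away R _ d R' _ ρ.toAlgebra := by
  classical
  obtain ⟨β₀, hβ₀⟩ := hne
  choose N t ht using fun γ : Fin n → M' => away_unif L γ
  let T : (Fin n → M') → Matrix (Fin n) (Fin n) R := fun γ => trm u (t γ) β₀
  let d : R := (H.coord.mu hβ₀ h).det * ∏ γ ∈ hfin.toFinset, (T γ).det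
  refine ⟨d, ?_⟩
  have hs₀ := hB β₀ hβ₀
  have hd : IsUnit (ρ d) := by
    simp only [d, map_mul, map_prod]
    refine IsUnit.mul ?_ (IsUnit.prod_iff.2 fun γ hγ => ?_)
    · have : ρ.mapMatrix (H.coord.mu hβ₀ h) = H'.coord.mu hs₀ (r h) := by
        ext i j
        simp only [RingHom.mapMatrix_apply, Matrix.map_apply, Coord.mu_apply, h₂ β₀ hβ₀, L.smul]
        rfl
      rw [RingHom.map_det, this]
      exact away_unit_mu _ _ L.unit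
    · have : ρ.mapMatrix (T γ) = H'.coord.mu hs₀ (r h ^ N γ) * trm u' γ (s ∘ β₀) := by
        rw [← away_mat]
        ext i j
        simp only [RingHom.mapMatrix_apply, Matrix.map_apply, T, trm, Matrix.of_apply,
          h₂ β₀ hβ₀, ht]
      rw [RingHom.map_det, this, Matrix.det_mul]
      exact (away_unit_mu _ _ (L.unit.pow _)).mul
        (away_unit_trm H'.coord hs₀ (hfin.mem_toFinset.1 hγ))
  let R₁ := Localization.Away d
  let a : R →+* R₁ := algebraMap R R₁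
  have had : IsUnit (a d) := IsLocalization.Away.algebraMap_isUnit d
  simp only [d, map_mul, map_prod] at had
  have had₁ := isUnit_of_mul_isUnit_left had
  have had₂ := IsUnit.prod_iff.1 (isUnit_of_mul_isUnit_right had)
  let ψ : R₁ →+* R' := IsLocalization.Away.lift d hd
  have hψ : ∀ x, ψ (a x) = ρ x := fun x => IsLocalization.Away.lift_eq d hd x
  have Ha : Coord κ (a.comp ν) B fun β m i => a (u β m i) := H.coord.map a fun _ => rfl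
  have hu : IsUnit (Ha.mu hβ₀ h).det := by
    rw [RingHom.map_det] at had₁
    exact had₁
  obtain ⟨c', Hc', hc'⟩ := Ha.extend hβ₀ L hr hu
  have hB' : ∀ γ ∈ B', IsUnit (trm (fun _ => c') γ (s ∘ β₀)).det := by
    intro γ hγ
    have h3 := had₂ γ (hfin.mem_toFinset.2 hγ)
    have : a.mapMatrix (T γ) =
        Hc'.mu (Set.mem_singleton _) (r h ^ N γ) * trm (fun _ => c') γ (s ∘ β₀) := by
      rw [← away_mat]
      ext i j
      simp only [RingHom.mapMatrix_apply, Matrix.map_apply, T, trm, Matrix.of_apply, ← ht, hc']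
    rw [RingHom.map_det, this, Matrix.det_mul] at h3
    exact isUnit_of_mul_isUnit_right h3
  obtain ⟨c'', Hc'', hc''⟩ := Hc'.change (Set.mem_singleton _) B' hB'
  obtain ⟨φ, hφ₁, hφ₂⟩ := H'.lift R₁ (a.comp ν) c'' Hc''
  have e₁ : φ.comp ρ = a := by
    refine H.ext (fun z => ?_) fun β hβ m i => ?_
    · simp only [RingHom.comp_apply, h₁, hφ₁]
    · simp only [RingHom.comp_apply, h₂ β hβ, hφ₂ _ (hB β hβ)]
      have h3 := hc'' _ (hB β hβ) (s m)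
      have h4 : trm (fun _ => c') (s ∘ β) (s ∘ β₀) = trm (fun β m i => a (u β m i)) β β₀ := by
        ext i j
        simp only [trm, Matrix.of_apply, Function.comp_apply, hc']
      rw [h4, hc'] at h3
      exact congrFun (away_cancel Ha hβ₀ hβ h3) i
  have e₂ : ψ.comp φ = RingHom.id R' := by
    have Hψ : Coord κ' ν' {s ∘ β₀} fun _ m i => ψ (c' m i) :=
      Hc'.map ψ fun z => by rw [RingHom.comp_apply, hψ, h₁]
    have h5 : (fun m i => ψ (c' m i)) = u' (s ∘ β₀) :=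
      Hψ.ext_loc H'.coord L (Set.mem_singleton _) hs₀ fun m => by
        ext i
        simp only [hc', hψ, h₂ β₀ hβ₀]
    refine H'.ext (fun z => ?_) fun γ hγ m i => ?_
    · simp only [RingHom.comp_apply, hφ₁, hψ, h₁, RingHom.id_apply]
    · simp only [RingHom.comp_apply, hφ₂ _ hγ, RingHom.id_apply]
      refine congrFun (away_cancel H'.coord hs₀ hγ (v := fun i => ψ (c'' γ m i)) ?_) i
      ext i
      have h6 := congrArg ψ (congrFun (hc'' γ hγ m) i)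
      simp only [mulVec, dotProduct, map_sum, map_mul, trm, Matrix.of_apply] at h6
      simp only [mulVec, dotProduct, trm, Matrix.of_apply, ← h5, h6]
  have e₃ : φ.comp ψ = RingHom.id R₁ := by
    refine IsLocalization.ringHom_ext (Submonoid.powers d) ?_
    ext x
    exact (congrArg φ (hψ x)).trans (RingHom.congr_fun e₁ x)
  let _ := ρ.toAlgebra
  exact IsLocalization.isLocalization_of_algEquiv (Submonoid.powers d)
    (AlgEquiv.ofRingEquiv (f := RingEquiv.ofRingHom ψ φ e₂ e₃) hψ)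

theorem Coord.meet {A₁ M₁ A₂ M₂ A₃ M₃ : Type} [CommRing A₁] [AddCommGroup M₁] [Module A₁ M₁]
    [CommRing A₂] [AddCommGroup M₂] [Module A₂ M₂] [CommRing A₃] [AddCommGroup M₃] [Module A₃ M₃]
    {κ₁ : k →+* A₁} {κ₂ : k →+* A₂} {κ₃ : k →+* A₃} {ν : k →+* R}
    {B₁ : Set (Fin n → M₁)} {B₂ : Set (Fin n → M₂)} {c₁ : (Fin n → M₁) → M₁ → Fin n → R}
    {c₂ : (Fin n → M₂) → M₂ → Fin n → R} (H₁ : Coord κ₁ ν B₁ c₁) (H₂ : Coord κ₂ ν B₂ c₂)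
    {h₁ h₂ : A} {r₁ : A →+* A₁} {r₂ : A →+* A₂} {s₁ : M →+ M₁} {s₂ : M →+ M₂}
    {r₁₃ : A₁ →+* A₃} {r₂₃ : A₂ →+* A₃} {s₁₃ : M₁ →+ M₃} {s₂₃ : M₂ →+ M₃}
    (L₁ : LocData h₁ r₁ s₁) (L₂ : LocData h₂ r₂ s₂) (L₁₃ : LocData (r₁ h₂) r₁₃ s₁₃)
    (L₂₃ : LocData (r₂ h₁) r₂₃ s₂₃) (hκ₁ : ∀ z, r₁₃ (κ₁ z) = κ₃ z) (hκ₂ : ∀ z, r₂₃ (κ₂ z) = κ₃ z)
    (hr : ∀ a, r₁₃ (r₁ a) = r₂₃ (r₂ a)) (hs : ∀ m, s₁₃ (s₁ m) = s₂₃ (s₂ m)) {β : Fin n → M}
    (hβ₁ : s₁ ∘ β ∈ B₁) (hβ₂ : s₂ ∘ β ∈ B₂) (e : ∀ m, c₁ (s₁ ∘ β) (s₁ m) = c₂ (s₂ ∘ β) (s₂ m)) :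
    ∃ c₃ : (Fin n → M₃) → M₃ → Fin n → R,
      Coord κ₃ ν ((fun γ => s₁₃ ∘ γ) '' B₁ ∪ (fun γ => s₂₃ ∘ γ) '' B₂) c₃ ∧
      (∀ γ ∈ B₁, ∀ m, c₃ (s₁₃ ∘ γ) (s₁₃ m) = c₁ γ m) ∧
      ∀ γ ∈ B₂, ∀ m, c₃ (s₂₃ ∘ γ) (s₂₃ m) = c₂ γ m := by
  have hmu : ∀ a, H₁.mu hβ₁ (r₁ a) = H₂.mu hβ₂ (r₂ a) := by
    intro a
    ext i j
    simp only [Coord.mu_apply, Function.comp_apply, ← L₁.smul, ← L₂.smul, e]
  obtain ⟨d₁, D₁, hd₁⟩ := H₁.extend hβ₁ L₁₃ hκ₁ (by rw [hmu]; exact away_unit_mu _ _ L₂.unit)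
  obtain ⟨d₂, D₂, hd₂⟩ := H₂.extend hβ₂ L₂₃ hκ₂ (by rw [← hmu]; exact away_unit_mu _ _ L₁.unit)
  have hββ : s₂₃ ∘ s₂ ∘ β = s₁₃ ∘ s₁ ∘ β := funext fun j => (hs _).symm
  rw [hββ] at D₂
  have D₃ : Coord κ₁ ν {s₁ ∘ β} fun _ m => d₂ (s₁₃ m) :=
    D₂.res r₁₃ s₁₃ hκ₁ L₁₃.smul fun γ hγ => by rw [Set.mem_singleton_iff.1 hγ]; rfl
  have h3 : c₁ (s₁ ∘ β) = fun m => d₂ (s₁₃ m) :=
    H₁.ext_loc D₃ L₁ hβ₁ (Set.mem_singleton _) fun m => by rw [e, hs, hd₂]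
  have h4 : d₁ = d₂ :=
    D₁.ext_loc D₂ L₁₃ (Set.mem_singleton _) (Set.mem_singleton _) fun m => by rw [hd₁, h3]
  subst h4
  have t₁ : ∀ γ, trm (fun _ => d₁) (s₁₃ ∘ γ) (s₁₃ ∘ s₁ ∘ β) = trm c₁ γ (s₁ ∘ β) := by
    intro γ
    ext i j
    simp only [trm, Matrix.of_apply, Function.comp_apply, hd₁]
  have t₂ : ∀ γ, trm (fun _ => d₁) (s₂₃ ∘ γ) (s₁₃ ∘ s₁ ∘ β) = trm c₂ γ (s₂ ∘ β) := by
    intro γ
    ext i j
    simp only [trm, Matrix.of_apply, Function.comp_apply, hd₂]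
  obtain ⟨c₃, H₃, hc₃⟩ := D₁.change (Set.mem_singleton _)
    ((fun γ => s₁₃ ∘ γ) '' B₁ ∪ (fun γ => s₂₃ ∘ γ) '' B₂) (by
      rintro _ (⟨γ, hγ, rfl⟩ | ⟨γ, hγ, rfl⟩)
      · rw [t₁]
        exact away_unit_trm H₁ hβ₁ hγ
      · rw [t₂]
        exact away_unit_trm H₂ hβ₂ hγ)
  refine ⟨c₃, H₃, fun γ hγ m => ?_, fun γ hγ m => ?_⟩
  · have := hc₃ _ (Or.inl ⟨γ, hγ, rfl⟩) (s₁₃ m)
    rw [t₁, hd₁] at this
    exact away_cancel H₁ hβ₁ hγ this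
  · have := hc₃ _ (Or.inr ⟨γ, hγ, rfl⟩) (s₂₃ m)
    rw [t₂, hd₂] at this
    exact away_cancel H₂ hβ₂ hγ this

end Pool.Agent.Lib.MP_d4c0ca_ag.Q
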