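import Pool.Agent.Lib.MP_d4c0ca_ag.Q.Sec

/-! Epimorphisms, cokernels and kernels in terms of sections. -/

set_option autoImplicit false

namespace Pool.Agent.Lib.MP_d4c0ca_ag.Q

open CategoryTheory AlgebraicGeometry Opposite TopologicalSpace Scheme.Modules
open Pool.Agent.Lib.MP_cd184e_ag.B

variable {Y : Scheme.{0}} {K M E E' : Y.Modules} {W : Y.Opens}

theorem Epi_mono (ι : K ⟶ M) (hι : ∀ V, Function.Injective (ι.app V)) : Mono ι :=
  ⟨fun a b e => Scheme.Modules.hom_ext _ _ fun V => by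
    ext s
    exact hι V (congrArg (fun f => Scheme.Modules.Hom.app f V s) e)⟩

theorem loc_surj_of_epi (q : M ⟶ E) [Epi q] (s : Γ(E, W)) {y : Y} (hy : y ∈ W) :
    ∃ (W' : Y.Opens) (h : W' ≤ W), y ∈ W' ∧ ∃ t, q.app W' t = mres E h s := by
  let Q : ∀ V : Y.Opens, Submodule Γ(Y, V) Γ(E, V) := fun V =>
    { carrier := {s | ∀ x ∈ V, ∃ (W' : Y.Opens) (h : W' ≤ V), x ∈ W' ∧
        ∃ t, q.app W' t = mres E h s}
      zero_mem' := fun x hx => ⟨V, le_rfl, hx, 0, by rw [map_zero, map_zero]⟩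
      add_mem' := fun {a b} ha hb x hx => by
        obtain ⟨A, hA, xA, t, ht⟩ := ha x hx
        obtain ⟨B, hB, xB, u, hu⟩ := hb x hx
        refine ⟨A ⊓ B, inf_le_left.trans hA, ⟨xA, xB⟩,
          mres M inf_le_left t + mres M inf_le_right u, ?_⟩
        rw [map_add, ← mres_app, ← mres_app, ht, hu, mres_mres, mres_mres, map_add]
      smul_mem' := fun r a ha x hx => by
        obtain ⟨A, hA, xA, t, ht⟩ := ha x hx
        exact ⟨A, hA, xA, rres hA r • t, by rw [Scheme.Modules.Hom.app_smul, ht, mres_smul]⟩ }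
  obtain ⟨N, ι, h⟩ := T.so_exists_sub E Q (fun V V' hV a ha x hx => by
      obtain ⟨A, hA, xA, t, ht⟩ := ha x (hV hx)
      exact ⟨A ⊓ V', inf_le_right, ⟨xA, hx⟩, mres M inf_le_left t, by
        rw [← mres_app, ht, mres_mres, mres_mres]⟩)
    fun V a ha x hx => by
      obtain ⟨A, hA, xA, e⟩ := ha x hx
      obtain ⟨B, hB, xB, t, ht⟩ := e x xA
      exact ⟨B, hB.trans hA, xB, t, by rw [ht, mres_mres]⟩
  obtain ⟨ψ, hψ⟩ := T.so_lift ι (fun V => (h V).1) q fun V a =>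
    ((h V).2 _).1 fun x hx => ⟨V, le_rfl, hx, a, (mres_self _ _ _).symm⟩
  have := Epi_mono ι fun V => (h V).1
  have : Epi ι := epi_of_epi_fac hψ
  have : IsIso ι := isIso_of_mono_of_epi ι
  exact ((h W).2 s).2 ⟨(inv ι).app W s, congr(($(IsIso.inv_hom_id ι)).app W s)⟩ y hy

theorem surj_of_epi (q : M ⟶ E) [Epi q] (hW : IsAffineOpen W) (hM : LocAt M W) (hE : LocAt E W) :
    Function.Surjective (q.app W) := by
  intro s
  let L : Γ(M, W) →ₗ[Γ(Y, W)] Γ(E, W) := ⟨⟨q.app W, map_add _⟩, Scheme.Modules.Hom.app_smul q⟩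
  have key : ∀ x : W, ∃ f : Γ(Y, W), x.1 ∈ Y.basicOpen f ∧
      ∃ n : ℕ, f ^ n • s ∈ LinearMap.range L := by
    intro x
    obtain ⟨A, hA, xA, t, ht⟩ := loc_surj_of_epi q s x.2
    obtain ⟨f, hf, hx⟩ := hW.exists_basicOpen_le (V := A) ⟨x.1, xA⟩ x.2
    obtain ⟨n, u, hu⟩ := hM.ex f _ (Y.basicOpen_le f) rfl (mres M hf t)
    obtain ⟨m, hm⟩ := hE.un f _ (Y.basicOpen_le f) rfl (f ^ n • s - q.app W u) (by
      rw [map_sub, mres_app, hu, Scheme.Modules.Hom.app_smul, ← mres_app, ht, mres_mres,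
        mres_smul, map_pow, sub_self])
    refine ⟨f, hx, m + n, f ^ m • u, ?_⟩
    rw [smul_sub, sub_eq_zero, ← mul_smul, ← pow_add] at hm
    rw [hm]
    exact Scheme.Modules.Hom.app_smul q _ _
  choose f hx hf using key
  have hspan : Ideal.span (Set.range f) = ⊤ := by
    rw [← hW.self_le_iSup_basicOpen_iff]
    intro x hxU
    exact Opens.mem_iSup.2 ⟨⟨f ⟨x, hxU⟩, _, rfl⟩, hx ⟨x, hxU⟩⟩
  refine Submodule.mem_of_span_eq_top_of_smul_pow_mem (LinearMap.range L) _ hspan s ?_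
  rintro ⟨_, x, rfl⟩
  exact hf x

set_option backward.isDefEq.respectTransparency false in
theorem Epi_locAt_coker (ι : K ⟶ M) (hW : IsAffineOpen W) (hK : LocAt K W) (hM : LocAt M W) :
    LocAt (Limits.cokernel ι) W := by
  rw [locAt_iff _ hW, isIso_fromTildeΓ_iff] at hK hM ⊢
  obtain ⟨A, ⟨a⟩⟩ := hK
  obtain ⟨B, ⟨b⟩⟩ := hM
  let f : A ⟶ B := (tilde.functor _).preimage
    (a.hom ≫ (restrictFunctor hW.fromSpec).map ι ≫ b.inv)
  refine ⟨Limits.cokernel f, ⟨Limits.PreservesCokernel.iso (tilde.functor _) f ≪≫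
    Limits.cokernel.mapIso _ _ a b ?_ ≪≫
      (Limits.PreservesCokernel.iso (restrictFunctor hW.fromSpec) ι).symm⟩⟩
  simp only [f, Functor.map_preimage]
  simp

theorem exists_coker [IsLocallyNoetherian Y] (ι : K ⟶ M)
    (hι : ∀ V, Function.Injective (ι.app V)) (hK : K.IsFinitePresentation)
    (hM : M.IsFinitePresentation) : ∃ (E : Y.Modules) (q : M ⟶ E), Epi q ∧
      E.IsFinitePresentation ∧ ∀ V s, q.app V s = 0 ↔ ∃ t, ι.app V t = s := by
  have := Epi_mono ι hι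
  let q := Limits.cokernel.π ι
  have hL : ∀ U : Y.affineOpens, LocAt (Limits.cokernel ι) U.1 := fun U =>
    Epi_locAt_coker ι U.2 (locAt_of_fp hK U.2) (locAt_of_fp hM U.2)
  refine ⟨_, q, inferInstance, fp_of_cover _ (fun U : Y.affineOpens => U.1) (fun U => U.2)
    (iSup_affineOpens_eq_top Y) (fun U => IsLocallyNoetherian.component_noetherian U) hL
    fun U => ?_, fun V s => ⟨fun hs => ?_, ?_⟩⟩
  · have := finite_of_fp M U.2
    exact Module.Finite.of_surjective (⟨⟨q.app U.1, map_add _⟩, Scheme.Modules.Hom.app_smul q⟩ :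
      Γ(M, U.1) →ₗ[Γ(Y, U.1)] Γ(Limits.cokernel ι, U.1))
      (surj_of_epi q U.2 (locAt_of_fp hM U.2) (hL U))
  · obtain ⟨N, j, h⟩ := T.so_exists_sub M (fun V => LinearMap.ker
      (⟨⟨q.app V, map_add _⟩, Scheme.Modules.Hom.app_smul q⟩ :
        Γ(M, V) →ₗ[Γ(Y, V)] Γ(Limits.cokernel ι, V)))
      (fun V W h s hs => (mres_app q h s).symm.trans ((congrArg _ hs).trans (map_zero _)))
      fun V s h => sec_ext _ _ _ fun x hx => by
        obtain ⟨W, hW, m, e⟩ := h x hx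
        exact ⟨W, hW, m, (mres_app q hW s).trans (Eq.trans e (map_zero _).symm)⟩
    have z : j ≫ q = 0 := Scheme.Modules.hom_ext _ _ fun V => by
      ext t
      exact ((h V).2 _).2 ⟨t, rfl⟩
    obtain ⟨t, rfl⟩ := ((h V).2 s).1 hs
    exact ⟨(Abelian.monoLift ι j z).app V t, congr(($(Abelian.monoLift_comp ι j z)).app V t)⟩
  · rintro ⟨t, rfl⟩
    exact congr(($(Limits.cokernel.condition ι)).app V t)

theorem iso_of_ker (q : M ⟶ E) (q' : M ⟶ E') [Epi q] [Epi q']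
    (h : ∀ V s, q.app V s = 0 ↔ q'.app V s = 0) : ∃ e : E ≅ E', q ≫ e.hom = q' := by
  have z : Limits.kernel.ι q ≫ q' = 0 := Scheme.Modules.hom_ext _ _ fun V => by
    ext t
    exact (h V _).1 congr(($(Limits.kernel.condition q)).app V t)
  have z' : Limits.kernel.ι q' ≫ q = 0 := Scheme.Modules.hom_ext _ _ fun V => by
    ext t
    exact (h V _).2 congr(($(Limits.kernel.condition q')).app V t)
  exact ⟨⟨Abelian.epiDesc q q' z, Abelian.epiDesc q' q z', by simp [← cancel_epi q],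
    by simp [← cancel_epi q']⟩, Abelian.comp_epiDesc _ _ _⟩

theorem Van.bij {W' : Y.Opens} (h' : W' ≤ W) (hv : ∀ y ∈ W, y ∉ W' → Van E y) :
    Function.Bijective (mres E h') := by
  choose A xA hA using fun y : {y : Y // y ∈ W ∧ y ∉ W'} => hv y.1 y.2.1 y.2.2
  refine ⟨fun s t e => sec_ext E _ _ fun x hx => ?_, fun s => ?_⟩
  · by_cases hx' : x ∈ W'
    · exact ⟨W', h', hx', e⟩
    · exact ⟨A ⟨x, hx, hx'⟩ ⊓ W, inf_le_right, ⟨xA ⟨x, hx, hx'⟩, hx⟩,
        (hA _ _ inf_le_left _).trans (hA _ _ inf_le_left _).symm⟩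
  · obtain ⟨t, ht⟩ := sec_glue E (U := W)
      (fun i : Option {y : Y // y ∈ W ∧ y ∉ W'} => Option.rec W' (fun y => A y ⊓ W) i)
      (fun i => by
        cases i
        · exact h'
        · exact inf_le_right)
      (fun x hx => by
        by_cases hx' : x ∈ W'
        · exact Opens.mem_iSup.2 ⟨none, hx'⟩
        · exact Opens.mem_iSup.2 ⟨some ⟨x, hx, hx'⟩, xA ⟨x, hx, hx'⟩, hx⟩)
      (fun i => Option.rec s (fun _ => 0) i) fun i j => by
        rcases i with _ | i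
        · rcases j with _ | j
          · rfl
          · exact (hA j _ (inf_le_right.trans inf_le_left) _).trans
              (hA j _ (inf_le_right.trans inf_le_left) _).symm
        · exact (hA i _ (inf_le_left.trans inf_le_left) _).trans
            (hA i _ (inf_le_left.trans inf_le_left) _).symm
    exact ⟨t, ht none⟩

theorem exists_ann (hW : IsAffineOpen W) (hE : E.IsFinitePresentation) {y : Y} (hy : y ∈ W)
    (hv : Van E y) : ∃ a : Γ(Y, W), y ∈ Y.basicOpen a ∧ ∀ s : Γ(E, W), a • s = 0 := by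
  obtain ⟨A, xA, hA⟩ := hv
  obtain ⟨f, hf, hx⟩ := hW.exists_basicOpen_le (V := A) ⟨y, xA⟩ hy
  choose n hn using fun s : Γ(E, W) =>
    (locAt_of_fp hE hW).un f _ (Y.basicOpen_le f) rfl s (hA _ hf _)
  obtain ⟨S, hS⟩ := (finite_of_fp E hW).fg_top
  refine ⟨f ^ (S.sup n + 1), by rwa [Scheme.basicOpen_pow _ _ (Nat.succ_pos _)], fun s => ?_⟩
  have hs : s ∈ Submodule.span Γ(Y, W) (S : Set Γ(E, W)) := by rw [hS]; trivial
  induction hs using Submodule.span_induction with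
  | mem x hx =>
    obtain ⟨k, hk⟩ := Nat.exists_eq_add_of_le' (Nat.le_succ_of_le (Finset.le_sup (f := n) hx))
    rw [Nat.succ_eq_add_one] at hk
    rw [hk, pow_add, mul_smul, hn, smul_zero]
  | zero => exact smul_zero _
  | add x y _ _ ex ey => rw [smul_add, ex, ey, add_zero]
  | smul r x _ ex => rw [smul_comm, ex, smul_zero]

end Pool.Agent.Lib.MP_d4c0ca_ag.Q
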