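import Pool.Agent.Lib.MP_d4c0ca_ag.Q.PB
import Pool.Agent.Lib.MP_d4c0ca_ag.Q.Epi
import Pool.Agent.Lib.MP_d4c0ca_ag.Q.Alg

/-! Products of affine open sets. -/

set_option autoImplicit false

namespace Pool.Agent.Lib.MP_d4c0ca_ag.Q

open CategoryTheory AlgebraicGeometry Opposite TopologicalSpace Scheme.Modules
open Pool.Agent.Lib.MP_cd184e_ag.B

variable {X T Y : Scheme.{0}} {sX : X ⟶ SC} {sT : T ⟶ SC} {p : Y ⟶ X} {π : Y ⟶ T}
  {U : X.Opens} {V : T.Opens}

theorem po_push (sq : IsPullback p π sX sT) (hU : IsAffineOpen U) (hV : IsAffineOpen V) :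
    IsPushout (sX.appLE ⊤ U le_top) (sT.appLE ⊤ V le_top)
      (p.appLE U (box p π U V) inf_le_left) (π.appLE V (box p π U V) inf_le_right) :=
  (isIso_pushoutSection_iff sq (US := ⊤) le_top le_top rfl).1
    (isIso_pushoutSection_of_isAffineOpen sq le_top le_top rfl (isAffineOpen_top SC) hV hU)

theorem box_aff (sq : IsPullback p π sX sT) (hU : IsAffineOpen U) (hV : IsAffineOpen V) :
    IsAffineOpen (box p π U V) := by
  have : IsAffine _ := isAffineOpen_top SC
  have : IsAffine _ := hU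
  have : IsAffine _ := hV
  exact .of_isIso (Scheme.Hom.isPullback_resLE sq (US := ⊤) (UT := V) (UX := U) le_top le_top
    rfl).isoPullback.hom

theorem box_cst (sq : IsPullback p π sX sT) (z : kk) :
    apa p π U V (cst sX U z) = apb p π U V (cst sT V z) :=
  (ap_cst p sX rfl _ z).trans (ap_cst π sT sq.w.symm _ z).symm

theorem po_desc (sq : IsPullback p π sX sT) (hU : IsAffineOpen U) (hV : IsAffineOpen V)
    {C : Type} [CommRing C] (f : Γ(X, U) →+* C) (g : Γ(T, V) →+* C)
    (h : ∀ z, f (cst sX U z) = g (cst sT V z)) : ∃ ρ : Γ(Y, box p π U V) →+* C,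
      (∀ a, ρ (apa p π U V a) = f a) ∧ ∀ r, ρ (apb p π U V r) = g r := by
  have w : sX.appLE ⊤ U le_top ≫ CommRingCat.ofHom f = sT.appLE ⊤ V le_top ≫ CommRingCat.ofHom g :=
    CommRingCat.hom_ext (RingHom.ext h)
  exact ⟨((po_push sq hU hV).desc _ _ w).hom, fun a => congr($((po_push sq hU hV).inl_desc _ _ w) a),
    fun r => congr($((po_push sq hU hV).inr_desc _ _ w) r)⟩

theorem po_ext (sq : IsPullback p π sX sT) (hU : IsAffineOpen U) (hV : IsAffineOpen V)
    {C : Type} [CommRing C] (ρ ρ' : Γ(Y, box p π U V) →+* C)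
    (h₁ : ∀ a, ρ (apa p π U V a) = ρ' (apa p π U V a))
    (h₂ : ∀ r, ρ (apb p π U V r) = ρ' (apb p π U V r)) : ρ = ρ' := by
  have := (po_push sq hU hV).hom_ext (k := CommRingCat.ofHom ρ) (l := CommRingCat.ofHom ρ')
    (CommRingCat.hom_ext (RingHom.ext h₁)) (CommRingCat.hom_ext (RingHom.ext h₂))
  exact congrArg CommRingCat.Hom.hom this

theorem box_gen (sq : IsPullback p π sX sT) (hU : IsAffineOpen U) (hV : IsAffineOpen V)
    (S : Subring Γ(Y, box p π U V)) (h₁ : ∀ a, apa p π U V a ∈ S) (h₂ : ∀ r, apb p π U V r ∈ S) :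
    S = ⊤ := by
  obtain ⟨ρ, e₁, e₂⟩ := po_desc sq hU hV ((apa p π U V).codRestrict S h₁)
    ((apb p π U V).codRestrict S h₂) fun z => Subtype.ext (box_cst sq z)
  have e := po_ext sq hU hV (S.subtype.comp ρ) (RingHom.id _)
    (fun a => congrArg Subtype.val (e₁ a)) fun r => congrArg Subtype.val (e₂ r)
  refine eq_top_iff.2 fun x _ => ?_
  have e' : (ρ x).1 = x := RingHom.congr_fun e x
  exact e' ▸ (ρ x).2

theorem box_mat (sq : IsPullback p π sX sT) (hU : IsAffineOpen U) (hV : IsAffineOpen V) {n : ℕ}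
    (μ : Γ(X, U) →+* Matrix (Fin n) (Fin n) Γ(T, V))
    (hμ : ∀ z, μ (cst sX U z) = Matrix.scalar (Fin n) (cst sT V z)) :
    ∃ ρ : Γ(Y, box p π U V) →+* Matrix (Fin n) (Fin n) Γ(T, V),
      (∀ a, ρ (apa p π U V a) = μ a) ∧ ∀ r, ρ (apb p π U V r) = Matrix.scalar (Fin n) r := by
  have hs : ∀ (r : Γ(T, V)) (m : Matrix (Fin n) (Fin n) Γ(T, V)),
      Matrix.scalar (Fin n) r * m = m * Matrix.scalar (Fin n) r := fun r m =>
    (Matrix.scalar_commute r (fun r' => Commute.all r r') m).eq
  have hc : ∀ x ∈ Set.range μ ∪ Set.range (Matrix.scalar (Fin n)),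
      ∀ y ∈ Set.range μ ∪ Set.range (Matrix.scalar (Fin n)), x * y = y * x := by
    rintro x (⟨a, rfl⟩ | ⟨r, rfl⟩) y (⟨b, rfl⟩ | ⟨s, rfl⟩)
    · rw [← map_mul, ← map_mul, mul_comm]
    · exact (hs s _).symm
    · exact hs r _
    · exact hs r _
  have hm := Subring.isMulCommutative_closure hc
  let _ : CommRing (Subring.closure (Set.range μ ∪ Set.range (Matrix.scalar (Fin n)))) :=
    { (inferInstance : Ring _) with mul_comm := fun a b => hm.is_comm.comm a b }
  obtain ⟨ρ, e₁, e₂⟩ := po_desc sq hU hV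
    (C := Subring.closure (Set.range μ ∪ Set.range (Matrix.scalar (Fin n))))
    (μ.codRestrict _ fun a => Subring.subset_closure (Or.inl ⟨a, rfl⟩))
    ((Matrix.scalar (Fin n)).codRestrict _ fun r => Subring.subset_closure (Or.inr ⟨r, rfl⟩))
    fun z => Subtype.ext (hμ z)
  exact ⟨(Subring.subtype _).comp ρ, fun a => congrArg Subtype.val (e₁ a),
    fun r => congrArg Subtype.val (e₂ r)⟩

theorem noeth_of_sq (sq : IsPullback p π sX sT) [LocallyOfFiniteType sX] [LocallyOfFiniteType sT] :
    IsLocallyNoetherian Y := by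
  have h : LocallyOfFiniteType π :=
    MorphismProperty.of_isPullback (P := @LocallyOfFiniteType) sq inferInstance
  exact LocallyOfFiniteType.isLocallyNoetherian (π ≫ sT)

theorem mem_range_of_sq (sq : IsPullback p π sX sT) {t : SC ⟶ T} {i : X ⟶ Y} (ht : t ≫ sT = 𝟙 _)
    (h₁ : i ≫ p = 𝟙 X) (h₂ : i ≫ π = sX ≫ t) {y : Y} (hy : π y ∈ Set.range t) :
    y ∈ Set.range i := by
  have h0 : IsPullback (i ≫ p) sX sX (t ≫ sT) := by
    rw [h₁, ht]
    exact IsPullback.of_horiz_isIso ⟨by simp⟩
  obtain ⟨x, hx⟩ := hy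
  obtain ⟨z, hz, -⟩ := Scheme.exists_preimage_of_isPullback (IsPullback.of_right h0 h₂ sq) y x
    hx.symm
  exact ⟨z, hz⟩

variable {G : X.Modules} {E : Y.Modules} {q : (pullback p).obj G ⟶ E}

theorem po_span (sq : IsPullback p π sX sT) (hG : G.IsFinitePresentation) (hU : IsAffineOpen U)
    (hV : IsAffineOpen V) (P : AddSubgroup Γ((pullback p).obj G, box p π U V))
    (h : ∀ r m, apb p π U V r • pb p G (inf_le_left : box p π U V ≤ _) m ∈ P) : P = ⊤ := by
  let S : Subring Γ(Y, box p π U V) :=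
    { carrier := {w | ∀ x ∈ AddSubgroup.closure {x | ∃ r m, x = apb p π U V r •
        pb p G (inf_le_left : box p π U V ≤ _) m}, w • x ∈ AddSubgroup.closure {x | ∃ r m,
          x = apb p π U V r • pb p G (inf_le_left : box p π U V ≤ _) m}}
      mul_mem' := fun {a b} ha hb x hx => by
        rw [mul_smul]
        exact ha _ (hb x hx)
      one_mem' := fun x hx => by rwa [one_smul]
      add_mem' := fun {a b} ha hb x hx => by
        rw [add_smul]
        exact add_mem (ha x hx) (hb x hx)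
      zero_mem' := fun x _ => by
        rw [zero_smul]
        exact zero_mem _
      neg_mem' := fun {a} ha x hx => by
        rw [neg_smul]
        exact neg_mem (ha x hx) }
  have key : ∀ w : Γ(Y, box p π U V), (∀ r m, ∃ r' m', w • apb p π U V r •
      pb p G (inf_le_left : box p π U V ≤ _) m = apb p π U V r' •
        pb p G (inf_le_left : box p π U V ≤ _) m') → w ∈ S := fun w hw x hx => by
    induction hx using AddSubgroup.closure_induction with
    | mem x hx =>
      obtain ⟨r, m, rfl⟩ := hx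
      exact AddSubgroup.subset_closure (hw r m)
    | zero =>
      rw [smul_zero]
      exact zero_mem _
    | add x y _ _ hx hy =>
      rw [smul_add]
      exact add_mem hx hy
    | neg x _ hx =>
      rw [smul_neg]
      exact neg_mem hx
  have hS : S = ⊤ := box_gen sq hU hV S
    (fun a => key _ fun r m => ⟨r, a • m, by rw [pb_smul, smul_comm]⟩)
    fun s => key _ fun r m => ⟨s * r, m, by rw [map_mul, mul_smul]⟩
  refine eq_top_iff.2 fun x _ => (AddSubgroup.closure_le P (k := {x | ∃ r m, x = apb p π U V r •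
    pb p G (inf_le_left : box p π U V ≤ _) m})).2 ?_ ?_
  · rintro _ ⟨r, m, rfl⟩
    exact h r m
  · have hx : x ∈ Submodule.span Γ(Y, box p π U V)
        (Set.range (pb p G (inf_le_left : box p π U V ≤ _))) := by
      rw [pb_span p hU (box_aff sq hU hV) _ (locAt_of_fp hG hU)]
      trivial
    induction hx using Submodule.span_induction with
    | mem x hx =>
      obtain ⟨m, rfl⟩ := hx
      exact AddSubgroup.subset_closure ⟨1, m, by rw [map_one, one_smul]⟩
    | zero => exact zero_mem _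
    | add x y _ _ hx hy => exact add_mem (hx trivial) (hy trivial)
    | smul w x _ hx =>
      have hw : w ∈ S := hS ▸ Subring.mem_top w
      exact hw x (hx trivial)

theorem Good.span (H : Good sX sT π q) (hG : G.IsFinitePresentation) (hU : IsAffineOpen U)
    (hV : IsAffineOpen V) (P : AddSubgroup Γ(E, box p π U V))
    (h : ∀ r m, apb p π U V r • thb π q U V m ∈ P) : P = ⊤ := by
  have := H.epi
  have hB := box_aff H.sq hU hV
  have h1 := po_span H.sq hG hU hV (P.comap (q.app (box p π U V)).hom) fun r m => by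
    have := h r m
    rw [th_def, ← Scheme.Modules.Hom.app_smul] at this
    exact this
  refine eq_top_iff.2 fun x _ => ?_
  obtain ⟨s, rfl⟩ := surj_of_epi q hB (locAt_pb p hU hB inf_le_left (locAt_of_fp hG hU))
    (locAt_of_fp H.fp hB) x
  have h2 : s ∈ P.comap (q.app (box p π U V)).hom := h1 ▸ AddSubgroup.mem_top s
  exact h2

theorem span_pb (sq : IsPullback p π sX sT) (hG : G.IsFinitePresentation) (hU : IsAffineOpen U)
    (hV : IsAffineOpen V) (P : AddSubgroup Γ((pullback p).obj G, box p π U V))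
    (h : ∀ r m, apb p π U V r • pb p G (inf_le_left : box p π U V ≤ _) m ∈ P) : P = ⊤ :=
  po_span sq hG hU hV P h

theorem locData_res (hG : G.IsFinitePresentation) (hU : IsAffineOpen U) {U' : X.Opens}
    (h : U' ≤ U) {a : Γ(X, U)} (e : U' = X.basicOpen a) : LocData a (rres h) (mres G h) where
  smul := mres_smul G h
  unit := isUnit_rres a h e.le
  surjA a' := by
    subst e
    have := hU.isLocalization_basicOpen a
    obtain ⟨⟨b, _, N, rfl⟩, hb⟩ := IsLocalization.surj (Submonoid.powers a) a'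
    refine ⟨N, b, ?_⟩
    rw [← map_pow, mul_comm]
    exact hb.symm
  surjM := (locAt_of_fp hG hU).ex a U' h e
  injM := (locAt_of_fp hG hU).un a U' h e

end Pool.Agent.Lib.MP_d4c0ca_ag.Q
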