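import Pool.Agent.Lib.MP_d4c0ca_ag.Q.Alg

/-! The ring of universal coordinates. -/

set_option autoImplicit false

namespace Pool.Agent.Lib.MP_d4c0ca_ag.Q

variable {k A M R R' : Type} [CommRing k] [CommRing A] [AddCommGroup M] [Module A M]
  [CommRing R] [CommRing R'] {n : ℕ}

theorem exists_univ (κ : k →+* A) (B : Set (Fin n → M)) :
    ∃ (R : Type) (_ : CommRing R) (ν : k →+* R) (u : (Fin n → M) → M → Fin n → R),
      IsUniv κ ν B u := by
  classical
  let x : (Fin n → M) → M → Fin n → MvPolynomial ((Fin n → M) × M × Fin n) k :=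
    fun β m i => MvPolynomial.X (β, m, i)
  let S : Set (MvPolynomial ((Fin n → M) × M × Fin n) k) := {f |
    (∃ β ∈ B, ∃ m m' i, f = x β (m + m') i - (x β m i + x β m' i)) ∨
    (∃ β ∈ B, ∃ z m i, f = x β (κ z • m) i - MvPolynomial.C z * x β m i) ∨
    (∃ β ∈ B, ∃ j i, f = x β (β j) i - if i = j then 1 else 0) ∨
    (∃ β ∈ B, ∃ β' ∈ B, ∃ (a : A) (m : M) (i : Fin n),
      f = x β' (a • m) i - ∑ j, x β m j * x β' (a • β j) i) ∨
    ∃ β ∉ B, ∃ m i, f = x β m i}
  let π := Ideal.Quotient.mk (Ideal.span S)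
  have hz : ∀ f g, f - g ∈ S → π f = π g := fun f g h =>
    Ideal.Quotient.eq.2 (Ideal.subset_span h)
  refine ⟨_ ⧸ Ideal.span S, inferInstance, π.comp MvPolynomial.C, fun β m i => π (x β m i),
    ⟨fun β hβ m m' i => ?_, fun β hβ z m i => ?_, fun β hβ j i => ?_,
      fun β hβ β' hβ' a m i => ?_⟩, fun R' _ ν' c hc => ?_, fun T h1 h2 => ?_⟩
  · rw [hz _ _ (Or.inl ⟨β, hβ, m, m', i, rfl⟩), map_add]
  · rw [hz _ _ (Or.inr (Or.inl ⟨β, hβ, z, m, i, rfl⟩)), map_mul]; rfl
  · rw [hz _ _ (Or.inr (Or.inr (Or.inl ⟨β, hβ, j, i, rfl⟩)))]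
    split_ifs <;> simp
  · rw [hz _ _ (Or.inr (Or.inr (Or.inr (Or.inl ⟨β, hβ, β', hβ', a, m, i, rfl⟩)))), map_sum]
    simp only [map_mul]
  · let φ : MvPolynomial ((Fin n → M) × M × Fin n) k →+* R' :=
      MvPolynomial.eval₂Hom ν' fun v => if v.1 ∈ B then c v.1 v.2.1 v.2.2 else 0
    have hx : ∀ β ∈ B, ∀ m i, φ (x β m i) = c β m i := fun β hβ m i => by simp [φ, x, hβ]
    have hC : ∀ z, φ (MvPolynomial.C z) = ν' z := fun z => by simp [φ]
    have hS : Ideal.span S ≤ RingHom.ker φ := Ideal.span_le.2 (by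
      rintro f (⟨β, hβ, m, m', i, rfl⟩ | ⟨β, hβ, z, m, i, rfl⟩ | ⟨β, hβ, j, i, rfl⟩ |
        ⟨β, hβ, β', hβ', a, m, i, rfl⟩ | ⟨β, hβ, m, i, rfl⟩) <;> change φ _ = 0
      · rw [map_sub, map_add, hx _ hβ, hx _ hβ, hx _ hβ, hc.add _ hβ, sub_self]
      · rw [map_sub, map_mul, hx _ hβ, hx _ hβ, hC, hc.const _ hβ, sub_self]
      · rw [map_sub, hx _ hβ, hc.bas _ hβ]
        split_ifs <;> simp
      · rw [map_sub, map_sum, hx _ hβ', hc.mul _ hβ _ hβ']
        simp only [map_mul, hx _ hβ, hx _ hβ', sub_self]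
      · simp [φ, x, hβ])
    exact ⟨Ideal.Quotient.lift _ φ hS, hC, hx⟩
  · refine eq_top_iff.2 fun r _ => ?_
    obtain ⟨f, rfl⟩ := Ideal.Quotient.mk_surjective r
    change π f ∈ T
    induction f using MvPolynomial.induction_on with
    | C z => exact h1 z
    | add f g hf hg => rw [map_add]; exact add_mem (hf trivial) (hg trivial)
    | mul_X f v hf =>
      rw [map_mul]
      refine mul_mem (hf trivial) ?_
      by_cases hv : v.1 ∈ B
      · exact h2 v.1 hv v.2.1 v.2.2
      · rw [show π (MvPolynomial.X v) = 0 from Ideal.Quotient.eq_zero_iff_mem.2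
          (Ideal.subset_span (Or.inr (Or.inr (Or.inr (Or.inr ⟨v.1, hv, v.2.1, v.2.2, rfl⟩)))))]
        exact zero_mem _

variable {κ : k →+* A} {ν : k →+* R} {B : Set (Fin n → M)} {u : (Fin n → M) → M → Fin n → R}

theorem IsUniv.finiteType (H : IsUniv κ ν B u) (hA : κ.FiniteType) [Module.Finite A M]
    (hB : B.Finite) : ν.FiniteType := by
  let := κ.toAlgebra
  let := ν.toAlgebra
  obtain ⟨s, hs⟩ := (show Algebra.FiniteType k A from hA).out
  obtain ⟨t, ht⟩ := Module.Finite.fg_top (R := A) (M := M)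
  let G : Set R := (⋃ β ∈ B, ⋃ m ∈ t, Set.range (u β m)) ∪
    ⋃ β ∈ B, ⋃ a ∈ s, ⋃ j, Set.range (u β (a • β j))
  have hG : G.Finite :=
    (hB.biUnion fun β _ => t.finite_toSet.biUnion fun m _ => Set.finite_range _).union
      (hB.biUnion fun β _ => s.finite_toSet.biUnion fun a _ =>
        Set.finite_iUnion fun j => Set.finite_range _)
  have hmu : ∀ β (hβ : β ∈ B) (a : A) i j, H.coord.mu hβ a i j ∈ Algebra.adjoin k G := by
    intro β hβ a
    have ha : a ∈ Algebra.adjoin k (s : Set A) := hs ▸ Algebra.mem_top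
    induction ha using Algebra.adjoin_induction with
    | mem a ha =>
      exact fun i j => Algebra.subset_adjoin (Or.inr (Set.mem_biUnion hβ
        (Set.mem_biUnion ha (Set.mem_iUnion.2 ⟨j, i, rfl⟩))))
    | algebraMap z =>
      intro i j
      rw [show algebraMap k A z = κ z from rfl, H.coord.mu_const, Matrix.scalar_apply,
        Matrix.diagonal_apply]
      split_ifs
      · exact Subalgebra.algebraMap_mem _ z
      · exact zero_mem _
    | add a b _ _ ha hb => exact fun i j => by rw [map_add]; exact add_mem (ha i j) (hb i j)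
    | mul a b _ _ ha hb =>
      exact fun i j => by
        rw [map_mul, Matrix.mul_apply]
        exact sum_mem fun l _ => mul_mem (ha i l) (hb l j)
  have hu : ∀ β ∈ B, ∀ m i, u β m i ∈ Algebra.adjoin k G := by
    intro β hβ m
    have hm : m ∈ Submodule.span A (t : Set M) := ht ▸ Submodule.mem_top
    induction hm using Submodule.span_induction with
    | mem m hm =>
      exact fun i => Algebra.subset_adjoin (Or.inl (Set.mem_biUnion hβ
        (Set.mem_biUnion hm ⟨i, rfl⟩)))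
    | zero => exact fun i => by rw [H.coord.zero hβ]; exact zero_mem _
    | add a b _ _ ha hb => exact fun i => by rw [H.coord.add β hβ]; exact add_mem (ha i) (hb i)
    | smul a m _ hm =>
      exact fun i => by
        rw [H.coord.mul β hβ β hβ]
        exact sum_mem fun j _ => mul_mem (hm j) (hmu β hβ a i j)
  have := H.gen (Algebra.adjoin k G).toSubring (fun z => Subalgebra.algebraMap_mem _ z) hu
  refine ⟨Subalgebra.fg_def.2 ⟨G, hG, eq_top_iff.2 fun r _ => ?_⟩⟩
  exact (this.ge (Subring.mem_top r) : r ∈ (Algebra.adjoin k G).toSubring)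

theorem IsUniv.equiv (H : IsUniv κ ν B u) (e : R →+* R') (he : Function.Bijective e)
    {ν' : k →+* R'} (h : ∀ z, e (ν z) = ν' z) : IsUniv κ ν' B fun β m i => e (u β m i) := by
  let e' := RingEquiv.ofBijective e he
  refine ⟨H.coord.map e h, fun R'' _ ν'' c hc => ?_, fun S h1 h2 => ?_⟩
  · obtain ⟨φ, a, b⟩ := H.lift R'' ν'' c hc
    refine ⟨φ.comp e'.symm.toRingHom, fun z => ?_, fun β hβ m i => ?_⟩
    · rw [← h, ← a]
      exact congrArg φ (e'.symm_apply_apply _)
    · rw [← b β hβ]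
      exact congrArg φ (e'.symm_apply_apply _)
  · have := H.gen (S.comap e) (fun z => by rw [Subring.mem_comap, h]; exact h1 z) h2
    refine eq_top_iff.2 fun r _ => ?_
    obtain ⟨r, rfl⟩ := he.2 r
    exact (this.ge (Subring.mem_top r) : r ∈ S.comap e)

end Pool.Agent.Lib.MP_d4c0ca_ag.Q
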