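import Pool.Agent.Lib.MP_d4c0ca_ag.Q.Set
import Pool.Agent.Lib.MP_d4c0ca_ag.Q.Univ
import Pool.Agent.Lib.MP_d4c0ca_ag.Q.Away
import Pool.Agent.Lib.MP_d4c0ca_ag.Q.PO

/-! The charts glue to a scheme. -/

set_option autoImplicit false

namespace Pool.Agent.Lib.MP_d4c0ca_ag.Q

open CategoryTheory AlgebraicGeometry Opposite TopologicalSpace Scheme.Modules
open Pool.Agent.Lib.MP_cd184e_ag.B

variable {X : Scheme.{0}} {G : X.Modules} {𝒰 : Set X.Opens}

variable {n : ℕ} {sX : X ⟶ SC}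

/-- the rings of universal coordinates with their transition maps -/
structure Sys (sX : X ⟶ SC) (G : X.Modules) (𝒰 : Set X.Opens) (n : ℕ) where
  R : Idx G 𝒰 n → CommRingCat.{0}
  ν : ∀ α, kk →+* R α
  u : ∀ α : Idx G 𝒰 n, (Fin n → Γ(G, α.U)) → Γ(G, α.U) → Fin n → R α
  univ : ∀ α, IsUniv (cst sX α.U) (ν α) α.B (u α)
  ρ : ∀ {l α : Idx G 𝒰 n}, l.Le α → (R α →+* R l)
  ρν : ∀ {l α} (h : l.Le α) z, ρ h (ν α z) = ν l z
  ρu : ∀ {l α} (h : l.Le α), ∀ β ∈ α.B, ∀ m i,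
    ρ h (u α β m i) = u l (mres G h.1 ∘ β) (mres G h.1 m) i

theorem exists_sys (sX : X ⟶ SC) (G : X.Modules) (𝒰 : Set X.Opens) (n : ℕ) :
    Nonempty (Sys sX G 𝒰 n) := by
  choose R _ ν u H using fun α : Idx G 𝒰 n => exists_univ (cst sX α.U) α.B
  choose ρ h1 h2 using fun (l α : Idx G 𝒰 n) (h : l.Le α) => (H α).lift (R l) (ν l) _
    ((H l).coord.res (rres h.1) (mres G h.1) (rres_cst sX h.1) (mres_smul G h.1) h.2)
  exact ⟨⟨fun α => .of (R α), ν, u, H, fun h => ρ _ _ h, fun h => h1 _ _ h, fun h => h2 _ _ h⟩⟩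

namespace Sys
variable (S : Sys sX G 𝒰 n)

theorem ρ_refl {α : Idx G 𝒰 n} (h : α.Le α) : S.ρ h = RingHom.id _ :=
  (S.univ α).ext (S.ρν h) fun β hβ m i => by
    rw [S.ρu h β hβ, mres_self, show mres G h.1 ∘ β = β from funext fun _ => mres_self _ _ _]
    rfl

theorem ρ_trans {a b c : Idx G 𝒰 n} (h : a.Le b) (h' : b.Le c) (h'' : a.Le c) :
    S.ρ h'' = (S.ρ h).comp (S.ρ h') :=
  (S.univ c).ext (fun z => by rw [RingHom.comp_apply, S.ρν, S.ρν, S.ρν]) fun β hβ m i => by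
    rw [RingHom.comp_apply, S.ρu h'' β hβ, S.ρu h' β hβ, S.ρu h _ (h'.2 β hβ), mres_mres,
      show mres G h.1 ∘ mres G h'.1 ∘ β = mres G h''.1 ∘ β from funext fun _ => mres_mres _ _ _ _]

theorem away (A : Atlas X 𝒰) (hG : G.IsFinitePresentation) {l α : Idx G 𝒰 n} (h : l.Le α) :
    ∃ d : S.R α, @IsLocalization.Away _ _ d (S.R l) _ (S.ρ h).toAlgebra := by
  obtain ⟨a, e⟩ := A.basic α.mem l.mem h.1
  exact (S.univ α).away (S.univ l) (locData_res hG (A.aff _ α.mem) h.1 e) (rres_cst sX h.1) α.ne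
    l.fin h.2 (S.ρ h) (S.ρν h) (S.ρu h)

theorem meet (A : Atlas X 𝒰) (hG : G.IsFinitePresentation) {i j k : Idx G 𝒰 n} (hi : i.Le k)
    (hj : j.Le k) {R' : Type} [CommRing R'] (φ : S.R i →+* R') (φ' : S.R j →+* R')
    (e : φ.comp (S.ρ hi) = φ'.comp (S.ρ hj)) : ∃ ψ : S.R (i.meet A j) →+* R',
      ψ.comp (S.ρ (i.meet_left A j)) = φ ∧ ψ.comp (S.ρ (i.meet_right A j)) = φ' := by
  obtain ⟨a, ea⟩ := A.basic k.mem i.mem hi.1
  obtain ⟨b, eb⟩ := A.basic k.mem j.mem hj.1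
  obtain ⟨β, hβ⟩ := k.ne
  have e1 : ∀ z, φ' (S.ν j z) = φ.comp (S.ν i) z := fun z => by
    rw [RingHom.comp_apply, ← S.ρν hi, ← S.ρν hj]
    exact (congrArg (fun f : S.R k →+* R' => f (S.ν k z)) e).symm
  have e2 : i.U ⊓ j.U = X.basicOpen (rres hi.1 b) :=
    (congrArg (i.U ⊓ ·) eb).trans (X.basicOpen_res b (homOfLE hi.1).op).symm
  have e3 : i.U ⊓ j.U = X.basicOpen (rres hj.1 a) :=
    (inf_comm _ _).trans ((congrArg (j.U ⊓ ·) ea).trans (X.basicOpen_res a (homOfLE hj.1).op).symm)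
  obtain ⟨c, c1, c2, c3⟩ := Coord.meet (κ₃ := cst sX (i.U ⊓ j.U))
    ((S.univ i).coord.map φ (ν' := φ.comp (S.ν i)) fun _ => rfl) ((S.univ j).coord.map φ' e1)
    (locData_res hG (A.aff _ k.mem) hi.1 ea) (locData_res hG (A.aff _ k.mem) hj.1 eb)
    (locData_res hG (A.aff _ i.mem) inf_le_left e2)
    (locData_res hG (A.aff _ j.mem) inf_le_right e3) (rres_cst sX _) (rres_cst sX _)
    (fun _ => by rw [rres_rres, rres_rres]) (fun _ => by rw [mres_mres, mres_mres])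
    (hi.2 β hβ) (hj.2 β hβ) fun m => funext fun t => by
      rw [← S.ρu hi β hβ, ← S.ρu hj β hβ]
      exact congrArg (fun f : S.R k →+* R' => f (S.u k β m t)) e
  obtain ⟨ψ, p1, p2⟩ := (S.univ (i.meet A j)).lift R' _ c c1
  refine ⟨ψ, (S.univ i).ext (fun z => ?_) fun γ hγ m t => ?_,
    (S.univ j).ext (fun z => ?_) fun γ hγ m t => ?_⟩
  · rw [RingHom.comp_apply, S.ρν, p1]; rfl
  · rw [RingHom.comp_apply, S.ρu _ γ hγ, p2 _ ((i.meet_left A j).2 γ hγ)]
    exact congrFun (c2 γ hγ m) t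
  · rw [RingHom.comp_apply, S.ρν, p1, e1]
  · rw [RingHom.comp_apply, S.ρu _ γ hγ, p2 _ ((i.meet_right A j).2 γ hγ)]
    exact congrFun (c3 γ hγ m) t

end Sys

theorem base_pt {R R' K : Type} [CommRing R] [CommRing R'] [Field K] (ρ : R →+* R') {d : R}
    (h : @IsLocalization.Away _ _ d R' _ ρ.toAlgebra) (x : PrimeSpectrum R') (π : R →+* K)
    (hπ : RingHom.ker π = (PrimeSpectrum.comap ρ x).asIdeal) :
    ∃ φ : R' →+* K, φ.comp ρ = π ∧ PrimeSpectrum.comap φ ⊥ = x := by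
  let := ρ.toAlgebra
  have hd : IsUnit (π d) := isUnit_iff_ne_zero.2 fun h0 => by
    have : d ∈ (PrimeSpectrum.comap ρ x).asIdeal := hπ ▸ h0
    exact x.2.ne_top (Ideal.eq_top_of_isUnit_mem _ this (IsLocalization.Away.algebraMap_isUnit d))
  refine ⟨IsLocalization.Away.lift d hd, IsLocalization.Away.lift_comp d hd,
    PrimeSpectrum.localization_comap_injective R' (Submonoid.powers d) ?_⟩
  rw [← PrimeSpectrum.comap_comp_apply, IsLocalization.Away.lift_comp]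
  exact PrimeSpectrum.ext hπ

/-- the order on the charts -/
@[reducible] def basePre (G : X.Modules) (𝒰 : Set X.Opens) (n : ℕ) : Preorder (Idx G 𝒰 n) where
  le := Idx.Le
  le_refl := Idx.Le.refl
  le_trans _ _ _ := Idx.Le.trans

theorem exists_base (sX : X ⟶ SC) [LocallyOfFiniteType sX] (A : Atlas X 𝒰)
    (hG : G.IsFinitePresentation) (n : ℕ) :
    ∃ (Q : Scheme.{0}) (s : Q ⟶ SC) (V : Idx G 𝒰 n → Q.Opens)
      (u : ∀ α : Idx G 𝒰 n, (Fin n → Γ(G, α.U)) → Γ(G, α.U) → Fin n → Γ(Q, V α)),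
      Base sX A s V u := by
  obtain ⟨S⟩ := exists_sys sX G 𝒰 n
  let := basePre G 𝒰 n
  let F : Idx G 𝒰 n ⥤ Scheme.{0} :=
    { obj := fun α => Spec (S.R α)
      map := fun f => Spec.map (CommRingCat.ofHom (S.ρ (leOfHom f)))
      map_id := fun α => by rw [S.ρ_refl]; exact Spec.map_id _
      map_comp := fun f g => by
        rw [S.ρ_trans (leOfHom f) (leOfHom g), CommRingCat.ofHom_comp, Spec.map_comp] }
  have : ∀ {i j} (f : i ⟶ j), IsOpenImmersion (F.map f) := fun f => by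
    obtain ⟨d, hd⟩ := S.away A hG (leOfHom f)
    exact @IsOpenImmersion.of_isLocalization _ _ _ _ (S.ρ (leOfHom f)).toAlgebra d hd
  have : (F ⋙ Scheme.forget).IsLocallyDirected := ⟨fun {i j k} fi fj xi xj e => by
    obtain ⟨d, hd⟩ := S.away A hG (leOfHom fi)
    obtain ⟨d', hd'⟩ := S.away A hG (leOfHom fj)
    let P : PrimeSpectrum (S.R k) := PrimeSpectrum.comap (S.ρ (leOfHom fi)) xi
    have e' : P = PrimeSpectrum.comap (S.ρ (leOfHom fj)) xj := e
    obtain ⟨φ, a, b⟩ := base_pt _ hd xi (algebraMap _ P.asIdeal.ResidueField)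
      (Ideal.ker_algebraMap_residueField _)
    obtain ⟨φ', a', b'⟩ := base_pt _ hd' xj (algebraMap _ P.asIdeal.ResidueField)
      (e' ▸ Ideal.ker_algebraMap_residueField _)
    obtain ⟨ψ, c, c'⟩ := S.meet A hG _ _ φ φ' (a.trans a'.symm)
    refine ⟨i.meet A j, homOfLE (i.meet_left A j), homOfLE (i.meet_right A j),
      PrimeSpectrum.comap ψ ⊥, ?_, ?_⟩
    · rw [← b, ← c]; rfl
    · rw [← b', ← c']; rfl⟩
  let f : ∀ α, CommRingCat.of ℂ ⟶ S.R α := fun α =>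
    CommRingCat.ofHom ((S.ν α).comp toC.symm.toRingHom)
  let s : Limits.colimit F ⟶ SC := Limits.colimit.desc F ⟨SC,
    { app := fun α => Spec.map (f α)
      naturality := fun i j g => by
        change Spec.map _ ≫ Spec.map _ = Spec.map _ ≫ 𝟙 _
        rw [Category.comp_id, ← Spec.map_comp]
        congr 1
        ext z
        exact S.ρν (leOfHom g) _ }⟩
  have hs : ∀ α, Limits.colimit.ι F α ≫ s = Spec.map (f α) := fun α => Limits.colimit.ι_desc _ _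
  let V : Idx G 𝒰 n → (Limits.colimit F).Opens := fun α => Limits.colimit.ι F α ''ᵁ ⊤
  have hV : ∀ α, ⊤ ≤ Limits.colimit.ι F α ⁻¹ᵁ V α := fun α =>
    ((Limits.colimit.ι F α).preimage_image_eq ⊤).ge
  have mV : ∀ α y, y ∈ V α ↔ ∃ x, Limits.colimit.ι F α x = y := fun α y =>
    ⟨fun ⟨x, _, h⟩ => ⟨x, h⟩, fun ⟨x, h⟩ => ⟨x, trivial, h⟩⟩
  let θ : ∀ α, Γ(Limits.colimit F, V α) ≃+* S.R α := fun α =>
    ((Limits.colimit.ι F α).appIso ⊤ ≪≫ Scheme.ΓSpecIso (S.R α)).commRingCatIsoToRingEquiv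
  have hθ : ∀ α a, θ α a = (Scheme.ΓSpecIso (S.R α)).hom (ap _ (hV α) a) := fun α a =>
    congrArg (Scheme.ΓSpecIso (S.R α)).hom congr($((Limits.colimit.ι F α).appIso_hom' ⊤) a)
  have nat : ∀ {R R' : CommRingCat.{0}} (g : R ⟶ R') (z : Γ(Spec R, ⊤)),
      (Scheme.ΓSpecIso R').hom (ap (Spec.map g) (W := ⊤) (W' := ⊤) le_top z) =
        g ((Scheme.ΓSpecIso R).hom z) := fun g z => by
    have : ap (Spec.map g) (W := ⊤) (W' := ⊤) le_top z = (Spec.map g).appTop z :=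
      congr($((Spec.map g).appLE_eq_app (U := ⊤)) z)
    rw [this]
    exact congr($(Scheme.ΓSpecIso_naturality g) z)
  have hc : ∀ α z, θ α (cst s (V α) z) = S.ν α z := fun α z => by
    rw [hθ, ap_cst _ s (hs α)]
    exact (nat (f α) z).trans (congrArg (S.ν α) (toC.symm_apply_apply z))
  have hw : ∀ {l α : Idx G 𝒰 n} (h : l.Le α) x,
      Limits.colimit.ι F α (F.map (homOfLE h) x) = Limits.colimit.ι F l x := fun h x => by
    rw [← Scheme.Hom.comp_apply, Limits.colimit.w]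
  have mono : ∀ {l α : Idx G 𝒰 n}, l.Le α → V l ≤ V α := fun h y hy => by
    obtain ⟨x, rfl⟩ := (mV _ y).1 hy
    exact (mV _ _).2 ⟨_, hw h x⟩
  have hρ : ∀ {l α : Idx G 𝒰 n} (h : l.Le α) a, θ l (rres (mono h) a) = S.ρ h (θ α a) := by
    intro l α h a
    rw [hθ, hθ, ap_rres, ← ap_ap (F.map (homOfLE h)) _ (Limits.colimit.w F (homOfLE h)) (hV α)
      le_top]
    exact nat (CommRingCat.ofHom (S.ρ h)) _
  refine ⟨_, s, V, fun α β m i => (θ α).symm (S.u α β m i), ?_,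
    fun α => (isAffineOpen_top (Spec (S.R α))).image_of_isOpenImmersion (Limits.colimit.ι F α),
    top_le_iff.1 fun y _ => ?_, mono, fun α α' y hy => ?_, fun {l α} h => ?_,
    fun α => (S.univ α).equiv (θ α).symm.toRingHom (θ α).symm.bijective fun z => ?_,
    fun {l α} h β hβ m i => (θ l).injective ?_⟩
  · have := HasRingHomProperty.instIsZariskiLocalAtSource (P := @LocallyOfFiniteType)
    refine (IsZariskiLocalAtSource.iff_of_openCover (P := @LocallyOfFiniteType)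
      (Scheme.IsLocallyDirected.openCover F)).2 fun α : Idx G 𝒰 n => ?_
    change LocallyOfFiniteType (Limits.colimit.ι F α ≫ s)
    rw [hs]
    have := finite_of_fp G (A.aff _ α.mem)
    exact HasRingHomProperty.Spec_iff.2 (((S.univ α).finiteType
      (sX.finiteType_appLE (isAffineOpen_top SC) (A.aff _ α.mem) le_top) α.fin).comp
      (RingHom.FiniteType.of_surjective _ toC.symm.surjective))
  · obtain ⟨α, x, rfl⟩ := Scheme.IsLocallyDirected.ι_jointly_surjective F y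
    exact Opens.mem_iSup.2 ⟨α, (mV _ _).2 ⟨x, rfl⟩⟩
  · obtain ⟨x, rfl⟩ := (mV _ y).1 hy.1
    obtain ⟨x', e⟩ := (mV _ _).1 hy.2
    obtain ⟨k, a, b, z, rfl, -⟩ := (Scheme.IsLocallyDirected.ι_eq_ι_iff F).1 e.symm
    exact mono (Idx.le_meet A (leOfHom a) (leOfHom b)) ((mV _ _).2 ⟨z, (hw (leOfHom a) z).symm⟩)
  · obtain ⟨d, hd⟩ := S.away A hG h
    have hr : Set.range (F.map (homOfLE h)) = (PrimeSpectrum.basicOpen d).1 :=
      @PrimeSpectrum.localization_away_comap_range _ _ _ _ (S.ρ h).toAlgebra d hd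
    have key : ∀ x, Limits.colimit.ι F α x ∈ (Limits.colimit F).basicOpen ((θ α).symm d) ↔
        x ∈ Set.range (F.map (homOfLE h)) := fun x => by
      have e1 := mem_basicOpen_ap _ (hV α) ((θ α).symm d) (y := x)
      have e2 := basicOpen_eq_of_affine' (R := S.R α) (ap _ (hV α) ((θ α).symm d))
      rw [← hθ, RingEquiv.apply_symm_apply] at e2
      rw [hr]
      exact ((and_iff_right trivial).symm.trans e1.symm).trans (congrArg (x ∈ ·) e2).to_iff
    refine ⟨(θ α).symm d, le_antisymm (fun y hy => ?_) fun y hy => ?_⟩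
    · obtain ⟨x, rfl⟩ := (mV _ y).1 hy
      rw [← hw h]
      exact (key _).2 ⟨x, rfl⟩
    · obtain ⟨x, rfl⟩ := (mV _ y).1 (Scheme.basicOpen_le _ _ hy)
      obtain ⟨z, rfl⟩ := (key x).1 hy
      exact (mV _ _).2 ⟨z, (hw h z).symm⟩
  · exact (θ α).symm_apply_eq.2 (hc α z).symm
  · rw [hρ h, RingEquiv.apply_symm_apply, RingEquiv.apply_symm_apply, S.ρu h β hβ]

end Pool.Agent.Lib.MP_d4c0ca_ag.Q
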