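import Pool.Agent.Lib.MP_d4c0ca_ag.Q.PO

/-! Charts of families: coordinates, shrinking and inverse images. -/

set_option autoImplicit false

namespace Pool.Agent.Lib.MP_d4c0ca_ag.Q

open CategoryTheory AlgebraicGeometry Opposite TopologicalSpace Scheme.Modules
open Pool.Agent.Lib.MP_cd184e_ag.B

variable {X T T' Y Y' : Scheme.{0}} {sX : X ⟶ SC} {sT : T ⟶ SC} {sT' : T' ⟶ SC} {p : Y ⟶ X}
  {π : Y ⟶ T} {p' : Y' ⟶ X} {π' : Y' ⟶ T'} {G : X.Modules} {E : Y.Modules} {E' : Y'.Modules}
  {q : (pullback p).obj G ⟶ E} {q' : (pullback p').obj G ⟶ E'} {U : X.Opens} {V : T.Opens}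
  {V' : T'.Opens} {n : ℕ} {β : Fin n → Γ(G, U)} {c : Γ(G, U) → Fin n → Γ(T, V)}

/-- the linear combination of the basis sections -/
noncomputable def chartSig (π : Y ⟶ T) (q : (pullback p).obj G ⟶ E) (V : T.Opens) (U : X.Opens)
    (β : Fin n → Γ(G, U)) : (Fin n → Γ(T, V)) →+ Γ(E, box p π U V) :=
  AddMonoidHom.mk' (fun r => ∑ i, apb p π U V (r i) • thb π q U V (β i)) fun r s => by
    simp only [Pi.add_apply, map_add, add_smul, Finset.sum_add_distrib]

theorem chartSig_def (r : Fin n → Γ(T, V)) :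
    chartSig π q V U β r = ∑ i, apb p π U V (r i) • thb π q U V (β i) := rfl

theorem chartSig_smul (a : Γ(T, V)) (r : Fin n → Γ(T, V)) :
    chartSig π q V U β (a • r) = apb p π U V a • chartSig π q V U β r := by
  simp only [chartSig_def, Pi.smul_apply, smul_eq_mul, map_mul, mul_smul, Finset.smul_sum]

theorem chartSig_inj (C : InChart π q V U β c) : Function.Injective (chartSig π q V U β) :=
  (injective_iff_map_eq_zero _).2 C.ind

theorem chartSig_eq (C : InChart π q V U β c) (m : Γ(G, U)) :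
    chartSig π q V U β (c m) = thb π q U V m := (C.eq m).symm

theorem chartSig_apa (a : Γ(X, U)) (r : Fin n → Γ(T, V)) :
    apa p π U V a • chartSig π q V U β r = ∑ j, apb p π U V (r j) • thb π q U V (a • β j) := by
  rw [chartSig_def, Finset.smul_sum]
  exact Finset.sum_congr rfl fun j _ => by rw [th_smul, smul_comm]

theorem InChart.unique (C : InChart π q V U β c) {c' : Γ(G, U) → Fin n → Γ(T, V)}
    (C' : InChart π q V U β c') : c = c' :=
  funext fun m => chartSig_inj C ((chartSig_eq C m).trans (chartSig_eq C' m).symm)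

/-- the coordinate isomorphism -/
theorem InChart.co (C : InChart π q V U β c) (H : Good sX sT π q) (hG : G.IsFinitePresentation)
    (hU : IsAffineOpen U) (hV : IsAffineOpen V) :
    ∃ co : Γ(E, box p π U V) ≃+ (Fin n → Γ(T, V)), (∀ m, co (thb π q U V m) = c m) ∧
      (∀ r e, co (apb p π U V r • e) = r • co e) ∧
      ∀ r, co.symm r = ∑ i, apb p π U V (r i) • thb π q U V (β i) := by
  have hs : Function.Surjective (chartSig π q V U β) := by
    rw [← AddMonoidHom.range_eq_top]
    exact H.span hG hU hV _ fun r m => ⟨r • c m, by rw [chartSig_smul, chartSig_eq C]⟩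
  let σ := AddEquiv.ofBijective (chartSig π q V U β) ⟨chartSig_inj C, hs⟩
  refine ⟨σ.symm, fun m => σ.symm_apply_eq.2 (chartSig_eq C m).symm, fun r e => ?_, fun _ => rfl⟩
  obtain ⟨s, rfl⟩ := σ.surjective e
  rw [σ.symm_apply_apply]
  exact σ.symm_apply_eq.2 (chartSig_smul r s).symm

theorem chart_coord (sq : IsPullback p π sX sT) {B : Set (Fin n → Γ(G, U))}
    {c : (Fin n → Γ(G, U)) → Γ(G, U) → Fin n → Γ(T, V)}
    (C : ∀ β ∈ B, InChart π q V U β (c β)) : Coord (cst sX U) (cst sT V) B c := by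
  refine ⟨fun β hβ m m' i => ?_, fun β hβ z m i => ?_, fun β hβ j i => ?_,
    fun β hβ β' hβ' a m i => ?_⟩
  · refine congrFun (chartSig_inj (C β hβ) (a₂ := c β m + c β m') ?_) i
    rw [map_add, chartSig_eq (C β hβ), chartSig_eq (C β hβ), chartSig_eq (C β hβ), map_add]
  · refine congrFun (chartSig_inj (C β hβ) (a₂ := cst sT V z • c β m) ?_) i
    rw [chartSig_smul, chartSig_eq (C β hβ), chartSig_eq (C β hβ), th_smul, box_cst sq]
  · refine congrFun (chartSig_inj (C β hβ) (a₂ := fun i => if i = j then 1 else 0) ?_) i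
    rw [chartSig_eq (C β hβ), chartSig_def, Finset.sum_eq_single j (fun k _ hk => by
      rw [if_neg hk, map_zero, zero_smul]) (by simp), if_pos rfl, map_one, one_smul]
  · refine (congrFun (chartSig_inj (C β' hβ')
      (a₂ := ∑ j, c β m j • c β' (a • β j)) ?_) i).trans (Finset.sum_apply _ _ _)
    rw [chartSig_eq (C β' hβ'), th_smul, ← chartSig_eq (C β hβ), chartSig_apa, map_sum]
    exact Finset.sum_congr rfl fun j _ => by rw [chartSig_smul, chartSig_eq (C β' hβ')]

theorem InChart.shrink (C : InChart π q V U β c) (H : Good sX sT π q)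
    (hG : G.IsFinitePresentation) (hU : IsAffineOpen U) (hV : IsAffineOpen V) {U' : X.Opens}
    (h : U' ≤ U) (hs : ∀ y : Y, π y ∈ V → p y ∉ U' → Van E y) :
    ∃ c', InChart π q V U' (mres G h ∘ β) c' ∧ ∀ m, c' (mres G h m) = c m := by
  obtain ⟨co, h1, -, h3⟩ := C.co H hG hU hV
  have hb : box p π U' V ≤ box p π U V := inf_le_inf_right _ (p.preimage_mono h)
  let ρ := AddEquiv.ofBijective (mres E hb)
    (Van.bij hb fun y hy hy' => hs y hy.2 fun hp => hy' ⟨hp, hy.2⟩)
  have e1 : ∀ m, ρ (thb π q U V m) = thb π q U' V (mres G h m) := fun m =>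
    (mres_th q _ hb m).trans (th_mres q h _ m).symm
  have e2 : ∀ r, ρ (co.symm r) =
      ∑ i, apb p π U' V (r i) • thb π q U' V ((mres G h ∘ β) i) := fun r => by
    rw [h3, map_sum]
    refine Finset.sum_congr rfl fun i _ => (mres_smul E hb _ _).trans ?_
    rw [rres_ap]
    exact congrArg _ (e1 _)
  refine ⟨fun m => co (ρ.symm (thb π q U' V m)), ⟨hs, fun m => ?_, fun r hr => ?_⟩, fun m => ?_⟩
  · rw [← e2, co.symm_apply_apply, ρ.apply_symm_apply]
  · rw [← e2] at hr
    exact co.symm.map_eq_zero_iff.1 (ρ.map_eq_zero_iff.1 hr)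
  · simp only [← e1, ρ.symm_apply_apply, h1]

theorem chart_van {g : Y' ⟶ Y} (hE : E.IsFinitePresentation) (e : (pullback g).obj E ≅ E') {y : Y'}
    (hv : Van E (g y)) : Van E' y := by
  obtain ⟨W, hy, hW⟩ := hv
  obtain ⟨_, ⟨W₀, hW₀, rfl⟩, hy₀, hle⟩ := Y.isBasis_affineOpens.exists_subset_of_mem_open hy W.2
  obtain ⟨_, ⟨W', hW', rfl⟩, hy', hle'⟩ := Y'.isBasis_affineOpens.exists_subset_of_mem_open
    (show y ∈ g ⁻¹ᵁ W₀ from hy₀) (g ⁻¹ᵁ W₀).2
  have hL := locAt_of_fp hE hW₀
  obtain ⟨W₁, hy₁, h₁⟩ := van_of_affine hW' (locAt_pb g hW₀ hW' hle' hL) 1 (fun s => by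
    have hs : s ∈ Submodule.span Γ(Y', W') (Set.range (pb g E (W := W₀) hle')) := by
      rw [pb_span g hW₀ hW' hle' hL]; trivial
    rw [one_smul]
    refine (Submodule.mem_bot Γ(Y', W')).1 (Submodule.span_le.2 ?_ hs)
    rintro _ ⟨t, rfl⟩
    rw [hW W₀ hle t, map_zero]
    exact zero_mem _) (y := y) (by rw [Scheme.basicOpen_one]; exact hy')
  refine ⟨W₁, hy₁, fun W₂ h₂ s => ?_⟩
  have e1 : e.hom.app W₂ (e.inv.app W₂ s) = s := congr(($(e.inv_hom_id)).app W₂ s)
  rw [← e1, h₁ W₂ h₂ (e.inv.app W₂ s), map_zero]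

theorem InChart.pull (C : InChart π q V U β c) (H : Good sX sT π q) (sq' : IsPullback p' π' sX sT')
    (hG : G.IsFinitePresentation) (hU : IsAffineOpen U) (hV : IsAffineOpen V)
    (hV' : IsAffineOpen V') {f : T' ⟶ T} (hf : f ≫ sT = sT') (h : V' ≤ f ⁻¹ᵁ V) {g : Y' ⟶ Y}
    (h₁ : g ≫ p = p') (h₂ : g ≫ π = π' ≫ f) {e : (pullback g).obj E ≅ E'} (he : Cmp g q q' e) :
    InChart π' q' V' U β fun m i => ap f h (c m i) := by
  have k₁ : ∀ y, p (g y) = p' y := fun y => congr($h₁ y)
  have k₂ : ∀ y, π (g y) = f (π' y) := fun y => congr($h₂ y)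
  have hb : box p' π' U V' ≤ g ⁻¹ᵁ box p π U V := fun y hy =>
    ⟨show p (g y) ∈ U from k₁ y ▸ hy.1, show π (g y) ∈ V from k₂ y ▸ h hy.2⟩
  have e1 : ∀ m, e.hom.app _ (pb g E hb (thb π q U V m)) = thb π' q' U V' m := fun m =>
    he _ _ _ _ _ _ m
  have e2 : ∀ a, ap g hb (apa p π U V a) = apa p' π' U V' a := fun a => ap_ap g p h₁ _ _ _ a
  have e3 : ∀ r, ap g hb (apb p π U V r) = apb p' π' U V' (ap f h r) := fun r =>
    (ap_ap g π h₂ _ hb (inf_le_right.trans (π'.preimage_mono h)) r).trans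
      (ap_ap π' f rfl _ _ _ r).symm
  refine ⟨fun y hy hy' => chart_van H.fp e (C.supp _ (k₂ y ▸ h hy) (k₁ y ▸ hy')), fun m => ?_,
    fun r hr => ?_⟩
  · rw [← e1, C.eq, map_sum, map_sum]
    exact Finset.sum_congr rfl fun i _ => by
      rw [pb_smul, Scheme.Modules.Hom.app_smul, e1, e3]
  obtain ⟨co, c1, c2, c3⟩ := C.co H hG hU hV
  have K : Coord (cst sX U) (cst sT V) {β} fun _ => c :=
    chart_coord H.sq fun β' hβ' => by rw [show β' = β from hβ']; exact C
  have hβ : β ∈ ({β} : Set (Fin n → Γ(G, U))) := rfl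
  obtain ⟨ρ, r1, r2⟩ := box_mat sq' hU hV' ((ap f h).mapMatrix.comp (K.mu hβ)) fun z => by
    rw [RingHom.comp_apply, K.mu_const, ← ap_cst f sT hf h z, Matrix.scalar_apply,
      Matrix.scalar_apply, RingHom.mapMatrix_apply, Matrix.diagonal_map (map_zero _)]
  let : Module Γ(Y', box p' π' U V') (Fin n → Γ(T', V')) := Module.compHom _
    ((Matrix.toLinAlgEquiv' (R := Γ(T', V')) (n := Fin n)).toRingEquiv.toRingHom.comp ρ)
  have sm : ∀ (w : Γ(Y', box p' π' U V')) (x : Fin n → Γ(T', V')), w • x = (ρ w).mulVec x :=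
    fun _ _ => rfl
  have sb : ∀ (a : Γ(T', V')) (x : Fin n → Γ(T', V')), apb p' π' U V' a • x = a • x := fun a x => by
    rw [sm, r2, Matrix.scalar_apply]
    exact funext fun i => Matrix.mulVec_diagonal _ _ i
  let φ : Γ(E, box p π U V) →+ (Fin n → Γ(T', V')) :=
    AddMonoidHom.mk' (fun s i => ap f h (co s i)) fun s t => funext fun i => by
      rw [map_add, Pi.add_apply, map_add, Pi.add_apply]
  let S : Subring Γ(Y, box p π U V) :=
    { carrier := {a | ∀ s, φ (a • s) = ap g hb a • φ s}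
      mul_mem' := fun {a b} ha hb' s => by rw [mul_smul, ha, hb', map_mul, mul_smul]
      one_mem' := fun s => by rw [one_smul, map_one, one_smul]
      add_mem' := fun {a b} ha hb' s => by rw [add_smul, map_add, ha, hb', map_add, add_smul]
      zero_mem' := fun s => by rw [zero_smul, map_zero, map_zero, zero_smul]
      neg_mem' := fun {a} ha s => by rw [neg_smul, map_neg, ha, map_neg, neg_smul] }
  have hS : S = ⊤ := box_gen H.sq hU hV S (fun a s => by
      obtain ⟨t, rfl⟩ := co.symm.surjective s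
      have e4 : co (apa p π U V a • co.symm t) = (K.mu hβ a).mulVec t := by
        rw [c3, ← chartSig_def, chartSig_apa, map_sum]
        simp only [c2, c1]
        funext i
        rw [Finset.sum_apply]
        exact Finset.sum_congr rfl fun j _ => mul_comm _ _
      rw [e2, sm, r1]
      funext i
      change ap f h (co _ i) = _
      rw [e4, RingHom.map_mulVec]
      exact congrArg (fun t => Matrix.mulVec _ (ap f h ∘ t) i) (co.apply_symm_apply t).symm)
    fun a s => by
      rw [e3, sb]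
      funext i
      change ap f h (co _ i) = _
      rw [c2, Pi.smul_apply, smul_eq_mul, map_mul]
      rfl
  obtain ⟨ψ, hψ⟩ := pb_lift g (box_aff H.sq hU hV) (box_aff sq' hU hV') hb
    (locAt_of_fp H.fp (box_aff H.sq hU hV)) φ fun a => (hS ▸ Subring.mem_top a : a ∈ S)
  have e5 : ∑ i, apb p' π' U V' (r i) • pb g E hb (thb π q U V (β i)) = 0 := by
    have e6 : ∀ s, e.inv.app (box p' π' U V') (e.hom.app _ s) = s := fun s =>
      congr(($(e.hom_inv_id)).app _ s)
    rw [← e6 (∑ i, _), map_sum, ← map_zero (e.inv.app (box p' π' U V')).hom, ← hr]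
    exact congrArg _ (Finset.sum_congr rfl fun i _ => by rw [Scheme.Modules.Hom.app_smul, e1])
  have e7 := congrArg ψ e5
  rw [map_sum, map_zero] at e7
  funext i
  have e8 := congrFun e7 i
  rw [Finset.sum_apply] at e8
  refine Eq.trans ?_ e8
  have e9 : ∀ j, ψ (apb p' π' U V' (r j) • pb g E hb (thb π q U V (β j))) i =
      if i = j then r j else 0 := fun j => by
    rw [ψ.map_smul, hψ, sb]
    change r j * ap f h (co _ i) = _
    rw [c1, show c (β j) i = _ from K.bas β hβ j i]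
    split_ifs <;> simp
  simp only [e9, Finset.sum_ite_eq, Finset.mem_univ, if_true]

theorem InChart.restrict (C : InChart π q V U β c) (H : Good sX sT π q)
    (hG : G.IsFinitePresentation) (hU : IsAffineOpen U) (hV : IsAffineOpen V) {V₁ : T.Opens}
    (hV₁ : IsAffineOpen V₁) (h : V₁ ≤ V) : InChart π q V₁ U β fun m i => rres h (c m i) :=
  C.pull H H.sq hG hU hV hV₁ (f := 𝟙 T) (Category.id_comp _) h (Category.id_comp _)
    ((Category.id_comp _).trans (Category.comp_id _).symm) (cmp_id q)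

end Pool.Agent.Lib.MP_d4c0ca_ag.Q
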