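import Pool.Agent.Lib.MP_d4c0ca_ag.Q.Chart

/-! Finiteness of the sections of a family with proper affine support. -/

set_option autoImplicit false

namespace Pool.Agent.Lib.MP_d4c0ca_ag.Q

open CategoryTheory AlgebraicGeometry Opposite TopologicalSpace Scheme.Modules
open Pool.Agent.Lib.MP_cd184e_ag.B

variable {X T Y : Scheme.{0}} {sX : X ⟶ SC} {sT : T ⟶ SC} {p : Y ⟶ X} {π : Y ⟶ T}
  {E : Y.Modules} {U : X.Opens} {V : T.Opens}

theorem clsB_alg {R C M : Type} [CommRing R] [CommRing C] [AddCommGroup M] [Module C M]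
    [Module.Finite C M] (f : R →+* C)
    (h : ((Ideal.Quotient.mk (Module.annihilator C M)).comp f).Finite) :
    @Module.Finite R M _ _ (Module.compHom M f) := by
  let _ : Algebra R C := f.toAlgebra
  let _ : Module R M := Module.compHom M f
  let _ : Module (C ⧸ Module.annihilator C M) M := Module.quotientAnnihilator
  have h1 : Module.Finite R (C ⧸ Module.annihilator C M) := h
  have h2 : IsScalarTower C (C ⧸ Module.annihilator C M) M :=
    (Module.isTorsionBySet_annihilator C M).isScalarTower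
  have h3 : Module.Finite (C ⧸ Module.annihilator C M) M :=
    Module.Finite.of_restrictScalars_finite C _ _
  have h4 : IsScalarTower R (C ⧸ Module.annihilator C M) M :=
    ⟨fun r b m => h2.smul_assoc (f r) b m⟩
  exact Module.Finite.trans (C ⧸ Module.annihilator C M) M

theorem clsB_closed (E : Y.Modules) : IsClosed {y : Y | ¬ Van E y} := by
  rw [← isOpen_compl_iff, isOpen_iff_forall_mem_open]
  intro y hy
  obtain ⟨W, hW, h⟩ := not_not.1 hy
  exact ⟨W, fun z hz => not_not.2 ⟨W, hz, h⟩, W.2, hW⟩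

theorem clsB_range {W : Y.Opens} (hW : IsAffineOpen W) (hE : E.IsFinitePresentation) (y : Y) :
    y ∈ Set.range (Spec.map (CommRingCat.ofHom
      (Ideal.Quotient.mk (Module.annihilator Γ(Y, W) Γ(E, W)))) ≫ hW.fromSpec) ↔
      y ∈ W ∧ ¬ Van E y := by
  have key : ∀ z : Spec Γ(Y, W), z ∈ Set.range (Spec.map (CommRingCat.ofHom
      (Ideal.Quotient.mk (Module.annihilator Γ(Y, W) Γ(E, W))))) ↔
      ∀ a ∈ Module.annihilator Γ(Y, W) Γ(E, W), hW.fromSpec z ∉ Y.basicOpen a := by
    intro z
    have h1 := range_comap_of_surjective _ _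
      (Ideal.Quotient.mk_surjective (I := Module.annihilator Γ(Y, W) Γ(E, W)))
    rw [Ideal.mk_ker] at h1
    refine (congrArg (z ∈ ·) h1).to_iff.trans (forall₂_congr fun a _ => ?_)
    exact (not_not.symm.trans
      (congrArg (z ∈ ·) (hW.fromSpec_preimage_basicOpen a)).to_iff.not.symm)
  constructor
  · rintro ⟨z, rfl⟩
    rw [Scheme.Hom.comp_apply]
    have hm : hW.fromSpec (Spec.map (CommRingCat.ofHom
        (Ideal.Quotient.mk (Module.annihilator Γ(Y, W) Γ(E, W)))) z) ∈ W := by
      rw [← SetLike.mem_coe, ← hW.range_fromSpec]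
      exact ⟨_, rfl⟩
    refine ⟨hm, fun hv => ?_⟩
    obtain ⟨a, ha, h0⟩ := exists_ann hW hE hm hv
    exact (key _).1 ⟨z, rfl⟩ a (Module.mem_annihilator.2 h0) ha
  · rintro ⟨hy, hv⟩
    rw [← SetLike.mem_coe, ← hW.range_fromSpec] at hy
    obtain ⟨z, rfl⟩ := hy
    obtain ⟨w, rfl⟩ := (key z).2 fun a ha hz =>
      hv (van_of_affine hW (locAt_of_fp hE hW) a (Module.mem_annihilator.1 ha) hz)
    exact ⟨w, Scheme.Hom.comp_apply _ _ _⟩

theorem clsB_finite [UniversallyClosed π] [LocallyOfFiniteType π] {Z : Scheme.{0}} [IsAffine Z]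
    (hV : IsAffineOpen V) (j : Z ⟶ Y) [IsPreimmersion j] [LocallyOfFiniteType j]
    (φ : Z ⟶ Spec Γ(T, V)) (e : j ≫ π = φ ≫ hV.fromSpec) (F : Set Y) (hF : IsClosed F)
    (h : ∀ y : Y, π y ∈ V → (y ∈ Set.range j ↔ y ∈ F)) : IsFinite φ := by
  let l : Z ⟶ Limits.pullback π hV.fromSpec := Limits.pullback.lift j φ e
  have h₁ : l ≫ Limits.pullback.fst _ _ = j := Limits.pullback.lift_fst _ _ _
  have h₂ : l ≫ Limits.pullback.snd _ _ = φ := Limits.pullback.lift_snd _ _ _
  have : IsPreimmersion (l ≫ Limits.pullback.fst _ _) := h₁ ▸ inferInstance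
  have : IsPreimmersion l := IsPreimmersion.of_comp l (Limits.pullback.fst _ _)
  have hr : Set.range l = Limits.pullback.fst π hV.fromSpec ⁻¹' F := by
    ext x
    have hx : π (Limits.pullback.fst π hV.fromSpec x) ∈ V := by
      rw [← Scheme.Hom.comp_apply, Limits.pullback.condition, Scheme.Hom.comp_apply,
        ← SetLike.mem_coe, ← hV.range_fromSpec]
      exact ⟨_, rfl⟩
    rw [Set.mem_preimage, ← h _ hx, ← h₁]
    constructor
    · rintro ⟨z, rfl⟩
      exact ⟨z, Scheme.Hom.comp_apply _ _ _⟩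
    · rintro ⟨z, hz⟩
      rw [Scheme.Hom.comp_apply] at hz
      exact ⟨z, (Limits.pullback.fst π hV.fromSpec).isOpenEmbedding.injective hz⟩
  have : IsClosedImmersion l := IsClosedImmersion.of_isPreimmersion l
    (hr ▸ hF.preimage (Limits.pullback.fst π hV.fromSpec).continuous)
  have : UniversallyClosed φ := h₂ ▸ inferInstance
  have : LocallyOfFiniteType φ := h₂ ▸ inferInstance
  exact (IsFinite.iff_isIntegralHom_and_locallyOfFiniteType φ).2
    ⟨IsIntegralHom.iff_universallyClosed_and_isAffineHom.2 ⟨inferInstance, inferInstance⟩,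
      inferInstance⟩

theorem finite_of_supp [UniversallyClosed sX] [LocallyOfFiniteType sX] (sq : IsPullback p π sX sT)
    (hE : E.IsFinitePresentation) (hU : IsAffineOpen U) (hV : IsAffineOpen V)
    (hs : ∀ y : Y, π y ∈ V → p y ∉ U → Van E y) :
    @Module.Finite Γ(T, V) Γ(E, box p π U V) _ _
      (Module.compHom Γ(E, box p π U V) (apb p π U V)) := by
  have hW := box_aff sq hU hV
  have : UniversallyClosed π := MorphismProperty.of_isPullback sq ‹_›
  have : LocallyOfFiniteType π := MorphismProperty.of_isPullback sq ‹_›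
  have := finite_of_fp E hW
  refine clsB_alg _ ?_
  let q : Γ(Y, box p π U V) ⟶ CommRingCat.of _ := CommRingCat.ofHom
    (Ideal.Quotient.mk (Module.annihilator Γ(Y, box p π U V) Γ(E, box p π U V)))
  have : IsClosedImmersion (Spec.map q) :=
    IsClosedImmersion.spec_of_surjective _ Ideal.Quotient.mk_surjective
  refine (IsFinite.SpecMap_iff (π.appLE V _ inf_le_right ≫ q)).1
    (clsB_finite (π := π) hV (Spec.map q ≫ hW.fromSpec) _ ?_ _ (clsB_closed E) fun y hy => ?_)
  · rw [Spec.map_comp, Category.assoc, Category.assoc,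
      IsAffineOpen.SpecMap_appLE_fromSpec π hV hW]
  · refine (clsB_range hW hE y).trans ⟨fun h => h.2, fun h => ⟨⟨?_, hy⟩, h⟩⟩
    by_contra hc
    exact h (hs y hy hc)

end Pool.Agent.Lib.MP_d4c0ca_ag.Q
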