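import Pool.Agent.Lib.MP_d4c0ca_ag.Q.ClsA
import Pool.Agent.Lib.MP_d4c0ca_ag.Q.ClsB

/-! A flat family lies in a chart near every complex point. -/

set_option autoImplicit false

namespace Pool.Agent.Lib.MP_d4c0ca_ag.Q

open CategoryTheory AlgebraicGeometry Opposite TopologicalSpace Scheme.Modules
open Pool.Agent.Lib.MP_cd184e_ag.B

variable {X T Y : Scheme.{0}} {sX : X ⟶ SC} {sT : T ⟶ SC} {p : Y ⟶ X} {π : Y ⟶ T}
  {G : X.Modules} {E : Y.Modules} {q : (pullback p).obj G ⟶ E} {U : X.Opens} {n : ℕ}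
  {t : SC ⟶ T} {i : X ⟶ Y}

theorem cls_unit {z : kk} (hz : z ≠ 0) : IsUnit z := by
  have : IsUnit (toC z) := (toC.map_ne_zero_iff.2 hz).isUnit
  simpa using this.map toC.symm

theorem cls_mem {R C N : Type} [CommRing R] [CommRing C] [AddCommGroup N] [Module C N]
    (f : R →+* C) (I : Ideal R) (s : N) :
    s ∈ AddSubgroup.closure {x : N | ∃ r y, r ∈ I ∧ x = f r • y} ↔
      (letI := Module.compHom N f; s ∈ I • (⊤ : Submodule R N)) := by
  let _ := Module.compHom N f
  constructor
  · intro h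
    refine (AddSubgroup.closure_le (I • (⊤ : Submodule R N)).toAddSubgroup).2 ?_ h
    rintro _ ⟨r, y, hr, rfl⟩
    exact Submodule.smul_mem_smul hr (Submodule.mem_top (x := y))
  · intro h
    refine Submodule.smul_induction_on h (fun r hr y _ => ?_) fun x y hx hy => add_mem hx hy
    exact AddSubgroup.subset_closure ⟨r, y, hr, rfl⟩

/-- a basis after inverting `r` is a chart over the basic open set of `r` -/
theorem cls_basic (H : Good sX sT π q) (hU : IsAffineOpen U) {V : T.Opens} (hV : IsAffineOpen V)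
    (hs : ∀ y : Y, π y ∈ V → p y ∉ U → Van E y) {β : Fin n → Γ(G, U)} (r : Γ(T, V))
    (h₁ : ∀ m, ∃ v : Fin n → Γ(T, V), apb p π U V r • thb π q U V m =
      ∑ i, apb p π U V (v i) • thb π q U V (β i))
    (h₂ : ∀ v : Fin n → Γ(T, V), ∑ i, apb p π U V (v i) • thb π q U V (β i) = 0 →
      ∀ i, r * v i = 0) : ∃ c, InChart π q (T.basicOpen r) U β c := by
  have hle : T.basicOpen r ≤ V := T.basicOpen_le r
  have hb : box p π U (T.basicOpen r) ≤ box p π U V := inf_le_inf_left _ (π.preimage_mono hle)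
  have ea : ∀ a, rres hb (apb p π U V a) = apb p π U (T.basicOpen r) (rres hle a) :=
    fun a => (rres_ap _ _ _ _).trans (ap_rres _ _ _ _).symm
  have em : ∀ m, mres E hb (thb π q U V m) = thb π q U (T.basicOpen r) m :=
    fun m => mres_th q _ _ m
  obtain ⟨u, hu⟩ := isUnit_rres r hle le_rfl
  choose v hv using h₁
  refine ⟨fun m i => (u⁻¹ : Γ(T, T.basicOpen r)ˣ) * rres hle (v m i),
    fun y hy => hs y (hle hy), fun m => ?_, fun ρ hρ => ?_⟩
  · have := congrArg (mres E hb) (hv m)
    simp only [map_sum, mres_smul, ea, em, ← hu] at this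
    refine smul_cancel (u.isUnit.map (apb p π U (T.basicOpen r))) ?_
    rw [this, Finset.smul_sum]
    refine Finset.sum_congr rfl fun i _ => ?_
    rw [smul_smul, ← map_mul, Units.mul_inv_cancel_left]
  · have := hV.isLocalization_basicOpen r
    obtain ⟨⟨_, N, rfl⟩, hN⟩ :=
      IsLocalization.exist_integer_multiples_of_finite (Submonoid.powers r) ρ
    choose w hw using hN
    have hw' : ∀ i, rres hle (w i) = (u : Γ(T, T.basicOpen r)) ^ N * ρ i := fun i => by
      rw [hu, ← map_pow]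
      exact (hw i).trans (Algebra.smul_def _ _)
    have e0 : box p π U (T.basicOpen r) = Y.basicOpen (apb p π U V r) := by
      ext y
      exact ⟨fun hy => (mem_basicOpen_ap π _ r).2 ⟨hb hy, hy.2⟩, fun hy =>
        ⟨((mem_basicOpen_ap π _ r).1 hy).1.1, ((mem_basicOpen_ap π _ r).1 hy).2⟩⟩
    obtain ⟨k, hk⟩ := (locAt_of_fp H.fp (box_aff H.sq hU hV)).un _ _ hb e0
      (∑ i, apb p π U V (w i) • thb π q U V (β i)) (by
        simp only [map_sum, mres_smul, ea, em, hw', map_mul, mul_smul]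
        rw [← Finset.smul_sum, hρ, smul_zero])
    have h3 := h₂ (fun i => r ^ k * w i) (by
      simp only [map_mul, map_pow, mul_smul]
      rw [← Finset.smul_sum, hk])
    funext i
    have h4 := congrArg (rres hle) (h3 i)
    rw [map_mul, map_mul, map_pow, hw', ← hu, map_zero] at h4
    simpa only [← Units.val_pow_eq_pow_val, Units.mul_right_eq_zero, Pi.zero_apply] using h4

theorem chart_near [UniversallyClosed sX] [LocallyOfFiniteType sX] [LocallyOfFiniteType sT]
    (H : Good sX sT π q) (hG : G.IsFinitePresentation) (hF : FlatOver π E) (hU : IsAffineOpen U)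
    (ht : t ≫ sT = 𝟙 _) (h₁ : i ≫ p = 𝟙 X) (h₂ : i ≫ π = sX ≫ t) {β : Fin n → Γ(G, U)}
    {c₀ : Γ(G, U) → Fin n → kk} (C : InChart sX (pullq i h₁ q) ⊤ U β c₀) :
    ∃ V : T.Opens, IsAffineOpen V ∧ ⊤ ≤ t ⁻¹ᵁ V ∧ ∃ c, InChart π q V U β c := by
  obtain ⟨V, hV, hv, hs⟩ := supp_near (U := U) H.sq H.fp ht h₁ h₂ fun x hx => C.supp x trivial hx
  have hb := box_aff H.sq hU hV
  have eU : box (𝟙 X) sX U ⊤ = U := le_antisymm inf_le_left (le_inf le_rfl le_top)
  have h : box (𝟙 X) sX U ⊤ ≤ i ⁻¹ᵁ box p π U V := by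
    intro x hx
    refine ⟨?_, ?_⟩
    · change p (i x) ∈ U
      rw [← Scheme.Hom.comp_apply, h₁]
      exact hx.1
    · change π (i x) ∈ V
      rw [← Scheme.Hom.comp_apply, h₂, Scheme.Hom.comp_apply]
      exact hv trivial
  have h' : box (𝟙 X) sX U ⊤ ≤ (sX ≫ t) ⁻¹ᵁ V := fun x _ => by
    change (sX ≫ t) x ∈ V
    rw [Scheme.Hom.comp_apply]
    exact hv trivial
  have ea : ∀ r, ap i h (apb p π U V r) = apb (𝟙 X) sX U ⊤ (ap t hv r) := fun r =>
    (ap_ap i π h₂ _ _ h' r).trans (ap_ap sX t rfl _ _ h' r).symm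
  have em : ∀ m, pb i E h (thb π q U V m) = thb sX (pullq i h₁ q) U ⊤ m := fun m =>
    cmp_pullq h₁ q _ _ _ _ _ _ m
  have ec : ∀ z, ap t hv (cst sT V z) = z := fun z => (ap_cst t sT ht hv z).trans (cst_id z)
  let _ := Module.compHom Γ(E, box p π U V) (apb p π U V)
  have es : ∀ (r : Γ(T, V)) (x : Γ(E, box p π U V)), r • x = apb p π U V r • x := fun _ _ => rfl
  have hk : ∀ s : Γ(E, box p π U V), s ∈ RingHom.ker (ap t hv) •
      (⊤ : Submodule Γ(T, V) Γ(E, box p π U V)) ↔ pb i E h s = 0 := fun s =>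
    ((fibre_ker H.sq H.fp hU hV ht h₁ h₂ hv eU h s).trans
      (cls_mem (apb p π U V) (RingHom.ker (ap t hv)) s)).symm
  have : IsLocallyNoetherian T := LocallyOfFiniteType.isLocallyNoetherian sT
  have : IsNoetherianRing Γ(T, V) := IsLocallyNoetherian.component_noetherian ⟨V, hV⟩
  have : Module.Finite Γ(T, V) Γ(E, box p π U V) := finite_of_supp H.sq H.fp hU hV hs
  have : Module.Flat Γ(T, V) Γ(E, box p π U V) := hF V _ inf_le_right hV hb
  have : IsDomain kk := toC.toMulEquiv.isDomain ℂ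
  have : (RingHom.ker (ap t hv)).IsPrime := RingHom.ker_isPrime _
  obtain ⟨r, hr, H₁, H₂⟩ := basis_near (RingHom.ker (ap t hv)) (fun j => thb π q U V (β j))
    (fun x => by
      let P : AddSubgroup Γ(E, box p π U V) :=
        { carrier := {x | ∃ v : Fin n → Γ(T, V), x - ∑ j, v j • thb π q U V (β j) ∈
            RingHom.ker (ap t hv) • (⊤ : Submodule Γ(T, V) Γ(E, box p π U V))}
          zero_mem' := ⟨0, by simp⟩
          add_mem' := by
            rintro a b ⟨v, ha⟩ ⟨w, hb⟩
            refine ⟨v + w, ?_⟩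
            convert add_mem ha hb using 1
            simp only [Pi.add_apply, add_smul, Finset.sum_add_distrib]
            abel
          neg_mem' := by
            rintro a ⟨v, ha⟩
            refine ⟨-v, ?_⟩
            convert neg_mem ha using 1
            simp only [Pi.neg_apply, neg_smul, Finset.sum_neg_distrib]
            abel }
      have hP : P = ⊤ := H.span hG hU hV P fun r m => ⟨fun j => r * cst sT V (c₀ m j), by
        rw [hk]
        simp only [map_sub, map_sum, es, pb_smul, ea, em, map_mul, ec, mul_smul]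
        rw [C.eq m, Finset.smul_sum, sub_self]⟩
      have hx : x ∈ P := hP ▸ AddSubgroup.mem_top x
      exact hx)
    (fun v hv' j => by
      rw [hk] at hv'
      simp only [map_sum, es, pb_smul, ea, em] at hv'
      exact congrFun (C.ind _ hv') j)
  refine ⟨T.basicOpen r, hV.basicOpen r, fun x _ => ?_,
    cls_basic H hU hV hs r (fun m => H₁ _) H₂⟩
  refine ((mem_basicOpen_ap t hv r).1 ?_).2
  rw [Scheme.basicOpen_of_isUnit _ (cls_unit hr)]
  trivial

end Pool.Agent.Lib.MP_d4c0ca_ag.Q
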