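import Pool.Agent.Lib.MP_d4c0ca_ag.Q.Chart

/-! Sections of a family and of its fibre. -/

set_option autoImplicit false

namespace Pool.Agent.Lib.MP_d4c0ca_ag.Q

open CategoryTheory AlgebraicGeometry Opposite TopologicalSpace Scheme.Modules
open Pool.Agent.Lib.MP_cd184e_ag.B

/-- elements that give a basis of the fibre give a basis nearby -/
theorem basis_near {R N : Type} [CommRing R] [IsNoetherianRing R] [AddCommGroup N] [Module R N]
    [Module.Finite R N] [Module.Flat R N] (I : Ideal R) [I.IsPrime] {n : ℕ} (b : Fin n → N)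
    (h₁ : ∀ x : N, ∃ v : Fin n → R, x - ∑ i, v i • b i ∈ I • (⊤ : Submodule R N))
    (h₂ : ∀ v : Fin n → R, ∑ i, v i • b i ∈ I • (⊤ : Submodule R N) → ∀ i, v i ∈ I) :
    ∃ r ∉ I, (∀ x : N, ∃ v : Fin n → R, r • x = ∑ i, v i • b i) ∧
      ∀ v : Fin n → R, ∑ i, v i • b i = 0 → ∀ i, r * v i = 0 := by
  classical
  let φ : (Fin n → R) →ₗ[R] N := Fintype.linearCombination R b
  have hφ : ∀ v, φ v = ∑ i, v i • b i := fun v => rfl
  obtain ⟨r, hr, hle⟩ := Submodule.exists_sub_one_mem_and_smul_le_of_fg_of_le_sup (I := I)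
    (N := LinearMap.range φ) (N' := ⊤) (P := ⊤) Module.Finite.fg_top le_rfl (fun x _ => by
      obtain ⟨v, hv⟩ := h₁ x
      rw [← add_sub_cancel (∑ i, v i • b i) x]
      exact Submodule.add_mem_sup ⟨v, hφ v⟩ hv)
  have gen : ∀ x : N, ∃ v : Fin n → R, r • x = ∑ i, v i • b i := fun x => by
    obtain ⟨v, hv⟩ := hle (Submodule.smul_mem_pointwise_smul x r ⊤ trivial)
    exact ⟨v, hv.symm.trans (hφ v)⟩
  let J : Ideal R := Ideal.span {z | ∃ (v : Fin n → R) (i : Fin n), ∑ i, v i • b i = 0 ∧ z = v i}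
  have hJ : J ≤ I • J := by
    refine Ideal.span_le.2 ?_
    rintro _ ⟨v, l, hv, rfl⟩
    obtain ⟨k, a, y, ha, hva⟩ := Module.Flat.isTrivialRelation_of_sum_smul_eq_zero hv
    choose c hc using fun j => gen (y j)
    have hm : ∀ i l, (∑ j, a i j * c j l) - r * (Pi.single i 1 : Fin n → R) l ∈ I := fun i => by
      refine h₂ (fun l => (∑ j, a i j * c j l) - r * (Pi.single i 1 : Fin n → R) l) ?_
      have e1 : ∑ l, (∑ j, a i j * c j l) • b l = r • b i := by
        rw [ha i, Finset.smul_sum]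
        simp only [Finset.sum_smul]
        rw [Finset.sum_comm]
        refine Finset.sum_congr rfl fun j _ => ?_
        rw [smul_comm, hc, Finset.smul_sum]
        simp only [mul_smul]
      have e2 : ∑ l, (r * (Pi.single i 1 : Fin n → R) l) • b l = r • b i := by
        simp [Pi.single_apply, ite_smul]
      simp only [sub_smul, Finset.sum_sub_distrib, e1, e2, sub_self]
      exact Submodule.zero_mem _
    have hv' : ∀ i, v i ∈ J := fun i => Ideal.subset_span ⟨v, i, hv, rfl⟩
    have e0 : ∑ i, (∑ j, a i j * c j l) * v i = 0 := by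
      simp only [Finset.sum_mul]
      rw [Finset.sum_comm]
      refine Finset.sum_eq_zero fun j _ => ?_
      have := congrArg (· * c j l) (hva j)
      simp only [Finset.sum_mul, zero_mul] at this
      rw [← this]
      exact Finset.sum_congr rfl fun i _ => by ring
    have e3 : ∑ i, (r * (Pi.single i 1 : Fin n → R) l) * v i = r * v l := by
      simp [Pi.single_apply]
    have e : v l = -(∑ i, ((∑ j, a i j * c j l) - r * (Pi.single i 1 : Fin n → R) l) • v i) -
        (r - 1) • v l := by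
      simp only [smul_eq_mul, sub_mul, Finset.sum_sub_distrib, e0, e3]
      ring
    rw [SetLike.mem_coe, e]
    exact Submodule.sub_mem _ (Submodule.neg_mem _ (Submodule.sum_mem _ fun i _ =>
      Submodule.smul_mem_smul (hm i l) (hv' i))) (Submodule.smul_mem_smul hr (hv' l))
  obtain ⟨r', hr', hk⟩ := Submodule.exists_sub_one_mem_and_smul_eq_zero_of_fg_of_le_smul I J
    (IsNoetherian.noetherian J) hJ
  have one : ∀ z : R, z - 1 ∈ I → z ∉ I := fun z a c =>
    (Ideal.IsPrime.ne_top ‹_›) ((Ideal.eq_top_iff_one I).2 (by simpa using I.sub_mem c a))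
  refine ⟨r' * r, fun c => ((‹I.IsPrime›.mem_or_mem c).elim (one _ hr') (one _ hr)), fun x => ?_,
    fun v hv i => ?_⟩
  · obtain ⟨v, hv⟩ := gen x
    refine ⟨fun i => r' * v i, ?_⟩
    simp only [mul_smul, hv, Finset.smul_sum]
  · have := hk (v i) (Ideal.subset_span ⟨v, i, hv, rfl⟩)
    rw [smul_eq_mul] at this
    rw [mul_comm r', mul_assoc, this, mul_zero]

theorem clsa_aff {T : Scheme.{0}} (t : SC ⟶ T) (O : T.Opens) (h : ∀ z, t z ∈ O) :
    ∃ V : T.Opens, IsAffineOpen V ∧ ⊤ ≤ t ⁻¹ᵁ V ∧ V ≤ O := by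
  have : Unique SC := inferInstanceAs (Unique (PrimeSpectrum ℂ))
  obtain ⟨V, hV, h1, h2⟩ := exists_isAffineOpen_mem_and_subset (X := T) (x := t default) (U := O)
    (h _)
  refine ⟨V, hV, fun z _ => ?_, h2⟩
  rw [Subsingleton.elim z default]
  exact h1

variable {X T Y : Scheme.{0}} {sX : X ⟶ SC} {sT : T ⟶ SC} {p : Y ⟶ X} {π : Y ⟶ T}
  {E : Y.Modules} {U : X.Opens} {V : T.Opens} {t : SC ⟶ T} {i : X ⟶ Y}

/-- sections that vanish on the fibre -/
theorem fibre_ker (sq : IsPullback p π sX sT) (hE : E.IsFinitePresentation) (hU : IsAffineOpen U)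
    (hV : IsAffineOpen V) (ht : t ≫ sT = 𝟙 _) (h₁ : i ≫ p = 𝟙 X) (h₂ : i ≫ π = sX ≫ t)
    (hv : ⊤ ≤ t ⁻¹ᵁ V) {U' : X.Opens} (e : U' = U) (h : U' ≤ i ⁻¹ᵁ box p π U V)
    (s : Γ(E, box p π U V)) : pb i E h s = 0 ↔
      s ∈ AddSubgroup.closure {x | ∃ r y, ap t hv r = 0 ∧ x = apb p π U V r • y} := by
  subst e
  have hB := box_aff sq hU hV
  have hz : ∀ r, ap i h (apb p π U' V r) = cst sX U' (ap t hv r) := fun r => by
    have h3 : U' ≤ (sX ≫ t) ⁻¹ᵁ V := fun x _ => hv (Set.mem_univ (sX x))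
    exact (ap_ap i π h₂ _ h h3 r).trans (ap_ap sX t rfl hv _ h3 r).symm
  have ha : ∀ a, ap i h (apa p π U' V a) = a := fun a =>
    (ap_ap i p h₁ _ h le_rfl a).trans (rres_self le_rfl a)
  let P : Submodule Γ(Y, box p π U' V) Γ(E, box p π U' V) :=
    { toAddSubmonoid := (AddSubgroup.closure
        {x | ∃ r y, ap t hv r = 0 ∧ x = apb p π U' V r • y}).toAddSubmonoid
      smul_mem' := fun c x hx => by
        change c • x ∈ AddSubgroup.closure _
        change x ∈ AddSubgroup.closure _ at hx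
        induction hx using AddSubgroup.closure_induction with
        | mem x hx =>
          obtain ⟨r, y, a, rfl⟩ := hx
          exact AddSubgroup.subset_closure ⟨r, c • y, a, smul_comm _ _ _⟩
        | zero => rw [smul_zero]; exact zero_mem _
        | add x y _ _ a b => rw [smul_add]; exact add_mem a b
        | neg x _ a => rw [smul_neg]; exact neg_mem a }
  change _ ↔ s ∈ P
  refine ⟨fun hs => ?_, fun hs => ?_⟩
  · let J : Ideal Γ(Y, box p π U' V) := P.colon Set.univ
    have hS := box_gen sq hU hV (RingHom.eqLocus (Ideal.Quotient.mk J)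
      ((Ideal.Quotient.mk J).comp ((apa p π U' V).comp (ap i h))))
      (fun a => by
        change Ideal.Quotient.mk J _ = Ideal.Quotient.mk J (apa p π U' V (ap i h _))
        rw [ha])
      (fun r => by
        change Ideal.Quotient.mk J _ = Ideal.Quotient.mk J (apa p π U' V (ap i h _))
        rw [hz, box_cst sq, Ideal.Quotient.eq, ← map_sub]
        refine Submodule.mem_colon.2 fun y _ => AddSubgroup.subset_closure ⟨_, y, ?_, rfl⟩
        rw [map_sub, ap_cst t sT ht, cst_id, sub_self])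
    have key : ∀ w y, (w - apa p π U' V (ap i h w)) • y ∈ P := fun w y => by
      have : w ∈ RingHom.eqLocus (Ideal.Quotient.mk J)
        ((Ideal.Quotient.mk J).comp ((apa p π U' V).comp (ap i h))) := hS ▸ Subring.mem_top w
      exact Submodule.mem_colon.1 (Ideal.Quotient.eq.1 this) y trivial
    let _ : Module Γ(X, U') (Γ(E, box p π U' V) ⧸ P) := Module.compHom _ (apa p π U' V)
    obtain ⟨ψ, hψ⟩ := pb_lift i hB hU h (locAt_of_fp hE hB) (N := Γ(E, box p π U' V) ⧸ P)
      P.mkQ.toAddMonoidHom (fun w y => by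
        change P.mkQ (w • y) = apa p π U' V (ap i h w) • P.mkQ y
        rw [← P.mkQ.map_smul, Submodule.mkQ_apply, Submodule.mkQ_apply, Submodule.Quotient.eq, ← sub_smul]
        exact key w y)
    have := hψ s
    rw [hs, map_zero] at this
    exact (Submodule.Quotient.mk_eq_zero P).1 this.symm
  · change s ∈ AddSubgroup.closure _ at hs
    induction hs using AddSubgroup.closure_induction with
    | mem x hx =>
      obtain ⟨r, y, a, rfl⟩ := hx
      rw [pb_smul, hz, a, map_zero, zero_smul]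
    | zero => exact map_zero _
    | add x y _ _ a b => rw [map_add, a, b, add_zero]
    | neg x _ a => rw [map_neg, a, neg_zero]

theorem van_of_fibre (sq : IsPullback p π sX sT) (hE : E.IsFinitePresentation) (ht : t ≫ sT = 𝟙 _)
    (h₁ : i ≫ p = 𝟙 X) (h₂ : i ≫ π = sX ≫ t) {x : X} (hx : Van ((pullback i).obj E) x) :
    Van E (i x) := by
  obtain ⟨W, hxW, hW⟩ := hx
  obtain ⟨U, hU, hxU, hUW⟩ := exists_isAffineOpen_mem_and_subset (X := X) (x := x) (U := W) hxW
  obtain ⟨V, hV, hv⟩ := clsa_aff t ⊤ (fun _ => trivial)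
  have hv := hv.1
  have h : U ≤ i ⁻¹ᵁ box p π U V := fun z hz => by
    refine ⟨?_, ?_⟩
    · change (i ≫ p) z ∈ U
      rw [h₁]
      exact hz
    · change (i ≫ π) z ∈ V
      rw [h₂]
      exact hv (Set.mem_univ (sX z))
  have hB := box_aff sq hU hV
  have := finite_of_fp E hB
  obtain ⟨c, hc, hk⟩ := Submodule.exists_sub_one_mem_and_smul_eq_zero_of_fg_of_le_smul
    (RingHom.ker (ap i h)) (⊤ : Submodule Γ(Y, box p π U V) Γ(E, box p π U V))
    Module.Finite.fg_top (fun s _ => by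
      have hs := (fibre_ker sq hE hU hV ht h₁ h₂ hv rfl h s).1 (hW U hUW _)
      induction hs using AddSubgroup.closure_induction with
      | mem x hx =>
        obtain ⟨r, y, a, rfl⟩ := hx
        refine Submodule.smul_mem_smul ?_ trivial
        have h3 : U ≤ (sX ≫ t) ⁻¹ᵁ V := fun x _ => hv (Set.mem_univ (sX x))
        rw [RingHom.mem_ker, (ap_ap i π h₂ _ h h3 r).trans (ap_ap sX t rfl hv le_top h3 r).symm, a,
          map_zero]
      | zero => exact zero_mem _
      | add x y _ _ a b => exact add_mem (a trivial) (b trivial)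
      | neg x _ a => exact neg_mem (a trivial))
  refine van_of_affine hB (locAt_of_fp hE hB) c (fun s => hk s trivial) ?_
  rw [RingHom.mem_ker, map_sub, map_one, sub_eq_zero] at hc
  refine ((mem_basicOpen_ap i h c).1 ?_).2
  rw [hc, Scheme.basicOpen_one]
  exact hxU

/-- the support stays in `U` near the point -/
theorem supp_near [UniversallyClosed sX] (sq : IsPullback p π sX sT) (hE : E.IsFinitePresentation)
    (ht : t ≫ sT = 𝟙 _) (h₁ : i ≫ p = 𝟙 X) (h₂ : i ≫ π = sX ≫ t)
    (hs : ∀ x : X, x ∉ U → Van ((pullback i).obj E) x) :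
    ∃ V : T.Opens, IsAffineOpen V ∧ ⊤ ≤ t ⁻¹ᵁ V ∧ ∀ y : Y, π y ∈ V → p y ∉ U → Van E y := by
  have : UniversallyClosed π := MorphismProperty.of_isPullback sq ‹_›
  have h0 : IsOpen {y : Y | Van E y} := isOpen_iff_forall_mem_open.2 fun y ⟨W, hy, hW⟩ =>
    ⟨W, fun z hz => ⟨W, hz, hW⟩, W.2, hy⟩
  have hZ : IsClosed ({y : Y | Van E y} ∪ (p ⁻¹ᵁ U : Y.Opens))ᶜ :=
    (h0.union (p ⁻¹ᵁ U).2).isClosed_compl
  obtain ⟨V, hV, hv, hO⟩ := clsa_aff t ⟨_, (π.isClosedMap _ hZ).isOpen_compl⟩ (fun z => by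
    rintro ⟨y, hy, e⟩
    obtain ⟨x, rfl⟩ := mem_range_of_sq sq ht h₁ h₂ ⟨z, e.symm⟩
    refine hy ?_
    by_cases c : x ∈ U
    · refine Or.inr ?_
      change (i ≫ p) x ∈ U
      rw [h₁]
      exact c
    · exact Or.inl (van_of_fibre sq hE ht h₁ h₂ (hs x c)))
  refine ⟨V, hV, hv, fun y a b => ?_⟩
  by_contra c
  exact hO a ⟨y, fun d => d.elim c b, rfl⟩

end Pool.Agent.Lib.MP_d4c0ca_ag.Q
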