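import Pool.Agent.Lib.MP_d4c0ca_ag.T.St

/-! Flat families of quotients of finite length, the Quot scheme as the base of a universal family,
and the classical topology on complex points. -/

namespace Pool.Agent.Lib.MP_d4c0ca_ag.Q

open CategoryTheory AlgebraicGeometry Scheme.Modules

/-- `M` is a coherent sheaf of length `n`. -/
def HasLength {X : Scheme.{0}} (M : X.Modules) (n : ℕ) : Prop :=
  ∃ h : M.IsFinitePresentation, Order.height (⊤ : Subobject (⟨M, h⟩ : T.St.Coh X)) = n

/-- `E` is flat over the base of `π`. -/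
def FlatOver {Y T : Scheme.{0}} (π : Y ⟶ T) (E : Y.Modules) : Prop :=
  ∀ (V : T.Opens) (W : Y.Opens) (h : W ≤ π ⁻¹ᵁ V), IsAffineOpen V → IsAffineOpen W →
    @Module.Flat Γ(T, V) Γ(E, W) _ _ (Module.compHom Γ(E, W) (π.appLE V W h).hom)

/-- A family of quotients of `G` of length `n` parametrised by `T`: a finitely presented quotient
of the inverse image of `G` on the fibre product of `X` and `T` over `S`, flat over `T`, whose
fibres over the `S`-valued points of `T` have length `n`. -/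
structure Family {S X T : Scheme.{0}} (sX : X ⟶ S) (G : X.Modules) (n : ℕ) (sT : T ⟶ S) where
  Y : Scheme.{0}
  p : Y ⟶ X
  π : Y ⟶ T
  sq : IsPullback p π sX sT
  E : Y.Modules
  q : (pullback p).obj G ⟶ E
  epi : Epi q
  fp : E.IsFinitePresentation
  flat : FlatOver π E
  len : ∀ (t : S ⟶ T) (i : X ⟶ Y), t ≫ sT = 𝟙 S → i ≫ p = 𝟙 X → i ≫ π = sX ≫ t →
    HasLength ((pullback i).obj E) n

variable {S X T Q : Scheme.{0}} {sX : X ⟶ S} {G : X.Modules} {n : ℕ} {sT : T ⟶ S} {sQ : Q ⟶ S}

/-- The family `η` is the inverse image of the family `ξ` along `f`. -/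
def Pulls (f : T ⟶ Q) (ξ : Family sX G n sQ) (η : Family sX G n sT) : Prop :=
  ∃ (g : η.Y ⟶ ξ.Y) (h : g ≫ ξ.p = η.p), g ≫ ξ.π = η.π ≫ f ∧
    ∃ e : (pullback g).obj ξ.E ≅ η.E, (pullback g).map ξ.q ≫ e.hom =
      (pullbackComp g ξ.p).hom.app G ≫ (pullbackCongr h).hom.app G ≫ η.q

/-- The base of `ξ` is locally of finite type and represents the Quot functor on schemes locally
of finite type, with universal family `ξ`. -/
def Universal (ξ : Family sX G n sQ) : Prop :=
  LocallyOfFiniteType sQ ∧ ∀ (T : Scheme.{0}) (sT : T ⟶ S), LocallyOfFiniteType sT →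
    ∀ η : Family sX G n sT, ∃! f : T ⟶ Q, f ≫ sQ = sT ∧ Pulls f ξ η

/-- The complex points with the classical topology, generated by the sets of points of an open set
at which a regular function takes values in an open subset of the plane. -/
noncomputable def an (s : T ⟶ Spec (.of ℂ)) : TopCat.{0} :=
  @TopCat.of {t : Spec (.of ℂ) ⟶ T // t ≫ s = 𝟙 _} (TopologicalSpace.generateFrom
    {A | ∃ (U : T.Opens) (f : Γ(T, U)) (O : Set ℂ), IsOpen O ∧ A = {t | ∃ h : ⊤ ≤ t.1 ⁻¹ᵁ U,
      (Scheme.ΓSpecIso (.of ℂ)).hom (t.1.appLE U ⊤ h f) ∈ O}})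

end Pool.Agent.Lib.MP_d4c0ca_ag.Q
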