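import Pool.Agent.Lib.MP_d4c0ca_ag.Q.FamA

/-! The universal quotient. -/

set_option autoImplicit false

namespace Pool.Agent.Lib.MP_d4c0ca_ag.Q

open CategoryTheory AlgebraicGeometry Opposite TopologicalSpace Scheme.Modules
open Pool.Agent.Lib.MP_cd184e_ag.B

section
variable {Y : Scheme.{0}} {M : Y.Modules}

theorem fam_soS {U W W' : Y.Opens} (h : W ≤ U) (h' : W' ≤ W) (P : Submodule Γ(Y, U) Γ(M, U)) :
    T.soS h' (T.soS h P) = T.soS (h'.trans h) P := by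
  refine le_antisymm (Submodule.span_le.2 ?_) (Submodule.span_le.2 ?_)
  · rintro _ ⟨s, hs, rfl⟩
    exact T.soS_res h h' hs
  · rintro _ ⟨s, hs, rfl⟩
    exact Submodule.subset_span ⟨mres M h s, Submodule.subset_span ⟨s, hs, rfl⟩,
      mres_mres _ _ _ _⟩

/-- `s` lies near `y` in the submodule generated by `P` -/
def FamLoc {U : Y.Opens} (P : Submodule Γ(Y, U) Γ(M, U)) (y : Y) {W : Y.Opens} (s : Γ(M, W)) :
    Prop :=
  ∃ (W' : Y.Opens) (h : W' ≤ W) (h' : W' ≤ U), y ∈ W' ∧ mres M h s ∈ T.soS h' P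

variable {U U' W W' : Y.Opens} {P : Submodule Γ(Y, U) Γ(M, U)} {y : Y}

theorem FamLoc.res {s : Γ(M, W)} (H : FamLoc P y s) (h : W' ≤ W) (hy : y ∈ W') :
    FamLoc P y (mres M h s) := by
  obtain ⟨Z, a, b, c, d⟩ := H
  refine ⟨Z ⊓ W', inf_le_right, inf_le_left.trans b, ⟨c, hy⟩, ?_⟩
  have := T.soS_res b (inf_le_left : Z ⊓ W' ≤ Z) d
  rwa [mres_mres, ← mres_mres M h inf_le_right] at this

theorem FamLoc.of_res {s : Γ(M, W)} (h : W' ≤ W) (H : FamLoc P y (mres M h s)) :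
    FamLoc P y s := by
  obtain ⟨Z, a, b, c, d⟩ := H
  exact ⟨Z, a.trans h, b, c, by rwa [mres_mres] at d⟩

theorem FamLoc.add {s t : Γ(M, W)} (H : FamLoc P y s) (H' : FamLoc P y t) :
    FamLoc P y (s + t) := by
  obtain ⟨Z, a, b, c, d⟩ := H
  obtain ⟨Z', a', b', c', d'⟩ := H'
  refine ⟨Z ⊓ Z', inf_le_left.trans a, inf_le_left.trans b, ⟨c, c'⟩, ?_⟩
  have e := T.soS_res b (inf_le_left : Z ⊓ Z' ≤ Z) d
  have e' := T.soS_res b' (inf_le_right : Z ⊓ Z' ≤ Z') d'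
  rw [mres_mres] at e e'
  rw [map_add]
  exact add_mem e e'

theorem FamLoc.smul {s : Γ(M, W)} (H : FamLoc P y s) (r : Γ(Y, W)) : FamLoc P y (r • s) := by
  obtain ⟨Z, a, b, c, d⟩ := H
  exact ⟨Z, a, b, c, by rw [mres_smul]; exact Submodule.smul_mem _ _ d⟩

theorem famLoc_soS {s : Γ(M, W)} (h : U' ≤ U) (hy : y ∈ U') :
    FamLoc (T.soS h P) y s ↔ FamLoc P y s := by
  constructor
  · rintro ⟨Z, a, b, c, d⟩
    exact ⟨Z, a, b.trans h, c, by rwa [fam_soS] at d⟩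
  · rintro ⟨Z, a, b, c, d⟩
    refine ⟨Z ⊓ U', inf_le_left.trans a, inf_le_right, ⟨c, hy⟩, ?_⟩
    have e := T.soS_res b (inf_le_left : Z ⊓ U' ≤ Z) d
    rw [mres_mres] at e
    rwa [fam_soS]

theorem famLoc_top (hU : IsAffineOpen U) (hL : LocAt M U) (h : W' ≤ U) (hy : y ∈ W')
    (hP : T.soS h P = ⊤) (hW : y ∈ W) (s : Γ(M, W)) : FamLoc P y s := by
  obtain ⟨g, a, b⟩ := hU.exists_basicOpen_le (V := W ⊓ W') ⟨y, hW, hy⟩ (h hy)
  refine ⟨_, a.trans inf_le_left, Y.basicOpen_le g, b, ?_⟩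
  obtain ⟨k, t, ht⟩ := hL.ex g _ (Y.basicOpen_le g) rfl (mres M (a.trans inf_le_left) s)
  have e := T.soS_res h (a.trans inf_le_right) (hP ▸ Submodule.mem_top :
    mres M h t ∈ T.soS h P)
  rw [mres_mres, ht] at e
  exact (Submodule.smul_mem_iff_of_isUnit _
    ((isUnit_rres g (Y.basicOpen_le g) le_rfl).pow k)).1 e

theorem famLoc_basic (hU : IsAffineOpen U) (hL : LocAt M U) (g : Γ(Y, U))
    {s : Γ(M, Y.basicOpen g)} (h : ∀ y ∈ Y.basicOpen g, FamLoc P y s) :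
    s ∈ T.soS (Y.basicOpen_le g) P :=
  T.soS_loc hU hL g fun x hx => by
    obtain ⟨Z, a, b, c, d⟩ := h x hx
    obtain ⟨g', e, f⟩ := hU.exists_basicOpen_le (V := Z) ⟨x, c⟩ (b c)
    have := T.soS_res b e d
    rw [mres_mres] at this
    exact ⟨g', e.trans a, f, this⟩

theorem famLoc_self (hU : IsAffineOpen U) (hL : LocAt M U) {s : Γ(M, U)}
    (h : ∀ y ∈ U, FamLoc P y s) : s ∈ P := by
  obtain ⟨k, t, ht, e⟩ := (T.mem_soS hU _ rfl).1 (famLoc_basic hU hL 1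
    (s := mres M (Y.basicOpen_le _) s) fun y hy => (h y (Y.basicOpen_le _ hy)).res _ hy)
  rw [map_one, one_pow, one_smul] at e
  exact (bijective_mres_of_eq _ _ Y.basicOpen_one).1 e ▸ ht

end

variable {X Q Y : Scheme.{0}} {G : X.Modules} {𝒰 : Set X.Opens} {n : ℕ} {sX : X ⟶ SC}
  {A : Atlas X 𝒰} {s : Q ⟶ SC} {V : Idx G 𝒰 n → Q.Opens}
  {u : ∀ α : Idx G 𝒰 n, (Fin n → Γ(G, α.U)) → Γ(G, α.U) → Fin n → Γ(Q, V α)}
  {p : Y ⟶ X} {π : Y ⟶ Q}

theorem Base.exists_quot [LocallyOfFiniteType sX] (H : Base sX A s V u) (sq : IsPullback p π sX s)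
    (hG : G.IsFinitePresentation) : ∃ (E : Y.Modules) (q : (pullback p).obj G ⟶ E),
      Good sX s π q ∧ ∀ α, ∀ β ∈ α.B, InChart π q (V α) α.U β (u α β) := by
  obtain ⟨P, h1, h2, h3, h4⟩ := H.exists_ker sq hG
  have := H.lft
  have : IsLocallyNoetherian Y := noeth_of_sq sq
  have hM : ((pullback p).obj G).IsFinitePresentation := fp_pb p hG
  have aff : ∀ α : Idx G 𝒰 n, IsAffineOpen (box p π α.U (V α)) := fun α =>
    box_aff sq (A.aff _ α.mem) (H.aff α)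
  have hA : ∀ (α α' : Idx G 𝒰 n) (y : Y), y ∈ box p π α.U (V α) → y ∈ box p π α'.U (V α') →
      ∀ (W : Y.Opens) (t : Γ((pullback p).obj G, W)), FamLoc (P α) y t → FamLoc (P α') y t := by
    intro α α' y hy hy' W t ht
    have hl : y ∈ box p π (α.meet A α').U (V (α.meet A α')) :=
      ⟨⟨hy.1, hy'.1⟩, H.inf α α' ⟨hy.2, hy'.2⟩⟩
    have b1 : box p π (α.meet A α').U (V (α.meet A α')) ≤ box p π α.U (V α) :=
      inf_le_inf (p.preimage_mono inf_le_left) (π.preimage_mono (H.mono (α.meet_left A α')))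
    have b2 : box p π (α.meet A α').U (V (α.meet A α')) ≤ box p π α'.U (V α') :=
      inf_le_inf (p.preimage_mono inf_le_right) (π.preimage_mono (H.mono (α.meet_right A α')))
    rw [← famLoc_soS b2 hl, ← h2 _ _ b2 (α.meet_right A α'), h2 _ _ b1 (α.meet_left A α'),
      famLoc_soS b1 hl]
    exact ht
  let K : ∀ W : Y.Opens, Submodule Γ(Y, W) Γ((pullback p).obj G, W) := fun W =>
    { carrier := {t | ∀ α : Idx G 𝒰 n, ∀ y ∈ W, y ∈ box p π α.U (V α) → FamLoc (P α) y t}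
      zero_mem' := fun α y hy hy' => ⟨W ⊓ box p π α.U (V α), inf_le_left, inf_le_right,
        ⟨hy, hy'⟩, by rw [map_zero]; exact zero_mem _⟩
      add_mem' := fun a b α y hy hy' => (a α y hy hy').add (b α y hy hy')
      smul_mem' := fun r t a α y hy hy' => (a α y hy hy').smul r }
  have hK : ∀ (α : Idx G 𝒰 n) t, t ∈ K (box p π α.U (V α)) ↔ t ∈ P α := fun α t =>
    ⟨fun h => famLoc_self (aff α) (locAt_of_fp hM (aff α)) fun y hy => h α y hy hy,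
      fun h α' y hy hy' => hA α α' y hy hy' _ t
        ⟨_, le_rfl, le_rfl, hy, Submodule.subset_span ⟨t, h, rfl⟩⟩⟩
  have hC : ∀ (α : Idx G 𝒰 n) (y : Y), π y ∈ V α → p y ∉ α.U → ∃ W : Y.Opens, y ∈ W ∧
      ∀ W' ≤ W, ∀ t, t ∈ K W' := by
    intro α y hy hy'
    obtain ⟨W, a, b⟩ := h3 α y hy hy'
    refine ⟨W ⊓ π ⁻¹ᵁ V α, ⟨a, hy⟩, fun W' hW t α' z hz hz' => ?_⟩
    by_cases c : p z ∈ α.U
    · have hb : z ∈ box p π α.U (V α) := ⟨c, (hW hz).2⟩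
      obtain ⟨g, e, f⟩ := (aff α).exists_basicOpen_le (V := W) ⟨z, (hW hz).1⟩ hb
      exact hA α α' z hb hz' _ t (famLoc_top (aff α) (locAt_of_fp hM (aff α))
        (Y.basicOpen_le g) f (b _ _ e ((aff α).basicOpen g)) hz t)
    · obtain ⟨Z, e, f, g⟩ := h4 (α.meet A α') α' z (α.meet_right A α')
        (H.inf α α' ⟨(hW hz).2, hz'.2⟩) hz'.1 fun h => c h.1
      exact famLoc_top (aff α') (locAt_of_fp hM (aff α')) e f g hz t
  obtain ⟨N, ι, hι⟩ := T.so_exists_sub _ K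
    (fun W W' h t ht α y hy hy' => (ht α y (h hy) hy').res h hy)
    fun W t h α y hy hy' => by
      obtain ⟨Z, a, b, c⟩ := h y hy
      exact (c α y b hy').of_res a
  have cov : ∀ y : Y, ∃ W : Y.Opens, y ∈ W ∧ IsAffineOpen W ∧
      ∀ (f : Γ(Y, W)) W' (h : W' ≤ W), W' = Y.basicOpen f → ∀ t, ∃ (k : ℕ) (t' : _),
        mres _ h (ι.app _ t') = rres h f ^ k • ι.app W' t := by
    intro y
    obtain ⟨α, hα⟩ := Opens.mem_iSup.1 (H.cover.ge (Set.mem_univ (π y)))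
    by_cases c : p y ∈ α.U
    · refine ⟨box p π α.U (V α), ⟨c, hα⟩, aff α, fun f W' h e t => ?_⟩
      subst e
      have ht := ((hι _).2 _).2 ⟨t, rfl⟩
      obtain ⟨k, v, hv, e⟩ := (T.mem_soS (aff α) _ rfl).1 (famLoc_basic (aff α)
        (locAt_of_fp hM (aff α)) f fun z hz => ht α z hz (h hz))
      obtain ⟨t', rfl⟩ := ((hι _).2 v).1 ((hK α v).2 hv)
      exact ⟨k, t', e⟩
    · obtain ⟨W, a, b⟩ := hC α y hα c
      obtain ⟨_, ⟨W', hW', rfl⟩, e, f⟩ :=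
        Y.isBasis_affineOpens.exists_subset_of_mem_open a W.isOpen
      refine ⟨W', e, hW', fun g Z h e t => ?_⟩
      obtain ⟨k, v, hv⟩ := (locAt_of_fp hM hW').ex g Z h e (ι.app Z t)
      obtain ⟨t', rfl⟩ := ((hι _).2 v).1 (b W' f v)
      exact ⟨k, t', hv⟩
  choose W w1 w2 w3 using cov
  have hN : N.IsFinitePresentation := T.so_fp w2
    (top_le_iff.1 fun y _ => Opens.mem_iSup.2 ⟨y, w1 y⟩)
    (fun y => IsLocallyNoetherian.component_noetherian ⟨W y, w2 y⟩) hM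
    (fun y => locAt_of_fp hM (w2 y)) ι (fun V => (hι V).1) w3
  obtain ⟨E, q, e1, e2, e3⟩ := exists_coker ι (fun V => (hι V).1) hN hM
  have e4 : ∀ Z t, q.app Z t = 0 ↔ t ∈ K Z := fun Z t => (e3 Z t).trans ((hι Z).2 t).symm
  have e5 : ∀ (α : Idx G 𝒰 n) (β : Fin n → Γ(G, α.U)) (r : Fin n → Γ(Q, V α)),
      q.app _ (∑ i, apb p π α.U (V α) (r i) • pb p G inf_le_left (β i)) =
        ∑ i, apb p π α.U (V α) (r i) • thb π q α.U (V α) (β i) := fun α β r => by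
    rw [map_sum]
    exact Finset.sum_congr rfl fun i _ => Scheme.Modules.Hom.app_smul q _ _
  refine ⟨E, q, ⟨sq, e1, e2⟩, fun α β hβ => ⟨fun y hy hy' => ?_, fun m => ?_, fun r hr => ?_⟩⟩
  · obtain ⟨Z, a, b⟩ := hC α y hy hy'
    refine ⟨Z, a, fun Z' hZ t => sec_ext E _ _ fun x hx => ?_⟩
    obtain ⟨Z'', c, d, v, hv⟩ := loc_surj_of_epi q t hx
    exact ⟨Z'', c, d, by rw [← hv, map_zero, (e4 _ _).2 (b _ (c.trans hZ) v)]⟩
  · have := (e4 _ _).2 ((hK α _).2 ((h1 α β hβ).1 m))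
    rw [map_sub, sub_eq_zero, e5] at this
    exact this
  · exact (h1 α β hβ).2 r ((hK α _).1 ((e4 _ _).1 ((e5 α β r).trans hr)))

end Pool.Agent.Lib.MP_d4c0ca_ag.Q
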