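import Pool.Agent.Lib.MP_d4c0ca_ag.Q.Chart

/-! Flatness is local; families with charts are flat. -/

set_option autoImplicit false

namespace Pool.Agent.Lib.MP_d4c0ca_ag.Q

open CategoryTheory AlgebraicGeometry Opposite TopologicalSpace Scheme.Modules
open Pool.Agent.Lib.MP_cd184e_ag.B

variable {X T Y : Scheme.{0}} {sX : X ⟶ SC} {sT : T ⟶ SC} {p : Y ⟶ X} {π : Y ⟶ T}
  {G : X.Modules} {E : Y.Modules} {q : (pullback p).obj G ⟶ E} {n : ℕ}

theorem flat_loc {R S M M' : Type} [CommRing R] [CommRing S] [Algebra R S] [AddCommGroup M]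
    [AddCommGroup M'] [Module R M] [Module S M] [IsScalarTower R S M] [Module R M'] [Module S M']
    [IsScalarTower R S M'] (P : Submonoid S) (f : M →ₗ[S] M') [IsLocalizedModule P f]
    (H : Module.Flat R M) : Module.Flat R M' := by
  simp_rw [Module.Flat.iff_lTensor_injectiveₛ] at H ⊢
  simp_rw [← TensorProduct.AlgebraTensorModule.coe_lTensor (A := S)] at H ⊢
  intro Q _ _ N
  have := IsLocalizedModule.map_injective P (TensorProduct.AlgebraTensorModule.rTensor R _ f)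
    (TensorProduct.AlgebraTensorModule.rTensor R _ f) _ (H N)
  simpa [IsLocalizedModule.map_lTensor] using this

/-- flatness of the sections over one pair of open sets -/
def FlatAt (π : Y ⟶ T) (E : Y.Modules) {V : T.Opens} {W : Y.Opens} (h : W ≤ π ⁻¹ᵁ V) : Prop :=
  @Module.Flat Γ(T, V) Γ(E, W) _ _ (Module.compHom Γ(E, W) (ap π h))

/-- restriction as a linear map -/
noncomputable def flatRes (E : Y.Modules) {W Z : Y.Opens} (h : Z ≤ W) :
    letI := Module.compHom Γ(E, Z) (rres h); Γ(E, W) →ₗ[Γ(Y, W)] Γ(E, Z) :=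
  letI := Module.compHom Γ(E, Z) (rres h)
  ⟨⟨mres E h, map_add _⟩, mres_smul E h⟩

theorem flatRes_loc {W Z : Y.Opens} (hL : LocAt E W) (h : Z ≤ W) {g : Γ(Y, W)}
    (e : Z = Y.basicOpen g) :
    letI := Module.compHom Γ(E, Z) (rres h)
    IsLocalizedModule (Submonoid.powers g) (flatRes E h) := by
  letI := Module.compHom Γ(E, Z) (rres h)
  refine ⟨?_, fun s => ?_, fun {s t} hst => ?_⟩
  · rintro ⟨_, k, rfl⟩
    have hu : IsUnit (rres h (g ^ k)) := by
      rw [map_pow]; exact (isUnit_rres g h e.le).pow k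
    exact (Module.End.isUnit_iff _).2 ⟨fun a b hab => smul_cancel hu hab,
      fun a => exists_smul_eq hu a⟩
  · obtain ⟨k, t, ht⟩ := hL.ex g Z h e s
    refine ⟨⟨t, ⟨_, k, rfl⟩⟩, ?_⟩
    rw [← map_pow] at ht
    exact ht.symm
  · obtain ⟨k, hk⟩ := hL.un g Z h e (s - t) (by rw [map_sub, sub_eq_zero]; exact hst)
    rw [smul_sub, sub_eq_zero] at hk
    exact ⟨⟨_, k, rfl⟩, hk⟩

theorem flat_tower {V : T.Opens} {W Z : Y.Opens} (h : W ≤ π ⁻¹ᵁ V) (h' : Z ≤ W) :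
    letI := (ap π h).toAlgebra
    letI := Module.compHom Γ(E, Z) (rres h')
    letI := Module.compHom Γ(E, Z) (ap π (h'.trans h))
    IsScalarTower Γ(T, V) Γ(Y, W) Γ(E, Z) := by
  letI := (ap π h).toAlgebra
  letI := Module.compHom Γ(E, Z) (rres h')
  letI := Module.compHom Γ(E, Z) (ap π (h'.trans h))
  refine ⟨fun a b s => ?_⟩
  change rres h' (ap π h a * b) • s = ap π (h'.trans h) a • rres h' b • s
  rw [map_mul, rres_ap, mul_smul]

theorem flat_tower' {V : T.Opens} {W : Y.Opens} (h : W ≤ π ⁻¹ᵁ V) :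
    letI := (ap π h).toAlgebra
    letI := Module.compHom Γ(E, W) (ap π h)
    IsScalarTower Γ(T, V) Γ(Y, W) Γ(E, W) := by
  letI := (ap π h).toAlgebra
  letI := Module.compHom Γ(E, W) (ap π h)
  exact ⟨fun a b s => mul_smul (ap π h a) b s⟩

theorem FlatAt.basic {V : T.Opens} {W Z : Y.Opens} {h : W ≤ π ⁻¹ᵁ V} (H : FlatAt π E h)
    (hL : LocAt E W) (h' : Z ≤ W) {g : Γ(Y, W)} (e : Z = Y.basicOpen g) :
    FlatAt π E (h'.trans h) := by
  letI := (ap π h).toAlgebra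
  letI := Module.compHom Γ(E, Z) (rres h')
  letI := Module.compHom Γ(E, Z) (ap π (h'.trans h))
  letI := Module.compHom Γ(E, W) (ap π h)
  have := flat_tower (E := E) h h'
  have := flat_tower' (E := E) h
  have := flatRes_loc hL h' e
  exact flat_loc (Submonoid.powers g) (flatRes E h') H

theorem flatAt_base {V V' : T.Opens} {Z : Y.Opens} (hV : IsAffineOpen V) (h : Z ≤ π ⁻¹ᵁ V)
    (h' : Z ≤ π ⁻¹ᵁ V') {f : Γ(T, V)} (e : V' = T.basicOpen f) :
    FlatAt π E h' ↔ FlatAt π E h := by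
  subst e
  letI := Module.compHom Γ(E, Z) (ap π h)
  letI := Module.compHom Γ(E, Z) (ap π h')
  have := hV.isLocalization_basicOpen f
  have : IsScalarTower Γ(T, V) Γ(T, T.basicOpen f) Γ(E, Z) := ⟨fun a b s => by
    change ap π h' (rres (T.basicOpen_le f) a * b) • s = ap π h a • ap π h' b • s
    rw [map_mul, ap_rres, mul_smul]⟩
  exact Module.flat_iff_of_isLocalization Γ(T, T.basicOpen f) (Submonoid.powers f) Γ(E, Z)

theorem flatOver_of_cover (hE : E.IsFinitePresentation)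
    (h : ∀ y : Y, ∃ (V : T.Opens) (W : Y.Opens) (h : W ≤ π ⁻¹ᵁ V), y ∈ W ∧ IsAffineOpen V ∧
      IsAffineOpen W ∧ @Module.Flat Γ(T, V) Γ(E, W) _ _ (Module.compHom Γ(E, W) (ap π h))) :
    FlatOver π E := by
  intro V W hW aV aW
  have key : ∀ y ∈ W, ∃ g : Γ(Y, W), y ∈ Y.basicOpen g ∧
      FlatAt π E ((Y.basicOpen_le g).trans hW) := by
    intro y hy
    obtain ⟨V₀, W₀, h₀, hy₀, aV₀, aW₀, H⟩ := h y
    obtain ⟨f, f₀, e, hf⟩ := exists_basicOpen_le_affine_inter aV aV₀ (π y) ⟨hW hy, h₀ hy₀⟩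
    have hy₁ : y ∈ Y.basicOpen (ap π hW f) := (mem_basicOpen_ap π hW f).2 ⟨hy, hf⟩
    obtain ⟨g₁, g₀, e', hg⟩ := exists_basicOpen_le_affine_inter (aW.basicOpen (ap π hW f)) aW₀ y
      ⟨hy₁, hy₀⟩
    obtain ⟨g, e''⟩ := aW.basicOpen_basicOpen_is_basicOpen (ap π hW f) g₁
    have l0 : Y.basicOpen g ≤ W₀ := (e''.trans e').le.trans (Y.basicOpen_le g₀)
    have l1 : Y.basicOpen g ≤ π ⁻¹ᵁ T.basicOpen f := fun z hz =>
      ((mem_basicOpen_ap π hW f).1 (Y.basicOpen_le g₁ (e''.le hz))).2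
    refine ⟨g, e''.ge hg, (flatAt_base aV _ l1 rfl).1 ((flatAt_base aV₀ (l0.trans h₀) l1 e).2 ?_)⟩
    exact FlatAt.basic H (locAt_of_fp hE aW₀) l0 (e''.trans e')
  let s : Set Γ(Y, W) := {g | FlatAt π E ((Y.basicOpen_le g).trans hW)}
  have hs : Ideal.span s = ⊤ := aW.self_le_iSup_basicOpen_iff.1 fun y hy => by
    obtain ⟨g, a, b⟩ := key y hy
    exact Opens.mem_iSup.2 ⟨⟨g, b⟩, a⟩
  change @Module.Flat Γ(T, V) Γ(E, W) _ _ (Module.compHom Γ(E, W) (ap π hW))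
  letI := (ap π hW).toAlgebra
  letI := Module.compHom Γ(E, W) (ap π hW)
  have := flat_tower' (E := E) hW
  letI : ∀ r : s, Module Γ(Y, W) Γ(E, Y.basicOpen r.1) := fun r =>
    Module.compHom _ (rres (Y.basicOpen_le r.1))
  letI : ∀ r : s, Module Γ(T, V) Γ(E, Y.basicOpen r.1) := fun r =>
    Module.compHom _ (ap π ((Y.basicOpen_le r.1).trans hW))
  have : ∀ r : s, IsScalarTower Γ(T, V) Γ(Y, W) Γ(E, Y.basicOpen r.1) := fun r =>
    flat_tower hW (Y.basicOpen_le r.1)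
  have : ∀ r : s, IsLocalizedModule.Away r.1 (flatRes E (Y.basicOpen_le r.1)) := fun r =>
    flatRes_loc (locAt_of_fp hE aW) _ rfl
  exact Module.flat_of_isLocalized_span Γ(Y, W) Γ(E, W) s hs (fun r => Γ(E, Y.basicOpen r.1))
    (fun r => flatRes E (Y.basicOpen_le r.1)) fun r => r.2

theorem flat_of_charts (H : Good sX sT π q) (hG : G.IsFinitePresentation)
    (h : ∀ t : T, ∃ (V : T.Opens) (U : X.Opens) (β : Fin n → Γ(G, U))
      (c : Γ(G, U) → Fin n → Γ(T, V)), t ∈ V ∧ IsAffineOpen V ∧ IsAffineOpen U ∧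
        InChart π q V U β c) : FlatOver π E := by
  refine flatOver_of_cover H.fp fun y => ?_
  obtain ⟨V, U, β, c, hy, aV, aU, C⟩ := h (π y)
  by_cases hp : p y ∈ U
  · refine ⟨V, box p π U V, inf_le_right, ⟨hp, hy⟩, aV, box_aff H.sq aU aV, ?_⟩
    obtain ⟨co, -, h2, -⟩ := C.co H hG aU aV
    letI := Module.compHom Γ(E, box p π U V) (apb p π U V)
    exact Module.Flat.of_linearEquiv
      ({ co with map_smul' := h2 } : Γ(E, box p π U V) ≃ₗ[Γ(T, V)] (Fin n → Γ(T, V)))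
  · obtain ⟨W, a, b⟩ := C.supp y hy hp
    obtain ⟨_, ⟨W', aW, rfl⟩, e, f⟩ :=
      Y.isBasis_affineOpens.exists_subset_of_mem_open (u := (W ⊓ π ⁻¹ᵁ V : Y.Opens)) ⟨a, hy⟩
        (W ⊓ π ⁻¹ᵁ V).isOpen
    have f' : W' ≤ W ⊓ π ⁻¹ᵁ V := f
    refine ⟨V, W', f'.trans inf_le_right, e, aV, aW, ?_⟩
    letI := Module.compHom Γ(E, W') (ap π (f'.trans inf_le_right))
    have : Subsingleton Γ(E, W') := ⟨fun s t => by
      rw [b W' (f'.trans inf_le_left) s, b W' (f'.trans inf_le_left) t]⟩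
    infer_instance

end Pool.Agent.Lib.MP_d4c0ca_ag.Q
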