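import Pool.Agent.Lib.MP_d4c0ca_ag.Q.Chart

/-! Families with the same charts are isomorphic. -/

set_option autoImplicit false

namespace Pool.Agent.Lib.MP_d4c0ca_ag.Q

open CategoryTheory AlgebraicGeometry Opposite TopologicalSpace Scheme.Modules
open Pool.Agent.Lib.MP_cd184e_ag.B

variable {X T T' Y Y' : Scheme.{0}} {sX : X ⟶ SC} {sT : T ⟶ SC} {sT' : T' ⟶ SC} {p : Y ⟶ X}
  {π : Y ⟶ T} {p' : Y' ⟶ X} {π' : Y' ⟶ T'} {G : X.Modules} {E E₁ : Y.Modules} {E' : Y'.Modules}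
  {q : (pullback p).obj G ⟶ E} {q' : (pullback p').obj G ⟶ E'} {n : ℕ}

theorem Iso_ker {q₁ : (pullback p).obj G ⟶ E₁} (H : Good sX sT π q) (H₁ : Good sX sT π q₁)
    (hG : G.IsFinitePresentation)
    (h : ∀ t : T, ∃ (V : T.Opens) (U : X.Opens) (β : Fin n → Γ(G, U))
      (c : Γ(G, U) → Fin n → Γ(T, V)), t ∈ V ∧ IsAffineOpen V ∧ IsAffineOpen U ∧
        InChart π q V U β c ∧ InChart π q₁ V U β c) (W : Y.Opens) (s : Γ((pullback p).obj G, W))
    (hs : q.app W s = 0) : q₁.app W s = 0 := by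
  refine sec_ext E₁ _ _ fun x hx => ?_
  obtain ⟨V, U, β, c, hxV, hV, hU, C, C₁⟩ := h (π x)
  by_cases hxU : p x ∈ U
  swap
  · obtain ⟨A, xA, hA⟩ := C₁.supp x hxV hxU
    exact ⟨A ⊓ W, inf_le_right, ⟨xA, hx⟩,
      (hA _ inf_le_left _).trans (hA _ inf_le_left _).symm⟩
  have hB := box_aff H.sq hU hV
  obtain ⟨co, e₁, e₂, -⟩ := C.co H hG hU hV
  obtain ⟨co', e₁', e₂', -⟩ := C₁.co H₁ hG hU hV
  have key : ∀ u, co (q.app (box p π U V) u) = co' (q₁.app (box p π U V) u) := fun u => by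
    have := span_pb H.sq hG hU hV ((co.toAddMonoidHom.comp (q.app (box p π U V)).hom).eqLocus
      (co'.toAddMonoidHom.comp (q₁.app (box p π U V)).hom)) fun r m => by
        change co (q.app _ _) = co' (q₁.app _ _)
        rw [Scheme.Modules.Hom.app_smul, Scheme.Modules.Hom.app_smul, e₂, e₂']
        exact congrArg _ ((e₁ m).trans (e₁' m).symm)
    exact (this.ge trivial : u ∈ _)
  obtain ⟨f, hf, hxf⟩ := hB.exists_basicOpen_le (V := W) ⟨x, hx⟩ ⟨hxU, hxV⟩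
  obtain ⟨k, t, ht⟩ := (locAt_pb p hU hB inf_le_left (locAt_of_fp hG hU)).ex f _
    (Y.basicOpen_le f) rfl (mres _ hf s)
  obtain ⟨m, hm⟩ := (locAt_of_fp H.fp hB).un f _ (Y.basicOpen_le f) rfl (q.app _ t) (by
    rw [mres_app, ht, Scheme.Modules.Hom.app_smul, ← mres_app, hs, map_zero, smul_zero])
  have z : q₁.app _ (f ^ m • t) = 0 := co'.injective (by
    rw [← key, Scheme.Modules.Hom.app_smul, hm, map_zero, map_zero])
  have z' := congrArg (mres E₁ (Y.basicOpen_le f)) z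
  rw [mres_app, mres_smul, ht, ← mul_smul, map_pow, ← pow_add, Scheme.Modules.Hom.app_smul,
    ← mres_app, map_zero] at z'
  refine ⟨_, hf, hxf, smul_cancel ((isUnit_rres f (Y.basicOpen_le f) le_rfl).pow (m + k)) ?_⟩
  rw [z', map_zero, smul_zero]

theorem iso_of_charts {q₁ : (pullback p).obj G ⟶ E₁} (H : Good sX sT π q) (H₁ : Good sX sT π q₁)
    (hG : G.IsFinitePresentation)
    (h : ∀ t : T, ∃ (V : T.Opens) (U : X.Opens) (β : Fin n → Γ(G, U))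
      (c : Γ(G, U) → Fin n → Γ(T, V)), t ∈ V ∧ IsAffineOpen V ∧ IsAffineOpen U ∧
        InChart π q V U β c ∧ InChart π q₁ V U β c) : ∃ e : E ≅ E₁, q ≫ e.hom = q₁ := by
  have := H.epi
  have := H₁.epi
  refine iso_of_ker q q₁ fun V s =>
    ⟨Iso_ker H H₁ hG h V s, Iso_ker (n := n) H₁ H hG (fun t => ?_) V s⟩
  obtain ⟨V, U, β, c, h₁, h₂, h₃, C, C₁⟩ := h t
  exact ⟨V, U, β, c, h₁, h₂, h₃, C₁, C⟩

theorem cmp_of_charts [LocallyOfFiniteType sX] [LocallyOfFiniteType sT'] (H : Good sX sT π q)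
    (H' : Good sX sT' π' q') (hG : G.IsFinitePresentation) {f : T' ⟶ T} (hf : f ≫ sT = sT')
    {g : Y' ⟶ Y} (h₁ : g ≫ p = p') (h₂ : g ≫ π = π' ≫ f)
    (h : ∀ t : T', ∃ (V' : T'.Opens) (V : T.Opens) (h : V' ≤ f ⁻¹ᵁ V) (U : X.Opens)
      (β : Fin n → Γ(G, U)) (c : Γ(G, U) → Fin n → Γ(T, V)), t ∈ V' ∧ IsAffineOpen V' ∧
        IsAffineOpen V ∧ IsAffineOpen U ∧ InChart π q V U β c ∧
          InChart π' q' V' U β fun m i => ap f h (c m i)) :
    ∃ e : (pullback g).obj E ≅ E', Cmp g q q' e := by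
  have := noeth_of_sq H'.sq
  have := H.epi
  obtain ⟨e, he⟩ := iso_of_charts (n := n) (q := pullq g h₁ q)
    ⟨H'.sq, epi_pullq h₁ q, fp_pb g H.fp⟩ H' hG fun t => by
      obtain ⟨V', V, h, U, β, c, ht, hV', hV, hU, C, C'⟩ := h t
      exact ⟨V', U, β, _, ht, hV', hU,
        C.pull H H'.sq hG hU hV hV' hf h h₁ h₂ (cmp_pullq h₁ q), C'⟩
  refine ⟨e, fun U W W' a b d m => ?_⟩
  rw [← he]
  exact congrArg (e.hom.app W') (cmp_pullq h₁ q U W W' a b d m)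

end Pool.Agent.Lib.MP_d4c0ca_ag.Q
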