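import Pool.Agent.Lib.MP_d4c0ca_ag.Q.LenA
import Pool.Agent.Lib.MP_d4c0ca_ag.Q.Chart

/-! Charts of a single quotient. -/

set_option autoImplicit false

namespace Pool.Agent.Lib.MP_d4c0ca_ag.Q

open CategoryTheory AlgebraicGeometry Opposite TopologicalSpace Scheme.Modules
open Pool.Agent.Lib.MP_cd184e_ag.B

variable {X : Scheme.{0}} {𝒰 : Set X.Opens} {sX : X ⟶ SC} {G M : X.Modules} {n : ℕ}
  {q : (pullback (𝟙 X)).obj G ⟶ M} {U : X.Opens}

theorem sq_id (sX : X ⟶ SC) : IsPullback (𝟙 X) sX sX (𝟙 SC) := IsPullback.of_horiz_isIso ⟨by simp⟩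

theorem lenB_box (sX : X ⟶ SC) (U : X.Opens) : box (𝟙 X) sX U ⊤ = U :=
  le_antisymm inf_le_left (le_inf le_rfl le_top)

theorem lenB_ft [LocallyOfFiniteType sX] {W : X.Opens} (hW : IsAffineOpen W) :
    (cst sX W).FiniteType :=
  sX.finiteType_appLE (isAffineOpen_top SC) hW le_top

theorem lenB_surj (H : Good sX (𝟙 SC) sX q) (hG : G.IsFinitePresentation) (hU : IsAffineOpen U) :
    Function.Surjective (thb sX q U ⊤) := by
  rw [← AddMonoidHom.range_eq_top]
  refine H.span hG hU (isAffineOpen_top SC) _ fun r m => ⟨cst sX U r • m, ?_⟩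
  rw [th_smul]
  congr 1
  exact (box_cst H.sq r).trans (congrArg _ (cst_id r))

theorem lenB_alg {R N : Type} [CommRing R] [AddCommGroup N] [Module R N] (φ : kk →+* R)
    (hφ : φ.FiniteType) (n : ℕ) : Module.length R N = n ↔
      ∃ v : Fin n → N, (∀ x, ∃ r : Fin n → kk, x = ∑ i, φ (r i) • v i) ∧
        ∀ r : Fin n → kk, ∑ i, φ (r i) • v i = 0 → r = 0 := by
  letI : Algebra ℂ R := (φ.comp toC.symm.toRingHom).toAlgebra
  haveI : Algebra.FiniteType ℂ R :=
    hφ.comp (RingHom.FiniteType.of_surjective _ toC.symm.surjective)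
  letI : Module ℂ N := Module.compHom N (algebraMap ℂ R)
  haveI : IsScalarTower ℂ R N := ⟨fun a b c => mul_smul (algebraMap ℂ R a) b c⟩
  have e : ∀ (r : kk) (x : N), toC r • x = φ r • x := fun r x =>
    congrArg (fun z => φ z • x) (toC.symm_apply_apply r)
  constructor
  · intro h
    have h0 := T.len_eq (A := R) (N := N)
      (Module.length_ne_top_iff.1 (h ▸ ENat.natCast_ne_top n))
    rw [h] at h0
    have := (isFiniteLength_iff_isNoetherian_isArtinian.1
      (Module.length_ne_top_iff.1 (h0 ▸ ENat.natCast_ne_top n : Module.length ℂ N ≠ ⊤))).1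
    rw [Module.length_eq_finrank, Nat.cast_inj] at h0
    let b := Module.finBasisOfFinrankEq ℂ N h0
    refine ⟨b, fun x => ⟨fun i => toC.symm (b.repr x i), (b.sum_repr x).symm⟩, fun r hr => ?_⟩
    simp only [← e] at hr
    funext i
    exact toC.injective ((Fintype.linearIndependent_iff.1 b.linearIndependent _ hr i).trans
      (map_zero toC).symm)
  · rintro ⟨v, h1, h2⟩
    have hi : LinearIndependent ℂ v := Fintype.linearIndependent_iff.2 fun g hg i =>
      toC.symm.injective ((congrFun (h2 (fun i => toC.symm (g i)) hg) i).trans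
        (map_zero toC.symm).symm)
    have hsp : ⊤ ≤ Submodule.span ℂ (Set.range v) := fun x _ => by
      obtain ⟨r, rfl⟩ := h1 x
      refine Submodule.sum_mem _ fun i _ => ?_
      rw [← e]
      exact Submodule.smul_mem _ _ (Submodule.subset_span ⟨i, rfl⟩)
    let b := Module.Basis.mk hi hsp
    have := Module.Finite.of_basis b
    have hf : IsFiniteLength R N := isFiniteLength_iff_isNoetherian_isArtinian.2
      ⟨isNoetherian_of_tower ℂ inferInstance, isArtinian_of_tower ℂ inferInstance⟩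
    rw [← T.len_eq hf, Module.length_eq_finrank, Module.finrank_eq_card_basis b, Fintype.card_fin]

theorem chart_of_length [CompactSpace X] [LocallyOfFiniteType sX] (A : Atlas X 𝒰)
    (H : Good sX (𝟙 SC) sX q) (hG : G.IsFinitePresentation) (hU : U ∈ 𝒰)
    (hs : ∀ x : X, x ∉ U → Van M x) (h : HasLength M n) :
    ∃ (β : Fin n → Γ(G, U)) (c : Γ(G, U) → Fin n → kk), InChart sX q ⊤ U β c := by
  have := LocallyOfFiniteType.isLocallyNoetherian sX
  have hB : box (𝟙 X) sX U ⊤ ∈ 𝒰 := (lenB_box sX U).symm ▸ hU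
  have hl := (hasLength_iff A H.fp hB fun x hx => hs x (lenB_box sX U ▸ hx)).1 h
  obtain ⟨v, h1, h2⟩ := (lenB_alg (apb (𝟙 X) sX U ⊤) (lenB_ft (A.aff _ hB)) n).1 hl
  choose β hβ using fun i => lenB_surj H hG (A.aff _ hU) (v i)
  choose c hc using fun m => h1 (thb sX q U ⊤ m)
  refine ⟨β, c, fun y _ hy => hs y hy, fun m => ?_, fun r hr => h2 r ?_⟩
  · simp only [hβ]
    exact hc m
  · simpa only [hβ] using hr

theorem length_of_chart [CompactSpace X] [LocallyOfFiniteType sX] (A : Atlas X 𝒰)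
    (H : Good sX (𝟙 SC) sX q) (hG : G.IsFinitePresentation) (hU : U ∈ 𝒰) {β : Fin n → Γ(G, U)}
    {c : Γ(G, U) → Fin n → kk} (C : InChart sX q ⊤ U β c) : HasLength M n := by
  have := LocallyOfFiniteType.isLocallyNoetherian sX
  have hB : box (𝟙 X) sX U ⊤ ∈ 𝒰 := (lenB_box sX U).symm ▸ hU
  refine (hasLength_iff A H.fp hB fun x hx => C.supp x trivial (lenB_box sX U ▸ hx)).2 ?_
  refine (lenB_alg (apb (𝟙 X) sX U ⊤) (lenB_ft (A.aff _ hB)) n).2
    ⟨fun i => thb sX q U ⊤ (β i), fun x => ?_, C.ind⟩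
  obtain ⟨m, rfl⟩ := lenB_surj H hG (A.aff _ hU) x
  exact ⟨c m, C.eq m⟩

end Pool.Agent.Lib.MP_d4c0ca_ag.Q
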