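import Pool.Agent.Lib.MP_d4c0ca_ag.Q.Base
import Pool.Agent.Lib.MP_d4c0ca_ag.Q.Fam
import Pool.Agent.Lib.MP_d4c0ca_ag.Q.Iso
import Pool.Agent.Lib.MP_d4c0ca_ag.Q.Flat
import Pool.Agent.Lib.MP_d4c0ca_ag.Q.Cls
import Pool.Agent.Lib.MP_d4c0ca_ag.Q.Glue
import Pool.Agent.Lib.MP_d4c0ca_ag.Q.LenB

/-! Existence of the Quot scheme. -/

set_option autoImplicit false

namespace Pool.Agent.Lib.MP_d4c0ca_ag.Q

open CategoryTheory AlgebraicGeometry Opposite TopologicalSpace Scheme.Modules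
open Pool.Agent.Lib.MP_cd184e_ag.B

variable {X Q : Scheme.{0}} {G : X.Modules} {𝒰 : Set X.Opens} {n : ℕ} {sX : X ⟶ SC}

theorem Family.good {T : Scheme.{0}} {sT : T ⟶ SC} (η : Family sX G n sT) : Good sX sT η.π η.q :=
  ⟨η.sq, η.epi, η.fp⟩

theorem pulls_iff {T : Scheme.{0}} {sT : T ⟶ SC} {s : Q ⟶ SC} (f : T ⟶ Q) (ξ : Family sX G n s)
    (η : Family sX G n sT) : Pulls f ξ η ↔ ∃ (g : η.Y ⟶ ξ.Y) (e : (pullback g).obj ξ.E ≅ η.E),
      g ≫ ξ.p = η.p ∧ g ≫ ξ.π = η.π ≫ f ∧ Cmp g ξ.q η.q e :=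
  ⟨fun ⟨g, h, h', e, he⟩ => ⟨g, e, h, h', (cmp_iff h _ _ _).1 he⟩,
    fun ⟨g, e, h, h', he⟩ => ⟨g, h, h', e, (cmp_iff h _ _ _).2 he⟩⟩

/-- every family lies in a chart near every point -/
theorem Family.charts [UniversallyClosed sX] [LocallyOfFiniteType sX] (A : Atlas X 𝒰)
    (hG : G.IsFinitePresentation) {T : Scheme.{0}} {sT : T ⟶ SC} [LocallyOfFiniteType sT]
    (η : Family sX G n sT) (t : T) : ∃ U ∈ 𝒰, ∃ (V : T.Opens) (β : Fin n → Γ(G, U))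
      (c : Γ(G, U) → Fin n → Γ(T, V)), t ∈ V ∧ IsAffineOpen V ∧ InChart η.π η.q V U β c := by
  have : CompactSpace X := compactSpace_of_universallyClosed sX
  have : IsLocallyNoetherian X := noeth_of_sq (sq_id sX)
  have := η.epi
  have h := cover_of_points sT (sSup {V | ∃ U ∈ 𝒰, ∃ (β : Fin n → Γ(G, U))
      (c : Γ(G, U) → Fin n → Γ(T, V)), IsAffineOpen V ∧ InChart η.π η.q V U β c}) fun w hw => by
    let i : X ⟶ η.Y := η.sq.lift (𝟙 X) (sX ≫ w)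
      (by rw [Category.id_comp, Category.assoc, hw, Category.comp_id])
    have h₁ : i ≫ η.p = 𝟙 X := η.sq.lift_fst _ _ _
    have h₂ : i ≫ η.π = sX ≫ w := η.sq.lift_snd _ _ _
    have hl := η.len w i hw h₁ h₂
    obtain ⟨U, hU, hs⟩ := A.fin _ (hl.finite A)
    obtain ⟨β, c₀, C⟩ := chart_of_length (q := pullq i h₁ η.q) A
      ⟨sq_id sX, epi_pullq _ _, fp_pb _ η.fp⟩ hG hU (fun x hx => not_not.1 fun hv => hx (hs hv)) hl
    obtain ⟨V, aV, hV, c, C'⟩ := chart_near η.good hG η.flat (A.aff U hU) hw h₁ h₂ C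
    exact hV.trans (w.preimage_mono (le_sSup ⟨U, hU, β, c, aV, C'⟩))
  obtain ⟨V, ⟨U, hU, β, c, aV, C⟩, hV⟩ := Opens.mem_sSup.1 (h.ge (Set.mem_univ t))
  exact ⟨U, hU, V, β, c, hV, aV, C⟩

variable {A : Atlas X 𝒰} {s : Q ⟶ SC} {V : Idx G 𝒰 n → Q.Opens}
  {u : ∀ α : Idx G 𝒰 n, (Fin n → Γ(G, α.U)) → Γ(G, α.U) → Fin n → Γ(Q, V α)}

theorem Base.exists_family [UniversallyClosed sX] [LocallyOfFiniteType sX] (H : Base sX A s V u)
    (hG : G.IsFinitePresentation) : ∃ ξ : Family sX G n s,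
      ∀ α, ∀ β ∈ α.B, InChart ξ.π ξ.q (V α) α.U β (u α β) := by
  have : CompactSpace X := compactSpace_of_universallyClosed sX
  have : IsLocallyNoetherian X := noeth_of_sq (sq_id sX)
  have sq := IsPullback.of_hasPullback sX s
  obtain ⟨E, q, g, C⟩ := H.exists_quot sq hG
  have cov : ∀ t : Q, ∃ α : Idx G 𝒰 n, t ∈ V α := fun t =>
    Opens.mem_iSup.1 (H.cover.ge (Set.mem_univ t))
  have := g.epi
  refine ⟨⟨_, _, _, sq, E, q, g.epi, g.fp, flat_of_charts (n := n) g hG fun t => ?_,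
    fun t i ht h₁ h₂ => ?_⟩, C⟩
  · obtain ⟨α, hα⟩ := cov t
    obtain ⟨β, hβ⟩ := α.ne
    exact ⟨V α, α.U, β, u α β, hα, H.aff α, A.aff _ α.mem, C α β hβ⟩
  · obtain ⟨α, hα⟩ := cov (t (default : Spec (.of ℂ)))
    obtain ⟨β, hβ⟩ := α.ne
    have hv : ⊤ ≤ t ⁻¹ᵁ V α := fun x _ => by
      rw [Subsingleton.elim x (default : Spec (.of ℂ))]; exact hα
    exact length_of_chart (q := pullq i h₁ q) A ⟨sq_id sX, epi_pullq _ _, fp_pb _ g.fp⟩ hG α.mem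
      ((C α β hβ).pull g (sq_id sX) hG (A.aff _ α.mem) (H.aff α) (isAffineOpen_top _) ht hv h₁ h₂
        (cmp_pullq _ _))

/-- a quotient that lies in two charts lies in their intersection -/
theorem Base.meet (H : Base sX A s V u) (hG : G.IsFinitePresentation) {T Y : Scheme.{0}}
    {sT : T ⟶ SC} {p : Y ⟶ X} {π : Y ⟶ T} {E : Y.Modules} {q : (pullback p).obj G ⟶ E}
    (H' : Good sX sT π q) {W : T.Opens} (hW : IsAffineOpen W) {α α' : Idx G 𝒰 n}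
    {φ : Γ(Q, V α) →+* Γ(T, W)} {φ' : Γ(Q, V α') →+* Γ(T, W)}
    (h₁ : ∀ z, φ (cst s _ z) = cst sT W z) (h₁' : ∀ z, φ' (cst s _ z) = cst sT W z)
    (h₂ : ∀ β ∈ α.B, InChart π q W α.U β fun m i => φ (u α β m i))
    (h₂' : ∀ β ∈ α'.B, InChart π q W α'.U β fun m i => φ' (u α' β m i)) :
    ∃ ψ : Γ(Q, V (α.meet A α')) →+* Γ(T, W),
      (∀ a, ψ (rres (H.mono (α.meet_left A α')) a) = φ a) ∧
        ∀ a, ψ (rres (H.mono (α.meet_right A α')) a) = φ' a := by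
  have hs : ∀ y : Y, π y ∈ W → p y ∉ α.U ⊓ α'.U → Van E y := fun y hy hp => by
    obtain ⟨β, hβ⟩ := α.ne
    obtain ⟨β', hβ'⟩ := α'.ne
    by_cases c : p y ∈ α.U
    · exact (h₂' β' hβ').supp y hy fun h => hp ⟨c, h⟩
    · exact (h₂ β hβ).supp y hy c
  have s1 := fun β hβ => (h₂ β hβ).shrink H' hG (A.aff _ α.mem) hW inf_le_left hs
  have s2 := fun β hβ => (h₂' β hβ).shrink H' hG (A.aff _ α'.mem) hW inf_le_right hs
  have ex : ∀ γ : Fin n → Γ(G, (α.meet A α').U), ∃ c, γ ∈ (α.meet A α').B →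
      InChart π q W (α.meet A α').U γ c := fun γ => by
    by_cases hγ : γ ∈ (α.meet A α').B
    · rcases hγ with ⟨β, hβ, rfl⟩ | ⟨β, hβ, rfl⟩
      · exact (s1 β hβ).imp fun _ h _ => h.1
      · exact (s2 β hβ).imp fun _ h _ => h.1
    · exact ⟨0, fun h => absurd h hγ⟩
  choose c hc using ex
  obtain ⟨ψ, p1, p2⟩ := (H.univ (α.meet A α')).lift _ (cst sT W) c (chart_coord H'.sq hc)
  refine ⟨ψ, fun a => ?_, fun a => ?_⟩
  · refine congrArg (fun f : Γ(Q, V α) →+* Γ(T, W) => f a) ((H.univ α).ext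
      (φ := ψ.comp (rres (H.mono (α.meet_left A α')))) (ψ := φ) (fun z => ?_) fun β hβ m i => ?_)
    · rw [RingHom.comp_apply, rres_cst, p1, h₁]
    · obtain ⟨c', k1, k2⟩ := s1 β hβ
      have hm := (α.meet_left A α').2 β hβ
      rw [RingHom.comp_apply, H.res (α.meet_left A α') β hβ, p2 _ hm, (hc _ hm).unique k1]
      exact congrFun (k2 m) i
  · refine congrArg (fun f : Γ(Q, V α') →+* Γ(T, W) => f a) ((H.univ α').ext
      (φ := ψ.comp (rres (H.mono (α.meet_right A α')))) (ψ := φ') (fun z => ?_) fun β hβ m i => ?_)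
    · rw [RingHom.comp_apply, rres_cst, p1, h₁']
    · obtain ⟨c', k1, k2⟩ := s2 β hβ
      have hm := (α.meet_right A α').2 β hβ
      rw [RingHom.comp_apply, H.res (α.meet_right A α') β hβ, p2 _ hm, (hc _ hm).unique k1]
      exact congrFun (k2 m) i

theorem Base.universal [UniversallyClosed sX] [LocallyOfFiniteType sX] (H : Base sX A s V u)
    (hG : G.IsFinitePresentation) (ξ : Family sX G n s)
    (hξ : ∀ α, ∀ β ∈ α.B, InChart ξ.π ξ.q (V α) α.U β (u α β)) : Universal ξ := by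
  refine ⟨H.lft, fun T sT _ η => existsUnique_of_exists_of_unique ?_ ?_⟩
  · choose U hU W β c hW aW C using η.charts A hG
    let α : T → Idx G 𝒰 n := fun t =>
      ⟨U t, hU t, {β t}, Set.finite_singleton _, Set.singleton_nonempty _⟩
    choose φ p1 p2 using fun t => (H.univ (α t)).lift _ (cst sT (W t)) (fun _ => c t)
      (chart_coord η.sq fun γ hγ => by rw [show γ = β t from hγ]; exact C t)
    have hc : ∀ t, (fun m i => φ t (u (α t) (β t) m i)) = c t := fun t =>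
      funext fun m => funext fun i => p2 t _ rfl m i
    have res : ∀ t (Z : T.Opens) (h : Z ≤ W t), IsAffineOpen Z → ∀ γ ∈ (α t).B,
        InChart η.π η.q Z (α t).U γ fun m i => (rres h).comp (φ t) (u (α t) γ m i) := by
      intro t Z h aZ γ hγ
      rw [show γ = β t from hγ]
      have := (C t).restrict η.good hG (A.aff _ (hU t)) (aW t) aZ h
      rw [← hc t] at this
      exact this
    obtain ⟨f, hf⟩ := mor_glue W aW (top_le_iff.1 fun t _ => Opens.mem_iSup.2 ⟨t, hW t⟩)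
      (fun t => V (α t)) (fun t => H.aff _) φ fun i j Z hi hj aZ => by
        obtain ⟨ψ, k1, k2⟩ := H.meet hG η.good aZ (φ := (rres hi).comp (φ i))
          (φ' := (rres hj).comp (φ j)) (fun z => by rw [RingHom.comp_apply, p1, rres_cst])
          (fun z => by rw [RingHom.comp_apply, p1, rres_cst]) (res i Z hi aZ) (res j Z hj aZ)
        exact ⟨_, _, _, ψ, H.aff _, k1, k2⟩
    choose hf1 hf2 using hf
    have hs : f ≫ s = sT := comp_eq_of_cst fun t =>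
      ⟨W t, V (α t), hf1 t, hW t, aW t, fun z => by rw [hf2, p1]⟩
    let g : η.Y ⟶ ξ.Y := ξ.sq.lift η.p (η.π ≫ f) (by rw [Category.assoc, hs, η.sq.w])
    have g1 : g ≫ ξ.p = η.p := ξ.sq.lift_fst _ _ _
    have g2 : g ≫ ξ.π = η.π ≫ f := ξ.sq.lift_snd _ _ _
    obtain ⟨e, he⟩ := cmp_of_charts ξ.good η.good hG hs g1 g2 fun t =>
      ⟨W t, V (α t), hf1 t, U t, β t, u (α t) (β t), hW t, aW t, H.aff _, A.aff _ (hU t),
        hξ (α t) _ rfl, by rw [hf2]; exact (hc t).symm ▸ C t⟩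
    exact ⟨f, hs, (pulls_iff _ _ _).2 ⟨g, e, g1, g2, he⟩⟩
  · rintro f f' ⟨a, b⟩ ⟨a', b'⟩
    obtain ⟨g, e, g1, g2, g3⟩ := (pulls_iff _ _ _).1 b
    obtain ⟨g', e', g1', g2', g3'⟩ := (pulls_iff _ _ _).1 b'
    refine mor_ext fun t => ?_
    obtain ⟨α, hα⟩ := Opens.mem_iSup.1 (H.cover.ge (Set.mem_univ (f t)))
    obtain ⟨α', hα'⟩ := Opens.mem_iSup.1 (H.cover.ge (Set.mem_univ (f' t)))
    obtain ⟨_, ⟨W, aW, rfl⟩, m, l⟩ := T.isBasis_affineOpens.exists_subset_of_mem_open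
      (u := (f ⁻¹ᵁ V α ⊓ f' ⁻¹ᵁ V α' : T.Opens)) ⟨hα, hα'⟩ (f ⁻¹ᵁ V α ⊓ f' ⁻¹ᵁ V α').isOpen
    have l' : W ≤ f ⁻¹ᵁ V α ⊓ f' ⁻¹ᵁ V α' := l
    obtain ⟨ψ, k1, k2⟩ := H.meet hG η.good aW (φ := ap f (l'.trans inf_le_left))
      (φ' := ap f' (l'.trans inf_le_right)) (ap_cst f s a _) (ap_cst f' s a' _)
      (fun β hβ => (hξ α β hβ).pull ξ.good η.sq hG (A.aff _ α.mem) (H.aff α) aW a _ g1 g2 g3)
      fun β hβ => (hξ α' β hβ).pull ξ.good η.sq hG (A.aff _ α'.mem) (H.aff α') aW a' _ g1' g2' g3'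
    exact ⟨W, aW, m, (fromSpec_comp f aW (H.aff α) (H.aff _) _ _ ψ k1).trans
      (fromSpec_comp f' aW (H.aff α') (H.aff _) _ _ ψ k2).symm⟩

end Pool.Agent.Lib.MP_d4c0ca_ag.Q
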