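import Pool.Agent.Lib.MP_d4c0ca_ag.Q.Set
import Pool.Agent.Lib.MP_d4c0ca_ag.Q.PO

/-! The kernels of the universal quotients on the charts. -/

set_option autoImplicit false

namespace Pool.Agent.Lib.MP_d4c0ca_ag.Q

open CategoryTheory AlgebraicGeometry Opposite TopologicalSpace Scheme.Modules
open Pool.Agent.Lib.MP_cd184e_ag.B

section Alg

open Matrix Polynomial

variable {C N R : Type} [CommRing C] [AddCommGroup N] [Module C N] [CommRing R] {n : ℕ}
  {χ : R →+* C} {e e' : Fin n → N} {S : Submodule C N} {μ : Matrix (Fin n) (Fin n) R} {t : C}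

/-- the combination with coefficients `x` -/
def famAT (χ : R →+* C) (e : Fin n → N) (x : Fin n → R) : N := ∑ i, χ (x i) • e i

theorem famA_add (x y : Fin n → R) : famAT χ e (x + y) = famAT χ e x + famAT χ e y := by
  simp only [famAT, Pi.add_apply, map_add, add_smul, Finset.sum_add_distrib]

theorem famA_smul (a : R) (x : Fin n → R) : famAT χ e (a • x) = χ a • famAT χ e x := by
  simp only [famAT, Pi.smul_apply, smul_eq_mul, map_mul, mul_smul, Finset.smul_sum]

theorem famA_smul' (t : C) (x : Fin n → R) :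
    famAT χ (fun i => t • e i) x = t • famAT χ e x := by
  simp only [famAT, Finset.smul_sum, smul_comm t]

theorem famA_act (h : ∀ j, e' j - famAT χ e (fun i => μ i j) ∈ S) (x : Fin n → R) :
    famAT χ e' x - famAT χ e (μ *ᵥ x) ∈ S := by
  have : famAT χ e (μ *ᵥ x) = ∑ j, χ (x j) • famAT χ e fun i => μ i j := by
    simp only [famAT, mulVec, dotProduct, map_sum, map_mul, Finset.sum_smul, Finset.smul_sum]
    rw [Finset.sum_comm]
    exact Finset.sum_congr rfl fun j _ => Finset.sum_congr rfl fun i _ => by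
      rw [mul_comm, mul_smul]
  rw [this, famAT, ← Finset.sum_sub_distrib]
  exact S.sum_mem fun j _ => by rw [← smul_sub]; exact S.smul_mem _ (h j)

theorem famA_poly (h : ∀ x, t • famAT χ e x - famAT χ e (μ *ᵥ x) ∈ S) (q : R[X]) :
    ∀ x, eval₂ χ t q • famAT χ e x - famAT χ e (aeval μ q *ᵥ x) ∈ S := by
  induction q using Polynomial.induction_on with
  | C a =>
    intro x
    rw [eval₂_C, aeval_C, Algebra.algebraMap_eq_smul_one, smul_mulVec, one_mulVec, famA_smul,
      sub_self]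
    exact S.zero_mem
  | add f g hf hg =>
    intro x
    rw [eval₂_add, map_add, add_mulVec, famA_add, add_smul, add_sub_add_comm]
    exact S.add_mem (hf x) (hg x)
  | monomial k a ih =>
    intro x
    rw [pow_succ, ← mul_assoc, eval₂_mul_X, map_mul, aeval_X, ← mulVec_mulVec, mul_smul,
      ← sub_add_sub_cancel _ (eval₂ χ t (Polynomial.C a * X ^ k) • famAT χ e (μ *ᵥ x)), ← smul_sub]
    exact S.add_mem (S.smul_mem _ (h x)) (ih _)

theorem famA_kill (h : ∀ x, t • famAT χ e x - famAT χ e (μ *ᵥ x) ∈ S) (x : Fin n → R) :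
    eval₂ χ t μ.charpoly • famAT χ e x ∈ S := by
  have := famA_poly h μ.charpoly x
  rwa [aeval_self_charpoly, zero_mulVec, show famAT χ e 0 = 0 by simp [famAT], sub_zero] at this

theorem famA_eval (χ : R →+* C) (t : C) (q : R[X]) :
    eval₂ χ t q = χ (q.coeff 0) + eval₂ χ t q.divX * t := by
  conv_lhs => rw [← divX_mul_X_add q]
  rw [eval₂_add, eval₂_mul_X, eval₂_C, add_comm]

theorem famA_rev (χ : R →+* C) {t t' : C} (h : t * t' = 1) {q : R[X]}
    (hq : IsUnit (eval₂ χ t' q.reverse)) : IsUnit (eval₂ χ t q) := by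
  let : Invertible t := ⟨t', by rw [mul_comm, h], h⟩
  rw [← eval₂_reverse_mul_pow]
  exact hq.mul ((isUnit_of_invertible t).pow _)

end Alg

theorem famA_mem {Y : Scheme.{0}} {W : Y.Opens} {a e t : Γ(Y, W)} {y : Y}
    (ha : y ∈ Y.basicOpen a) (ht : y ∉ Y.basicOpen t) : y ∈ Y.basicOpen (a + e * t) := by
  have : y ∈ Y.basicOpen (a + e * t + -e * t) := by rwa [neg_mul, add_neg_cancel_right]
  refine (Y.basicOpen_add_le _ _ this).resolve_right fun h => ht ?_
  rw [Scheme.basicOpen_mul] at h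
  exact h.2

variable {X Q Y : Scheme.{0}} {G : X.Modules} {𝒰 : Set X.Opens} {n : ℕ} {sX : X ⟶ SC}
  {A : Atlas X 𝒰} {s : Q ⟶ SC} {V : Idx G 𝒰 n → Q.Opens}
  {u : ∀ α : Idx G 𝒰 n, (Fin n → Γ(G, α.U)) → Γ(G, α.U) → Fin n → Γ(Q, V α)}
  {p : Y ⟶ X} {π : Y ⟶ Q}

/-- sections of `G` on a product -/
noncomputable abbrev famAb (p : Y ⟶ X) (π : Y ⟶ Q) (G : X.Modules) (U : X.Opens) (V : Q.Opens) :
    Γ(G, U) →+ Γ((pullback p).obj G, box p π U V) := pb p G inf_le_left

/-- the relation of `m` -/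
noncomputable def famAR (p : Y ⟶ X) (π : Y ⟶ Q) {U : X.Opens} {V : Q.Opens} (β : Fin n → Γ(G, U))
    (c : Γ(G, U) → Fin n → Γ(Q, V)) (m : Γ(G, U)) : Γ((pullback p).obj G, box p π U V) :=
  famAb p π G U V m - famAT (apb p π U V) (fun i => famAb p π G U V (β i)) (c m)

section Box

variable {U : X.Opens} {V : Q.Opens} {B : Set (Fin n → Γ(G, U))} {β β' : Fin n → Γ(G, U)}
  {c : (Fin n → Γ(G, U)) → Γ(G, U) → Fin n → Γ(Q, V)}
  {S : Submodule Γ(Y, box p π U V) Γ((pullback p).obj G, box p π U V)}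

theorem famA_top (hG : G.IsFinitePresentation) (hU : IsAffineOpen U) {W : Y.Opens}
    (hW : IsAffineOpen W) (h : W ≤ box p π U V) {f : Γ(Y, box p π U V)}
    (hf : ∀ m, f • famAb p π G U V m ∈ S) (hu : IsUnit (rres h f)) : T.soS h S = ⊤ := by
  rw [eq_top_iff, ← pb_span p hU hW (h.trans inf_le_left) (locAt_of_fp hG hU), Submodule.span_le]
  rintro _ ⟨m, rfl⟩
  have : mres _ h (f • famAb p π G U V m) ∈ T.soS h S := Submodule.subset_span ⟨_, hf m, rfl⟩
  rw [mres_smul, mres_pb] at this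
  obtain ⟨v, hv⟩ := hu.exists_left_inv
  have h2 := Submodule.smul_mem _ v this
  rwa [← mul_smul, hv, one_smul] at h2

theorem famA_mu (H : Coord (cst sX U) (cst s V) B c) (hβ : β ∈ B) {a : Γ(X, U)}
    (h : ∀ j, famAR p π β (c β) (a • β j) ∈ S) (x : Fin n → Γ(Q, V)) :
    apa p π U V a • famAT (apb p π U V) (fun i => famAb p π G U V (β i)) x -
      famAT (apb p π U V) (fun i => famAb p π G U V (β i)) ((H.mu hβ a).mulVec x) ∈ S := by
  rw [← famA_smul']
  refine famA_act (fun j => ?_) x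
  rw [← pb_smul]
  exact h j

theorem famA_ch (H : Coord (cst sX U) (cst s V) B c) (hβ : β ∈ B)
    (h : ∀ m, famAR p π β (c β) m ∈ S) (a : Γ(X, U)) (m : Γ(G, U)) :
    (H.mu hβ a).charpoly.eval₂ (apb p π U V) (apa p π U V a) • famAb p π G U V m ∈ S := by
  have := S.add_mem (S.smul_mem ((H.mu hβ a).charpoly.eval₂ (apb p π U V) (apa p π U V a)) (h m))
    (famA_kill (famA_mu H hβ fun j => h (a • β j)) (c β m))
  rwa [famAR, smul_sub, sub_add_cancel] at this

theorem famA_change (H : Coord (cst sX U) (cst s V) B c) (hβ : β ∈ B) (hβ' : β' ∈ B)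
    (h : ∀ m, famAR p π β (c β) m ∈ S) (m : Γ(G, U)) : famAR p π β' (c β') m ∈ S := by
  have h1 := famA_act (χ := apb p π U V) (e := fun i => famAb p π G U V (β i))
    (e' := fun i => famAb p π G U V (β' i)) (μ := trm c β' β) (fun j => h (β' j)) (c β' m)
  rw [← H.trm_mulVec hβ' hβ] at h1
  have := S.sub_mem (h m) h1
  rwa [famAR, sub_sub_sub_cancel_right] at this

theorem famA_unit (H : Coord (cst sX U) (cst s V) B c) (hβ : β ∈ B) {a : Γ(X, U)} (ha : IsUnit a)
    (h : ∀ j, famAR p π β (c β) (a • β j) ∈ S) {m : Γ(G, U)}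
    (hm : famAR p π β (c β) (a • m) ∈ S) : famAR p π β (c β) m ∈ S := by
  have h1 := S.sub_mem hm (famA_mu H hβ h (c β m))
  rw [famAR, H.smul_eq hβ, sub_sub_sub_cancel_right, pb_smul, ← smul_sub] at h1
  obtain ⟨v, hv⟩ := (ha.map (apa p π U V)).exists_left_inv
  have h2 := S.smul_mem v h1
  rwa [← mul_smul, hv, one_smul] at h2

theorem famA_ind (sq : IsPullback p π sX s) (hG : G.IsFinitePresentation) (hU : IsAffineOpen U)
    (hV : IsAffineOpen V) (H : Coord (cst sX U) (cst s V) B c) (hβ : β ∈ B)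
    {r : Fin n → Γ(Q, V)} (h : famAT (apb p π U V) (fun i => famAb p π G U V (β i)) r ∈
      Submodule.span Γ(Y, box p π U V) {x | ∃ γ ∈ B, ∃ m, x = famAR p π γ (c γ) m}) : r = 0 := by
  obtain ⟨ρ, h₁, h₂⟩ := box_mat sq hU hV (H.mu hβ) (H.mu_const hβ)
  let : Module Γ(Y, box p π U V) (Fin n → Γ(Q, V)) := Module.compHom _ ρ
  have hs : ∀ (a : Γ(Y, box p π U V)) (x : Fin n → Γ(Q, V)), a • x = (ρ a).mulVec x :=
    fun _ _ => rfl
  obtain ⟨ψ, hψ⟩ := pb_lift p hU (box_aff sq hU hV) (inf_le_left : box p π U V ≤ _)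
    (locAt_of_fp hG hU) (N := Fin n → Γ(Q, V))
    (AddMonoidHom.mk' (c β) fun m m' => funext (H.add β hβ m m')) fun a m => by
      rw [hs, h₁]
      exact H.smul_eq hβ a m
  have hT : ∀ (γ : Fin n → Γ(G, U)) x, ψ (famAT (apb p π U V) (fun i => famAb p π G U V (γ i)) x) =
      (trm c γ β).mulVec x := fun γ x => by
    have e : ∀ j, ψ (apb p π U V (x j) • famAb p π G U V (γ j)) = x j • c β (γ j) := fun j => by
      rw [ψ.map_smul, hψ, hs, h₂]
      ext i
      simp [Matrix.mulVec_diagonal]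
    rw [famAT, map_sum, Finset.sum_congr rfl fun j _ => e j]
    ext i
    simp [Matrix.mulVec, dotProduct, trm, mul_comm]
  have hk : Submodule.span Γ(Y, box p π U V) {x | ∃ γ ∈ B, ∃ m, x = famAR p π γ (c γ) m} ≤
      LinearMap.ker ψ := by
    rw [Submodule.span_le]
    rintro _ ⟨γ, hγ, m, rfl⟩
    change ψ _ = 0
    rw [famAR, map_sub, hψ, hT, ← H.trm_mulVec hγ hβ]
    exact sub_self _
  have h0 : ψ _ = 0 := hk h
  have h1 : trm c β β = 1 := by
    ext i j
    exact (H.bas β hβ j i).trans Matrix.one_apply.symm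
  rwa [hT, h1, Matrix.one_mulVec] at h0

end Box

theorem famA_res (H : Base sX A s V u) {l α : Idx G 𝒰 n} (hl : l.Le α)
    (h : box p π l.U (V l) ≤ box p π α.U (V α)) {β : Fin n → Γ(G, α.U)} (hβ : β ∈ α.B)
    (m : Γ(G, α.U)) : mres _ h (famAR p π β (u α β) m) =
      famAR p π (mres G hl.1 ∘ β) (u l (mres G hl.1 ∘ β)) (mres G hl.1 m) := by
  simp only [famAR, famAT, map_sub, map_sum, mres_smul, mres_pb, pb_mres, Function.comp_apply,
    rres_ap, ← H.res hl β hβ, ap_rres]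

theorem famA_eval_res {U : X.Opens} {V : Q.Opens} {W : Y.Opens} (h : W ≤ box p π U V)
    (a : Γ(X, U)) (q : Polynomial Γ(Q, V)) : rres h (q.eval₂ (apb p π U V) (apa p π U V a)) =
      q.eval₂ (ap π (h.trans inf_le_right)) (ap p (h.trans inf_le_left) a) := by
  rw [Polynomial.hom_eval₂, rres_ap]
  congr 1
  exact RingHom.ext fun r => rres_ap _ _ _ r

/-- the kernels `P α`: relations, compatibility and support -/
theorem Base.exists_ker (H : Base sX A s V u) (sq : IsPullback p π sX s)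
    (hG : G.IsFinitePresentation) :
    ∃ P : ∀ α : Idx G 𝒰 n, Submodule Γ(Y, box p π α.U (V α))
        Γ((pullback p).obj G, box p π α.U (V α)),
      (∀ α, ∀ β ∈ α.B, (∀ m, pb p G inf_le_left m -
          ∑ i, apb p π α.U (V α) (u α β m i) • pb p G inf_le_left (β i) ∈ P α) ∧
        ∀ r : Fin n → Γ(Q, V α),
          ∑ i, apb p π α.U (V α) (r i) • pb p G inf_le_left (β i) ∈ P α → r = 0) ∧
      (∀ l α (h : box p π l.U (V l) ≤ box p π α.U (V α)), l.Le α → P l = T.soS h (P α)) ∧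
      (∀ α (y : Y), π y ∈ V α → p y ∉ α.U → ∃ W : Y.Opens, y ∈ W ∧
        ∀ (W' : Y.Opens) (h : W' ≤ box p π α.U (V α)), W' ≤ W → IsAffineOpen W' →
          T.soS h (P α) = ⊤) ∧
      ∀ l α (y : Y), l.Le α → π y ∈ V l → p y ∈ α.U → p y ∉ l.U →
        ∃ (W : Y.Opens) (h : W ≤ box p π α.U (V α)), y ∈ W ∧ T.soS h (P α) = ⊤ := by
  let P : ∀ α : Idx G 𝒰 n, Submodule Γ(Y, box p π α.U (V α))
      Γ((pullback p).obj G, box p π α.U (V α)) := fun α =>
    Submodule.span _ {x | ∃ γ ∈ α.B, ∃ m, x = famAR p π γ (u α γ) m}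
  have hP : ∀ α, ∀ β ∈ α.B, ∀ m, famAR p π β (u α β) m ∈ P α := fun α β hβ m =>
    Submodule.subset_span ⟨β, hβ, m, rfl⟩
  have aff := fun α : Idx G 𝒰 n => A.aff _ α.mem
  refine ⟨P, fun α β hβ => ⟨hP α β hβ, fun r hr =>
    famA_ind sq hG (aff α) (H.aff α) (H.univ α).coord hβ hr⟩, fun l α h hl => ?_,
    fun α y hy hy' => ?_, fun l α y hl hy hy' hy'' => ?_⟩
  · refine le_antisymm (Submodule.span_le.2 ?_) (Submodule.span_le.2 ?_)
    · rintro _ ⟨β', hβ', m, rfl⟩
      obtain ⟨β, hβ⟩ := α.ne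
      have h1 : ∀ m, famAR p π (mres G hl.1 ∘ β) (u l (mres G hl.1 ∘ β)) (mres G hl.1 m) ∈
          T.soS h (P α) := fun m =>
        famA_res H hl h hβ m ▸ Submodule.subset_span ⟨_, hP α β hβ m, rfl⟩
      refine famA_change (H.univ l).coord (hl.2 β hβ) hβ' (fun m' => ?_) m
      obtain ⟨a, ha⟩ := A.basic α.mem l.mem hl.1
      obtain ⟨N, t, ht⟩ := (locAt_of_fp hG (aff α)).ex a _ hl.1 ha m'
      refine famA_unit (H.univ l).coord (hl.2 β hβ) ((isUnit_rres a hl.1 ha.le).pow N)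
        (fun j => ?_) (ht ▸ h1 t)
      have := h1 (a ^ N • β j)
      rwa [mres_smul, map_pow] at this
    · rintro _ ⟨x, hx, rfl⟩
      induction hx using Submodule.span_induction with
      | mem x hx =>
        obtain ⟨β, hβ, m, rfl⟩ := hx
        rw [SetLike.mem_coe, famA_res H hl h hβ]
        exact hP l _ (hl.2 β hβ) _
      | zero => rw [map_zero]; exact zero_mem _
      | add x x' _ _ hx hx' => rw [map_add]; exact add_mem hx hx'
      | smul a x _ hx => rw [mres_smul]; exact Submodule.smul_mem _ _ hx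
  · obtain ⟨U', hU', hs⟩ := A.fin {p y} (Set.finite_singleton _)
    obtain ⟨a, a', -, e', e⟩ := A.bas _ α.mem _ hU'
    obtain ⟨β, hβ⟩ := α.ne
    set q := ((H.univ α).coord.mu hβ a).charpoly
    refine ⟨Y.basicOpen (q.reverse.eval₂ (apb p π U' (V α)) (apa p π U' (V α) a')), ?_,
      fun W h hW hW' => ?_⟩
    · rw [famA_eval, Polynomial.coeff_zero_reverse, (Matrix.charpoly_monic _).leadingCoeff, map_one]
      refine famA_mem ?_ fun h => hy' ?_
      · rw [Scheme.basicOpen_one]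
        exact ⟨hs rfl, hy⟩
      · exact (e'.ge ((mem_basicOpen_ap p _ a').1 h).2).1
    · have h' : W ≤ box p π U' (V α) := hW.trans (Y.basicOpen_le _)
      refine famA_top hG (aff α) hW' h (famA_ch (H.univ α).coord hβ (hP α β hβ) a) ?_
      have hu := isUnit_rres _ h' hW
      rw [famA_eval_res] at hu ⊢
      refine famA_rev _ ?_ hu
      have h2 : W ≤ p ⁻¹ᵁ (α.U ⊓ U') := le_inf (h.trans inf_le_left) (h'.trans inf_le_left)
      have := congrArg (ap p h2) e
      rwa [map_mul, ap_rres, ap_rres, map_one] at this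
  · obtain ⟨a, ha⟩ := A.basic α.mem l.mem hl.1
    obtain ⟨β, hβ⟩ := α.ne
    refine ⟨_, Y.basicOpen_le _, ?_, famA_top hG (aff α)
      ((box_aff sq (aff α) (H.aff α)).basicOpen _) _
      (famA_ch (H.univ α).coord hβ (hP α β hβ) a) (isUnit_rres _ _ le_rfl)⟩
    rw [famA_eval]
    refine famA_mem ((mem_basicOpen_ap π _ _).2 ⟨⟨hy', H.mono hl hy⟩, ?_⟩)
      fun h => hy'' (ha.ge ((mem_basicOpen_ap p _ a).1 h).2)
    have h1 : (rres (H.mono hl)).mapMatrix ((H.univ α).coord.mu hβ a) =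
        (H.univ l).coord.mu (hl.2 β hβ) (rres hl.1 a) := by
      ext i j
      exact (H.res hl β hβ _ i).trans (by rw [mres_smul]; rfl)
    have h2 := (Matrix.isUnit_iff_isUnit_det _).1
      ((isUnit_rres a hl.1 ha.le).map ((H.univ l).coord.mu (hl.2 β hβ)))
    rw [← h1, ← RingHom.map_det, Matrix.det_eq_sign_charpoly_coeff, map_mul] at h2
    have h3 := Q.basicOpen_of_isUnit (isUnit_of_mul_isUnit_right h2)
    rw [rres_def, Scheme.basicOpen_res] at h3
    exact (h3.ge hy).2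

end Pool.Agent.Lib.MP_d4c0ca_ag.Q
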