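import Pool.Agent.Lib.MP_d4c0ca_ag.Q.LenB

/-! Subsheaves and quotients. -/

set_option autoImplicit false

namespace Pool.Agent.Lib.MP_d4c0ca_ag.Q

open CategoryTheory AlgebraicGeometry Opposite TopologicalSpace Scheme.Modules
open Pool.Agent.Lib.MP_cd184e_ag.B

variable {X : Scheme.{0}} {𝒰 : Set X.Opens} {sX : X ⟶ SC} {G : T.St.Coh X} {M : X.Modules} {n : ℕ}
  {q : (pullback (𝟙 X)).obj G.obj ⟶ M} {K K' : Subobject G} {U : X.Opens}

/-- the quotient map as a map on the sheaf itself -/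
noncomputable def ker_map (q : (pullback (𝟙 X)).obj G.obj ⟶ M) : G.obj ⟶ M :=
  (pullbackId X).inv.app G.obj ≫ q

theorem ker_epi (q : (pullback (𝟙 X)).obj G.obj ⟶ M) [Epi q] : Epi (ker_map q) := by
  unfold ker_map
  exact epi_comp _ _

theorem ker_th (q : (pullback (𝟙 X)).obj G.obj ⟶ M) (W : X.Opens) (m : Γ(G.obj, W)) :
    th q (le_rfl : W ≤ (𝟙 X : X ⟶ X) ⁻¹ᵁ W) m = (ker_map q).app W m := by
  have e : ((pullbackId X).hom.app G.obj).app W
      (pb (𝟙 X) G.obj (le_rfl : W ≤ (𝟙 X : X ⟶ X) ⁻¹ᵁ W) m) = m :=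
    (id_pb _ m).trans (mres_self _ _ m)
  have e' : ∀ z, ((pullbackId X).inv.app G.obj).app W (((pullbackId X).hom.app G.obj).app W z) =
      z := fun z => congr(($((pullbackId X).hom_inv_id_app G.obj)).app W z)
  exact congrArg (q.app W) ((e' _).symm.trans (congrArg _ e))

theorem IsKer.ker_iff (h : IsKer K q) (W : X.Opens) (m : Γ(G.obj, W)) :
    Mem K W m ↔ (ker_map q).app W m = 0 := (h W m).trans (by rw [ker_th])

theorem ker_aff (j : X.affineOpens) : IsAffineOpen (j : X.Opens) := j.2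

theorem ker_noeth [IsLocallyNoetherian X] (j : X.affineOpens) :
    IsNoetherianRing Γ(X, (j : X.Opens)) := IsLocallyNoetherian.component_noetherian j

theorem ker_inj [IsLocallyNoetherian X] (K : Subobject G) (V : X.Opens) :
    Function.Injective (K.arrow.hom.app V) :=
  T.so_inj ker_aff (iSup_affineOpens_eq_top X) ker_noeth K.arrow V

theorem ker_res {W W' : X.Opens} (h : W' ≤ W) {m : Γ(G.obj, W)} (hm : Mem K W m) :
    Mem K W' (mres _ h m) := by
  obtain ⟨s, rfl⟩ := hm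
  exact ⟨mres _ h s, (mres_app _ h s).symm⟩

theorem ker_add {W : X.Opens} {m m' : Γ(G.obj, W)} (h : Mem K W m) (h' : Mem K W m') :
    Mem K W (m + m') := by
  obtain ⟨s, rfl⟩ := h
  obtain ⟨s', rfl⟩ := h'
  exact ⟨s + s', map_add _ _ _⟩

theorem ker_smul {W : X.Opens} (a : Γ(X, W)) {m : Γ(G.obj, W)} (h : Mem K W m) :
    Mem K W (a • m) := by
  obtain ⟨s, rfl⟩ := h
  exact ⟨a • s, Scheme.Modules.Hom.app_smul _ _ _⟩

theorem ker_loc [IsLocallyNoetherian X] {W : X.Opens} {m : Γ(G.obj, W)}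
    (h : ∀ x ∈ W, ∃ (W' : X.Opens) (h : W' ≤ W), x ∈ W' ∧ Mem K W' (mres _ h m)) : Mem K W m :=
  T.so_range_loc _ (ker_inj K) m h

theorem ker_le [IsLocallyNoetherian X] : K ≤ K' ↔ ∀ W m, Mem K W m → Mem K' W m := by
  refine ⟨fun h W => ?_, fun h => ?_⟩
  · rintro _ ⟨t, rfl⟩
    exact ⟨(Subobject.ofLE K K' h).hom.app _ t,
      congrArg (fun f => f.hom.app W t) (Subobject.ofLE_arrow h)⟩
  · obtain ⟨ψ, hψ⟩ := T.so_lift K'.arrow.hom (ker_inj K') K.arrow.hom fun V s => h V _ ⟨s, rfl⟩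
    exact Subobject.le_of_comm (ObjectProperty.homMk ψ) (ObjectProperty.hom_ext _ hψ)

/-- a coherent subsheaf from its sections -/
theorem ker_sub [IsLocallyNoetherian X] (G : T.St.Coh X)
    (Q : ∀ V : X.Opens, Submodule Γ(X, V) Γ(G.obj, V))
    (res : ∀ V W (h : W ≤ V), ∀ s ∈ Q V, mres G.obj h s ∈ Q W)
    (loc : ∀ V s, (∀ x ∈ V, ∃ (W : X.Opens) (h : W ≤ V), x ∈ W ∧ mres G.obj h s ∈ Q W) → s ∈ Q V)
    (sat : ∀ V, IsAffineOpen V → ∀ (f : Γ(X, V)) W (h : W ≤ V), W = X.basicOpen f → ∀ s ∈ Q W,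
      ∃ n : ℕ, ∃ t ∈ Q V, mres G.obj h t = rres h f ^ n • s) :
    ∃ K : Subobject G, ∀ W m, Mem K W m ↔ m ∈ Q W := by
  obtain ⟨N, ι, h⟩ := T.so_exists_sub G.obj Q res loc
  have fp := T.so_fp ker_aff (iSup_affineOpens_eq_top X) ker_noeth G.property
    (fun j => locAt_of_fp G.property j.2) ι (fun V => (h V).1) fun j f W hW e s => by
      obtain ⟨n, t, ht, e⟩ := sat j j.2 f W hW e _ (((h W).2 _).2 ⟨s, rfl⟩)
      obtain ⟨u, rfl⟩ := ((h _).2 t).1 ht
      exact ⟨n, u, e⟩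
  let i : (⟨N, fp⟩ : T.St.Coh X) ⟶ G := ObjectProperty.homMk ι
  have : Mono i := ⟨fun a b e => ObjectProperty.hom_ext _ (Scheme.Modules.hom_ext _ _ fun V => by
    ext s
    exact (h V).1 (congrArg (fun f => f.hom.app V s) e))⟩
  refine ⟨Subobject.mk i, fun W s => Iff.symm (((h _).2 s).trans ⟨?_, ?_⟩)⟩
  · rintro ⟨t, rfl⟩
    exact ⟨(Subobject.underlyingIso i).inv.hom.app _ t,
      congrArg (fun f => f.hom.app W t) (Subobject.underlyingIso_arrow i)⟩
  · rintro ⟨t, rfl⟩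
    exact ⟨(Subobject.underlyingIso i).hom.hom.app _ t,
      congrArg (fun f => f.hom.app W t) (Subobject.underlyingIso_hom_comp_eq_mk i)⟩

theorem exists_isKer [IsLocallyNoetherian X] (hM : M.IsFinitePresentation)
    (q : (pullback (𝟙 X)).obj G.obj ⟶ M) : ∃ K : Subobject G, IsKer K q := by
  obtain ⟨K, hK⟩ := ker_sub G (fun V => LinearMap.ker
    (⟨⟨(ker_map q).app V, map_add _⟩, Scheme.Modules.Hom.app_smul (ker_map q)⟩ :
      Γ(G.obj, V) →ₗ[Γ(X, V)] Γ(M, V)))
    (fun V W h s hs => (mres_app (ker_map q) h s).symm.trans ((congrArg _ hs).trans (map_zero _)))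
    (fun V s h => sec_ext M _ _ fun x hx => by
      obtain ⟨W, hW, m, e⟩ := h x hx
      exact ⟨W, hW, m, (mres_app (ker_map q) hW s).trans (Eq.trans e (map_zero _).symm)⟩)
    fun V hV f W hW e s hs => by
      have hs' : (ker_map q).app W s = 0 := hs
      obtain ⟨n, t, ht⟩ := (locAt_of_fp G.property hV).ex f W hW e s
      obtain ⟨m, hm⟩ := (locAt_of_fp hM hV).un f W hW e ((ker_map q).app _ t) (by
        rw [mres_app, ht, Scheme.Modules.Hom.app_smul, hs', smul_zero])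
      exact ⟨m + n, f ^ m • t, (Scheme.Modules.Hom.app_smul (ker_map q) _ _).trans hm, by
        rw [mres_smul, ht, map_pow, pow_add, mul_smul]⟩
  exact ⟨K, fun W m => (hK W m).trans (by rw [ker_th]; exact Iff.rfl)⟩

theorem exists_quot_of_sub [IsLocallyNoetherian X] (sX : X ⟶ SC) (K : Subobject G) :
    ∃ (M : X.Modules) (q : (pullback (𝟙 X)).obj G.obj ⟶ M), Good sX (𝟙 SC) sX q ∧ IsKer K q := by
  obtain ⟨E, q, he, fp, h⟩ := exists_coker K.arrow.hom (ker_inj K) (K : T.St.Coh X).property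
    G.property
  refine ⟨E, (pullbackId X).hom.app G.obj ≫ q, ⟨sq_id sX, epi_comp _ _, fp⟩, fun W m => ?_⟩
  have e : ker_map ((pullbackId X).hom.app G.obj ≫ q) = q := by
    simp [ker_map]
  rw [ker_th, e]
  exact (h W m).symm

theorem sub_ext [IsLocallyNoetherian X] (h : ∀ W m, Mem K W m ↔ Mem K' W m) : K = K' :=
  le_antisymm (ker_le.2 fun W m => (h W m).1) (ker_le.2 fun W m => (h W m).2)

/-- the inverse image of a subsheaf -/
theorem ker_pre [IsLocallyNoetherian X] {M : T.St.Coh X} (θ : G.obj ⟶ M.obj) (L : Subobject M) :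
    ∃ P : Subobject G, ∀ W m, Mem P W m ↔ Mem L W (θ.app W m) :=
  ker_sub G (fun V =>
    { carrier := {m | Mem L V (θ.app V m)}
      zero_mem' := ⟨0, (map_zero _).trans (map_zero _).symm⟩
      add_mem' := fun a b => by
        have := ker_add a b
        rwa [← map_add] at this
      smul_mem' := fun r s a => by
        have := ker_smul r a
        rwa [← Scheme.Modules.Hom.app_smul] at this })
    (fun V W h s hs => by
      have := ker_res h hs
      rwa [mres_app] at this)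
    (fun V s h => ker_loc fun x hx => by
      obtain ⟨W, hW, m, e⟩ := h x hx
      exact ⟨W, hW, m, by rw [mres_app]; exact e⟩)
    fun V hV f W hW e s ⟨l, hl⟩ => by
      obtain ⟨n, t, ht⟩ := (locAt_of_fp G.property hV).ex f W hW e s
      obtain ⟨k, l', hl'⟩ := (locAt_of_fp (L : T.St.Coh X).property hV).ex f W hW e l
      obtain ⟨j, hj⟩ := (locAt_of_fp M.property hV).un f W hW e
        (f ^ k • θ.app V t - f ^ n • L.arrow.hom.app V l') (by
          rw [map_sub, mres_smul, mres_smul, mres_app, mres_app, ht, hl',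
            Scheme.Modules.Hom.app_smul, Scheme.Modules.Hom.app_smul, hl, map_pow, map_pow,
            smul_comm, sub_self])
      rw [smul_sub, sub_eq_zero] at hj
      refine ⟨j + k + n, f ^ j • f ^ k • t, ⟨f ^ j • f ^ n • l', ?_⟩, ?_⟩
      · rw [Scheme.Modules.Hom.app_smul, Scheme.Modules.Hom.app_smul, ← hj,
          Scheme.Modules.Hom.app_smul, Scheme.Modules.Hom.app_smul]
      · rw [mres_smul, mres_smul, ht, map_pow, map_pow, pow_add, pow_add, mul_smul, mul_smul]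

/-- the image of a subsheaf that contains the kernel -/
theorem ker_img [IsLocallyNoetherian X] {M : T.St.Coh X} (θ : G.obj ⟶ M.obj) [Epi θ]
    (P : Subobject G) (hP : ∀ W m, θ.app W m = 0 → Mem P W m) :
    ∃ L : Subobject M, ∀ W m, Mem P W m ↔ Mem L W (θ.app W m) := by
  let Q : ∀ V : X.Opens, Submodule Γ(X, V) Γ(M.obj, V) := fun V =>
    { carrier := {s | ∀ W (h : W ≤ V) m, θ.app W m = mres _ h s → Mem P W m}
      zero_mem' := fun W h m e => hP W m (e.trans (map_zero _))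
      add_mem' := fun {s s'} a b W h m e => ker_loc fun x hx => by
        obtain ⟨W', h', hx', t, ht⟩ := loc_surj_of_epi θ (mres _ h s) hx
        rw [mres_mres] at ht
        have := ker_add (a W' _ t ht) (b W' (h'.trans h) (mres _ h' m - t) (by
          rw [map_sub, ← mres_app, e, mres_mres, map_add, ht, add_sub_cancel_left]))
        exact ⟨W', h', hx', by rwa [add_sub_cancel] at this⟩
      smul_mem' := fun r s a W h m e => ker_loc fun x hx => by
        obtain ⟨W', h', hx', t, ht⟩ := loc_surj_of_epi θ (mres _ h s) hx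
        rw [mres_mres] at ht
        have := ker_add (ker_smul (rres (h'.trans h) r) (a W' _ t ht))
          (hP W' (mres _ h' m - rres (h'.trans h) r • t) (by
            rw [map_sub, ← mres_app, e, mres_mres, mres_smul, Scheme.Modules.Hom.app_smul, ht,
              sub_self]))
        exact ⟨W', h', hx', by rwa [add_sub_cancel] at this⟩ }
  have hQ : ∀ W m, Mem P W m ↔ θ.app W m ∈ Q W := fun W m =>
    ⟨fun hm W' h m' e => by
      have := ker_add (ker_res h hm) (hP W' (m' - mres _ h m) (by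
        rw [map_sub, e, mres_app, sub_self]))
      rwa [add_sub_cancel] at this, fun hm => hm W le_rfl m (mres_self _ _ _).symm⟩
  obtain ⟨L, hL⟩ := ker_sub M Q
    (fun V W h s hs W' h' m e => hs W' (h'.trans h) m (e.trans (mres_mres _ _ _ _)))
    (fun V s h W hW m e => ker_loc fun x hx => by
      obtain ⟨W', h', hx', e'⟩ := h x (hW hx)
      refine ⟨W ⊓ W', inf_le_left, ⟨hx, hx'⟩, e' _ inf_le_right _ ?_⟩
      rw [← mres_app, e, mres_mres, mres_mres])
    fun V hV f W hW e s hs => by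
      have hW' : IsAffineOpen W := e ▸ hV.basicOpen f
      obtain ⟨m, rfl⟩ := surj_of_epi θ hW' (locAt_of_fp G.property hW')
        (locAt_of_fp M.property hW') s
      obtain ⟨k, rfl⟩ := (hQ W m).2 hs
      obtain ⟨n, t, ht⟩ := (locAt_of_fp (P : T.St.Coh X).property hV).ex f W hW e k
      exact ⟨n, θ.app V (P.arrow.hom.app V t), (hQ V _).1 ⟨t, rfl⟩, by
        rw [mres_app, mres_app, ht, Scheme.Modules.Hom.app_smul, Scheme.Modules.Hom.app_smul]⟩
  exact ⟨L, fun W m => (hQ W m).trans (hL W _).symm⟩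

theorem ker_height [IsLocallyNoetherian X] {M : T.St.Coh X} (θ : G.obj ⟶ M.obj) [Epi θ]
    (hK : ∀ W m, Mem K W m ↔ θ.app W m = 0) :
    Order.height (⊤ : Subobject M) = Order.coheight K := by
  choose Φ hΦ using ker_pre (G := G) θ
  have up : ∀ L, K ≤ Φ L := fun L => ker_le.2 fun W m hm =>
    (hΦ L W m).2 ⟨0, (map_zero _).trans ((hK W m).1 hm).symm⟩
  let f : Subobject M → Set.Ici K := fun L => ⟨Φ L, up L⟩
  have hf : ∀ L L', f L ≤ f L' ↔ L ≤ L' := fun L L' =>
    ⟨fun h => ker_le.2 fun W s hs => ker_loc fun x hx => by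
      obtain ⟨W', h', hx', t, ht⟩ := loc_surj_of_epi θ s hx
      have h₁ : Φ L ≤ Φ L' := h
      have := (hΦ L' W' t).1 (ker_le.1 h₁ W' t ((hΦ L W' t).2 (ht ▸ ker_res h' hs)))
      exact ⟨W', h', hx', ht ▸ this⟩,
    fun h => show Φ L ≤ Φ L' from ker_le.2 fun W m hm =>
      (hΦ L' W m).2 (ker_le.1 h W _ ((hΦ L W m).1 hm))⟩
  have sj : Function.Surjective (OrderEmbedding.ofMapLEIff f hf) := fun P => by
    obtain ⟨L, hL⟩ := ker_img θ P.1 fun W m e => ker_le.1 P.2 W m ((hK W m).2 e)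
    exact ⟨L, Subtype.ext (sub_ext fun W m => (hΦ L W m).trans (hL W m).symm)⟩
  have e : Subobject M ≃o Set.Ici K := RelIso.ofSurjective (OrderEmbedding.ofMapLEIff f hf) sj
  exact WithBot.coe_injective (Order.height_top_eq_krullDim.trans
    ((Order.krullDim_eq_of_orderIso e).trans (Order.coheight_eq_krullDim_Ici K).symm))

theorem IsKer.length_iff [CompactSpace X] [IsLocallyNoetherian X] (A : Atlas X 𝒰) (h : IsKer K q)
    (H : Good sX (𝟙 SC) sX q) : HasLength M n ↔ K ∈ T.St.QuotSet G n := by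
  have _ := A
  have := H.epi
  have := ker_epi q
  have e := ker_height (M := ⟨M, H.fp⟩) (ker_map q) h.ker_iff
  exact ⟨fun ⟨_, h₁⟩ => e.symm.trans h₁, fun h₁ => ⟨H.fp, e.trans h₁⟩⟩

theorem IsKer.van_iff (h : IsKer K q) (H : Good sX (𝟙 SC) sX q) (x : X) : Van M x ↔ Full K x := by
  have := H.epi
  have := ker_epi q
  refine ⟨fun ⟨W, hx, hW⟩ => ⟨W, hx, fun W' h' m => (h.ker_iff W' m).2 (hW W' h' _)⟩,
    fun ⟨W, hx, hW⟩ => ⟨W, hx, fun W' h' s => sec_ext M _ _ fun y hy => ?_⟩⟩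
  obtain ⟨V, hV, hy', t, ht⟩ := loc_surj_of_epi (ker_map q) s hy
  exact ⟨V, hV, hy', ht.symm.trans
    (((h.ker_iff V t).1 (hW V (hV.trans h') t)).trans (map_zero _).symm)⟩

theorem IsKer.chart_iff (h : IsKer K q) (H : Good sX (𝟙 SC) sX q) {β : Fin n → Γ(G.obj, U)}
    {c : Γ(G.obj, U) → Fin n → kk} : InChart sX q ⊤ U β c ↔ KChart sX K U β c := by
  have le : box (𝟙 X) sX U ⊤ ≤ U := inf_le_left
  have inj := (bijective_mres_of_eq M le (le_antisymm le (le_inf le_rfl le_top))).1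
  have k₁ : ∀ m, Mem K U m ↔ thb sX q U ⊤ m = 0 := fun m => (h U m).trans
    ⟨fun e => (mres_th q _ le m).symm.trans ((congrArg _ e).trans (map_zero _)),
      fun e => inj ((mres_th q _ le m).trans (e.trans (map_zero _).symm))⟩
  have k₂ : ∀ r : Fin n → kk, thb sX q U ⊤ (∑ i, cst sX U (r i) • β i) =
      ∑ i, apb (𝟙 X) sX U ⊤ (r i) • thb sX q U ⊤ (β i) := fun r => by
    rw [map_sum]
    refine Finset.sum_congr rfl fun i _ => (th_smul q _ _ _).trans ?_
    rw [ap_cst (𝟙 X) sX (Category.id_comp _)]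
    rfl
  refine ⟨fun C => ⟨fun x hx => (h.van_iff H x).1 (C.supp x trivial hx), fun m => (k₁ _).2 ?_,
    fun r hr => C.ind r ((k₂ r).symm.trans ((k₁ _).1 hr))⟩,
    fun C => ⟨fun x _ hx => (h.van_iff H x).2 (C.supp x hx), fun m => ?_,
      fun r hr => C.ind r ((k₁ _).2 ((k₂ r).trans hr))⟩⟩
  · rw [map_sub, k₂, sub_eq_zero]
    exact C.eq m
  · have := (k₁ _).1 (C.eq m)
    rwa [map_sub, k₂, sub_eq_zero] at this

theorem IsKer.iso {M' : X.Modules} {q' : (pullback (𝟙 X)).obj G.obj ⟶ M'} (h : IsKer K q)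
    (h' : IsKer K q') (H : Good sX (𝟙 SC) sX q) (H' : Good sX (𝟙 SC) sX q') :
    ∃ e : M ≅ M', q ≫ e.hom = q' := by
  have := H.epi
  have := H'.epi
  have := ker_epi q
  have := ker_epi q'
  obtain ⟨e, he⟩ := iso_of_ker (ker_map q) (ker_map q')
    fun V s => (h.ker_iff V s).symm.trans (h'.ker_iff V s)
  refine ⟨e, (cancel_epi ((pullbackId X).inv.app G.obj)).1 ?_⟩
  rw [← Category.assoc]
  exact he

end Pool.Agent.Lib.MP_d4c0ca_ag.Q
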