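import Pool.Agent.Lib.MP_d4c0ca_ag.Q.Exist
import Pool.Agent.Lib.MP_d4c0ca_ag.Q.Ker
import Pool.Agent.Lib.MP_d4c0ca_ag.Q.An

/-! The points of the Quot scheme parametrise the quotients. -/

set_option autoImplicit false

namespace Pool.Agent.Lib.MP_d4c0ca_ag.Q

open CategoryTheory AlgebraicGeometry Opposite TopologicalSpace Scheme.Modules
open Pool.Agent.Lib.MP_cd184e_ag.B

variable {X Q : Scheme.{0}} {G : T.St.Coh X} {𝒰 : Set X.Opens} {n : ℕ} {sX : X ⟶ SC}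

theorem exists_universal [UniversallyClosed sX] [LocallyOfFiniteType sX] (A : Atlas X 𝒰)
    (G : T.St.Coh X) (n : ℕ) :
    ∃ (Q : Scheme.{0}) (s : Q ⟶ SC) (ξ : Family sX G.obj n s), Universal ξ := by
  obtain ⟨Q, s, V, u, H⟩ := exists_base sX A G.property n
  obtain ⟨ξ, hξ⟩ := H.exists_family G.property
  exact ⟨Q, s, ξ, H.universal G.property ξ hξ⟩

theorem fib_ker {Y : Scheme.{0}} {p : Y ⟶ X} {E : Y.Modules} {q : (pullback p).obj G.obj ⟶ E}
    {i : X ⟶ Y} (h : i ≫ p = 𝟙 X) {M M' : X.Modules} {a : (pullback (𝟙 X)).obj G.obj ⟶ M}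
    {b : (pullback (𝟙 X)).obj G.obj ⟶ M'} {e : (pullback i).obj E ≅ M}
    {e' : (pullback i).obj E ≅ M'} (c : Cmp i q a e) (c' : Cmp i q b e') {K : Subobject G}
    (H : IsKer K a) : IsKer K b := by
  intro W m
  have hW : W ≤ i ⁻¹ᵁ p ⁻¹ᵁ W := by
    rw [← Scheme.Hom.comp_preimage, h]; exact le_rfl
  have inj : ∀ {N N' : X.Modules} (e : N ≅ N') (z : Γ(N, W)), e.hom.app W z = 0 ↔ z = 0 :=
    fun e z => ⟨fun hz => by
      have : e.inv.app W (e.hom.app W z) = z := congr(($(e.hom_inv_id)).app W z)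
      rw [← this, hz, map_zero], fun hz => by rw [hz, map_zero]⟩
  have e1 := congrArg (· = 0) (c W _ W le_rfl hW le_rfl m)
  have e2 := congrArg (· = 0) (c' W _ W le_rfl hW le_rfl m)
  exact (H W m).trans (e1.to_iff.symm.trans ((inj e _).trans ((inj e' _).symm.trans e2.to_iff)))

/-- a quotient of length `n` as a family over the point -/
theorem fib_family [UniversallyClosed sX] [LocallyOfFiniteType sX] (A : Atlas X 𝒰)
    {M : X.Modules} {q : (pullback (𝟙 X)).obj G.obj ⟶ M} (H : Good sX (𝟙 SC) sX q)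
    (h : HasLength M n) : FlatOver sX M ∧ ∀ (t : SC ⟶ SC) (i : X ⟶ X), t ≫ 𝟙 SC = 𝟙 SC →
      i ≫ 𝟙 X = 𝟙 X → i ≫ sX = sX ≫ t → HasLength ((pullback i).obj M) n := by
  have : CompactSpace X := compactSpace_of_universallyClosed sX
  have : IsLocallyNoetherian X := noeth_of_sq (sq_id sX)
  obtain ⟨U, hU, hs⟩ := A.fin _ (h.finite A)
  obtain ⟨β, c, C⟩ := chart_of_length A H G.property hU
    (fun x hx => not_not.1 fun hv => hx (hs hv)) h
  refine ⟨flat_of_charts H G.property fun t =>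
    ⟨⊤, U, β, c, trivial, isAffineOpen_top _, A.aff U hU, C⟩, fun t i _ hi _ => ?_⟩
  obtain rfl : i = 𝟙 X := (Category.comp_id i).symm.trans hi
  obtain ⟨K, hK⟩ := exists_isKer H.fp q
  have := H.epi
  exact ((fib_ker hi (cmp_id q) (cmp_pullq hi q) hK).length_iff A
    ⟨sq_id sX, epi_pullq hi q, fp_pb _ H.fp⟩).2 ((hK.length_iff A H).1 h)

/-- the family over the point -/
noncomputable def fibFam [UniversallyClosed sX] [LocallyOfFiniteType sX] (A : Atlas X 𝒰)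
    {M : X.Modules} {q : (pullback (𝟙 X)).obj G.obj ⟶ M} (H : Good sX (𝟙 SC) sX q)
    (h : HasLength M n) : Family sX G.obj n (𝟙 SC) :=
  ⟨X, 𝟙 X, sX, H.sq, M, q, H.epi, H.fp, (fib_family A H h).1, (fib_family A H h).2⟩

variable {s : Q ⟶ SC}

/-- the fibre over a point -/
noncomputable def fibI (ξ : Family sX G.obj n s) (t : Pts s) : X ⟶ ξ.Y :=
  ξ.sq.lift (𝟙 X) (sX ≫ t.1) (by rw [Category.id_comp, Category.assoc, t.2, Category.comp_id])

theorem fibI_p (ξ : Family sX G.obj n s) (t : Pts s) : fibI ξ t ≫ ξ.p = 𝟙 X :=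
  ξ.sq.lift_fst _ _ _

theorem fibI_π (ξ : Family sX G.obj n s) (t : Pts s) : fibI ξ t ≫ ξ.π = sX ≫ t.1 :=
  ξ.sq.lift_snd _ _ _

/-- the quotient over a point -/
noncomputable abbrev fibQ (ξ : Family sX G.obj n s) (t : Pts s) :
    (pullback (𝟙 X)).obj G.obj ⟶ (pullback (fibI ξ t)).obj ξ.E := pullq (fibI ξ t) (fibI_p ξ t) ξ.q

theorem fib_good [LocallyOfFiniteType sX] (ξ : Family sX G.obj n s) (t : Pts s) :
    Good sX (𝟙 SC) sX (fibQ ξ t) :=
  have : IsLocallyNoetherian X := noeth_of_sq (sq_id sX)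
  have := ξ.epi
  ⟨sq_id sX, epi_pullq _ _, fp_pb _ ξ.fp⟩

theorem fib_len (ξ : Family sX G.obj n s) (t : Pts s) :
    HasLength ((pullback (fibI ξ t)).obj ξ.E) n := ξ.len t.1 _ t.2 (fibI_p ξ t) (fibI_π ξ t)

theorem fib_uniq [UniversallyClosed sX] [LocallyOfFiniteType sX] (A : Atlas X 𝒰)
    {ξ : Family sX G.obj n s} (H : Universal ξ) (t t' : Pts s) {g : X ⟶ ξ.Y}
    (h₁ : g ≫ ξ.p = 𝟙 X) (h₂ : g ≫ ξ.π = sX ≫ t'.1)
    {e : (pullback g).obj ξ.E ≅ (pullback (fibI ξ t)).obj ξ.E} (c : Cmp g ξ.q (fibQ ξ t) e) :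
    t' = t :=
  Subtype.ext ((H.2 SC (𝟙 SC) inferInstance (fibFam A (fib_good ξ t) (fib_len ξ t))).unique
    ⟨t'.2, (pulls_iff _ _ _).2 ⟨g, e, h₁, h₂, c⟩⟩
    ⟨t.2, (pulls_iff _ _ _).2 ⟨_, _, fibI_p ξ t, fibI_π ξ t, cmp_pullq _ _⟩⟩)

theorem Universal.param [UniversallyClosed sX] [LocallyOfFiniteType sX] (A : Atlas X 𝒰)
    {s : Q ⟶ SC} {ξ : Family sX G.obj n s} (H : Universal ξ) :
    ∃ κ : Pts s → Subobject G, Param sX 𝒰 n κ := by
  have : CompactSpace X := compactSpace_of_universallyClosed sX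
  have : IsLocallyNoetherian X := noeth_of_sq (sq_id sX)
  have := H.1
  choose κ hκ using fun t : Pts s => exists_isKer (fib_good ξ t).fp (fibQ ξ t)
  refine ⟨κ, fun t t' h => ?_, Set.ext fun K => ⟨?_, fun hK => ?_⟩, fun t₀ U hU hs => ?_,
    fun F t₀ U hU β c c₀ h₀ h₁ h₂ => ?_⟩
  · obtain ⟨e, he⟩ := (hκ t).iso (h ▸ hκ t') (fib_good ξ t) (fib_good ξ t')
    refine fib_uniq A H t' t (fibI_p ξ t) (fibI_π ξ t) (e := e) fun U W W' a b c m => ?_
    rw [← he]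
    exact congrArg (e.hom.app W') (cmp_pullq (fibI_p ξ t) ξ.q U W W' a b c m)
  · rintro ⟨t, rfl⟩
    exact ((hκ t).length_iff A (fib_good ξ t)).1 (fib_len ξ t)
  · obtain ⟨M, q, hq, hk⟩ := exists_quot_of_sub sX K
    obtain ⟨f, ⟨f1, f2⟩, -⟩ := H.2 SC (𝟙 SC) inferInstance
      (fibFam A hq ((hk.length_iff A hq).2 hK))
    obtain ⟨g, e, g1, g2, g3⟩ := (pulls_iff _ _ _).1 f2
    obtain rfl : g = fibI ξ ⟨f, f1⟩ := ξ.sq.hom_ext (g1.trans (fibI_p ξ ⟨f, f1⟩).symm)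
      (g2.trans (fibI_π ξ ⟨f, f1⟩).symm)
    have := fib_ker g1 g3 (cmp_pullq g1 ξ.q) hk
    exact ⟨⟨f, f1⟩, sub_ext fun W m => (hκ _ W m).trans (this W m).symm⟩
  · obtain ⟨β, c₀, C⟩ := chart_of_length A (fib_good ξ t₀) G.property hU
      (fun x hx => ((hκ t₀).van_iff (fib_good ξ t₀) x).2 (hs x hx)) (fib_len ξ t₀)
    obtain ⟨V, aV, hV, c, C'⟩ := chart_near ξ.good G.property ξ.flat (A.aff U hU) t₀.2
      (fibI_p ξ t₀) (fibI_π ξ t₀) C
    have key : ∀ t : Pts s, ⊤ ≤ t.1 ⁻¹ᵁ V → KChart sX (κ t) U β fun m i => val t.1 (c m i) := by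
      intro t ht
      simp only [val_eq t.1 ht]
      exact ((hκ t).chart_iff (fib_good ξ t)).1 (C'.pull ξ.good (sq_id sX) G.property (A.aff U hU)
        aV (isAffineOpen_top _) t.2 ht (fibI_p ξ t) (fibI_π ξ t) (cmp_pullq _ _))
    exact ⟨β, fun t m i => val t.1 (c m i), key t₀ hV, (eventually_mem t₀ hV).mono key,
      fun m i => tendsto_val t₀ hV _⟩
  · obtain ⟨Q', s', V, u, B⟩ := exists_base sX A G.property n
    obtain ⟨ξ', hξ'⟩ := B.exists_family G.property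
    obtain ⟨f, ⟨f1, f2⟩, -⟩ := H.2 Q' s' B.lft ξ'
    obtain ⟨g, e, g1, g2, g3⟩ := (pulls_iff _ _ _).1 f2
    let α : Idx G.obj 𝒰 n := ⟨U, hU, {β}, Set.finite_singleton β, Set.singleton_nonempty β⟩
    have key : ∀ (t : Pts s) (c : Γ(G.obj, U) → Fin n → kk), KChart sX (κ t) U β c →
        ∃ t' : Pts s', ⊤ ≤ t'.1 ⁻¹ᵁ V α ∧ (∀ m i, val t'.1 (u α β m i) = c m i) ∧
          ptsMap f f1 t' = t := by
      intro t c hc
      have C := ((hκ t).chart_iff (fib_good ξ t)).2 hc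
      obtain ⟨φ, p1, p2⟩ := (B.univ α).lift kk (cst (𝟙 SC) ⊤) (fun _ => c)
        (chart_coord (sq_id sX) fun γ hγ => by
          rw [show γ = β from hγ]; exact C)
      obtain ⟨t', h', a, b⟩ := exists_point s' (B.aff α) φ fun z => (p1 z).trans (cst_id z)
      have hc' : (fun m i => ap t' h' (u α β m i)) = c := by
        funext m i; rw [b]; exact p2 β rfl m i
      refine ⟨⟨t', a⟩, h', fun m i => (val_eq t' h' _).trans (congrFun (congrFun hc' m) i), ?_⟩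
      obtain ⟨e', he'⟩ := cmp_of_charts ξ'.good (fib_good ξ t) G.property a
        (fibI_p ξ' ⟨t', a⟩) (fibI_π ξ' ⟨t', a⟩) fun _ => ⟨⊤, V α, h', U, β, u α β, trivial,
          isAffineOpen_top _, B.aff α, A.aff U hU, hξ' α β rfl, hc' ▸ C⟩
      refine fib_uniq A H t _ (g := fibI ξ' ⟨t', a⟩ ≫ g) ?_ ?_ (Cmp.comp g1 g3 he')
      · rw [Category.assoc, g1]
        exact fibI_p ξ' ⟨t', a⟩
      · rw [Category.assoc, g2, ← Category.assoc]
        exact (congrArg (· ≫ f) (fibI_π ξ' ⟨t', a⟩)).trans (Category.assoc _ _ _)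
    obtain ⟨w₀, a₀, b₀, d₀⟩ := key t₀ c₀ h₀
    have ex : ∀ t : Pts s, ∃ t' : Pts s', KChart sX (κ t) U β (c t) → ⊤ ≤ t'.1 ⁻¹ᵁ V α ∧
        (∀ m i, val t'.1 (u α β m i) = c t m i) ∧ ptsMap f f1 t' = t := fun t => by
      by_cases ht : KChart sX (κ t) U β (c t)
      · exact (key t _ ht).imp fun _ h _ => h
      · exact ⟨w₀, fun h => absurd h ht⟩
    choose w hw using ex
    have t1 : Filter.Tendsto w F (nhds w₀) := tendsto_pts (B.aff α) a₀
      (h₁.mono fun t ht => (hw t ht).1) {z | ∃ m i, z = u α β m i}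
      (fun S k1 k2 => (B.univ α).gen S k1 fun γ hγ m i => by
        rw [show γ = β from hγ]; exact k2 ⟨m, i, rfl⟩) (by
        rintro _ ⟨m, i, rfl⟩
        rw [b₀]
        exact (h₂ m i).congr' (h₁.mono fun t ht => congrArg toC ((hw t ht).2.1 m i).symm))
    have t2 := ((continuous_pts f f1).tendsto w₀).comp t1
    rw [d₀] at t2
    exact Filter.tendsto_id'.1 (t2.congr' (h₁.mono fun t ht => (hw t ht).2.2))

end Pool.Agent.Lib.MP_d4c0ca_ag.Q
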