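import Pool.Agent.Lib.MP_d4c0ca_ag.Q.GradA
import Pool.Agent.Lib.MP_d4c0ca_ag.Q.Ana
import Pool.Agent.Lib.MP_d4c0ca_ag.Q.Ker

/-! The Grassmann embedding of a parametrising space. -/

set_option autoImplicit false

namespace Pool.Agent.Lib.MP_d4c0ca_ag.Q

open CategoryTheory AlgebraicGeometry Opposite TopologicalSpace Scheme.Modules
open Pool.Agent.Lib.MP_cd184e_ag.B

open MvPolynomial Filter Topology

section lin

open Module

variable {σ ι : Type} [Fintype σ] [DecidableEq σ] [Fintype ι] {n : ℕ}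

theorem grad_proj_eq {K K' : Sub σ ι} {d : ℕ} (h : T.piece K d = T.piece K' d) :
    T.proj K d = T.proj K' d := by unfold T.proj; congr 1

theorem grad_piece_eq {K K' : Sub σ ι} {d : ℕ} (h : T.proj K d = T.proj K' d) :
    T.piece K d = T.piece K' d := Submodule.ext fun v => by
  rw [T.mem_piece, T.mem_piece, ← T.proj_eq_self, ← T.proj_eq_self, h]

theorem grad_lim_rank {α : Type} {F : Filter α} [F.NeBot] {g : α → Sub σ ι} {N : Sub σ ι} {e : ℕ}
    (h : Tendsto (fun a => T.proj (g a) e) F (𝓝 (T.proj N e)))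
    (h1 : ∀ a, n + finrank ℂ (T.piece (g a) e) = finrank ℂ (T.E σ ι e)) :
    n + finrank ℂ (T.piece N e) = finrank ℂ (T.E σ ι e) := by
  have a1 := ((LinearMap.trace ℂ (T.E σ ι e) ∘ₗ
    ContinuousLinearMap.coeLM ℂ).continuous_of_finiteDimensional.tendsto _).comp h
  have a2 : ((finrank ℂ (T.piece N e) : ℕ) : ℂ) = (finrank ℂ (T.E σ ι e) : ℂ) - n := by
    rw [← T.trace_proj]
    refine tendsto_nhds_unique a1 (tendsto_const_nhds.congr fun a => ?_)
    show _ = LinearMap.trace ℂ _ (T.proj (g a) e : T.E σ ι e →ₗ[ℂ] T.E σ ι e)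
    rw [T.trace_proj, ← h1 a]; push_cast; ring
  exact_mod_cast (show (n : ℂ) + finrank ℂ (T.piece N e) = finrank ℂ (T.E σ ι e) by
    linear_combination a2)

theorem grad_rank {M K : Sub σ ι} (h : K ∈ QuotPts M n) {e : ℕ} (he : n ≤ e) :
    n + finrank ℂ (T.piece K e) = finrank ℂ (T.E σ ι e) := by
  have := T.piece_add_hilb K e
  rwa [T.hilb_quot h he] at this

/-- an ultrafilter of points has a limit in all large degrees -/
theorem grad_limit {α : Type} (U : Ultrafilter α) {M : Sub σ ι} (hM : Graded M)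
    {g : α → Sub σ ι} (hg : ∀ a, g a ∈ QuotPts M n) : ∃ K ∈ QuotPts M n, ∀ e, n ≤ e →
      Tendsto (fun a => T.proj (g a) e) U (𝓝 (T.proj K e)) := by
  obtain ⟨N, hN, h2⟩ := T.exists_limit U g
  have h3 : M ≤ N := fun f hf => mem_of_hc' fun e => by
    obtain ⟨v, hv⟩ := T.toPoly_surj (hc_mem e f)
    rw [← hv, ← T.proj_eq_self]
    refine tendsto_nhds_unique
      (((ContinuousLinearMap.apply ℂ _ v).continuous.tendsto _).comp (h2 e))
      (tendsto_const_nhds.congr fun a => ?_)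
    exact (T.proj_eq_self.2 (hv ▸ (hg a).1 (graded_iff.1 hM f hf e))).symm
  have h4 : ∀ e, n ≤ e → n + finrank ℂ (T.piece N e) = finrank ℂ (T.E σ ι e) := fun e he =>
    grad_lim_rank (h2 e) fun a => grad_rank (hg a) he
  obtain ⟨K, b1, b2, b3, b, b4⟩ := T.exists_satur hN
  have h5 : K ∈ QuotPts M n := ⟨h3.trans b1, b2, b3, n + b, fun e he => by
    rw [hilb_congr fun f hf => ⟨b4 e (by omega) f hf, fun h => b1 h⟩]
    have a1 := T.piece_add_hilb N e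
    have a2 := h4 e (by omega)
    omega⟩
  refine ⟨K, h5, fun e he => ?_⟩
  rw [← grad_proj_eq (Submodule.eq_of_le_of_finrank_eq (S₁ := T.piece N e) (fun v hv => b1 hv) (by
    have a1 := h4 e he
    have a2 := grad_rank h5 he
    omega))]
  exact h2 e

/-- `n` vectors independent modulo a subspace of codimension `n` span the quotient -/
theorem grad_span {E : Type} [AddCommGroup E] [Module ℂ E] [FiniteDimensional ℂ E]
    {W : Submodule ℂ E} (h : n + finrank ℂ W = finrank ℂ E) {b : Fin n → E}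
    (hb : ∀ z : Fin n → ℂ, ∑ i, z i • b i ∈ W → z = 0) (v : E) :
    ∃ z : Fin n → ℂ, v - ∑ i, z i • b i ∈ W := by
  let φ : (Fin n → ℂ) →ₗ[ℂ] E ⧸ W := W.mkQ ∘ₗ Fintype.linearCombination ℂ b
  have h1 : Function.Injective φ := (injective_iff_map_eq_zero φ).2 fun z hz =>
    hb z ((Submodule.Quotient.mk_eq_zero W).1 hz)
  have h2 : finrank ℂ (Fin n → ℂ) = finrank ℂ (E ⧸ W) := by
    have := W.finrank_quotient_add_finrank
    rw [finrank_fin_fun]; omega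
  obtain ⟨z, hz⟩ := (LinearMap.injective_iff_surjective_of_finrank_eq_finrank h2).1 h1 (W.mkQ v)
  exact ⟨z, (Submodule.Quotient.eq W).1 hz.symm⟩

end lin

section mem

variable {X : Scheme.{0}} {G : T.St.Coh X} {K : Subobject G} {U : X.Opens}

theorem grad_mem_add {m m' : Γ(G.obj, U)} (h : Mem K U m) (h' : Mem K U m') : Mem K U (m + m') := by
  obtain ⟨s, rfl⟩ := h
  obtain ⟨t, rfl⟩ := h'
  exact ⟨s + t, map_add _ _ _⟩

theorem grad_mem_smul (a : Γ(X, U)) {m : Γ(G.obj, U)} (h : Mem K U m) : Mem K U (a • m) := by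
  obtain ⟨s, rfl⟩ := h
  exact ⟨a • s, Scheme.Modules.Hom.app_smul _ _ _⟩

end mem

variable {S σ ι : Type} [CommRing S] [Algebra ℂ S] {𝒜 : ℕ → Submodule ℂ S} [GradedAlgebra 𝒜]
  {x : σ → S} {hx : ∀ l, x l ∈ 𝒜 1} {G : CohCat (AlgebraicGeometry.Proj 𝒜)} [Fintype ι] [Fintype σ] [DecidableEq σ]
  {n : ℕ}

theorem grad_compact (hx : ∀ l, x l ∈ 𝒜 1) (hgen : Algebra.adjoin ℂ (Set.range x) = ⊤) :
    CompactSpace (AlgebraicGeometry.Proj 𝒜) := by
  refine ⟨?_⟩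
  have := congrArg SetLike.coe (T.chart_cover hx hgen)
  rw [Opens.coe_iSup, Opens.coe_top] at this
  rw [← this]
  exact isCompact_iUnion fun j => (T.chart_aff hx j).isCompact

/-- every quotient of length `n` is supported in the complement of a hyperplane -/
theorem exists_lin_full (hx : ∀ l, x l ∈ 𝒜 1) [LocallyOfFiniteType (T.St.strMap 𝒜)]
    (hgen : Algebra.adjoin ℂ (Set.range x) = ⊤) {K : Subobject G} (hK : K ∈ T.St.QuotSet G n) :
    ∃ ℓ : MvPolynomial σ ℂ, ℓ.IsHomogeneous 1 ∧ ∀ y, y ∉ lin 𝒜 x ℓ → Full K y := by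
  have := grad_compact hx hgen
  have := LocallyOfFiniteType.isLocallyNoetherian (T.St.strMap 𝒜)
  obtain ⟨M, q, h1, h2⟩ := exists_quot_of_sub (T.St.strMap 𝒜) K
  have A := atlas_hyp hx hgen
  obtain ⟨ℓ, h3, h4⟩ := exists_lin hx hgen _ (((h2.length_iff A h1).2 hK).finite A)
  exact ⟨ℓ, h3, fun y hy => (h2.van_iff h1 y).1 (by_contra fun h => hy (h4 h))⟩

theorem grad_rank' (hgen : Algebra.adjoin ℂ (Set.range x) = ⊤) (γ : T.Gens hx G ι)
    {K : Subobject G} (hK : K ∈ T.St.QuotSet G n) {e : ℕ} (he : n ≤ e) :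
    n + Module.finrank ℂ (T.piece (γ.pull K) e) = Module.finrank ℂ (T.E σ ι e) := by
  obtain ⟨Φ, h1, h2⟩ := γ.dict hgen
  rw [grad_piece_eq (h1 K e)]
  exact grad_rank ((h2 K n).1 hK) he

section ev

variable {γ : T.Gens hx G ι} {ℓ : MvPolynomial σ ℂ}
  {ev : (ι → MvPolynomial σ ℂ) →+ Γ(G.obj, lin 𝒜 x ℓ)} {K : Subobject G}
  {β : Fin n → Γ(G.obj, lin 𝒜 x ℓ)} {e : ℕ}

omit [DecidableEq σ] in
theorem Ev.grad_pow (H : Ev γ ℓ ev) (k : ℕ) (f : ι → MvPolynomial σ ℂ) :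
    ev (ℓ ^ k • f) = ev f := by
  induction k with
  | zero => rw [pow_zero, one_smul]
  | succ k ih => rw [pow_succ', mul_smul, H.mul, ih]

theorem Ev.grad_vec (H : Ev γ ℓ ev) (hℓ : ℓ.IsHomogeneous 1) (m : Γ(G.obj, lin 𝒜 x ℓ)) :
    ∃ d, ∀ e, d ≤ e → ∃ v : T.E σ ι e, ev (T.toPoly e v) = m := by
  obtain ⟨d, f, hf, rfl⟩ := H.surj m
  refine ⟨d, fun e he => ?_⟩
  have := smul_mem_V (hℓ.pow (e - d)) hf
  rw [show 1 * (e - d) + d = e by omega] at this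
  obtain ⟨v, hv⟩ := T.toPoly_surj this
  exact ⟨v, by rw [hv, H.grad_pow]⟩

theorem Ev.grad_sum (H : Ev γ ℓ ev) {B : Fin n → T.E σ ι e}
    (hB : ∀ i, ev (T.toPoly e (B i)) = β i) (r : Fin n → kk) :
    ev (T.toPoly e (∑ i, toC (r i) • B i)) =
      ∑ i, cst (T.St.strMap 𝒜) (lin 𝒜 x ℓ) (r i) • β i := by
  simp only [map_sum, LinearMap.map_smul, H.const, hB]

theorem Ev.grad_mem (H : Ev γ ℓ ev) (hgen : Algebra.adjoin ℂ (Set.range x) = ⊤)
    {B : Fin n → T.E σ ι e} (hB : ∀ i, ev (T.toPoly e (B i)) = β i) {v : T.E σ ι e}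
    {z : Fin n → ℂ} (h : v - ∑ i, z i • B i ∈ T.piece (γ.pull K) e) :
    Mem K _ (ev (T.toPoly e v) - ∑ i, cst (T.St.strMap 𝒜) (lin 𝒜 x ℓ) (toC.symm (z i)) • β i) := by
  have := H.mem_of_pull hgen (T.toPoly_mem _) h
  rwa [map_sub, map_sub, show ∑ i, z i • B i = ∑ i, toC (toC.symm (z i)) • B i by simp,
    H.grad_sum hB] at this

theorem Ev.grad_fix (H : Ev γ ℓ ev) (hgen : Algebra.adjoin ℂ (Set.range x) = ⊤)
    (hs : ∀ y, y ∉ lin 𝒜 x ℓ → Full K y) {B : Fin n → T.E σ ι e}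
    (hB : ∀ i, ev (T.toPoly e (B i)) = β i) {v : T.E σ ι e} {r : Fin n → kk}
    (h : Mem K _ (ev (T.toPoly e v) - ∑ i, cst (T.St.strMap 𝒜) (lin 𝒜 x ℓ) (r i) • β i)) :
    T.proj (γ.pull K) e (v - ∑ i, toC (r i) • B i) = v - ∑ i, toC (r i) • B i :=
  T.proj_eq_self.2 (H.pull_of_mem hgen hs (T.toPoly_mem _) (by
    rwa [map_sub, map_sub, H.grad_sum hB]))

theorem Ev.grad_ind (H : Ev γ ℓ ev) (hgen : Algebra.adjoin ℂ (Set.range x) = ⊤)
    {c : Γ(G.obj, lin 𝒜 x ℓ) → Fin n → kk} (C : KChart (T.St.strMap 𝒜) K (lin 𝒜 x ℓ) β c)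
    {B : Fin n → T.E σ ι e} (hB : ∀ i, ev (T.toPoly e (B i)) = β i) (z : Fin n → ℂ)
    (h : T.proj (γ.pull K) e (∑ i, z i • B i) = ∑ i, z i • B i) : z = 0 := by
  have h1 := H.mem_of_pull hgen (T.toPoly_mem _) (T.proj_eq_self.1 h)
  rw [show ∑ i, z i • B i = ∑ i, toC (toC.symm (z i)) • B i by simp, H.grad_sum hB] at h1
  funext i
  simpa using congrFun (C.ind _ h1) i

/-- the coordinates of a chart as a linear map -/
theorem Ev.grad_lin (H : Ev γ ℓ ev) (hgen : Algebra.adjoin ℂ (Set.range x) = ⊤)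
    {c : Γ(G.obj, lin 𝒜 x ℓ) → Fin n → kk} (C : KChart (T.St.strMap 𝒜) K (lin 𝒜 x ℓ) β c) (e : ℕ) :
    ∃ L : T.E σ ι e →ₗ[ℂ] (Fin n → ℂ), (∀ v i, L v i = toC (c (ev (T.toPoly e v)) i)) ∧
      ∀ v, L v = 0 ↔ v ∈ T.piece (γ.pull K) e := by
  have h1 : ∀ m m', c (m + m') = c m + c m' := fun m m' => (C.mem_iff _ _).1 (by
    have := grad_mem_add (C.eq m) (C.eq m')
    rwa [sub_add_sub_comm, ← Finset.sum_add_distrib, show ∀ f g : Fin n → Γ(G.obj, lin 𝒜 x ℓ),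
      f = g → ∑ i, f i = ∑ i, g i from fun _ _ h => by rw [h]] at this
    funext i
    rw [Pi.add_apply, map_add, add_smul])
  have h2 : ∀ z m, c (cst (T.St.strMap 𝒜) (lin 𝒜 x ℓ) z • m) = z • c m := fun z m =>
    (C.mem_iff _ _).1 (by
      have := grad_mem_smul (cst (T.St.strMap 𝒜) (lin 𝒜 x ℓ) z) (C.eq m)
      rwa [smul_sub, Finset.smul_sum, show ∀ f g : Fin n → Γ(G.obj, lin 𝒜 x ℓ),
        f = g → ∑ i, f i = ∑ i, g i from fun _ _ h => by rw [h]] at this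
      funext i
      rw [Pi.smul_apply, smul_eq_mul, map_mul, mul_smul])
  have h3 : ∀ m, Mem K _ m ↔ c m = 0 := fun m => by
    simpa using C.mem_iff m 0
  refine ⟨⟨⟨fun v i => toC (c (ev (T.toPoly e v)) i), fun v w => funext fun i => ?_⟩,
    fun a v => funext fun i => ?_⟩, fun _ _ => rfl, fun v => ⟨fun h => ?_, fun h => ?_⟩⟩
  · simp only [map_add, h1, Pi.add_apply]
  · obtain ⟨a, rfl⟩ := toC.surjective a
    simp only [LinearMap.map_smul, H.const, h2, Pi.smul_apply, smul_eq_mul, map_mul, RingHom.id_apply]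
  · refine H.pull_of_mem hgen C.supp (T.toPoly_mem _) ((h3 _).2 (funext fun i => ?_))
    exact toC.injective ((congrFun h i).trans (map_zero toC).symm)
  · funext i
    show toC (c _ i) = 0
    rw [(h3 _).1 (H.mem_of_pull hgen (T.toPoly_mem _) h), Pi.zero_apply, map_zero]

/-- independence in two consecutive degrees gives a chart -/
theorem Ev.grad_chart (H : Ev γ ℓ ev) (hgen : Algebra.adjoin ℂ (Set.range x) = ⊤)
    (hℓ : ℓ.IsHomogeneous 1) (hK : K ∈ T.St.QuotSet G n) (he : n ≤ e) {B : Fin n → T.E σ ι e}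
    {B' : Fin n → T.E σ ι (e + 1)} (hB : ∀ i, ev (T.toPoly e (B i)) = β i)
    (hB' : ∀ i, T.toPoly (e + 1) (B' i) = ℓ • T.toPoly e (B i))
    (h : ∀ z : Fin n → ℂ, T.proj (γ.pull K) e (∑ i, z i • B i) = ∑ i, z i • B i → z = 0)
    (h' : ∀ z : Fin n → ℂ, T.proj (γ.pull K) (e + 1) (∑ i, z i • B' i) = ∑ i, z i • B' i → z = 0) :
    ∃ c, KChart (T.St.strMap 𝒜) K (lin 𝒜 x ℓ) β c := by
  have s0 := grad_span (grad_rank' hgen γ hK he) fun z hz => h z (T.proj_eq_self.2 hz)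
  have s1 := grad_span (grad_rank' hgen γ hK (he.trans e.le_succ)) fun z hz =>
    h' z (T.proj_eq_self.2 hz)
  obtain ⟨hs, h2⟩ := H.full (K := K) hgen hℓ (d := e) fun f hf => by
    obtain ⟨v, rfl⟩ := T.toPoly_surj hf
    obtain ⟨z, hz⟩ := s1 v
    refine ⟨T.toPoly e (∑ i, z i • B i), T.toPoly_mem _, ?_⟩
    have e1 : T.toPoly (e + 1) (∑ i, z i • B' i) = ℓ • T.toPoly e (∑ i, z i • B i) := by
      rw [map_sum, map_sum, Finset.smul_sum]
      exact Finset.sum_congr rfl fun i _ => by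
        rw [LinearMap.map_smul, LinearMap.map_smul, hB', smul_comm]
    have := T.mem_piece.1 hz
    rwa [map_sub, e1] at this
  have h3 : ∀ m, ∃ r : Fin n → kk,
      Mem K _ (m - ∑ i, cst (T.St.strMap 𝒜) (lin 𝒜 x ℓ) (r i) • β i) := fun m => by
    obtain ⟨d, hd⟩ := H.grad_vec hℓ m
    obtain ⟨v, rfl⟩ := hd (e + d) (by omega)
    obtain ⟨g, hg, h4⟩ := h2 d _ (T.toPoly_mem v)
    obtain ⟨w, rfl⟩ := T.toPoly_surj hg
    obtain ⟨z, hz⟩ := s0 w
    have h5 := smul_mem_V (hℓ.pow d) hg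
    rw [show 1 * d + e = e + d by omega] at h5
    have h6 := H.mem_of_pull hgen (sub_mem (T.toPoly_mem v) h5) h4
    rw [map_sub, H.grad_pow] at h6
    have h7 := grad_mem_add h6 (H.grad_mem hgen hB hz)
    rw [sub_add_sub_cancel] at h7
    exact ⟨_, h7⟩
  choose c hc using h3
  refine ⟨c, hs, hc, fun r hr => ?_⟩
  have h8 := h (fun i => toC (r i)) (T.proj_eq_self.2
    (H.pull_of_mem hgen hs (T.toPoly_mem _) (by rwa [H.grad_sum hB])))
  funext i
  exact toC.injective ((congrFun h8 i).trans (map_zero toC).symm)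

end ev

variable {P : Type} [TopologicalSpace P] {κ : P → Subobject G}

theorem Param.continuous [LocallyOfFiniteType (T.St.strMap 𝒜)]
    (hgen : Algebra.adjoin ℂ (Set.range x) = ⊤) (γ : T.Gens hx G ι)
    (H : Param (T.St.strMap 𝒜) (hyp 𝒜) n κ) {d : ℕ} (hd : n < d) :
    Continuous fun t => T.proj (γ.pull (κ t)) d := by
  have hκ : ∀ t, κ t ∈ T.St.QuotSet G n := fun t => H.range ▸ Set.mem_range_self t
  refine continuous_iff_continuousAt.2 fun t₀ => (tendsto_iff_ultrafilter _ _ _).2 fun U hU => ?_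
  obtain ⟨ℓ, hℓ, hs⟩ := exists_lin_full hx hgen (hκ t₀)
  obtain ⟨ev, E⟩ := exists_ev hgen γ hℓ
  obtain ⟨β, c, C₀, C, hc⟩ := H.cont t₀ _ (lin_mem hx hℓ) hs
  obtain ⟨N, -, h2⟩ := T.exists_limit U fun t => γ.pull (κ t)
  obtain ⟨L₀, a1, a2⟩ := E.grad_lin hgen C₀ d
  have h3 : ∀ t, ∃ L : T.E σ ι d →ₗ[ℂ] (Fin n → ℂ),
      KChart (T.St.strMap 𝒜) (κ t) (lin 𝒜 x ℓ) β (c t) →
        (∀ v i, L v i = toC (c t (ev (T.toPoly d v)) i)) ∧
          ∀ v, L v = 0 ↔ v ∈ T.piece (γ.pull (κ t)) d := fun t => by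
    by_cases h : KChart (T.St.strMap 𝒜) (κ t) (lin 𝒜 x ℓ) β (c t)
    · obtain ⟨L, hL⟩ := E.grad_lin hgen h d
      exact ⟨L, fun _ => hL⟩
    · exact ⟨0, fun h' => (h h').elim⟩
  choose L hL using h3
  have C' := C.filter_mono hU
  have h4 := ana_ker (L := L) (L₀ := L₀) (h2 d) (fun v => tendsto_pi_nhds.2 fun i => by
    rw [a1]
    exact ((hc _ i).mono_left hU).congr' (C'.mono fun t ht => ((hL t ht).1 v i).symm))
    (C'.mono fun t ht v => ((hL t ht).2 _).2 (T.mem_piece.2 (T.proj_mem _ v)))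
  have h5 : T.piece N d = T.piece (γ.pull (κ t₀)) d :=
    Submodule.eq_of_le_of_finrank_eq (fun v hv => by
      have := h4 v
      rwa [T.proj_eq_self.2 hv, a2] at this) (by
      have b1 := grad_lim_rank (h2 d) fun t => grad_rank' hgen γ (hκ t) hd.le
      have b2 := grad_rank' hgen γ (hκ t₀) hd.le
      omega)
  have h6 := h2 d
  rwa [grad_proj_eq h5] at h6

theorem Param.compact [LocallyOfFiniteType (T.St.strMap 𝒜)]
    (hgen : Algebra.adjoin ℂ (Set.range x) = ⊤) (γ : T.Gens hx G ι)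
    (H : Param (T.St.strMap 𝒜) (hyp 𝒜) n κ) : CompactSpace P := by
  have hκ : ∀ t, κ t ∈ T.St.QuotSet G n := fun t => H.range ▸ Set.mem_range_self t
  refine ⟨isCompact_iff_ultrafilter_le_nhds.2 fun U _ => ?_⟩
  obtain ⟨Φ, h1, h2⟩ := γ.dict hgen
  obtain ⟨K, hK, h3⟩ := grad_limit U (hom_graded γ.ker) fun t => (h2 (κ t) n).1 (hκ t)
  obtain ⟨K', e'⟩ := Φ.surjective ⟨K, hK.1, hK.2.1, hK.2.2.1⟩
  have h4 : K' ∈ T.St.QuotSet G n := (h2 K' n).2 (e' ▸ hK)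
  rw [← H.range] at h4
  obtain ⟨t₀, rfl⟩ := h4
  have h5 : ∀ e, n ≤ e → Tendsto (fun t => T.proj (γ.pull (κ t)) e) U
      (𝓝 (T.proj (γ.pull (κ t₀)) e)) := fun e he => by
    simp only [h1, e']
    exact h3 e he
  obtain ⟨ℓ, hℓ, hs⟩ := exists_lin_full hx hgen (hκ t₀)
  obtain ⟨ev, E⟩ := exists_ev hgen γ hℓ
  obtain ⟨β, c, C₀, -, -⟩ := H.cont t₀ _ (lin_mem hx hℓ) hs
  choose dβ hβ using fun i => E.grad_vec hℓ (β i)
  have h6 : ∀ e, n + ∑ i, dβ i ≤ e → ∃ B : Fin n → T.E σ ι e,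
      ∀ i, ev (T.toPoly e (B i)) = β i := fun e he => by
    choose B hB using fun i => hβ i e (by
      have := Finset.single_le_sum (f := dβ) (fun _ _ => Nat.zero_le _) (Finset.mem_univ i)
      omega)
    exact ⟨B, hB⟩
  obtain ⟨e, he⟩ : ∃ e, e = n + ∑ i, dβ i := ⟨_, rfl⟩
  have he' : n ≤ e := by omega
  obtain ⟨B, hB⟩ := h6 e he.ge
  choose B' hB' using fun i => T.toPoly_surj (show ℓ • T.toPoly e (B i) ∈ V σ ι (e + 1) by
    have := smul_mem_V hℓ (T.toPoly_mem (B i))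
    rwa [add_comm 1] at this)
  have h7 : ∀ᶠ t in (U : Filter P), ∃ c, KChart (T.St.strMap 𝒜) (κ t) (lin 𝒜 x ℓ) β c :=
    ((ana_ind (h5 e he') (E.grad_ind hgen C₀ hB)).and (ana_ind (h5 (e + 1) (by omega))
      (E.grad_ind hgen C₀ fun i => by rw [hB', E.mul, hB]))).mono fun t ht =>
        E.grad_chart hgen hℓ (hκ t) he' hB hB' ht.1 ht.2
  have h8 : ∀ t, ∃ c', (∃ c, KChart (T.St.strMap 𝒜) (κ t) (lin 𝒜 x ℓ) β c) →
      KChart (T.St.strMap 𝒜) (κ t) (lin 𝒜 x ℓ) β c' := fun t => by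
    by_cases h : ∃ c, KChart (T.St.strMap 𝒜) (κ t) (lin 𝒜 x ℓ) β c
    · exact ⟨h.choose, fun _ => h.choose_spec⟩
    · exact ⟨0, fun h' => (h h').elim⟩
  choose c' hc' using h8
  have h9 := h7.mono hc'
  refine ⟨t₀, trivial, H.inv U t₀ _ (lin_mem hx hℓ) β c' (c t₀) C₀ h9 fun m i => ?_⟩
  obtain ⟨d, hd⟩ := E.grad_vec hℓ m
  obtain ⟨v, rfl⟩ := hd (e + d) (by omega)
  obtain ⟨D, hD⟩ := h6 (e + d) (by omega)
  exact tendsto_pi_nhds.1 (ana_lim (h5 (e + d) (by omega)) (E.grad_ind hgen C₀ hD)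
    (z := fun t i => toC (c' t (ev (T.toPoly _ v)) i))
    (h9.mono fun t ht => E.grad_fix hgen ht.supp hD (ht.eq _))
    (E.grad_fix hgen C₀.supp hD (C₀.eq _))) i

end Pool.Agent.Lib.MP_d4c0ca_ag.Q
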