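import Pool.Agent.Lib.MP_d4c0ca_ag.Q.Lin
import Pool.Agent.Lib.MP_d4c0ca_ag.Q.Epi
import Pool.Agent.Lib.MP_d4c0ca_ag.T.Final

/-! Charts of subsheaves in terms of graded modules. -/

set_option autoImplicit false

namespace Pool.Agent.Lib.MP_d4c0ca_ag.Q

open CategoryTheory AlgebraicGeometry Opposite TopologicalSpace Scheme.Modules
open Pool.Agent.Lib.MP_cd184e_ag.B

open MvPolynomial

section

variable {X : Scheme.{0}} {G : T.St.Coh X} {K : Subobject G} {W W' : X.Opens}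

theorem gradA_res (h : W' ≤ W) {m : Γ(G.obj, W)} (hm : Mem K W m) : Mem K W' (mres G.obj h m) := by
  obtain ⟨s, rfl⟩ := hm
  exact ⟨_, (mres_app _ h s).symm⟩

theorem gradA_smul (a : Γ(X, W)) {m : Γ(G.obj, W)} (hm : Mem K W m) : Mem K W (a • m) := by
  obtain ⟨s, rfl⟩ := hm
  exact ⟨a • s, Scheme.Modules.Hom.app_smul _ _ _⟩

theorem gradA_sub {m m' : Γ(G.obj, W)} (hm : Mem K W m) (hm' : Mem K W m') : Mem K W (m - m') := by
  obtain ⟨s, rfl⟩ := hm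
  obtain ⟨s', rfl⟩ := hm'
  exact ⟨s - s', map_sub _ _ _⟩

theorem gradA_unit {u : Γ(X, W)} (hu : IsUnit u) {m : Γ(G.obj, W)} (hm : Mem K W (u • m)) :
    Mem K W m := by
  obtain ⟨v, rfl⟩ := hu
  have := gradA_smul ((v⁻¹ : Γ(X, W)ˣ) : Γ(X, W)) hm
  rwa [← mul_smul, Units.inv_mul, one_smul] at this

/-- the sections of a subsheaf as a submodule -/
def gradAS (K : Subobject G) (W : X.Opens) : Submodule Γ(X, W) Γ(G.obj, W) where
  carrier := {m | Mem K W m}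
  zero_mem' := ⟨0, map_zero _⟩
  add_mem' := fun ⟨s, h⟩ ⟨s', h'⟩ => ⟨s + s', by rw [map_add, h, h']⟩
  smul_mem' := fun a _ h => gradA_smul a h

theorem gradA_pt {a r : Γ(X, W)} (h : r - 1 ∈ Ideal.span {a}) {y : X} (hy : y ∈ W)
    (ha : y ∉ X.basicOpen a) : y ∈ X.basicOpen r := by
  obtain ⟨c, e⟩ := Ideal.mem_span_singleton'.1 h
  have e1 : X.presheaf.germ W y hy r + X.presheaf.germ W y hy (-c * a) = 1 := by
    rw [← map_add, neg_mul, e, neg_sub, add_sub_cancel, map_one]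
  rcases IsLocalRing.isUnit_or_isUnit_of_add_one e1 with k | k
  · exact (X.mem_basicOpen r y hy).2 k
  · rw [map_mul] at k
    exact (ha ((X.mem_basicOpen a y hy).2 (isUnit_of_mul_isUnit_right k))).elim

theorem gradA_full (hι : ∀ V, Function.Injective (K.arrow.hom.app V)) (hW : IsAffineOpen W)
    (r : Γ(X, W)) (h : ∀ m : Γ(G.obj, W), Mem K W (r • m)) {y : X} (hy : y ∈ X.basicOpen r) :
    Full K y := by
  refine ⟨_, hy, fun W' hW' m => T.so_range_loc _ hι m fun z hz => ?_⟩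
  obtain ⟨b, hb, hzb⟩ := hW.exists_basicOpen_le (V := W') ⟨z, hz⟩ (X.basicOpen_le r (hW' hz))
  obtain ⟨k, t, ht⟩ := (locAt_of_fp G.property hW).ex b _ (X.basicOpen_le b) rfl (mres G.obj hb m)
  have h1 := gradA_res (X.basicOpen_le b) (h t)
  rw [mres_smul, ht] at h1
  exact ⟨_, hb, hzb, gradA_unit ((isUnit_rres b (X.basicOpen_le b) le_rfl).pow k)
    (gradA_unit (isUnit_rres r (X.basicOpen_le b) (hb.trans hW')) h1)⟩

end

variable {S σ ι : Type} [CommRing S] [Algebra ℂ S] {𝒜 : ℕ → Submodule ℂ S} [GradedAlgebra 𝒜]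
  {x : σ → S} {hx : ∀ l, x l ∈ 𝒜 1} {G : CohCat (AlgebraicGeometry.Proj 𝒜)} [Fintype ι] [Fintype σ]
  {γ : T.Gens hx G ι} {ℓ : MvPolynomial σ ℂ} {ev : (ι → MvPolynomial σ ℂ) →+ Γ(G.obj, lin 𝒜 x ℓ)}
  {K : Subobject G} {n : ℕ}

theorem gradA_inj (hx : ∀ l, x l ∈ 𝒜 1) (hgen : Algebra.adjoin ℂ (Set.range x) = ⊤)
    (K : Subobject G) (W : (AlgebraicGeometry.Proj 𝒜).Opens) :
    Function.Injective (K.arrow.hom.app W) :=
  T.so_inj (T.chart_aff hx) (T.chart_cover hx hgen) (T.chart_noeth hx hgen) K.arrow W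

omit [Fintype σ] in
theorem gradA_chart (hx : ∀ l, x l ∈ 𝒜 1) (hgen : Algebra.adjoin ℂ (Set.range x) = ⊤)
    (y : AlgebraicGeometry.Proj 𝒜) : ∃ j, y ∈ Proj.basicOpen 𝒜 (x j) :=
  Opens.mem_iSup.1 ((T.chart_cover hx hgen).ge (Set.mem_univ y))

omit [Fintype ι] in
theorem gradA_euler {d : ℕ} {f : ι → MvPolynomial σ ℂ} (hf : f ∈ V σ ι (d + 1)) :
    ∃ g : σ → ι → MvPolynomial σ ℂ, (∀ s, g s ∈ V σ ι d) ∧
      f = ∑ s, (MvPolynomial.X s : MvPolynomial σ ℂ) • g s := by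
  have h0 : ((d + 1 : ℕ) : ℂ) ≠ 0 := Nat.cast_ne_zero.2 d.succ_ne_zero
  refine ⟨fun s i => ((d + 1 : ℕ) : ℂ)⁻¹ • pderiv s (f i), fun s => mem_V.2 fun i =>
    (homogeneousSubmodule σ ℂ d).smul_mem _ (mem_V.1 hf i).pderiv, funext fun i => ?_⟩
  rw [Finset.sum_apply]
  simp only [Pi.smul_apply, smul_eq_mul, mul_smul_comm]
  rw [← Finset.smul_sum, (mem_V.1 hf i).sum_X_mul_pderiv, ← Nat.cast_smul_eq_nsmul ℂ, smul_smul,
    inv_mul_cancel₀ h0, one_smul]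

theorem gradA_step {d : ℕ}
    (h : ∀ f ∈ V σ ι (d + 1), ∃ g ∈ V σ ι d, f - ℓ • g ∈ γ.pull K) (e : ℕ) :
    ∀ f ∈ V σ ι (d + e + 1), ∃ g ∈ V σ ι (d + e), f - ℓ • g ∈ γ.pull K := by
  induction e with
  | zero => exact h
  | succ e ih =>
    intro f hf
    obtain ⟨k, hk, rfl⟩ := gradA_euler hf
    choose g hg hg' using fun s => ih (k s) (hk s)
    refine ⟨∑ s, (MvPolynomial.X s : MvPolynomial σ ℂ) • g s, sum_mem fun s _ => ?_, ?_⟩
    · have := smul_mem_V (isHomogeneous_X ℂ s) (hg s)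
      rwa [add_comm 1] at this
    · rw [Finset.smul_sum, ← Finset.sum_sub_distrib]
      refine sum_mem fun s _ => ?_
      rw [smul_comm ℓ, ← smul_sub]
      exact Submodule.smul_mem _ _ (hg' s)

theorem Ev.mem_of_pull (H : Ev γ ℓ ev) (hgen : Algebra.adjoin ℂ (Set.range x) = ⊤) {d : ℕ}
    {f : ι → MvPolynomial σ ℂ} (hf : f ∈ V σ ι d) (h : f ∈ γ.pull K) : Mem K _ (ev f) := by
  refine T.so_range_loc _ (gradA_inj hx hgen K) _ fun y hy => ?_
  obtain ⟨j, hj⟩ := gradA_chart hx hgen y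
  have h1 : Mem K _ (mres G.obj (inf_le_left : _ ⊓ lin 𝒜 x ℓ ≤ _) (γ.ev j f)) :=
    gradA_res inf_le_left (h j)
  rw [H.trans d f hf j _ inf_le_left inf_le_right] at h1
  exact ⟨_, inf_le_right, ⟨hj, hy⟩,
    gradA_unit ((isUnit_rres _ inf_le_left (H.inf j).le).pow _) h1⟩

theorem Ev.pull_of_mem (H : Ev γ ℓ ev) (hgen : Algebra.adjoin ℂ (Set.range x) = ⊤)
    (hs : ∀ y, y ∉ lin 𝒜 x ℓ → Full K y) {d : ℕ} {f : ι → MvPolynomial σ ℂ} (hf : f ∈ V σ ι d)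
    (h : Mem K _ (ev f)) : f ∈ γ.pull K := by
  refine fun j => T.so_range_loc _ (gradA_inj hx hgen K) (γ.ev j f) fun y hy => ?_
  by_cases hl : y ∈ lin 𝒜 x ℓ
  · refine ⟨_ ⊓ lin 𝒜 x ℓ, inf_le_left, ⟨hy, hl⟩, ?_⟩
    rw [H.trans d f hf j _ inf_le_left inf_le_right]
    exact gradA_smul _ (gradA_res inf_le_right h)
  · obtain ⟨W, hW, k⟩ := hs y hl
    exact ⟨_ ⊓ W, inf_le_left, ⟨hy, hW⟩, k _ inf_le_right _⟩

/-- if the multiplication by `ℓ` is onto in one degree, the quotient is supported off `ℓ = 0` -/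
theorem Ev.full (H : Ev γ ℓ ev) (hgen : Algebra.adjoin ℂ (Set.range x) = ⊤)
    (hℓ : ℓ.IsHomogeneous 1) {d : ℕ}
    (h : ∀ f ∈ V σ ι (d + 1), ∃ g ∈ V σ ι d, f - ℓ • g ∈ γ.pull K) :
    (∀ y, y ∉ lin 𝒜 x ℓ → Full K y) ∧
      ∀ e, ∀ f ∈ V σ ι (d + e), ∃ g ∈ V σ ι d, f - ℓ ^ e • g ∈ γ.pull K := by
  refine ⟨fun y hy => ?_, fun e => ?_⟩
  · obtain ⟨j, hj⟩ := gradA_chart hx hgen y
    have fg : (⊤ : Submodule _ Γ(G.obj, Proj.basicOpen 𝒜 (x j))).FG :=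
      γ.span j ▸ Submodule.fg_span (Set.finite_range _)
    obtain ⟨r, hr, hr'⟩ := Submodule.exists_sub_one_mem_and_smul_le_of_fg_of_le_sup
      (I := Ideal.span {T.dehom hx j ℓ}) (N := gradAS K _) (P := ⊤) fg le_rfl fun m _ => by
        obtain ⟨k, rfl⟩ := γ.ev_surj hgen j m
        obtain ⟨D, hD⟩ := γ.ev_homog j (K := ⊤) (fun _ _ _ => trivial) (k := k) trivial
        obtain ⟨g, hg, -, e⟩ := hD (d + D + 1) (by omega)
        obtain ⟨g', -, hg'⟩ := gradA_step h D g hg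
        have h1 : γ.ev j (g - ℓ • g') ∈ gradAS K _ := hg' j
        rw [map_sub, γ.ev_smul, e] at h1
        rw [← sub_add_cancel (γ.ev j k) (T.dehom hx j ℓ • γ.ev j g')]
        exact Submodule.add_mem_sup h1
          (Submodule.smul_mem_smul (Ideal.mem_span_singleton_self _) trivial)
    exact gradA_full (gradA_inj hx hgen K) (T.chart_aff hx j) r
      (fun m => hr' (Submodule.smul_mem_pointwise_smul m r ⊤ trivial))
      (gradA_pt hr hj fun k => hy ((H.inf j).ge k).2)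
  · induction e with
    | zero => exact fun f hf => ⟨f, hf, by simp⟩
    | succ e ih =>
      intro f hf
      obtain ⟨g, hg, h1⟩ := gradA_step h e f hf
      obtain ⟨g', hg', h2⟩ := ih g hg
      refine ⟨g', hg', ?_⟩
      have := add_mem h1 (Submodule.smul_mem _ ℓ h2)
      rwa [smul_sub, sub_add_sub_cancel, smul_smul, ← pow_succ'] at this

theorem KChart.mem_iff {X : Scheme.{0}} {sX : X ⟶ SC} {G : T.St.Coh X} {K : Subobject G}
    {U : X.Opens} {β : Fin n → Γ(G.obj, U)} {c : Γ(G.obj, U) → Fin n → kk}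
    (C : KChart sX K U β c) (m : Γ(G.obj, U)) (r : Fin n → kk) :
    Mem K U (m - ∑ i, cst sX U (r i) • β i) ↔ c m = r := by
  refine ⟨fun h => sub_eq_zero.1 (C.ind _ ?_), fun h => h ▸ C.eq m⟩
  have := gradA_sub h (C.eq m)
  rw [sub_sub_sub_cancel_left, ← Finset.sum_sub_distrib] at this
  simpa only [Pi.sub_apply, map_sub, sub_smul] using this

end Pool.Agent.Lib.MP_d4c0ca_ag.Q
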