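import Pool.Agent.Lib.MP_d4c0ca_ag.Q.Set
import Pool.Agent.Lib.MP_d4c0ca_ag.Q.Epi
import Pool.Agent.Lib.MP_d4c0ca_ag.T.Len

/-! Coherent sheaves of finite length and their sections. -/

set_option autoImplicit false

namespace Pool.Agent.Lib.MP_d4c0ca_ag.Q

open CategoryTheory AlgebraicGeometry Opposite TopologicalSpace Scheme.Modules
open Pool.Agent.Lib.MP_cd184e_ag.B

variable {X : Scheme.{0}} {𝒰 : Set X.Opens} {M : X.Modules} {n : ℕ}

theorem Atlas.cover [CompactSpace X] (A : Atlas X 𝒰) {U : X.Opens} (hU : U ∈ 𝒰) :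
    ∃ (σ : Type) (_ : Finite σ) (W : σ → X.Opens) (j : σ), W j = U ∧ (∀ l, W l ∈ 𝒰) ∧
      iSup W = ⊤ := by
  choose V hV hx using fun x : X => A.fin {x} (Set.finite_singleton x)
  obtain ⟨t, ht⟩ := isCompact_univ.elim_finite_subcover (fun x : X => (V x : Set X))
    (fun x => (V x).isOpen) fun x _ => Set.mem_iUnion.2 ⟨x, hx x rfl⟩
  refine ⟨Option t, inferInstance, fun o => o.elim U fun x => V x, none, rfl, ?_, ?_⟩
  · rintro (_ | x)
    · exact hU
    · exact hV x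
  · refine top_le_iff.1 fun y _ => ?_
    obtain ⟨x, hx, hy⟩ := Set.mem_iUnion₂.1 (ht (Set.mem_univ y))
    exact Opens.mem_iSup.2 ⟨some ⟨x, hx⟩, hy⟩

theorem lenA_loc {U W : X.Opens} (hU : IsAffineOpen U) (hL : LocAt M U) (h : W ≤ U)
    {g : Γ(X, U)} (e : W = X.basicOpen g) {P : Submodule Γ(X, U) Γ(M, U)} {t : Γ(M, U)}
    (ht : mres M h t ∈ T.soS h P) : ∃ N : ℕ, g ^ N • t ∈ P := by
  obtain ⟨k, p, hp, ep⟩ := (T.mem_soS hU h e).1 ht
  obtain ⟨l, hl⟩ := hL.un g W h e (g ^ k • t - p) (by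
    rw [map_sub, mres_smul, ep, map_pow, sub_self])
  rw [smul_sub, sub_eq_zero, ← mul_smul, ← pow_add] at hl
  exact ⟨_, hl ▸ P.smul_mem _ hp⟩

theorem lenA_le {U U' W : X.Opens} (h : W ≤ U) (h' : W ≤ U') {P : Submodule Γ(X, U) Γ(M, U)}
    {P' : Submodule Γ(X, U') Γ(M, U')} (H : ∀ p ∈ P, mres M h p ∈ T.soS h' P') :
    T.soS h P ≤ T.soS h' P' :=
  Submodule.span_le.2 (by
    rintro _ ⟨p, hp, rfl⟩
    exact H p hp)

theorem lenA_mem {U W : X.Opens} (h : W ≤ U) {P : Submodule Γ(X, U) Γ(M, U)} {p : Γ(M, U)}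
    (hp : p ∈ P) : mres M h p ∈ T.soS h P := Submodule.subset_span ⟨p, hp, rfl⟩

/-- the sections over `W` that lie in `P` on the intersection with `U` -/
noncomputable def lenAExt {U : X.Opens} (P : Submodule Γ(X, U) Γ(M, U)) (W : X.Opens) :
    Submodule Γ(X, W) Γ(M, W) where
  carrier := {s | mres M (inf_le_left : W ⊓ U ≤ W) s ∈ T.soS (inf_le_right : W ⊓ U ≤ U) P}
  zero_mem' := by
    change mres M _ 0 ∈ T.soS _ P
    rw [map_zero]
    exact zero_mem _
  add_mem' := fun {a b} ha hb => by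
    change mres M _ (a + b) ∈ T.soS _ P
    rw [map_add]
    exact add_mem ha hb
  smul_mem' := fun r s hs => by
    change mres M _ (r • s) ∈ T.soS _ P
    rw [mres_smul]
    exact Submodule.smul_mem _ _ hs

theorem lenA_mem_ext {U W : X.Opens} {P : Submodule Γ(X, U) Γ(M, U)} {s : Γ(M, W)} :
    s ∈ lenAExt P W ↔
      mres M (inf_le_left : W ⊓ U ≤ W) s ∈ T.soS (inf_le_right : W ⊓ U ≤ U) P := Iff.rfl

theorem lenA_ext_self {U : X.Opens} (hU : IsAffineOpen U) (hL : LocAt M U)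
    (P : Submodule Γ(X, U) Γ(M, U)) : lenAExt P U = P := by
  refine Submodule.ext fun s => ⟨fun hs => ?_, fun hs => lenA_mem _ hs⟩
  obtain ⟨N, hN⟩ := lenA_loc hU hL (g := 1) (inf_le_right : U ⊓ U ≤ U)
    ((inf_idem U).trans X.basicOpen_one.symm) hs
  rwa [one_pow, one_smul] at hN

theorem lenA_ext_mono {U : X.Opens} {P P' : Submodule Γ(X, U) Γ(M, U)} (h : P ≤ P')
    (W : X.Opens) : lenAExt P W ≤ lenAExt P' W := fun _ hs =>
  lenA_le _ _ (fun _ hp => lenA_mem _ (h hp)) hs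

theorem lenA_ext_compat (A : Atlas X 𝒰) (hM : M.IsFinitePresentation) {U W W' : X.Opens}
    (hU : U ∈ 𝒰) (hW : W ∈ 𝒰) (hW' : W' ∈ 𝒰) (P : Submodule Γ(X, U) Γ(M, U)) {s : Γ(M, W)}
    (hs : s ∈ lenAExt P W) : mres M (inf_le_left : W ⊓ W' ≤ W) s ∈
      T.soS (inf_le_right : W ⊓ W' ≤ W') (lenAExt P W') := by
  obtain ⟨g, hg⟩ := A.basic hW' (A.inf _ hW _ hW') inf_le_right
  obtain ⟨k, t, ht⟩ := (locAt_of_fp hM (A.aff _ hW')).ex g _ inf_le_right hg
    (mres M (inf_le_left : W ⊓ W' ≤ W) s)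
  have aV := A.aff _ (A.inf _ hW' _ hU)
  have l1 : (W ⊓ W') ⊓ U ≤ W' ⊓ U := inf_le_inf_right _ inf_le_right
  have l2 : (W ⊓ W') ⊓ U ≤ W ⊓ U := inf_le_inf_right _ inf_le_left
  have e1 : (W ⊓ W') ⊓ U = X.basicOpen (rres (inf_le_left : W' ⊓ U ≤ W') g) := by
    rw [rres_def, X.basicOpen_res, ← hg]
    refine le_antisymm (le_inf l1 inf_le_left) (le_inf inf_le_right ?_)
    exact inf_le_left.trans inf_le_right
  have h1 : mres M l1 (mres M (inf_le_left : W' ⊓ U ≤ W') t) ∈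
      T.soS l1 (T.soS (inf_le_right : W' ⊓ U ≤ U) P) := by
    refine lenA_le (inf_le_right : (W ⊓ W') ⊓ U ≤ U) l1 (P := P) (fun p hp => ?_) ?_
    · have := lenA_mem l1 (lenA_mem (inf_le_right : W' ⊓ U ≤ U) hp)
      rwa [mres_mres] at this
    · have h2 := congrArg (mres M (inf_le_left : (W ⊓ W') ⊓ U ≤ W ⊓ W')) ht
      rw [mres_mres, mres_smul, mres_mres] at h2
      rw [mres_mres, h2]
      refine Submodule.smul_mem _ _ ?_
      have := T.soS_res _ l2 (lenA_mem_ext.1 hs)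
      rwa [mres_mres] at this
  obtain ⟨N, hN⟩ := lenA_loc aV (locAt_of_fp hM aV) l1 e1 h1
  refine (T.mem_soS (A.aff _ hW') _ hg).2 ⟨N + k, g ^ N • t, ?_, ?_⟩
  · rw [lenA_mem_ext, mres_smul, map_pow]
    exact hN
  · rw [mres_smul, ht, map_pow, pow_add, mul_smul]

theorem lenA_pt {U : X.Opens} (hU : IsAffineOpen U) (p : Spec Γ(X, U)) (a : Γ(X, U)) :
    hU.fromSpec p ∈ X.basicOpen a ↔ a ∉ p.asIdeal := by
  have : p ∈ hU.fromSpec ⁻¹ᵁ X.basicOpen a ↔ a ∉ p.asIdeal := by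
    rw [hU.fromSpec_preimage_basicOpen]
    rfl
  exact this

theorem lenA_ext_eq (A : Atlas X 𝒰) (hM : M.IsFinitePresentation) {U W : X.Opens}
    (hU : U ∈ 𝒰) (hW : W ∈ 𝒰) (hs : ∀ x : X, x ∉ U → Van M x)
    {P : Submodule Γ(X, U) Γ(M, U)} {P' : Submodule Γ(X, W) Γ(M, W)}
    (h1 : ∀ s ∈ P', mres M (inf_le_left : W ⊓ U ≤ W) s ∈ T.soS (inf_le_right : W ⊓ U ≤ U) P)
    (h2 : ∀ s ∈ P, mres M (inf_le_left : U ⊓ W ≤ U) s ∈ T.soS (inf_le_right : U ⊓ W ≤ W) P') :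
    lenAExt P W = P' := by
  refine le_antisymm (fun s h => ?_) h1
  have aW := A.aff _ hW
  obtain ⟨g, hg⟩ := A.basic hW (A.inf _ hW _ hU) inf_le_left
  obtain ⟨N, hN⟩ := lenA_loc aW (locAt_of_fp hM aW) inf_le_left hg (P := P') (t := s)
    (lenA_le (inf_le_right : W ⊓ U ≤ U) _ (fun p hp => by
      have := T.soS_res _ (inf_comm W U).le (h2 p hp)
      rwa [mres_mres] at this) h)
  have : P'.comap (LinearMap.toSpanSingleton Γ(X, W) _ s) = ⊤ := by
    by_contra hne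
    obtain ⟨m, hm, hle⟩ := Ideal.exists_le_maximal _ hne
    let p : Spec Γ(X, W) := ⟨m, hm.isPrime⟩
    have hy : aW.fromSpec p ∈ W := by
      have : aW.fromSpec p ∈ (W : Set X) := aW.range_fromSpec ▸ Set.mem_range_self p
      exact this
    by_cases hu : aW.fromSpec p ∈ U
    · refine (lenA_pt aW p g).1 (hg ▸ (⟨hy, hu⟩ : aW.fromSpec p ∈ W ⊓ U)) ?_
      exact hm.isPrime.mem_of_pow_mem N (hle hN)
    · obtain ⟨a, ha, h0⟩ := exists_ann aW hM hy (hs _ hu)
      refine (lenA_pt aW p a).1 ha (hle ?_)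
      change a • s ∈ P'
      rw [h0]
      exact zero_mem _
  have h3 : (1 : Γ(X, W)) ∈ P'.comap (LinearMap.toSpanSingleton Γ(X, W) _ s) := by
    rw [this]
    trivial
  exact one_smul Γ(X, W) s ▸ h3

/-- extension of submodules as an order embedding -/
theorem lenA_emb [IsLocallyNoetherian X] (A : Atlas X 𝒰) (hM : M.IsFinitePresentation)
    {σ : Type} [Finite σ] {W : σ → X.Opens} (hW : ∀ l, W l ∈ 𝒰) (hc : iSup W = ⊤) (j : σ) :
    ∃ e : Submodule Γ(X, W j) Γ(M, W j) ↪o Subobject (⟨M, hM⟩ : T.St.Coh X),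
      (∀ x : X, x ∉ W j → Van M x) → Function.Surjective e := by
  obtain ⟨Ψ, -⟩ := T.exists_csub (⟨M, hM⟩ : CohCat X) W (fun l => A.aff _ (hW l)) hc
    (fun j l => A.basic (hW j) (A.inf _ (hW j) _ (hW l)) inf_le_left)
    fun l => IsLocallyNoetherian.component_noetherian ⟨W l, A.aff _ (hW l)⟩
  let f : Submodule Γ(X, W j) Γ(M, W j) → T.CSub (⟨M, hM⟩ : CohCat X) W := fun P =>
    ⟨fun l => lenAExt P (W l), fun l l' s hs => lenA_ext_compat A hM (hW j) (hW l) (hW l') P hs⟩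
  have aj := A.aff _ (hW j)
  have hf : ∀ P P', f P ≤ f P' ↔ P ≤ P' := fun P P' => ⟨fun h => by
    have : lenAExt P (W j) ≤ lenAExt P' (W j) := h j
    rwa [lenA_ext_self aj (locAt_of_fp hM aj), lenA_ext_self aj (locAt_of_fp hM aj)] at this,
    fun h l => lenA_ext_mono h (W l)⟩
  refine ⟨(OrderEmbedding.ofMapLEIff f hf).trans Ψ.symm.toOrderEmbedding, fun hs => ?_⟩
  refine Ψ.symm.surjective.comp fun Q => ⟨Q.1 j, Subtype.ext (funext fun l => ?_)⟩
  exact lenA_ext_eq A hM (hW j) (hW l) hs (Q.2 l j) (Q.2 j l)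

/-- the length of a sheaf supported in an affine open set -/
theorem hasLength_iff [CompactSpace X] [IsLocallyNoetherian X] (A : Atlas X 𝒰)
    (hM : M.IsFinitePresentation) {U : X.Opens} (hU : U ∈ 𝒰) (hs : ∀ x : X, x ∉ U → Van M x) :
    HasLength M n ↔ Module.length Γ(X, U) Γ(M, U) = n := by
  obtain ⟨σ, _, W, j, rfl, hW, hc⟩ := A.cover hU
  obtain ⟨e, he⟩ := lenA_emb A hM hW hc j
  have h := Order.height_orderIso (RelIso.ofSurjective e (he hs)) ⊤
  rw [OrderIso.map_top] at h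
  rw [Module.length_eq_height, ← h]
  exact ⟨fun ⟨_, H⟩ => H, fun H => ⟨hM, H⟩⟩

theorem lenA_primes {R N : Type} [CommRing R] [AddCommGroup N] [Module R N]
    (h : IsFiniteLength R N) :
    {p : PrimeSpectrum R | Module.annihilator R N ≤ p.asIdeal}.Finite := by
  induction h with
  | @of_subsingleton N _ _ _ =>
    refine Set.finite_empty.subset fun p hp => p.isPrime.ne_top ((Ideal.eq_top_iff_one _).2 (hp ?_))
    exact Module.mem_annihilator.2 fun m => Subsingleton.elim _ _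
  | @of_simple_quotient N _ _ P _ _ ih =>
    have hm := IsSimpleModule.annihilator_isMaximal (R := R) (M := N ⧸ P)
    refine (ih.insert ⟨_, hm.isPrime⟩).subset fun p hp => ?_
    have : Module.annihilator R (N ⧸ P) * Module.annihilator R P ≤ p.asIdeal := by
      refine Ideal.mul_le.2 fun a ha b hb => hp (Module.mem_annihilator.2 fun m => ?_)
      have h1 : a • m ∈ P := (Submodule.Quotient.mk_eq_zero P).1
        (Module.mem_annihilator.1 ha (Submodule.Quotient.mk m))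
      have h2 := congrArg Subtype.val (Module.mem_annihilator.1 hb ⟨_, h1⟩)
      rw [mul_comm, mul_smul]
      exact h2
    rcases p.isPrime.mul_le.1 this with h | h
    · exact Or.inl (PrimeSpectrum.ext (hm.eq_of_le p.isPrime.ne_top h).symm)
    · exact Or.inr h

theorem HasLength.finite [CompactSpace X] [IsLocallyNoetherian X] (A : Atlas X 𝒰)
    (h : HasLength M n) : {x : X | ¬ Van M x}.Finite := by
  obtain ⟨hM, h⟩ := h
  obtain ⟨U, hU, -⟩ := A.fin ∅ Set.finite_empty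
  obtain ⟨σ, _, W, -, -, hW, hc⟩ := A.cover hU
  have key : ∀ j, {p : PrimeSpectrum Γ(X, W j) |
      Module.annihilator Γ(X, W j) Γ(M, W j) ≤ p.asIdeal}.Finite := fun j => by
    obtain ⟨e, -⟩ := lenA_emb A hM hW hc j
    refine lenA_primes (Module.length_ne_top_iff.1 (ne_top_of_le_ne_top (ENat.natCast_ne_top n) ?_))
    rw [Module.length_eq_height, ← h]
    exact (Order.height_le_height_apply_of_strictMono e e.strictMono ⊤).trans
      (Order.height_mono le_top)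
  refine (Set.finite_iUnion fun j => (key j).image fun p => (A.aff _ (hW j)).fromSpec p).subset
    fun y hy => ?_
  obtain ⟨j, hj⟩ : ∃ j, y ∈ W j := Opens.mem_iSup.1 (by rw [hc]; trivial)
  have aj := A.aff _ (hW j)
  obtain ⟨p, rfl⟩ : y ∈ Set.range aj.fromSpec := aj.range_fromSpec ▸ hj
  refine Set.mem_iUnion.2 ⟨j, p, fun a ha => ?_, rfl⟩
  by_contra hp
  exact hy (van_of_affine aj (locAt_of_fp hM aj) a (Module.mem_annihilator.1 ha)
    ((lenA_pt aj p a).2 hp))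

end Pool.Agent.Lib.MP_d4c0ca_ag.Q
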