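import Pool.Agent.Lib.MP_d4c0ca_ag.Q.Alg

/-! Extension of coordinates to localisations and change of basis. -/

set_option autoImplicit false

namespace Pool.Agent.Lib.MP_d4c0ca_ag.Q

open Matrix

variable {k A M R A' M' : Type} [CommRing k] [CommRing A] [AddCommGroup M] [Module A M]
  [CommRing R] [CommRing A'] [AddCommGroup M'] [Module A' M'] {n : ℕ}
  {κ : k →+* A} {κ' : k →+* A'} {ν : k →+* R} {B : Set (Fin n → M)}
  {c : (Fin n → M) → M → Fin n → R} {β : Fin n → M} {h : A} {r : A →+* A'} {s : M →+ M'}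

theorem loc_cancel {U : Matrix (Fin n) (Fin n) R} (hU : IsUnit U) {v w : Fin n → R}
    (e : U *ᵥ v = U *ᵥ w) : v = w := by
  obtain ⟨u, rfl⟩ := hU
  simpa [mulVec_mulVec] using congrArg ((u⁻¹).1 *ᵥ ·) e

theorem Coord.loc_add (H : Coord κ ν B c) (hβ : β ∈ B) (m m' : M) :
    c β (m + m') = c β m + c β m' := funext (H.add β hβ m m')

/-- coordinates extend to the localisation when `h` acts invertibly -/
theorem Coord.extend (H : Coord κ ν B c) (hβ : β ∈ B) (L : LocData h r s)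
    (hr : ∀ z, r (κ z) = κ' z) (hu : IsUnit (H.mu hβ h).det) :
    ∃ c' : M' → Fin n → R, Coord κ' ν {s ∘ β} (fun _ => c') ∧ ∀ m, c' (s m) = c β m := by
  have U : ∀ N : ℕ, IsUnit (H.mu hβ (h ^ N)) := fun N => by
    rw [map_pow]; exact ((isUnit_iff_isUnit_det _).2 hu).pow N
  have com : ∀ (a b : A) v, H.mu hβ a *ᵥ H.mu hβ b *ᵥ v = H.mu hβ b *ᵥ H.mu hβ a *ᵥ v :=
    fun a b v => by rw [mulVec_mulVec, mulVec_mulVec, ← map_mul, ← map_mul, mul_comm]
  have wd : ∀ m m' : M, s m = s m' → c β m = c β m' := fun m m' e => by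
    obtain ⟨N, hN⟩ := L.injM (m - m') (by rw [map_sub, e, sub_self])
    refine loc_cancel (U N) ?_
    rw [smul_sub, sub_eq_zero] at hN
    rw [← H.smul_eq, ← H.smul_eq, hN]
  choose N₀ m₀ h₀ using L.surjM
  obtain ⟨c', hc⟩ : ∃ c' : M' → Fin n → R, ∀ m', H.mu hβ (h ^ N₀ m') *ᵥ c' m' = c β (m₀ m') :=
    ⟨fun m' => (U (N₀ m')).unit⁻¹.1 *ᵥ c β (m₀ m'), fun m' => by
      rw [mulVec_mulVec, IsUnit.mul_val_inv, one_mulVec]⟩
  have spec : ∀ (N : ℕ) m m', s m = r h ^ N • m' → H.mu hβ (h ^ N) *ᵥ c' m' = c β m :=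
    fun N m m' e => loc_cancel (U (N₀ m')) (by
      rw [com, hc, ← H.smul_eq, ← H.smul_eq]
      refine wd _ _ ?_
      rw [L.smul, L.smul, e, h₀, map_pow, map_pow, smul_comm])
  have hs : ∀ m, c' (s m) = c β m := fun m => by simpa using spec 0 m (s m) (by simp)
  have sm : ∀ (a : A) m', c' (r a • m') = H.mu hβ a *ᵥ c' m' := fun a m' =>
    loc_cancel (U (N₀ m')) (by
      rw [com, hc, ← H.smul_eq]
      exact spec _ _ _ (by rw [L.smul, h₀, smul_comm]))
  refine ⟨c', ⟨fun _ _ m m' => congrFun (loc_cancel (U (N₀ m + N₀ m')) (w := c' m + c' m') ?_),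
    fun _ _ z m i => ?_, ?_, ?_⟩, hs⟩
  · rw [spec _ (h ^ N₀ m' • m₀ m + h ^ N₀ m • m₀ m') _ (by
      rw [map_add, L.smul, L.smul, h₀, h₀, map_pow, map_pow, smul_smul, smul_smul, ← pow_add,
        ← pow_add, add_comm (N₀ m'), smul_add]), H.loc_add hβ, H.smul_eq hβ, H.smul_eq hβ, ← hc, ← hc,
      mulVec_add, pow_add, map_mul, ← mulVec_mulVec, ← mulVec_mulVec, com]
  · rw [← hr, sm, H.mu_const]
    simp [mulVec_diagonal]
  · rintro _ rfl j i
    rw [Function.comp_apply, hs, H.bas β hβ]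
  · rintro _ rfl _ rfl a m i
    obtain ⟨K, b, e⟩ := L.surjA a
    have q : ∀ m, H.mu hβ (h ^ K) *ᵥ c' (a • m) = H.mu hβ b *ᵥ c' m := fun m => by
      rw [← sm, ← sm, smul_smul, map_pow, e]
    have W : H.mu hβ (h ^ K) * (Matrix.of fun i j => c' (a • s (β j)) i) = H.mu hβ b := by
      ext i j
      have := congrFun (q (s (β j))) i
      rw [hs, ← H.smul_eq] at this
      exact this
    have := loc_cancel (U K) ((q m).trans (by rw [← W, ← mulVec_mulVec]))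
    rw [this]
    simp only [mulVec, dotProduct, of_apply, Function.comp_apply, mul_comm]

/-- the extension is unique -/
theorem Coord.ext_loc {B₁ B₂ : Set (Fin n → M')} {c₁ c₂ : (Fin n → M') → M' → Fin n → R}
    {ν' : k →+* R} (H₁ : Coord κ' ν B₁ c₁) (H₂ : Coord κ' ν' B₂ c₂) (L : LocData h r s)
    (h₁ : s ∘ β ∈ B₁) (h₂ : s ∘ β ∈ B₂) (e : ∀ m, c₁ (s ∘ β) (s m) = c₂ (s ∘ β) (s m)) :
    c₁ (s ∘ β) = c₂ (s ∘ β) := by
  funext m'
  obtain ⟨N, m, hm⟩ := L.surjM m'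
  have u : H₁.mu h₁ (r h ^ N) = H₂.mu h₂ (r h ^ N) := by
    ext i j
    rw [Coord.mu_apply, Coord.mu_apply, Function.comp_apply, ← map_pow, ← L.smul, e]
  refine loc_cancel ((L.unit.pow N).map (H₁.mu h₁)) ?_
  rw [← H₁.smul_eq, u, ← H₂.smul_eq, ← hm, e]

/-- coordinates in further bases -/
theorem Coord.change (H : Coord κ ν B c) (hβ : β ∈ B) (B' : Set (Fin n → M))
    (hB' : ∀ β' ∈ B', IsUnit (trm c β' β).det) :
    ∃ c' : (Fin n → M) → M → Fin n → R, Coord κ ν B' c' ∧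
      ∀ β' ∈ B', ∀ m, trm c β' β *ᵥ c' β' m = c β m := by
  have t : ∀ β' ∈ B', ∀ v, trm c β' β *ᵥ (trm c β' β)⁻¹ *ᵥ v = v := fun β' h v => by
    rw [mulVec_mulVec, mul_nonsing_inv _ (hB' β' h), one_mulVec]
  refine ⟨fun β' m => (trm c β' β)⁻¹ *ᵥ c β m, ⟨fun β' _ m m' i => ?_, fun β' _ z m i => ?_,
    fun β' h j i => ?_, fun β₁ h₁ β₂ _ a m i => ?_⟩, fun β' h m => t β' h _⟩
  · rw [H.loc_add hβ, mulVec_add, Pi.add_apply]
  · rw [show c β (κ z • m) = ν z • c β m from funext (H.const β hβ z m), mulVec_smul]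
    rfl
  · have := congrFun (congrFun (nonsing_inv_mul _ (hB' β' h)) i) j
    rw [one_apply] at this
    exact this
  · have e : c β m = ∑ j, ((trm c β₁ β)⁻¹ *ᵥ c β m) j • c β (β₁ j) := by
      funext k
      refine (congrFun (t β₁ h₁ (c β m)) k).symm.trans ?_
      generalize (trm c β₁ β)⁻¹ *ᵥ c β m = v
      simp only [mulVec, dotProduct, trm, of_apply, Finset.sum_apply, Pi.smul_apply, smul_eq_mul,
        mul_comm]
    simp only [H.smul_eq hβ]
    conv_lhs => rw [e]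
    simp only [mulVec_sum, mulVec_smul, Finset.sum_apply, Pi.smul_apply, smul_eq_mul]

end Pool.Agent.Lib.MP_d4c0ca_ag.Q
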