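import Pool.Agent.Lib.MP_d4c0ca_ag.Q.Grad
import Pool.Agent.Lib.MP_d4c0ca_ag.Q.Fib
import Pool.Agent.Lib.MP_d4c0ca_ag.T.Bridge

/-! Assembly. -/

set_option autoImplicit false

namespace Pool.Agent.Lib.MP_d4c0ca_ag.Q

open CategoryTheory AlgebraicGeometry Opposite TopologicalSpace Scheme.Modules
open Pool.Agent.Lib.MP_cd184e_ag.B

open MvPolynomial Filter Topology

theorem main_homeo {A B : Type} [TopologicalSpace A] [TopologicalSpace B] [T2Space B]
    [CompactSpace A] (e : A ≃ₜ B) :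
    (T.FinType (TopCat.of B) → T.FinType (TopCat.of A)) ∧
      T.eulerChar (TopCat.of A) = T.eulerChar (TopCat.of B) := by
  have := e.symm.t2Space
  have := e.compactSpace
  have h : ∀ i, T.H (TopCat.of A) i ≃ₗ[ℚ] T.H (TopCat.of B) i := fun i =>
    (nonempty_linearEquiv_of_rank_eq (by
      rw [T.H_rank, T.H_rank, T.hc_homeo (j := e) (r := e.symm) (Set.mapsTo_univ _ _)
        e.continuous.continuousOn (Set.mapsTo_univ _ _) e.symm.continuous.continuousOn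
        (fun _ _ => e.symm_apply_apply _) fun _ _ => e.apply_symm_apply _])).some
  refine ⟨fun ⟨h1, h2⟩ => ⟨fun i => Module.Finite.equiv (h i).symm, h2.subset fun i hi => ?_⟩, ?_⟩
  · exact (h i).toEquiv.nontrivial_congr.1 hi
  · exact finsum_congr fun i => by rw [(h i).finrank_eq]

variable {S : Type} [CommRing S] [IsDomain S] [Algebra ℂ S] {𝒜 : ℕ → Submodule ℂ S}
  [GradedAlgebra 𝒜] {N : ℕ} {x : Fin (N + 1) → S}

theorem final (hx : ∀ l, x l ∈ 𝒜 1) (hgen : Algebra.adjoin ℂ (Set.range x) = ⊤)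
    [SmoothOfRelativeDimension 3 (T.St.strMap 𝒜)] {F G : T.St.Coh (AlgebraicGeometry.Proj 𝒜)}
    (hF : T.St.TorsionFree F.obj) (hG : T.St.IsExt1 F.obj G.obj) :
    (∀ n, ∃ (Q : Scheme.{0}) (s : Q ⟶ Spec (.of ℂ)) (ξ : Family (T.St.strMap 𝒜) G.obj n s),
      Universal ξ) ∧
    ∀ (Q : ℕ → Scheme.{0}) (s : ∀ n, Q n ⟶ Spec (.of ℂ))
      (ξ : ∀ n, Family (T.St.strMap 𝒜) G.obj n (s n)), (∀ n, Universal (ξ n)) →
      (∀ n, CompactSpace (an (s n)) ∧ T.FinType (an (s n))) ∧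
        ∃ P R : Polynomial ℚ, R.coeff 0 ≠ 0 ∧ (R : PowerSeries ℚ) *
          PowerSeries.mk (fun n => (T.eulerChar (an (s n)) : ℚ)) = P := by
  have := universallyClosed_strMap hx hgen
  have : Smooth (T.St.strMap 𝒜) := SmoothOfRelativeDimension.smooth 3 _
  have A := atlas_hyp hx hgen
  refine ⟨fun n => exists_universal A G n, fun Q s ξ H => ?_⟩
  have : SmoothOfRelativeDimension 3 (Pool.Agent.Lib.MP_cd184e_ag.B.strMap 𝒜) :=
    ‹SmoothOfRelativeDimension 3 (T.St.strMap 𝒜)›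
  obtain ⟨r, ⟨γ⟩⟩ := T.exists_gens hx G
  obtain ⟨h1, h2⟩ := T.final hgen (F := F) hF hG γ (· + 1) Nat.lt_succ_self
  have key : ∀ n, CompactSpace (an (s n)) ∧ Nonempty (Pts (s n) ≃ₜ γ.quot n (n + 1)) := by
    intro n
    obtain ⟨κ, hκ⟩ := (H n).param A
    have hc : CompactSpace (Pts (s n)) := hκ.compact hgen γ
    have hm : ∀ t, κ t ∈ T.St.QuotSet G n := fun t => hκ.range ▸ Set.mem_range_self t
    let f : Pts (s n) → γ.quot n (n + 1) := fun t => ⟨_, κ t, hm t, rfl⟩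
    have hf : Function.Bijective f := ⟨fun t t' e =>
      hκ.inj ((h1 n).1 (hm t) (hm t') (congrArg Subtype.val e)), by
        rintro ⟨_, K, hK, rfl⟩
        obtain ⟨t, rfl⟩ := hκ.range.ge hK
        exact ⟨t, rfl⟩⟩
    exact ⟨hc, ⟨Continuous.homeoOfEquivCompactToT2 (f := Equiv.ofBijective f hf)
      ((hκ.continuous hgen γ n.lt_succ_self).subtype_mk _)⟩⟩
  have := fun n => (key n).1
  refine ⟨fun n => ⟨(key n).1, (main_homeo (key n).2.some).1 (h1 n).2.2⟩, ?_⟩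
  rwa [show (fun n => (T.eulerChar (an (s n)) : ℚ)) = _ from
    funext fun n => congrArg _ (main_homeo (key n).2.some).2]

end Pool.Agent.Lib.MP_d4c0ca_ag.Q
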