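import Pool.Agent.Lib.MP_d4c0ca_ag.Q.Defs
import Pool.Agent.Lib.MP_d4c0ca_ag.T.SubObj
import Pool.Agent.Lib.MP_cd184e_ag.B.Push

/-! Inverse images of functions and sections; charts of families. -/

set_option autoImplicit false

namespace Pool.Agent.Lib.MP_d4c0ca_ag.Q

open CategoryTheory AlgebraicGeometry Opposite TopologicalSpace Scheme.Modules
open Pool.Agent.Lib.MP_cd184e_ag.B

noncomputable section

/-- the base point -/
abbrev SC : Scheme.{0} := Spec (.of ℂ)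

/-- the constants -/
abbrev kk : Type := Γ(SC, ⊤)

/-- constants as complex numbers -/
def toC : kk ≃+* ℂ := (Scheme.ΓSpecIso (.of ℂ)).commRingCatIsoToRingEquiv

variable {X T Y Y' Y'' : Scheme.{0}}

/-- inverse image of functions -/
def ap (g : Y' ⟶ Y) {W : Y.Opens} {W' : Y'.Opens} (h : W' ≤ g ⁻¹ᵁ W) : Γ(Y, W) →+* Γ(Y', W') :=
  (g.appLE W W' h).hom

/-- constant functions -/
def cst (s : T ⟶ SC) (V : T.Opens) : kk →+* Γ(T, V) := ap s (le_top : V ≤ s ⁻¹ᵁ ⊤)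

theorem rres_ap (g : Y' ⟶ Y) {W : Y.Opens} {W' W'' : Y'.Opens} (h : W' ≤ g ⁻¹ᵁ W) (h' : W'' ≤ W')
    (a : Γ(Y, W)) : rres h' (ap g h a) = ap g (h'.trans h) a :=
  congr($(g.appLE_map h (homOfLE h').op) a)

theorem ap_rres (g : Y' ⟶ Y) {W₀ W : Y.Opens} {W' : Y'.Opens} (h₀ : W ≤ W₀) (h : W' ≤ g ⁻¹ᵁ W)
    (a : Γ(Y, W₀)) : ap g h (rres h₀ a) = ap g (h.trans (g.preimage_mono h₀)) a :=
  congr($(g.map_appLE h (homOfLE h₀).op) a)

theorem ap_ap (g' : Y'' ⟶ Y') (g : Y' ⟶ Y) {k : Y'' ⟶ Y} (e : g' ≫ g = k) {W : Y.Opens}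
    {W' : Y'.Opens} {W'' : Y''.Opens} (h : W' ≤ g ⁻¹ᵁ W) (h' : W'' ≤ g' ⁻¹ᵁ W')
    (h'' : W'' ≤ k ⁻¹ᵁ W) (a : Γ(Y, W)) : ap g' h' (ap g h a) = ap k h'' a := by
  subst e
  exact congr($(Scheme.Hom.appLE_comp_appLE g' g W W' W'' h h') a)

theorem ap_id {W W' : Y.Opens} (h : W' ≤ (𝟙 Y : Y ⟶ Y) ⁻¹ᵁ W) (a : Γ(Y, W)) :
    ap (𝟙 Y) h a = rres h a := rfl

theorem rres_cst (s : T ⟶ SC) {V V' : T.Opens} (h : V' ≤ V) (z : kk) :
    rres h (cst s V z) = cst s V' z := rres_ap _ _ _ _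

theorem ap_cst (g : Y ⟶ T) (s : T ⟶ SC) {k : Y ⟶ SC} (e : g ≫ s = k) {V : T.Opens} {W : Y.Opens}
    (h : W ≤ g ⁻¹ᵁ V) (z : kk) : ap g h (cst s V z) = cst k W z := ap_ap g s e _ _ _ z

theorem cst_id (z : kk) : cst (𝟙 SC) ⊤ z = z := rres_self le_rfl z

theorem mem_basicOpen_ap (g : Y' ⟶ Y) {W : Y.Opens} {W' : Y'.Opens} (h : W' ≤ g ⁻¹ᵁ W)
    (a : Γ(Y, W)) {y : Y'} : y ∈ Y'.basicOpen (ap g h a) ↔ y ∈ W' ∧ g y ∈ Y.basicOpen a := by
  have := Scheme.basicOpen_appLE g W' W h a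
  exact (congrArg (y ∈ ·) this).to_iff

/-- inverse image of sections -/
def pb (g : Y' ⟶ Y) (M : Y.Modules) {W : Y.Opens} {W' : Y'.Opens} (h : W' ≤ g ⁻¹ᵁ W) :
    Γ(M, W) →+ Γ((pullback g).obj M, W') :=
  (mres ((pullback g).obj M) h).comp (((pullbackPushforwardAdjunction g).unit.app M).app W).hom

variable (g : Y' ⟶ Y) {M N : Y.Modules} {W₀ W : Y.Opens} {W' W'' : Y'.Opens}

theorem pb_def (h : W' ≤ g ⁻¹ᵁ W) (s : Γ(M, W)) : pb g M h s =
    mres ((pullback g).obj M) h (((pullbackPushforwardAdjunction g).unit.app M).app W s) := rfl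

theorem pb_smul (h : W' ≤ g ⁻¹ᵁ W) (a : Γ(Y, W)) (s : Γ(M, W)) :
    pb g M h (a • s) = ap g h a • pb g M h s := by
  rw [pb_def, Scheme.Modules.Hom.app_smul]
  exact mres_smul ((pullback g).obj M) h (g.app W a) _

theorem mres_pb (h : W' ≤ g ⁻¹ᵁ W) (h' : W'' ≤ W') (s : Γ(M, W)) :
    mres _ h' (pb g M h s) = pb g M (h'.trans h) s := mres_mres _ _ _ _

theorem pb_mres (h₀ : W ≤ W₀) (h : W' ≤ g ⁻¹ᵁ W) (s : Γ(M, W₀)) :
    pb g M h (mres M h₀ s) = pb g M (h.trans (g.preimage_mono h₀)) s := by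
  exact (congrArg (mres ((pullback g).obj M) h)
    (mres_app ((pullbackPushforwardAdjunction g).unit.app M) h₀ s).symm).trans
    (mres_mres ((pullback g).obj M) (g.preimage_mono h₀) h _)

theorem map_pb (φ : M ⟶ N) (h : W' ≤ g ⁻¹ᵁ W) (s : Γ(M, W)) :
    ((pullback g).map φ).app W' (pb g M h s) = pb g N h (φ.app W s) := by
  rw [pb_def, ← mres_app, pb_def]
  congr 1
  exact congr(($((pullbackPushforwardAdjunction g).unit.naturality φ)).app W s).symm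

/-- the value of the adjoint morphism -/
theorem homEquiv_app {P : Y'.Modules} (φ : (pullback g).obj M ⟶ P) (s : Γ(M, W)) :
    ((pullbackPushforwardAdjunction g).homEquiv M P φ).app W s =
      φ.app (g ⁻¹ᵁ W) (pb g M le_rfl s) := by
  rw [pb_def, mres_self]
  rfl

theorem pb_ext {P : Y'.Modules} {φ ψ : (pullback g).obj M ⟶ P}
    (h : ∀ W s, φ.app (g ⁻¹ᵁ W) (pb g M le_rfl s) = ψ.app (g ⁻¹ᵁ W) (pb g M le_rfl s)) : φ = ψ :=
  ((pullbackPushforwardAdjunction g).homEquiv M P).injective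
    (Scheme.Modules.hom_ext _ _ fun W => by
      ext s
      exact (homEquiv_app g φ s).trans ((h W s).trans (homEquiv_app g ψ s).symm))

theorem comp_pb_inv (g' : Y'' ⟶ Y') {V : Y''.Opens} (h : W' ≤ g ⁻¹ᵁ W) (h' : V ≤ g' ⁻¹ᵁ W')
    (h'' : V ≤ (g' ≫ g) ⁻¹ᵁ W) (s : Γ(M, W)) :
    ((pullbackComp g' g).inv.app M).app V (pb (g' ≫ g) M h'' s) = pb g' _ h' (pb g M h s) := by
  have e := unit_conjugateEquiv
    ((pullbackPushforwardAdjunction g).comp (pullbackPushforwardAdjunction g'))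
    (pullbackPushforwardAdjunction (g' ≫ g)) (pullbackComp g' g).inv M
  rw [conjugateEquiv_pullbackComp_inv, Adjunction.comp_unit_app] at e
  have e' : ((pullbackPushforwardAdjunction g').unit.app ((pullback g).obj M)).app (g ⁻¹ᵁ W)
      (((pullbackPushforwardAdjunction g).unit.app M).app W s) =
      ((pullbackComp g' g).inv.app M).app ((g' ≫ g) ⁻¹ᵁ W)
        (((pullbackPushforwardAdjunction (g' ≫ g)).unit.app M).app W s) := congr(($e).app W s)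
  rw [pb_def g h, pb_mres, pb_def, pb_def, ← mres_app, ← e']
  rfl

theorem comp_pb (g' : Y'' ⟶ Y') {V : Y''.Opens} (h : W' ≤ g ⁻¹ᵁ W) (h' : V ≤ g' ⁻¹ᵁ W')
    (h'' : V ≤ (g' ≫ g) ⁻¹ᵁ W) (s : Γ(M, W)) :
    ((pullbackComp g' g).hom.app M).app V (pb g' _ h' (pb g M h s)) = pb (g' ≫ g) M h'' s := by
  rw [← comp_pb_inv g g' h h' h'']
  exact congr(($((pullbackComp g' g).inv_hom_id_app M)).app V _)

theorem congr_pb {g' : Y' ⟶ Y} (e : g = g') (h : W' ≤ g ⁻¹ᵁ W) (h' : W' ≤ g' ⁻¹ᵁ W)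
    (s : Γ(M, W)) : ((pullbackCongr e).hom.app M).app W' (pb g M h s) = pb g' M h' s := by
  subst e
  rfl

theorem congr_pb_inv {g' : Y' ⟶ Y} (e : g = g') (h : W' ≤ g ⁻¹ᵁ W) (h' : W' ≤ g' ⁻¹ᵁ W)
    (s : Γ(M, W)) : ((pullbackCongr e).inv.app M).app W' (pb g' M h' s) = pb g M h s := by
  subst e
  rfl

theorem id_pb {W W' : Y.Opens} (h : W' ≤ (𝟙 Y : Y ⟶ Y) ⁻¹ᵁ W) (s : Γ(M, W)) :
    ((pullbackId Y).hom.app M).app W' (pb (𝟙 Y) M h s) = mres M h s := by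
  have e := unit_conjugateEquiv Adjunction.id (pullbackPushforwardAdjunction (𝟙 Y))
    (pullbackId Y).hom M
  rw [conjugateEquiv_pullbackId_hom] at e
  have e' : s = ((pullbackId Y).hom.app M).app W
      (((pullbackPushforwardAdjunction (𝟙 Y)).unit.app M).app W s) := congr(($e).app W s)
  rw [pb_def, ← mres_app]
  exact congrArg _ e'.symm

variable {g} {p : Y ⟶ X} {p' : Y' ⟶ X} {G : X.Modules} {E : Y.Modules} {E' : Y'.Modules}

/-- the image in `E` of a section of `G` -/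
def th (q : (pullback p).obj G ⟶ E) {U : X.Opens} {W : Y.Opens} (h : W ≤ p ⁻¹ᵁ U) :
    Γ(G, U) →+ Γ(E, W) := (q.app W).hom.comp (pb p G h)

theorem th_def (q : (pullback p).obj G ⟶ E) {U : X.Opens} (h : W ≤ p ⁻¹ᵁ U) (m : Γ(G, U)) :
    th q h m = q.app W (pb p G h m) := rfl

theorem th_smul (q : (pullback p).obj G ⟶ E) {U : X.Opens} (h : W ≤ p ⁻¹ᵁ U) (a : Γ(X, U))
    (m : Γ(G, U)) : th q h (a • m) = ap p h a • th q h m := by
  rw [th_def, pb_smul, Scheme.Modules.Hom.app_smul, th_def]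

theorem mres_th (q : (pullback p).obj G ⟶ E) {U : X.Opens} (h : W₀ ≤ p ⁻¹ᵁ U) (h' : W ≤ W₀)
    (m : Γ(G, U)) : mres E h' (th q h m) = th q (h'.trans h) m := by
  rw [th_def, mres_app, mres_pb, th_def]

theorem th_mres (q : (pullback p).obj G ⟶ E) {U U' : X.Opens} (h₀ : U' ≤ U) (h : W ≤ p ⁻¹ᵁ U')
    (m : Γ(G, U)) : th q h (mres G h₀ m) = th q (h.trans (p.preimage_mono h₀)) m := by
  rw [th_def, pb_mres, th_def]

/-- `e` is compatible with the quotient maps -/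
def Cmp (g : Y' ⟶ Y) (q : (pullback p).obj G ⟶ E) (q' : (pullback p').obj G ⟶ E')
    (e : (pullback g).obj E ≅ E') : Prop :=
  ∀ (U : X.Opens) (W : Y.Opens) (W' : Y'.Opens) (h : W ≤ p ⁻¹ᵁ U) (h' : W' ≤ g ⁻¹ᵁ W)
    (h'' : W' ≤ p' ⁻¹ᵁ U) (m : Γ(G, U)), e.hom.app W' (pb g E h' (th q h m)) = th q' h'' m

theorem cmp_iff (hg : g ≫ p = p') (q : (pullback p).obj G ⟶ E) (q' : (pullback p').obj G ⟶ E')
    (e : (pullback g).obj E ≅ E') : (pullback g).map q ≫ e.hom =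
      (pullbackComp g p).hom.app G ≫ (pullbackCongr hg).hom.app G ≫ q' ↔ Cmp g q q' e := by
  subst hg
  have key : ∀ (U : X.Opens) (W : Y.Opens) (W' : Y'.Opens) (h : W ≤ p ⁻¹ᵁ U) (h' : W' ≤ g ⁻¹ᵁ W)
      (h'' : W' ≤ (g ≫ p) ⁻¹ᵁ U) (m : Γ(G, U)),
      ((pullback g).map q ≫ e.hom).app W' (pb g _ h' (pb p G h m)) =
        e.hom.app W' (pb g E h' (th q h m)) ∧
      ((pullbackComp g p).hom.app G ≫ (pullbackCongr rfl).hom.app G ≫ q').app W'
        (pb g _ h' (pb p G h m)) = th q' h'' m := fun U W W' h h' h'' m =>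
    ⟨congrArg (e.hom.app W') (map_pb g q h' _),
      congrArg (q'.app W') ((congrArg _ (comp_pb p g h h' h'' m)).trans (congr_pb _ rfl h'' h'' m))⟩
  refine ⟨fun H U W W' h h' h'' m => ?_, fun H => ?_⟩
  · rw [← (key U W W' h h' h'' m).1, H, (key U W W' h h' h'' m).2]
  · rw [← cancel_epi ((pullbackComp g p).inv.app G)]
    refine pb_ext (g ≫ p) fun U m => ?_
    have e1 := comp_pb_inv p g (M := G) (W := U) le_rfl le_rfl le_rfl m
    refine (congrArg (((pullback g).map q ≫ e.hom).app _) e1).trans (Eq.trans ?_ (congrArg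
      (((pullbackComp g p).hom.app G ≫ (pullbackCongr rfl).hom.app G ≫ q').app _) e1).symm)
    rw [(key U _ _ le_rfl le_rfl le_rfl m).1, (key U _ _ le_rfl le_rfl le_rfl m).2]
    exact H _ _ _ _ _ _ _

/-- the inverse image of a quotient map -/
def pullq (g : Y' ⟶ Y) (hg : g ≫ p = p') (q : (pullback p).obj G ⟶ E) :
    (pullback p').obj G ⟶ (pullback g).obj E :=
  (pullbackCongr hg).inv.app G ≫ (pullbackComp g p).inv.app G ≫ (pullback g).map q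

theorem cmp_pullq (hg : g ≫ p = p') (q : (pullback p).obj G ⟶ E) :
    Cmp g q (pullq g hg q) (Iso.refl _) :=
  (cmp_iff hg _ _ _).1 (by simp [pullq])

theorem epi_pullq (hg : g ≫ p = p') (q : (pullback p).obj G ⟶ E) [Epi q] : Epi (pullq g hg q) := by
  unfold pullq
  exact epi_comp _ _

theorem cmp_id (q : (pullback p).obj G ⟶ E) : Cmp (𝟙 Y) q q ((pullbackId Y).app E) :=
  fun _ _ _ h h' _ m => (id_pb h' _).trans (mres_th q h h' m)

theorem Cmp.comp {p'' : Y'' ⟶ X} {E'' : Y''.Modules} {g' : Y'' ⟶ Y'} (hg : g ≫ p = p')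
    {q : (pullback p).obj G ⟶ E} {q' : (pullback p').obj G ⟶ E'} {q'' : (pullback p'').obj G ⟶ E''}
    {e : (pullback g).obj E ≅ E'} {e' : (pullback g').obj E' ≅ E''} (H : Cmp g q q' e)
    (H' : Cmp g' q' q'' e') : Cmp (g' ≫ g) q q''
      ((pullbackComp g' g).symm.app E ≪≫ (pullback g').mapIso e ≪≫ e') := by
  subst hg
  intro U W W'' h h' h'' m
  have e1 := comp_pb_inv g g' (M := E) (W := W) le_rfl h' h' (th q h m)
  refine (congrArg (fun z => e'.hom.app W'' (((pullback g').map e.hom).app W'' z)) e1).trans ?_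
  rw [map_pb, H U W _ h le_rfl (g.preimage_mono h) m]
  exact H' _ _ _ _ _ _ _

/-- `E` vanishes near `y` -/
def Van (E : Y.Modules) (y : Y) : Prop :=
  ∃ W : Y.Opens, y ∈ W ∧ ∀ W' ≤ W, ∀ s : Γ(E, W'), s = 0

theorem locAt_of_fp (h : M.IsFinitePresentation) (hW : IsAffineOpen W) : LocAt M W :=
  T.so_locAt ⟨M, h⟩ hW

theorem van_of_affine (hW : IsAffineOpen W) (hL : LocAt M W) (a : Γ(Y, W))
    (h : ∀ s : Γ(M, W), a • s = 0) {y : Y} (hy : y ∈ Y.basicOpen a) : Van M y := by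
  refine ⟨_, hy, fun W' hW' s => sec_ext M _ _ fun x hx => ?_⟩
  obtain ⟨b, hb, hxb⟩ := hW.exists_basicOpen_le (V := W') ⟨x, hx⟩ (Y.basicOpen_le a (hW' hx))
  obtain ⟨n, t, ht⟩ := hL.ex b _ (Y.basicOpen_le b) rfl (mres M hb s)
  refine ⟨_, hb, hxb, ?_⟩
  have h1 := congrArg (mres M (Y.basicOpen_le b)) (h t)
  rw [mres_smul, ht, map_zero] at h1
  rw [map_zero]
  refine smul_cancel ((isUnit_rres b (Y.basicOpen_le b) le_rfl).pow n) (smul_cancel
    (isUnit_rres a (Y.basicOpen_le b) (hb.trans hW')) ?_)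
  rw [h1, smul_zero, smul_zero]

/-- the product of two open sets -/
abbrev box (p : Y ⟶ X) (π : Y ⟶ T) (U : X.Opens) (V : T.Opens) : Y.Opens := p ⁻¹ᵁ U ⊓ π ⁻¹ᵁ V

/-- functions on the first factor -/
abbrev apa (p : Y ⟶ X) (π : Y ⟶ T) (U : X.Opens) (V : T.Opens) : Γ(X, U) →+* Γ(Y, box p π U V) :=
  ap p inf_le_left

/-- functions on the second factor -/
abbrev apb (p : Y ⟶ X) (π : Y ⟶ T) (U : X.Opens) (V : T.Opens) : Γ(T, V) →+* Γ(Y, box p π U V) :=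
  ap π inf_le_right

/-- sections of `G` as sections of `E` on a product -/
abbrev thb (π : Y ⟶ T) (q : (pullback p).obj G ⟶ E) (U : X.Opens) (V : T.Opens) :
    Γ(G, U) →+ Γ(E, box p π U V) := th q inf_le_left

/-- a finitely presented quotient on a fibre product -/
structure Good (sX : X ⟶ SC) (sT : T ⟶ SC) (π : Y ⟶ T) (q : (pullback p).obj G ⟶ E) : Prop where
  sq : IsPullback p π sX sT
  epi : Epi q
  fp : E.IsFinitePresentation

/-- over `V` the quotient is supported in `U`, and free with basis `β` and coordinates `c` -/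
structure InChart {n : ℕ} (π : Y ⟶ T) (q : (pullback p).obj G ⟶ E) (V : T.Opens) (U : X.Opens)
    (β : Fin n → Γ(G, U)) (c : Γ(G, U) → Fin n → Γ(T, V)) : Prop where
  supp : ∀ y : Y, π y ∈ V → p y ∉ U → Van E y
  eq : ∀ m, thb π q U V m = ∑ i, apb p π U V (c m i) • thb π q U V (β i)
  ind : ∀ r : Fin n → Γ(T, V), ∑ i, apb p π U V (r i) • thb π q U V (β i) = 0 → r = 0

/-- a system of affine open sets as on a projective scheme -/
structure Atlas (X : Scheme.{0}) (𝒰 : Set X.Opens) : Prop where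
  aff : ∀ U ∈ 𝒰, IsAffineOpen U
  inf : ∀ U ∈ 𝒰, ∀ U' ∈ 𝒰, U ⊓ U' ∈ 𝒰
  bas : ∀ U ∈ 𝒰, ∀ U' ∈ 𝒰, ∃ (h : Γ(X, U)) (h' : Γ(X, U')), U ⊓ U' = X.basicOpen h ∧
    U ⊓ U' = X.basicOpen h' ∧
      rres (inf_le_left : U ⊓ U' ≤ U) h * rres (inf_le_right : U ⊓ U' ≤ U') h' = 1
  fin : ∀ s : Set X, s.Finite → ∃ U ∈ 𝒰, s ⊆ U

end

end Pool.Agent.Lib.MP_d4c0ca_ag.Q
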