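import Pool.Agent.Lib.MP_d4c0ca_ag.Q.Sec
import Pool.Agent.Lib.MP_d4c0ca_ag.Q.Alg

/-! The index category of the charts, and charts of subsheaves. -/

set_option autoImplicit false

namespace Pool.Agent.Lib.MP_d4c0ca_ag.Q

open CategoryTheory AlgebraicGeometry Opposite TopologicalSpace Scheme.Modules
open Pool.Agent.Lib.MP_cd184e_ag.B

variable {X Q : Scheme.{0}}

/-- an affine open set with finitely many tuples of sections -/
structure Idx (G : X.Modules) (𝒰 : Set X.Opens) (n : ℕ) where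
  U : X.Opens
  mem : U ∈ 𝒰
  B : Set (Fin n → Γ(G, U))
  fin : B.Finite
  ne : B.Nonempty

variable {G : X.Modules} {𝒰 : Set X.Opens} {n : ℕ}

/-- inclusion of charts -/
def Idx.Le (l α : Idx G 𝒰 n) : Prop := ∃ h : l.U ≤ α.U, ∀ β ∈ α.B, mres G h ∘ β ∈ l.B

theorem Idx.Le.refl (α : Idx G 𝒰 n) : α.Le α :=
  ⟨le_rfl, fun β hβ => by rwa [show mres G le_rfl ∘ β = β from funext fun _ => mres_self _ _ _]⟩

theorem Idx.Le.trans {a b c : Idx G 𝒰 n} (h : a.Le b) (h' : b.Le c) : a.Le c :=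
  ⟨h.1.trans h'.1, fun β hβ => by
    have := h.2 _ (h'.2 β hβ)
    rwa [show mres G h.1 ∘ mres G h'.1 ∘ β = mres G (h.1.trans h'.1) ∘ β from
      funext fun _ => mres_mres _ _ _ _] at this⟩

/-- intersection of charts -/
def Idx.meet (A : Atlas X 𝒰) (α α' : Idx G 𝒰 n) : Idx G 𝒰 n where
  U := α.U ⊓ α'.U
  mem := A.inf _ α.mem _ α'.mem
  B := (fun γ => mres G inf_le_left ∘ γ) '' α.B ∪ (fun γ => mres G inf_le_right ∘ γ) '' α'.B
  fin := (α.fin.image _).union (α'.fin.image _)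
  ne := (α.ne.image _).inl

theorem Idx.meet_left (A : Atlas X 𝒰) (α α' : Idx G 𝒰 n) : (α.meet A α').Le α :=
  ⟨inf_le_left, fun β hβ => Or.inl ⟨β, hβ, rfl⟩⟩

theorem Idx.meet_right (A : Atlas X 𝒰) (α α' : Idx G 𝒰 n) : (α.meet A α').Le α' :=
  ⟨inf_le_right, fun β hβ => Or.inr ⟨β, hβ, rfl⟩⟩

theorem Idx.le_meet (A : Atlas X 𝒰) {l α α' : Idx G 𝒰 n} (h : l.Le α) (h' : l.Le α') :
    l.Le (α.meet A α') :=
  ⟨le_inf h.1 h'.1, by
    rintro _ (⟨β, hβ, rfl⟩ | ⟨β, hβ, rfl⟩)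
    · have := h.2 β hβ
      rwa [show mres G h.1 ∘ β = mres G (le_inf h.1 h'.1) ∘ mres G inf_le_left ∘ β from
        funext fun _ => (mres_mres _ _ _ _).symm] at this
    · have := h'.2 β hβ
      rwa [show mres G h'.1 ∘ β = mres G (le_inf h.1 h'.1) ∘ mres G inf_le_right ∘ β from
        funext fun _ => (mres_mres _ _ _ _).symm] at this⟩

theorem Atlas.basic (A : Atlas X 𝒰) {U U' : X.Opens} (hU : U ∈ 𝒰) (hU' : U' ∈ 𝒰) (h : U' ≤ U) :
    ∃ a : Γ(X, U), U' = X.basicOpen a :=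
  let ⟨a, _, e, _⟩ := A.bas U hU U' hU'; ⟨a, (inf_eq_right.2 h).symm.trans e⟩

/-- a scheme covered by the spectra of the rings of universal coordinates -/
structure Base (sX : X ⟶ SC) (A : Atlas X 𝒰) (s : Q ⟶ SC) (V : Idx G 𝒰 n → Q.Opens)
    (u : ∀ α : Idx G 𝒰 n, (Fin n → Γ(G, α.U)) → Γ(G, α.U) → Fin n → Γ(Q, V α)) : Prop where
  lft : LocallyOfFiniteType s
  aff : ∀ α, IsAffineOpen (V α)
  cover : iSup V = ⊤
  mono : ∀ {l α}, l.Le α → V l ≤ V α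
  inf : ∀ α α', V α ⊓ V α' ≤ V (α.meet A α')
  bas : ∀ {l α}, l.Le α → ∃ d : Γ(Q, V α), V l = Q.basicOpen d
  univ : ∀ α, IsUniv (cst sX α.U) (cst s (V α)) α.B (u α)
  res : ∀ {l α} (h : l.Le α), ∀ β ∈ α.B, ∀ m i,
    rres (mono h) (u α β m i) = u l (mres G h.1 ∘ β) (mres G h.1 m) i

variable {G₀ : T.St.Coh X}

/-- `m` is a section of the subsheaf `K` -/
def Mem (K : Subobject G₀) (W : X.Opens) (m : Γ(G₀.obj, W)) : Prop :=
  ∃ s, K.arrow.hom.app W s = m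

/-- `K` is the kernel of `q` -/
def IsKer (K : Subobject G₀) {M : X.Modules} (q : (pullback (𝟙 X)).obj G₀.obj ⟶ M) : Prop :=
  ∀ (W : X.Opens) (m : Γ(G₀.obj, W)), Mem K W m ↔ th q (le_rfl : W ≤ (𝟙 X : X ⟶ X) ⁻¹ᵁ W) m = 0

/-- `K` is everything near `x` -/
def Full (K : Subobject G₀) (x : X) : Prop :=
  ∃ W : X.Opens, x ∈ W ∧ ∀ W' ≤ W, ∀ m, Mem K W' m

/-- the quotient by `K` is supported in `U` and has basis `β` with coordinates `c` -/
structure KChart (sX : X ⟶ SC) (K : Subobject G₀) (U : X.Opens) (β : Fin n → Γ(G₀.obj, U))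
    (c : Γ(G₀.obj, U) → Fin n → kk) : Prop where
  supp : ∀ x : X, x ∉ U → Full K x
  eq : ∀ m, Mem K U (m - ∑ i, cst sX U (c m i) • β i)
  ind : ∀ r : Fin n → kk, Mem K U (∑ i, cst sX U (r i) • β i) → r = 0

/-- complex points -/
abbrev Pts (s : Q ⟶ SC) : Type := an s

/-- a parametrisation of the quotients of length `n` by a space, continuous in both directions for
the coordinates of the charts -/
structure Param (sX : X ⟶ SC) (𝒰 : Set X.Opens) (n : ℕ) {P : Type} [TopologicalSpace P]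
    (κ : P → Subobject G₀) : Prop where
  inj : Function.Injective κ
  range : Set.range κ = T.St.QuotSet G₀ n
  cont : ∀ t₀, ∀ U ∈ 𝒰, (∀ x : X, x ∉ U → Full (κ t₀) x) →
    ∃ (β : Fin n → Γ(G₀.obj, U)) (c : P → Γ(G₀.obj, U) → Fin n → kk),
      KChart sX (κ t₀) U β (c t₀) ∧ (∀ᶠ t in nhds t₀, KChart sX (κ t) U β (c t)) ∧
        ∀ m i, Filter.Tendsto (fun t => toC (c t m i)) (nhds t₀) (nhds (toC (c t₀ m i)))
  inv : ∀ (F : Filter P) (t₀ : P), ∀ U ∈ 𝒰, ∀ (β : Fin n → Γ(G₀.obj, U))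
    (c : P → Γ(G₀.obj, U) → Fin n → kk) (c₀ : Γ(G₀.obj, U) → Fin n → kk),
    KChart sX (κ t₀) U β c₀ → (∀ᶠ t in F, KChart sX (κ t) U β (c t)) →
      (∀ m i, Filter.Tendsto (fun t => toC (c t m i)) F (nhds (toC (c₀ m i)))) → F ≤ nhds t₀

end Pool.Agent.Lib.MP_d4c0ca_ag.Q
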